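import Mathlib

/-!
Weak (barycentric) transport inequalities in dual form: `T⁻` implies `T⁺`.
-/

namespace Pool.Agent.V11128.Weak

open MeasureTheory Real Set

set_option linter.unusedSectionVars false

variable {E : Type*} [NormedAddCommGroup E] [NormedSpace ℝ E]

/-- inf-convolution of `f` with the cost `a² |x-y|²` -/
noncomputable def Q (a : ℝ) (f : E → ℝ) (x : E) : ℝ := ⨅ y, (f y + a ^ 2 * ‖x - y‖ ^ 2)

/-- largest `L`-Lipschitz minorant -/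
noncomputable def Lp (L : ℝ) (f : E → ℝ) (x : E) : ℝ := ⨅ y, (f y + L * ‖x - y‖)

theorem bddQ {f : E → ℝ} (hb : BddBelow (range f)) (a : ℝ) (x : E) :
    BddBelow (range fun y => f y + a ^ 2 * ‖x - y‖ ^ 2) := by
  obtain ⟨c, hc⟩ := hb
  refine ⟨c, ?_⟩
  rintro _ ⟨y, rfl⟩
  have h1 : c ≤ f y := hc ⟨y, rfl⟩
  have h2 : 0 ≤ a ^ 2 * ‖x - y‖ ^ 2 := by positivity
  simp only
  linarith

theorem bddL {f : E → ℝ} (hb : BddBelow (range f)) {L : ℝ} (hL : 0 ≤ L) (x : E) :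
    BddBelow (range fun y => f y + L * ‖x - y‖) := by
  obtain ⟨c, hc⟩ := hb
  refine ⟨c, ?_⟩
  rintro _ ⟨y, rfl⟩
  have h1 : c ≤ f y := hc ⟨y, rfl⟩
  have h2 : 0 ≤ L * ‖x - y‖ := by positivity
  simp only
  linarith

theorem Q_le {f : E → ℝ} (hb : BddBelow (range f)) (a : ℝ) (x y : E) :
    Q a f x ≤ f y + a ^ 2 * ‖x - y‖ ^ 2 := ciInf_le (bddQ hb a x) y

theorem Lp_le {f : E → ℝ} (hb : BddBelow (range f)) {L : ℝ} (hL : 0 ≤ L) (x y : E) :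
    Lp L f x ≤ f y + L * ‖x - y‖ := ciInf_le (bddL hb hL x) y

theorem le_Q {f : E → ℝ} {a c : ℝ} {x : E} (h : ∀ y, c ≤ f y + a ^ 2 * ‖x - y‖ ^ 2) :
    c ≤ Q a f x := le_ciInf h

theorem le_Lp {f : E → ℝ} {L c : ℝ} {x : E} (h : ∀ y, c ≤ f y + L * ‖x - y‖) :
    c ≤ Lp L f x := le_ciInf h

theorem exists_Q {f : E → ℝ} (a : ℝ) (x : E) {ε : ℝ} (hε : 0 < ε) :
    ∃ y, f y + a ^ 2 * ‖x - y‖ ^ 2 < Q a f x + ε :=
  exists_lt_of_ciInf_lt (lt_add_of_pos_right _ hε)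

theorem exists_Lp {f : E → ℝ} (L : ℝ) (x : E) {ε : ℝ} (hε : 0 < ε) :
    ∃ y, f y + L * ‖x - y‖ < Lp L f x + ε :=
  exists_lt_of_ciInf_lt (lt_add_of_pos_right _ hε)

theorem Q_le_self {f : E → ℝ} (hb : BddBelow (range f)) (a : ℝ) (x : E) : Q a f x ≤ f x := by
  have := Q_le hb a x x
  simpa using this

theorem Lp_le_self {f : E → ℝ} (hb : BddBelow (range f)) {L : ℝ} (hL : 0 ≤ L) (x : E) :
    Lp L f x ≤ f x := by
  have := Lp_le hb hL x x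
  simpa using this

theorem bdd_Q {f : E → ℝ} (hb : BddBelow (range f)) (a : ℝ) : BddBelow (range (Q a f)) := by
  obtain ⟨c, hc⟩ := hb
  refine ⟨c, ?_⟩
  rintro _ ⟨x, rfl⟩
  refine le_Q fun y => ?_
  have h1 : c ≤ f y := hc ⟨y, rfl⟩
  have h2 : 0 ≤ a ^ 2 * ‖x - y‖ ^ 2 := by positivity
  linarith

theorem bdd_Lp {f : E → ℝ} (hb : BddBelow (range f)) {L : ℝ} (hL : 0 ≤ L) :
    BddBelow (range (Lp L f)) := by
  obtain ⟨c, hc⟩ := hb
  refine ⟨c, ?_⟩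
  rintro _ ⟨x, rfl⟩
  refine le_Lp fun y => ?_
  have h1 : c ≤ f y := hc ⟨y, rfl⟩
  have h2 : 0 ≤ L * ‖x - y‖ := by positivity
  linarith

/-- Lipschitz property, one-sided form -/
def Lipsch (L : ℝ) (f : E → ℝ) : Prop := ∀ x y, f x ≤ f y + L * ‖x - y‖

theorem Lp_lipsch {f : E → ℝ} (hb : BddBelow (range f)) {L : ℝ} (hL : 0 ≤ L) :
    Lipsch L (Lp L f) := by
  intro x y
  rw [← sub_le_iff_le_add]
  refine le_Lp fun z => ?_
  have h1 := Lp_le hb hL x z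
  have h2 : ‖x - z‖ ≤ ‖x - y‖ + ‖y - z‖ := norm_sub_le_norm_sub_add_norm_sub x y z
  nlinarith

theorem Q_lipsch {f : E → ℝ} (hb : BddBelow (range f)) {L : ℝ} (hf : Lipsch L f) (a : ℝ) :
    Lipsch L (Q a f) := by
  intro x y
  rw [← sub_le_iff_le_add]
  refine le_Q fun w => ?_
  have h1 := Q_le hb a x (w + (x - y))
  have h2 := hf (w + (x - y)) w
  have e1 : x - (w + (x - y)) = y - w := by abel
  have e2 : w + (x - y) - w = x - y := by abel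
  rw [e1] at h1
  rw [e2] at h2
  linarith

theorem Lipsch.continuous {L : ℝ} {f : E → ℝ} (hf : Lipsch L f) : Continuous f := by
  have : LipschitzWith (Real.toNNReal L) f := by
    refine LipschitzWith.of_le_add_mul' L ?_
    intro x y
    rw [dist_eq_norm]
    exact hf x y
  exact this.continuous

theorem Q_ge_of_lipsch {f : E → ℝ} {L a : ℝ} (ha : 0 < a) (hf : Lipsch L f) (x : E) :
    f x - L ^ 2 / (4 * a ^ 2) ≤ Q a f x := by
  refine le_Q fun y => ?_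
  have h1 := hf x y
  have h2 : 0 ≤ (a * ‖x - y‖ - L / (2 * a)) ^ 2 := sq_nonneg _
  have h3 : (a * ‖x - y‖ - L / (2 * a)) ^ 2 =
      a ^ 2 * ‖x - y‖ ^ 2 - L * ‖x - y‖ + L ^ 2 / (4 * a ^ 2) := by
    field_simp
    ring
  linarith

/-- the minorant is convex -/
theorem Lp_convex {f : E → ℝ} (hf : ConvexOn ℝ univ f) (hb : BddBelow (range f)) {L : ℝ}
    (hL : 0 ≤ L) : ConvexOn ℝ univ (Lp L f) := by
  refine ⟨convex_univ, ?_⟩
  intro x _ y _ s t hs ht hst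
  refine le_of_forall_pos_le_add fun ε hε => ?_
  obtain ⟨z, hz⟩ := exists_Lp (f := f) L x hε
  obtain ⟨w, hw⟩ := exists_Lp (f := f) L y hε
  have h1 := Lp_le hb hL (s • x + t • y) (s • z + t • w)
  have h2 := hf.2 (mem_univ z) (mem_univ w) hs ht hst
  have h3 : ‖s • x + t • y - (s • z + t • w)‖ ≤ s * ‖x - z‖ + t * ‖y - w‖ := by
    have e : s • x + t • y - (s • z + t • w) = s • (x - z) + t • (y - w) := by
      rw [smul_sub, smul_sub]; abel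
    rw [e]
    refine (norm_add_le _ _).trans ?_
    rw [norm_smul, norm_smul, Real.norm_of_nonneg hs, Real.norm_of_nonneg ht]
  simp only [smul_eq_mul] at h2 ⊢
  have h4 : s * (f z + L * ‖x - z‖) ≤ s * (Lp L f x + ε) :=
    mul_le_mul_of_nonneg_left hz.le hs
  have h5 : t * (f w + L * ‖y - w‖) ≤ t * (Lp L f y + ε) :=
    mul_le_mul_of_nonneg_left hw.le ht
  have h6 : L * ‖s • x + t • y - (s • z + t • w)‖ ≤ L * (s * ‖x - z‖ + t * ‖y - w‖) :=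
    mul_le_mul_of_nonneg_left h3 hL
  have h7 : s * (Lp L f x + ε) + t * (Lp L f y + ε) = s * Lp L f x + t * Lp L f y + ε := by
    have : s * (Lp L f x + ε) + t * (Lp L f y + ε) =
      s * Lp L f x + t * Lp L f y + (s + t) * ε := by ring
    rw [this, hst, one_mul]
  nlinarith

theorem Q_shift {f : E → ℝ} (hb : BddBelow (range f)) (a c : ℝ) (x : E) :
    Q a (fun y => f y + c) x = Q a f x + c := by
  have hb' : BddBelow (range fun y => f y + c) := by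
    obtain ⟨b, hb⟩ := hb
    refine ⟨b + c, ?_⟩
    rintro _ ⟨y, rfl⟩
    have : b ≤ f y := hb ⟨y, rfl⟩
    simp only
    linarith
  apply le_antisymm
  · rw [← sub_le_iff_le_add]
    refine le_Q fun y => ?_
    have := Q_le hb' a x y
    linarith
  · refine le_Q fun y => ?_
    have := Q_le hb a x y
    linarith

/-- joint near-minimisers for the iterated regularisation -/
theorem exists_joint {f : E → ℝ} (L a : ℝ) (x : E) {ε : ℝ} (hε : 0 < ε) :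
    ∃ p z, f z + L * ‖p - z‖ + a ^ 2 * ‖x - p‖ ^ 2 < Q a (Lp L f) x + ε := by
  obtain ⟨p, hp⟩ := exists_Q (f := Lp L f) a x (half_pos hε)
  obtain ⟨z, hz⟩ := exists_Lp (f := f) L p (half_pos hε)
  exact ⟨p, z, by linarith⟩

/-- the linear weight -/
def ell (B : ℝ) (x : E) : ℝ := 2 * ‖x‖ + 2 * B

/-- pointwise comparison in the case of small total variation -/
theorem pointwiseA {f : E → ℝ} (hb : BddBelow (range f)) {L a₁ a₂ S B m : ℝ} (ha₁ : 0 < a₁)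
    (hL : 0 < L) (hL2 : 2 * L ≤ a₁ ^ 2) (hS : 0 ≤ S) (hSL : 4 * a₁ * S ≤ L / 2)
    (ha₂ : 2 * a₂ ^ 2 ≤ a₁ ^ 2) (hB : 0 ≤ B)
    (hlow : ∀ z, m - Lp L f z ≤ 2 * a₁ * S * ell B z) (x : E) :
    Q a₂ f x ≤ Q a₁ (Lp L f) x + 24 * a₂ ^ 2 / L ^ 2 *
      (max (Lp L f x - m) 0 ^ 2 + 4 * a₁ ^ 2 * S ^ 2 * (ell B x + 2) ^ 2) := by
  set φ := Lp L f with hφ
  set Y := max (φ x - m) 0 with hY
  set q := Q a₁ φ x with hq
  have hY0 : 0 ≤ Y := le_max_right _ _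
  have hYX : φ x - m ≤ Y := le_max_left _ _
  have hqx : q ≤ φ x := Q_le_self (bdd_Lp hb hL.le) a₁ x
  have key : ∀ ε : ℝ, 0 < ε → ε ≤ L → Q a₂ f x ≤ q + ε + 24 * a₂ ^ 2 / L ^ 2 *
      (Y ^ 2 + ε ^ 2 + 4 * a₁ ^ 2 * S ^ 2 * (ell B x + 2) ^ 2) := by
    intro ε hε hεL
    obtain ⟨p, z, hpz⟩ := exists_joint (f := f) L a₁ x hε
    have hφp : φ p ≤ f z + L * ‖p - z‖ := Lp_le hb hL.le p z
    have hφz : φ z ≤ f z := Lp_le_self hb hL.le z
    have hlip : φ x ≤ φ p + L * ‖x - p‖ := Lp_lipsch hb hL.le x p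
    set t := ‖x - p‖ with ht
    set D := ‖p - z‖ with hD
    have ht0 : 0 ≤ t := norm_nonneg _
    have hD0 : 0 ≤ D := norm_nonneg _
    rw [← hφ, ← hq] at hpz
    have hpz2 : f z + L * D + a₁ ^ 2 * t ^ 2 < q + ε := hpz
    -- `t ≤ 1`
    have ht1 : t ≤ 1 := by
      by_contra hcon
      push Not at hcon
      have h1 : a₁ ^ 2 * t ^ 2 < L * t + ε := by linarith
      have h2 : 2 * L * t ^ 2 ≤ a₁ ^ 2 * t ^ 2 := mul_le_mul_of_nonneg_right hL2 (sq_nonneg _)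
      have h3 : L < L * t := by nlinarith
      have h4 : L * t < L * t ^ 2 := by
        have : t < t ^ 2 := by nlinarith
        exact mul_lt_mul_of_pos_left this hL
      linarith
    have hnz : ‖z‖ ≤ ‖x‖ + t + D := by
      have e : z = x - (x - p) - (p - z) := by abel
      calc ‖z‖ = ‖x - (x - p) - (p - z)‖ := by rw [← e]
        _ ≤ ‖x - (x - p)‖ + ‖p - z‖ := norm_sub_le _ _
        _ ≤ ‖x‖ + ‖x - p‖ + ‖p - z‖ := by
          have := norm_sub_le x (x - p)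
          linarith
    have hellz : ell B z ≤ ell B x + 2 + 2 * D := by
      unfold ell; linarith
    have haS : 0 ≤ 2 * a₁ * S := by positivity
    have h1 : L * D ≤ Y + ε + 2 * a₁ * S * (ell B x + 2 + 2 * D) := by
      have h2 := hlow z
      have h3 : 2 * a₁ * S * ell B z ≤ 2 * a₁ * S * (ell B x + 2 + 2 * D) :=
        mul_le_mul_of_nonneg_left hellz haS
      have h4 : 0 ≤ a₁ ^ 2 * t ^ 2 := by positivity
      linarith
    have h5 : 4 * a₁ * S * D ≤ L / 2 * D := mul_le_mul_of_nonneg_right hSL hD0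
    have h6 : L * D ≤ 2 * (Y + ε + 2 * a₁ * S * (ell B x + 2)) := by nlinarith
    have hell0 : 0 ≤ ell B x := by
      unfold ell; have := norm_nonneg x; linarith
    set U := 2 * a₁ * S * (ell B x + 2) with hU
    have hU0 : 0 ≤ U := by positivity
    have h7 : (L * D) ^ 2 ≤ 12 * (Y ^ 2 + ε ^ 2 + U ^ 2) := by
      have h8 : (L * D) ^ 2 ≤ (2 * (Y + ε + U)) ^ 2 :=
        pow_le_pow_left₀ (by positivity) h6 2
      nlinarith [sq_nonneg (Y - ε), sq_nonneg (Y - U), sq_nonneg (ε - U)]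
    have h9 : Q a₂ f x ≤ f z + a₂ ^ 2 * ‖x - z‖ ^ 2 := Q_le hb a₂ x z
    have h10 : ‖x - z‖ ≤ t + D := norm_sub_le_norm_sub_add_norm_sub x p z
    have h11 : ‖x - z‖ ^ 2 ≤ 2 * t ^ 2 + 2 * D ^ 2 := by
      have : ‖x - z‖ ^ 2 ≤ (t + D) ^ 2 := pow_le_pow_left₀ (norm_nonneg _) h10 2
      nlinarith [sq_nonneg (t - D)]
    have h12 : a₂ ^ 2 * ‖x - z‖ ^ 2 ≤ a₂ ^ 2 * (2 * t ^ 2 + 2 * D ^ 2) :=
      mul_le_mul_of_nonneg_left h11 (sq_nonneg _)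
    have h13 : 2 * a₂ ^ 2 * t ^ 2 ≤ a₁ ^ 2 * t ^ 2 := mul_le_mul_of_nonneg_right ha₂ (sq_nonneg _)
    have h14 : Q a₂ f x ≤ q + ε + 2 * a₂ ^ 2 * D ^ 2 := by nlinarith
    have h15 : 2 * a₂ ^ 2 * D ^ 2 = 2 * a₂ ^ 2 / L ^ 2 * (L * D) ^ 2 := by
      field_simp
    have h16 : 2 * a₂ ^ 2 / L ^ 2 * (L * D) ^ 2 ≤
        2 * a₂ ^ 2 / L ^ 2 * (12 * (Y ^ 2 + ε ^ 2 + U ^ 2)) :=
      mul_le_mul_of_nonneg_left h7 (by positivity)
    have h17 : 2 * a₂ ^ 2 / L ^ 2 * (12 * (Y ^ 2 + ε ^ 2 + U ^ 2)) = 24 * a₂ ^ 2 / L ^ 2 *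
      (Y ^ 2 + ε ^ 2 + 4 * a₁ ^ 2 * S ^ 2 * (ell B x + 2) ^ 2) := by
      rw [hU]; ring
    linarith
  -- let `ε → 0`
  have hlim : Filter.Tendsto (fun ε : ℝ => q + ε + 24 * a₂ ^ 2 / L ^ 2 *
      (Y ^ 2 + ε ^ 2 + 4 * a₁ ^ 2 * S ^ 2 * (ell B x + 2) ^ 2)) (nhdsWithin 0 (Ioi 0))
      (nhds (q + 0 + 24 * a₂ ^ 2 / L ^ 2 *
      (Y ^ 2 + 0 ^ 2 + 4 * a₁ ^ 2 * S ^ 2 * (ell B x + 2) ^ 2))) := by
    apply Filter.Tendsto.mono_left _ nhdsWithin_le_nhds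
    apply Continuous.tendsto
    fun_prop
  have := ge_of_tendsto hlim (by
    filter_upwards [Ioc_mem_nhdsGT hL] with ε hε
    exact key ε hε.1 hε.2)
  simpa using this

end Pool.Agent.V11128.Weak
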