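import Mathlib
import Pool.Agent.V11128.WeakTr

namespace Pool.Agent.V11128.Weak

open MeasureTheory Real Set

set_option linter.unusedSectionVars false

variable {E : Type*} [NormedAddCommGroup E] [NormedSpace ℝ E]

/-- a point where `f` is low, in the case of large total variation -/
theorem low_point {f : E → ℝ} (hf : ConvexOn ℝ univ f)
    {L a₁ R κ : ℝ} (ha₁ : 0 < a₁) (hL : 0 < L) (hκ : 0 < κ) (hR : 0 ≤ R)
    {x : E} (hx : ‖x‖ ≤ R) (hq : Q a₁ (Lp L f) x ≤ -(2 * κ)) {y₀ : E} (hy : ‖y₀‖ ≤ R)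
    (hfy : f y₀ ≤ 1) :
    ∃ w, ‖w‖ ≤ R + (1 + L ^ 2 / (4 * a₁ ^ 2) + 2 * R * L + κ) / L ∧ f w ≤ -κ := by
  obtain ⟨p, z, hpz⟩ := exists_joint (f := f) L a₁ x hκ
  set D₃ := (1 + L ^ 2 / (4 * a₁ ^ 2) + 2 * R * L + κ) / L with hD₃
  have hD₃pos : 0 < D₃ := by positivity
  have h1 : 0 ≤ L * ‖p - z‖ := by positivity
  have h2 : 0 ≤ a₁ ^ 2 * ‖x - p‖ ^ 2 := by positivity
  have hfz : f z ≤ -κ := by linarith
  have hfz2 : f z ≤ L ^ 2 / (4 * a₁ ^ 2) - L * ‖x - z‖ := by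
    have h3 : ‖x - z‖ ≤ ‖x - p‖ + ‖p - z‖ := norm_sub_le_norm_sub_add_norm_sub x p z
    have h4 : L * ‖x - z‖ ≤ L * (‖x - p‖ + ‖p - z‖) := mul_le_mul_of_nonneg_left h3 hL.le
    have h5 : 0 ≤ (a₁ * ‖x - p‖ - L / (2 * a₁)) ^ 2 := sq_nonneg _
    have h6 : (a₁ * ‖x - p‖ - L / (2 * a₁)) ^ 2 =
        a₁ ^ 2 * ‖x - p‖ ^ 2 - L * ‖x - p‖ + L ^ 2 / (4 * a₁ ^ 2) := by
      field_simp
      ring
    linarith
  by_cases hz : ‖y₀ - z‖ ≤ D₃
  · refine ⟨z, ?_, hfz⟩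
    have : ‖z‖ ≤ ‖y₀‖ + ‖y₀ - z‖ := by
      have e : z = y₀ - (y₀ - z) := by abel
      calc ‖z‖ = ‖y₀ - (y₀ - z)‖ := by rw [← e]
        _ ≤ _ := norm_sub_le _ _
    linarith
  · push Not at hz
    have hpos : 0 < ‖y₀ - z‖ := hD₃pos.trans hz
    set s := D₃ / ‖y₀ - z‖ with hs
    have hs0 : 0 ≤ s := by positivity
    have hs1 : s ≤ 1 := (div_le_one hpos).2 hz.le
    have hsm : s * ‖y₀ - z‖ = D₃ := by rw [hs]; field_simp
    refine ⟨(1 - s) • y₀ + s • z, ?_, ?_⟩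
    · have e : (1 - s) • y₀ + s • z = y₀ - s • (y₀ - z) := by
        rw [smul_sub, sub_smul, one_smul]; abel
      rw [e]
      refine (norm_sub_le _ _).trans ?_
      rw [norm_smul, Real.norm_of_nonneg hs0, hsm]
      linarith
    · have h3 := hf.2 (mem_univ y₀) (mem_univ z) (by linarith : (0 : ℝ) ≤ 1 - s) hs0
        (by ring)
      simp only [smul_eq_mul] at h3
      have h4 : (1 - s) * f y₀ ≤ 1 := by nlinarith
      have h5 : s * f z ≤ s * (L ^ 2 / (4 * a₁ ^ 2) - L * ‖x - z‖) :=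
        mul_le_mul_of_nonneg_left hfz2 hs0
      have h6 : ‖y₀ - z‖ ≤ ‖y₀‖ + ‖x‖ + ‖x - z‖ := by
        have e : y₀ - z = y₀ - x + (x - z) := by abel
        calc ‖y₀ - z‖ = ‖y₀ - x + (x - z)‖ := by rw [← e]
          _ ≤ ‖y₀ - x‖ + ‖x - z‖ := norm_add_le _ _
          _ ≤ _ := by
            have := norm_sub_le y₀ x
            linarith
      have h7 : s * (L * ‖y₀ - z‖) ≤ s * (L * (2 * R + ‖x - z‖)) := by
        apply mul_le_mul_of_nonneg_left _ hs0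
        apply mul_le_mul_of_nonneg_left _ hL.le
        linarith
      have h8 : s * (L * ‖y₀ - z‖) = L * D₃ := by rw [← hsm]; ring
      have h9 : s * (L ^ 2 / (4 * a₁ ^ 2) + 2 * R * L) ≤ L ^ 2 / (4 * a₁ ^ 2) + 2 * R * L := by
        have : 0 ≤ L ^ 2 / (4 * a₁ ^ 2) + 2 * R * L := by positivity
        nlinarith
      have h10 : L * D₃ = 1 + L ^ 2 / (4 * a₁ ^ 2) + 2 * R * L + κ := by
        rw [hD₃]; field_simp
      nlinarith

section meas

variable [MeasurableSpace E] [BorelSpace E]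

/-- dual form of the inequality `T⁻` with the cost `a² |x|²` -/
def TMinus (μ : Measure E) (a : ℝ) : Prop :=
  ∀ f : E → ℝ, ConvexOn ℝ univ f → BddBelow (range f) → Integrable f μ →
    ∫⁻ x, ENNReal.ofReal (exp (Q a f x)) ∂μ ≤ ENNReal.ofReal (exp (∫ x, f x ∂μ))

/-- dual form of the inequality `T⁺` with the cost `a² |x|²` -/
def TPlus (μ : Measure E) (a : ℝ) : Prop :=
  ∀ f : E → ℝ, ConvexOn ℝ univ f → BddBelow (range f) →
    Integrable (Q a f) μ ∧ exp (∫ x, Q a f x ∂μ) * ∫ x, exp (-f x) ∂μ ≤ 1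

theorem integrable_of_lintegral {μ : Measure E} {g : E → ℝ} (hg : Continuous g)
    (h0 : ∀ x, 0 ≤ g x) (h : ∫⁻ x, ENNReal.ofReal (g x) ∂μ < ⊤) : Integrable g μ :=
  ⟨hg.aestronglyMeasurable, (hasFiniteIntegral_iff_ofReal (Filter.Eventually.of_forall h0)).2 h⟩

theorem exp_moment {μ : Measure E} [IsProbabilityMeasure μ] {a : ℝ} (ha : 0 < a)
    (hT : TMinus μ a) (h1 : Integrable (fun x : E => ‖x‖) μ) {l : ℝ} (hl : 0 ≤ l) :
    Integrable (fun x : E => exp (l * ‖x‖)) μ := by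
  have hconv : ConvexOn ℝ univ (fun x : E => l * ‖x‖) := by
    have := (convexOn_norm (E := E) (convex_univ)).smul hl
    simpa [smul_eq_mul] using this
  have hb : BddBelow (range fun x : E => l * ‖x‖) := by
    refine ⟨0, ?_⟩
    rintro _ ⟨x, rfl⟩
    positivity
  have h2 := hT _ hconv hb (h1.const_mul l)
  have hlip : Lipsch l (fun x : E => l * ‖x‖) := by
    intro x y
    have := norm_le_norm_add_norm_sub' x y
    simp only
    nlinarith
  have h3 : ∀ x, exp (l * ‖x‖) ≤ exp (l ^ 2 / (4 * a ^ 2)) * exp (Q a (fun x : E => l * ‖x‖) x) := by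
    intro x
    rw [← exp_add]
    apply exp_le_exp.2
    have := Q_ge_of_lipsch ha hlip x
    linarith
  refine integrable_of_lintegral (by fun_prop) (fun x => (exp_pos _).le) ?_
  calc ∫⁻ x, ENNReal.ofReal (exp (l * ‖x‖)) ∂μ
      ≤ ∫⁻ x, ENNReal.ofReal (exp (l ^ 2 / (4 * a ^ 2))) *
        ENNReal.ofReal (exp (Q a (fun x : E => l * ‖x‖) x)) ∂μ := by
        apply lintegral_mono
        intro x
        simp only
        rw [← ENNReal.ofReal_mul (exp_pos _).le]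
        exact ENNReal.ofReal_le_ofReal (h3 x)
    _ = ENNReal.ofReal (exp (l ^ 2 / (4 * a ^ 2))) *
        ∫⁻ x, ENNReal.ofReal (exp (Q a (fun x : E => l * ‖x‖) x)) ∂μ := by
        rw [lintegral_const_mul']
        exact ENNReal.ofReal_ne_top
    _ ≤ ENNReal.ofReal (exp (l ^ 2 / (4 * a ^ 2))) *
        ENNReal.ofReal (exp (∫ x, l * ‖x‖ ∂μ)) := by gcongr
    _ < ⊤ := ENNReal.mul_lt_top ENNReal.ofReal_lt_top ENNReal.ofReal_lt_top

theorem sq_moment {μ : Measure E} [IsProbabilityMeasure μ]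
    (h : Integrable (fun x : E => exp (1 * ‖x‖)) μ) : Integrable (fun x : E => ‖x‖ ^ 2) μ := by
  refine (h.const_mul 2).mono' (by fun_prop) (Filter.Eventually.of_forall fun x => ?_)
  rw [Real.norm_of_nonneg (by positivity)]
  have := Real.quadratic_le_exp_of_nonneg (norm_nonneg x)
  have h2 := norm_nonneg x
  simp only [one_mul]
  nlinarith

theorem gauss_moment {μ : Measure E} [IsProbabilityMeasure μ] {a : ℝ} (ha : 0 < a)
    (hT : TMinus μ a) (h2 : Integrable (fun x : E => ‖x‖ ^ 2) μ) :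
    Integrable (fun x : E => exp (a ^ 2 / 2 * ‖x‖ ^ 2)) μ := by
  have hconv : ConvexOn ℝ univ (fun x : E => a ^ 2 * ‖x‖ ^ 2) := by
    have h := (convexOn_norm (E := E) (convex_univ)).pow (fun _ _ => norm_nonneg _) 2
    have := h.smul (sq_nonneg a)
    simpa [smul_eq_mul] using this
  have hb : BddBelow (range fun x : E => a ^ 2 * ‖x‖ ^ 2) := by
    refine ⟨0, ?_⟩
    rintro _ ⟨x, rfl⟩
    positivity
  have h3 := hT _ hconv hb (h2.const_mul _)
  refine integrable_of_lintegral (by fun_prop) (fun x => (exp_pos _).le) ?_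
  refine lt_of_le_of_lt (le_trans ?_ h3) ENNReal.ofReal_lt_top
  apply lintegral_mono
  intro x
  apply ENNReal.ofReal_le_ofReal
  apply exp_le_exp.2
  refine le_Q fun y => ?_
  have h4 : ‖x‖ ≤ ‖y‖ + ‖x - y‖ := by
    have := norm_le_norm_add_norm_sub' x y
    linarith
  have h5 : ‖x‖ ^ 2 ≤ (‖y‖ + ‖x - y‖) ^ 2 := pow_le_pow_left₀ (norm_nonneg _) h4 2
  have h6 : ‖x‖ ^ 2 ≤ 2 * ‖y‖ ^ 2 + 2 * ‖x - y‖ ^ 2 := by
    nlinarith [sq_nonneg (‖y‖ - ‖x - y‖)]
  nlinarith [sq_nonneg a, mul_le_mul_of_nonneg_left h6 (sq_nonneg a)]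

end meas

end Pool.Agent.V11128.Weak
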