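import Mathlib
import Pool.Agent.V11128.WeakTr2

namespace Pool.Agent.V11128.Weak

open MeasureTheory Real Set

set_option linter.unusedSectionVars false

theorem exp_neg_le_quad {z : ℝ} (hz : 0 ≤ z) : exp (-z) ≤ 1 - z + z ^ 2 / 2 := by
  have h1 := Real.quadratic_le_exp_of_nonneg hz
  have h2 : 0 < 1 + z + z ^ 2 / 2 := by positivity
  rw [exp_neg]
  have h3 : (exp z)⁻¹ ≤ (1 + z + z ^ 2 / 2)⁻¹ := inv_anti₀ h2 h1
  refine h3.trans ?_
  rw [inv_le_iff_one_le_mul₀ h2]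
  nlinarith [sq_nonneg (z ^ 2)]

theorem exp_le_quad {y : ℝ} (hy : 0 ≤ y) : exp y ≤ 1 + y + y ^ 2 * exp y := by
  have h1 : 1 - y ≤ exp (-y) := by
    have := Real.add_one_le_exp (-y)
    linarith
  have h2 : (1 - y ^ 2) * exp y ≤ 1 + y := by
    have h3 : (1 + y) * (1 - y) ≤ (1 + y) * exp (-y) :=
      mul_le_mul_of_nonneg_left h1 (by linarith)
    have h4 : (1 + y) * (1 - y) * exp y ≤ (1 + y) * exp (-y) * exp y :=
      mul_le_mul_of_nonneg_right h3 (exp_pos _).le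
    have h5 : (1 + y) * exp (-y) * exp y = 1 + y := by
      rw [mul_assoc, ← exp_add]; simp
    nlinarith
  linarith

theorem exp_neg_le (X : ℝ) :
    exp (-X) ≤ 1 - X + max X 0 ^ 2 / 2 + max (-X) 0 ^ 2 * exp (max (-X) 0) := by
  rcases le_total 0 X with h | h
  · rw [max_eq_left h, max_eq_right (by linarith : -X ≤ 0)]
    have := exp_neg_le_quad h
    simp only [ne_eq, OfNat.ofNat_ne_zero, not_false_eq_true, zero_pow, zero_mul, add_zero]
    linarith
  · rw [max_eq_right h, max_eq_left (by linarith : 0 ≤ -X)]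
    have := exp_le_quad (by linarith : 0 ≤ -X)
    simp only [ne_eq, OfNat.ofNat_ne_zero, not_false_eq_true, zero_pow, zero_div, add_zero]
    linarith

variable {E : Type*} [NormedAddCommGroup E] [NormedSpace ℝ E]
  [MeasurableSpace E] [BorelSpace E]

theorem Lipsch.integrable {μ : Measure E} [IsProbabilityMeasure μ] {L : ℝ} {f : E → ℝ}
    (hf : Lipsch L f) (h1 : Integrable (fun x : E => ‖x‖) μ) : Integrable f μ := by
  refine ((integrable_const |f 0|).add (h1.const_mul L)).mono'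
    hf.continuous.aestronglyMeasurable (Filter.Eventually.of_forall fun x => ?_)
  have h2 := hf x 0
  have h3 := hf 0 x
  rw [sub_zero] at h2
  rw [zero_sub, norm_neg] at h3
  simp only [Pi.add_apply]
  rw [Real.norm_eq_abs, abs_le]
  have h4 := le_abs_self (f 0)
  have h5 := neg_abs_le (f 0)
  constructor <;> linarith

theorem Lipsch.integrable_sq {μ : Measure E} [IsProbabilityMeasure μ] {L : ℝ} {f : E → ℝ}
    (hL : 0 ≤ L)
    (hf : Lipsch L f) (h2 : Integrable (fun x : E => ‖x‖ ^ 2) μ) (c : ℝ) :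
    Integrable (fun x => max (f x - c) 0 ^ 2) μ := by
  refine ((integrable_const (2 * (f 0 - c) ^ 2)).add (h2.const_mul (2 * L ^ 2))).mono'
    ?_ (Filter.Eventually.of_forall fun x => ?_)
  · have := hf.continuous
    exact (by fun_prop : Continuous fun x => max (f x - c) 0 ^ 2).aestronglyMeasurable
  have h3 := hf x 0
  rw [sub_zero] at h3
  simp only [Pi.add_apply]
  rw [Real.norm_of_nonneg (by positivity)]
  have h4 : max (f x - c) 0 ≤ |f 0 - c| + L * ‖x‖ := by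
    apply max_le
    · have := le_abs_self (f 0 - c)
      linarith
    · positivity
  have h5 : max (f x - c) 0 ^ 2 ≤ (|f 0 - c| + L * ‖x‖) ^ 2 :=
    pow_le_pow_left₀ (le_max_right _ _) h4 2
  have h6 : |f 0 - c| ^ 2 = (f 0 - c) ^ 2 := sq_abs _
  nlinarith [sq_nonneg (|f 0 - c| - L * ‖x‖)]

theorem integrable_exp_neg {μ : Measure E} [IsProbabilityMeasure μ] {f : E → ℝ}
    (hc : Continuous f) (hb : BddBelow (range f)) : Integrable (fun x => exp (-f x)) μ := by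
  obtain ⟨c, hb⟩ := hb
  refine (integrable_const (exp (-c))).mono' (by fun_prop) (Filter.Eventually.of_forall fun x => ?_)
  rw [Real.norm_of_nonneg (exp_pos _).le]
  apply exp_le_exp.2
  have : c ≤ f x := hb ⟨x, rfl⟩
  linarith

theorem ell_ge_one {B : ℝ} (hB : 1 ≤ B) (x : E) : 1 ≤ ell B x := by
  unfold ell; have := norm_nonneg x; linarith

theorem ell_sq_ge {B : ℝ} (hB : 1 ≤ B) (x : E) : 2 * ‖x‖ ^ 2 + 2 * B ≤ ell B x ^ 2 := by
  unfold ell; have := norm_nonneg x; nlinarith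

/-- lower bound for a convex function in terms of the mean drop -/
theorem lower_bound {μ : Measure E} [IsProbabilityMeasure μ] {a₁ L B : ℝ} (ha₁ : 0 < a₁)
    (hnorm : Integrable (fun x : E => ‖x‖) μ) (hsq : Integrable (fun x : E => ‖x‖ ^ 2) μ)
    (hB1 : 1 ≤ B) (hB : ∫ x, ‖x‖ ^ 2 ∂μ ≤ B)
    {φ : E → ℝ} (hφ : ConvexOn ℝ univ φ) (hb : BddBelow (range φ)) (hlip : Lipsch L φ)
    (hV0 : 0 ≤ ∫ x, (φ x - Q a₁ φ x) ∂μ)
    (hV : ∫ x, (φ x - Q a₁ φ x) ∂μ ≤ a₁ ^ 2) (x : E) :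
    ∫ y, φ y ∂μ - φ x ≤ 2 * a₁ * √(∫ x, (φ x - Q a₁ φ x) ∂μ) * ell B x := by
  set V := ∫ x, (φ x - Q a₁ φ x) ∂μ with hVd
  set m := ∫ y, φ y ∂μ with hm
  have hi1 : Integrable φ μ := hlip.integrable hnorm
  have hi2 : Integrable (Q a₁ φ) μ := (Q_lipsch hb hlip a₁).integrable hnorm
  have hell := ell_ge_one hB1 x
  have hell2 := ell_sq_ge hB1 x
  have key : ∀ t : ℝ, 0 < t → t ≤ 1 → t * (m - φ x) ≤ V + a₁ ^ 2 * t ^ 2 * ell B x ^ 2 := by
    intro t ht ht1
    have hpt : ∀ y, t * (φ y - φ x) ≤ (φ y - Q a₁ φ y) +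
        a₁ ^ 2 * t ^ 2 * (2 * ‖y‖ ^ 2 + 2 * ‖x‖ ^ 2) := by
      intro y
      have h1 := hφ.2 (mem_univ y) (mem_univ x) (by linarith : (0 : ℝ) ≤ 1 - t) ht.le (by ring)
      have h2 := Q_le hb a₁ y ((1 - t) • y + t • x)
      have e : y - ((1 - t) • y + t • x) = t • (y - x) := by
        rw [smul_sub, sub_smul, one_smul]; abel
      rw [e, norm_smul, Real.norm_of_nonneg ht.le, mul_pow] at h2
      simp only [smul_eq_mul] at h1
      have h3 : ‖y - x‖ ^ 2 ≤ 2 * ‖y‖ ^ 2 + 2 * ‖x‖ ^ 2 := by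
        have h4 := norm_sub_le y x
        have h5 : ‖y - x‖ ^ 2 ≤ (‖y‖ + ‖x‖) ^ 2 := pow_le_pow_left₀ (norm_nonneg _) h4 2
        nlinarith [sq_nonneg (‖y‖ - ‖x‖)]
      have h6 : a₁ ^ 2 * t ^ 2 * ‖y - x‖ ^ 2 ≤ a₁ ^ 2 * t ^ 2 * (2 * ‖y‖ ^ 2 + 2 * ‖x‖ ^ 2) :=
        mul_le_mul_of_nonneg_left h3 (by positivity)
      nlinarith
    have hI5 : Integrable (fun y : E => 2 * ‖y‖ ^ 2) μ := hsq.const_mul 2
    have hI6 : Integrable (fun y : E => 2 * ‖y‖ ^ 2 + 2 * ‖x‖ ^ 2) μ :=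
      hI5.add (integrable_const _)
    have hI3 : Integrable (fun y : E => a₁ ^ 2 * t ^ 2 * (2 * ‖y‖ ^ 2 + 2 * ‖x‖ ^ 2)) μ :=
      hI6.const_mul _
    have hI4 : Integrable (fun y => φ y - Q a₁ φ y) μ := hi1.sub hi2
    have hint : ∫ y, t * (φ y - φ x) ∂μ ≤ ∫ y, ((φ y - Q a₁ φ y) +
        a₁ ^ 2 * t ^ 2 * (2 * ‖y‖ ^ 2 + 2 * ‖x‖ ^ 2)) ∂μ := by
      apply integral_mono
      · exact (hi1.sub (integrable_const _)).const_mul t
      · exact hI4.add hI3
      · exact hpt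
    rw [integral_const_mul, integral_sub hi1 (integrable_const _), integral_add hI4 hI3,
      integral_const_mul, integral_add hI5 (integrable_const _),
      integral_const_mul] at hint
    simp only [integral_const, probReal_univ, smul_eq_mul, one_mul] at hint
    rw [← hm] at hint
    have hint2 : t * (m - φ x) ≤ V + a₁ ^ 2 * t ^ 2 * (2 * ∫ y, ‖y‖ ^ 2 ∂μ + 2 * ‖x‖ ^ 2) := hint
    have h7 : 2 * ∫ y, ‖y‖ ^ 2 ∂μ + 2 * ‖x‖ ^ 2 ≤ ell B x ^ 2 := by linarith
    have h8 : a₁ ^ 2 * t ^ 2 * (2 * ∫ y, ‖y‖ ^ 2 ∂μ + 2 * ‖x‖ ^ 2) ≤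
        a₁ ^ 2 * t ^ 2 * ell B x ^ 2 := mul_le_mul_of_nonneg_left h7 (by positivity)
    linarith
  rcases hV0.eq_or_lt with h0 | hpos
  · -- V = 0
    rw [← h0, Real.sqrt_zero, mul_zero, zero_mul]
    refine le_of_forall_pos_le_add fun ε hε => ?_
    have hell0 : 0 < a₁ ^ 2 * ell B x ^ 2 := by positivity
    set t := min 1 (ε / (a₁ ^ 2 * ell B x ^ 2)) with ht
    have ht0 : 0 < t := lt_min one_pos (by positivity)
    have ht1 : t ≤ 1 := min_le_left _ _
    have ht2 : t * (a₁ ^ 2 * ell B x ^ 2) ≤ ε := by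
      have : t ≤ ε / (a₁ ^ 2 * ell B x ^ 2) := min_le_right _ _
      rwa [le_div_iff₀ hell0] at this
    have h1 := key t ht0 ht1
    rw [← h0] at h1
    have h2 : t * (m - φ x) ≤ t * ε := by
      calc t * (m - φ x) ≤ t * (t * (a₁ ^ 2 * ell B x ^ 2)) := by linarith
        _ ≤ t * ε := mul_le_mul_of_nonneg_left ht2 ht0.le
    have := le_of_mul_le_mul_left h2 ht0
    linarith
  · have hs : 0 < √V := Real.sqrt_pos.2 hpos
    have hsa : √V ≤ a₁ := by
      rw [Real.sqrt_le_left ha₁.le]; exact hV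
    have hell0 : 0 < ell B x := by linarith
    set t := √V / (a₁ * ell B x) with ht
    have ht0 : 0 < t := by positivity
    have ht1 : t ≤ 1 := by
      rw [ht, div_le_one (by positivity)]
      nlinarith
    have h1 := key t ht0 ht1
    have h2 : a₁ ^ 2 * t ^ 2 * ell B x ^ 2 = V := by
      rw [ht, div_pow, Real.sq_sqrt hV0]; field_simp
    have h3 : t * (2 * a₁ * √V * ell B x) = 2 * V := by
      have : √V * √V = V := Real.mul_self_sqrt hV0
      rw [ht]; field_simp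
      nlinarith
    have h4 : t * (m - φ x) ≤ t * (2 * a₁ * √V * ell B x) := by linarith
    exact le_of_mul_le_mul_left h4 ht0

end Pool.Agent.V11128.Weak
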