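import Mathlib
import Pool.Agent.V11128.WeakTr3

namespace Pool.Agent.V11128.Weak

open MeasureTheory Real Set

set_option linter.unusedSectionVars false

variable {E : Type*} [NormedAddCommGroup E] [NormedSpace ℝ E]
  [MeasurableSpace E] [BorelSpace E]

/-- consequence of `T⁻` for a Lipschitz convex function -/
theorem exp_bound_of_TMinus {μ : Measure E} [IsProbabilityMeasure μ] {a a₁ L : ℝ}
    (ha₁ : 0 < a₁) (ha : 0 < a) (hT : TMinus μ a)
    (hnorm : Integrable (fun x : E => ‖x‖) μ)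
    {φ : E → ℝ} (hφ : ConvexOn ℝ univ φ) (hb : BddBelow (range φ)) (hlip : Lipsch L φ) :
    Integrable (fun x => exp (a ^ 2 / a₁ ^ 2 * (Q a₁ φ x - ∫ y, φ y ∂μ))) μ ∧
    ∫ x, exp (a ^ 2 / a₁ ^ 2 * (Q a₁ φ x - ∫ y, φ y ∂μ)) ∂μ ≤ 1 := by
  set k := a ^ 2 / a₁ ^ 2 with hk
  have hk0 : 0 < k := by positivity
  have hka : a ^ 2 = k * a₁ ^ 2 := by rw [hk]; field_simp
  set m := ∫ y, φ y ∂μ with hm
  have hconv : ConvexOn ℝ univ (fun x => k * φ x) := by
    have := hφ.smul hk0.le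
    simpa [smul_eq_mul] using this
  have hbk : BddBelow (range fun x => k * φ x) := by
    obtain ⟨c, hc⟩ := hb
    refine ⟨k * c, ?_⟩
    rintro _ ⟨x, rfl⟩
    exact mul_le_mul_of_nonneg_left (hc ⟨x, rfl⟩) hk0.le
  have h1 := hT _ hconv hbk ((hlip.integrable hnorm).const_mul k)
  rw [integral_const_mul, ← hm] at h1
  have hQ : ∀ x, k * Q a₁ φ x ≤ Q a (fun x => k * φ x) x := by
    intro x
    refine le_Q fun y => ?_
    have h2 := Q_le hb a₁ x y
    have h3 := mul_le_mul_of_nonneg_left h2 hk0.le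
    rw [hka]
    linarith
  have hc : Continuous (Q a₁ φ) := (Q_lipsch hb hlip a₁).continuous
  have hle : ∫⁻ x, ENNReal.ofReal (exp (k * (Q a₁ φ x - m))) ∂μ ≤ 1 := by
    calc ∫⁻ x, ENNReal.ofReal (exp (k * (Q a₁ φ x - m))) ∂μ
        ≤ ∫⁻ x, ENNReal.ofReal (exp (-(k * m))) *
          ENNReal.ofReal (exp (Q a (fun x => k * φ x) x)) ∂μ := by
          apply lintegral_mono
          intro x
          simp only
          rw [← ENNReal.ofReal_mul (exp_pos _).le, ← exp_add]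
          apply ENNReal.ofReal_le_ofReal
          apply exp_le_exp.2
          have := hQ x
          nlinarith
      _ = ENNReal.ofReal (exp (-(k * m))) *
          ∫⁻ x, ENNReal.ofReal (exp (Q a (fun x => k * φ x) x)) ∂μ := by
          rw [lintegral_const_mul']
          exact ENNReal.ofReal_ne_top
      _ ≤ ENNReal.ofReal (exp (-(k * m))) * ENNReal.ofReal (exp (k * m)) := by gcongr
      _ = 1 := by
          rw [← ENNReal.ofReal_mul (exp_pos _).le, ← exp_add]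
          simp
  have hint : Integrable (fun x => exp (k * (Q a₁ φ x - m))) μ :=
    integrable_of_lintegral (by fun_prop) (fun x => (exp_pos _).le)
      (lt_of_le_of_lt hle ENNReal.one_lt_top)
  refine ⟨hint, ?_⟩
  have h4 := ofReal_integral_eq_lintegral_ofReal hint
    (Filter.Eventually.of_forall fun x => (exp_pos _).le)
  rw [← h4] at hle
  exact (ENNReal.ofReal_le_one).1 hle

/-- main estimates for a Lipschitz convex function -/
theorem step1 {μ : Measure E} [IsProbabilityMeasure μ] {a a₁ L B C : ℝ} (ha₁ : 0 < a₁)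
    (h8 : 8 * a₁ ≤ a) (hT : TMinus μ a)
    (hnorm : Integrable (fun x : E => ‖x‖) μ) (hsq : Integrable (fun x : E => ‖x‖ ^ 2) μ)
    (hB1 : 1 ≤ B) (hB : ∫ x, ‖x‖ ^ 2 ∂μ ≤ B)
    (hw : Integrable (fun x : E => ell B x ^ 2 * exp (ell B x)) μ)
    (hC : ∫ x, ell B x ^ 2 * exp (ell B x) ∂μ ≤ C) (hC2 : 32 * a₁ ^ 2 * C ≤ 1)
    (ha12 : a₁ ^ 2 ≤ 1 / 2) (hL0 : 0 < L) (hL : L ^ 2 ≤ a₁ ^ 2 / 8) (hL' : L ≤ 2 * a₁ ^ 2)
    {φ : E → ℝ} (hφ : ConvexOn ℝ univ φ) (hb : BddBelow (range φ)) (hlip : Lipsch L φ) :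
    0 ≤ ∫ x, (φ x - Q a₁ φ x) ∂μ ∧
    (∀ x, ∫ y, φ y ∂μ - φ x ≤ 2 * a₁ * √(∫ x, (φ x - Q a₁ φ x) ∂μ) * ell B x) ∧
    ∫ x, max (φ x - ∫ y, φ y ∂μ) 0 ^ 2 ∂μ ≤ (∫ x, (φ x - Q a₁ φ x) ∂μ) / 4 ∧
    ∫ x, exp (-φ x) ∂μ ≤ exp (-(∫ y, φ y ∂μ) + (∫ x, (φ x - Q a₁ φ x) ∂μ) / 4) := by
  have ha : 0 < a := by linarith
  set V := ∫ x, (φ x - Q a₁ φ x) ∂μ with hVd
  set m := ∫ y, φ y ∂μ with hm
  have hi1 : Integrable φ μ := hlip.integrable hnorm
  have hlipQ := Q_lipsch hb hlip a₁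
  have hi2 : Integrable (Q a₁ φ) μ := hlipQ.integrable hnorm
  have hi3 : Integrable (fun x => φ x - Q a₁ φ x) μ := hi1.sub hi2
  have hV0 : 0 ≤ V := integral_nonneg fun x => sub_nonneg.2 (Q_le_self hb a₁ x)
  set vm := L ^ 2 / (4 * a₁ ^ 2) with hvm
  have hvm1 : vm ≤ 1 / 32 := by
    rw [hvm, div_le_iff₀ (by positivity)]
    linarith
  have hvle : ∀ x, φ x - Q a₁ φ x ≤ vm := fun x => by
    have := Q_ge_of_lipsch ha₁ hlip x
    linarith
  have hVvm : V ≤ vm := by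
    calc V ≤ ∫ _, vm ∂μ := integral_mono hi3 (integrable_const _) hvle
      _ = vm := by simp
  have hvma : vm ≤ a₁ ^ 2 := by
    rw [hvm, div_le_iff₀ (by positivity)]
    have : L ^ 2 ≤ (2 * a₁ ^ 2) ^ 2 := pow_le_pow_left₀ hL0.le hL' 2
    nlinarith
  have hlow := lower_bound ha₁ hnorm hsq hB1 hB hφ hb hlip hV0 (hVvm.trans hvma)
  rw [← hVd, ← hm] at hlow
  -- the upper part
  obtain ⟨hg1, hg2⟩ := exp_bound_of_TMinus ha₁ ha hT hnorm hφ hb hlip
  rw [← hm] at hg1 hg2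
  set k := a ^ 2 / a₁ ^ 2 with hk
  have hk64 : 64 ≤ k := by
    rw [hk, le_div_iff₀ (by positivity)]
    have : (8 * a₁) ^ 2 ≤ a ^ 2 := pow_le_pow_left₀ (by positivity) h8 2
    nlinarith
  have hk0 : 0 < k := by linarith
  have hY : Integrable (fun x => max (φ x - m) 0 ^ 2) μ := hlip.integrable_sq hL0.le hsq m
  have hs : Integrable (fun x => k * (Q a₁ φ x - m)) μ := (hi2.sub (integrable_const _)).const_mul k
  have hsI : ∫ x, k * (Q a₁ φ x - m) ∂μ = -(k * V) := by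
    rw [integral_const_mul, integral_sub hi2 (integrable_const _), hVd, integral_sub hi1 hi2]
    simp only [integral_const, probReal_univ, smul_eq_mul, one_mul]
    rw [← hm]; ring
  have hptY : ∀ x, max (φ x - m) 0 ^ 2 ≤ 8 / k ^ 2 *
      (exp (k * (Q a₁ φ x - m)) - 1 - k * (Q a₁ φ x - m)) + 4 * vm * (φ x - Q a₁ φ x) := by
    intro x
    have hv0 : 0 ≤ φ x - Q a₁ φ x := sub_nonneg.2 (Q_le_self hb a₁ x)
    have hv1 := hvle x
    set v := φ x - Q a₁ φ x with hv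
    set X := φ x - m with hX
    have hsx : k * (Q a₁ φ x - m) = k * (X - v) := by rw [hv, hX]; ring
    rw [hsx]
    have hexp : 0 ≤ exp (k * (X - v)) - 1 - k * (X - v) := by
      have := Real.add_one_le_exp (k * (X - v))
      linarith
    have hvm0 : 0 ≤ vm := hv0.trans hv1
    rcases le_total X (2 * v) with h | h
    · have h1 : max X 0 ≤ 2 * v := max_le h (by linarith)
      have h2 : max X 0 ^ 2 ≤ (2 * v) ^ 2 := pow_le_pow_left₀ (le_max_right _ _) h1 2
      have h3 : (2 * v) ^ 2 ≤ 4 * vm * v := by nlinarith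
      have h4 : 0 ≤ 8 / k ^ 2 * (exp (k * (X - v)) - 1 - k * (X - v)) := by positivity
      linarith
    · have hX0 : 0 ≤ X := by linarith
      rw [max_eq_left hX0]
      have h1 : k * X / 2 ≤ k * (X - v) := by nlinarith
      have h2 : 0 ≤ k * X / 2 := by positivity
      have h3 := Real.quadratic_le_exp_of_nonneg (h2.trans h1)
      have h4 : (k * X / 2) ^ 2 ≤ (k * (X - v)) ^ 2 := pow_le_pow_left₀ h2 h1 2
      have h5 : k ^ 2 * X ^ 2 / 8 ≤ exp (k * (X - v)) - 1 - k * (X - v) := by nlinarith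
      have h6 : X ^ 2 = 8 / k ^ 2 * (k ^ 2 * X ^ 2 / 8) := by field_simp
      have h7 : 8 / k ^ 2 * (k ^ 2 * X ^ 2 / 8) ≤
          8 / k ^ 2 * (exp (k * (X - v)) - 1 - k * (X - v)) :=
        mul_le_mul_of_nonneg_left h5 (by positivity)
      have h8 : 0 ≤ 4 * vm * v := by positivity
      linarith
  have hYI : ∫ x, max (φ x - m) 0 ^ 2 ∂μ ≤ V / 4 := by
    have hI1 : Integrable (fun x => exp (k * (Q a₁ φ x - m)) - 1) μ :=
      hg1.sub (integrable_const _)
    have hI2 : Integrable (fun x => exp (k * (Q a₁ φ x - m)) - 1 - k * (Q a₁ φ x - m)) μ :=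
      hI1.sub hs
    have h1 : ∫ x, max (φ x - m) 0 ^ 2 ∂μ ≤ ∫ x, (8 / k ^ 2 *
      (exp (k * (Q a₁ φ x - m)) - 1 - k * (Q a₁ φ x - m)) + 4 * vm * (φ x - Q a₁ φ x)) ∂μ :=
      integral_mono hY ((hI2.const_mul _).add (hi3.const_mul _)) hptY
    rw [integral_add (hI2.const_mul _) (hi3.const_mul _), integral_const_mul, integral_const_mul,
      integral_sub hI1 hs, integral_sub hg1 (integrable_const _), hsI, ← hVd] at h1
    simp only [integral_const, probReal_univ, smul_eq_mul, one_mul] at h1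
    have h2 : 8 / k ^ 2 * (∫ x, exp (k * (Q a₁ φ x - m)) ∂μ - 1 - -(k * V)) ≤
        8 / k ^ 2 * (k * V) := by
      apply mul_le_mul_of_nonneg_left _ (by positivity)
      linarith
    have h3 : 8 / k ^ 2 * (k * V) = 8 / k * V := by field_simp
    have h4 : 8 / k ≤ 1 / 8 := by
      rw [div_le_iff₀ hk0]; linarith
    have h5 : 8 / k * V ≤ 1 / 8 * V := mul_le_mul_of_nonneg_right h4 hV0
    have h6 : 4 * vm * V ≤ 1 / 8 * V := by nlinarith
    linarith
  refine ⟨hV0, hlow, hYI, ?_⟩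
  -- the exponential
  have hexpint : Integrable (fun x => exp (-φ x)) μ := integrable_exp_neg hlip.continuous hb
  have hpt : ∀ x, exp (m) * exp (-φ x) ≤ 1 - (φ x - m) + max (φ x - m) 0 ^ 2 / 2 +
      4 * a₁ ^ 2 * V * (ell B x ^ 2 * exp (ell B x)) := by
    intro x
    have h1 := exp_neg_le (φ x - m)
    have h2 : exp m * exp (-φ x) = exp (-(φ x - m)) := by
      rw [← exp_add]; congr 1; ring
    rw [h2]
    refine h1.trans ?_
    have hell := ell_ge_one hB1 x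
    have h3 : max (-(φ x - m)) 0 ≤ 2 * a₁ * √V * ell B x := by
      apply max_le
      · have := hlow x; linarith
      · have := Real.sqrt_nonneg V
        positivity
    have hsV : √V ≤ a₁ := by
      rw [Real.sqrt_le_left ha₁.le]; exact hVvm.trans hvma
    have h4 : 2 * a₁ * √V * ell B x ≤ ell B x := by
      have h5 : 2 * a₁ * √V ≤ 1 := by nlinarith [Real.sqrt_nonneg V]
      nlinarith
    have h5 : max (-(φ x - m)) 0 ^ 2 ≤ (2 * a₁ * √V * ell B x) ^ 2 :=
      pow_le_pow_left₀ (le_max_right _ _) h3 2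
    have h6 : exp (max (-(φ x - m)) 0) ≤ exp (ell B x) := exp_le_exp.2 (h3.trans h4)
    have h7 : (2 * a₁ * √V * ell B x) ^ 2 = 4 * a₁ ^ 2 * V * ell B x ^ 2 := by
      rw [mul_pow, mul_pow, mul_pow, Real.sq_sqrt hV0]; ring
    have h8 : max (-(φ x - m)) 0 ^ 2 * exp (max (-(φ x - m)) 0) ≤
        (4 * a₁ ^ 2 * V * ell B x ^ 2) * exp (ell B x) := by
      rw [← h7]
      exact mul_le_mul h5 h6 (exp_pos _).le (sq_nonneg _)
    linarith
  have hI7 : Integrable (fun x => φ x - m) μ := hi1.sub (integrable_const _)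
  have hI3 : Integrable (fun x => 1 - (φ x - m)) μ := (integrable_const _).sub hI7
  have hI4 : Integrable (fun x => max (φ x - m) 0 ^ 2 / 2) μ := hY.div_const 2
  have hI5 : Integrable (fun x => 1 - (φ x - m) + max (φ x - m) 0 ^ 2 / 2) μ := hI3.add hI4
  have hI6 : Integrable (fun x => 4 * a₁ ^ 2 * V * (ell B x ^ 2 * exp (ell B x))) μ :=
    hw.const_mul _
  have h1 : ∫ x, exp m * exp (-φ x) ∂μ ≤ ∫ x, (1 - (φ x - m) + max (φ x - m) 0 ^ 2 / 2 +
      4 * a₁ ^ 2 * V * (ell B x ^ 2 * exp (ell B x))) ∂μ :=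
    integral_mono (hexpint.const_mul _) (hI5.add hI6) hpt
  rw [integral_const_mul, integral_add hI5 hI6, integral_add hI3 hI4,
    integral_sub (integrable_const _) hI7, integral_sub hi1 (integrable_const _),
    integral_const_mul, integral_div] at h1
  simp only [integral_const, probReal_univ, smul_eq_mul, one_mul] at h1
  rw [← hm, sub_self, sub_zero] at h1
  have h2 : 4 * a₁ ^ 2 * V * ∫ x, ell B x ^ 2 * exp (ell B x) ∂μ ≤ V / 8 := by
    have h3 : 4 * a₁ ^ 2 * V * ∫ x, ell B x ^ 2 * exp (ell B x) ∂μ ≤ 4 * a₁ ^ 2 * V * C :=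
      mul_le_mul_of_nonneg_left hC (by positivity)
    nlinarith
  have h3 : exp m * ∫ x, exp (-φ x) ∂μ ≤ 1 + V / 4 := by linarith
  have h4 : 1 + V / 4 ≤ exp (V / 4) := by
    have := Real.add_one_le_exp (V / 4)
    linarith
  have h5 : exp m * ∫ x, exp (-φ x) ∂μ ≤ exp (V / 4) := h3.trans h4
  have h6 : ∫ x, exp (-φ x) ∂μ = exp (-m) * (exp m * ∫ x, exp (-φ x) ∂μ) := by
    rw [← mul_assoc, ← exp_add]; simp
  rw [h6, exp_add]
  exact mul_le_mul_of_nonneg_left h5 (exp_pos _).le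

end Pool.Agent.V11128.Weak
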