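import Mathlib
import Pool.Agent.V11128.WeakTr4

namespace Pool.Agent.V11128.Weak

open MeasureTheory Real Set Filter Topology

set_option linter.unusedSectionVars false

variable {E : Type*} [NormedAddCommGroup E] [NormedSpace ℝ E]
  [MeasurableSpace E] [BorelSpace E]

theorem Q_measurable {f : E → ℝ} (hb : BddBelow (range f)) (a : ℝ) : Measurable (Q a f) := by
  have h : UpperSemicontinuous (Q a f) := by
    unfold Q
    apply upperSemicontinuous_ciInf
    · intro x; exact bddQ hb a x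
    · intro y
      have : Continuous fun x : E => f y + a ^ 2 * ‖x - y‖ ^ 2 := by fun_prop
      exact this.upperSemicontinuous
  exact h.measurable

theorem norm_sub_sq_le (x y : E) : ‖x - y‖ ^ 2 ≤ 2 * ‖x‖ ^ 2 + 2 * ‖y‖ ^ 2 := by
  have h4 := norm_sub_le x y
  have h5 : ‖x - y‖ ^ 2 ≤ (‖x‖ + ‖y‖) ^ 2 := pow_le_pow_left₀ (norm_nonneg _) h4 2
  nlinarith [sq_nonneg (‖x‖ - ‖y‖)]

theorem Q_integrable {μ : Measure E} [IsProbabilityMeasure μ] {f : E → ℝ}
    (hb : BddBelow (range f)) (hsq : Integrable (fun x : E => ‖x‖ ^ 2) μ) (a : ℝ) :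
    Integrable (Q a f) μ := by
  obtain ⟨c, hc⟩ := bdd_Q hb a
  refine ((integrable_const (|c| + |f 0|)).add (hsq.const_mul (a ^ 2))).mono'
    (Q_measurable hb a).aestronglyMeasurable (Filter.Eventually.of_forall fun x => ?_)
  have h1 : c ≤ Q a f x := hc ⟨x, rfl⟩
  have h2 := Q_le hb a x 0
  rw [sub_zero] at h2
  simp only [Pi.add_apply]
  rw [Real.norm_eq_abs, abs_le]
  have h3 := neg_abs_le c
  have h4 := le_abs_self (f 0)
  have h5 := abs_nonneg (f 0)
  have h6 := abs_nonneg c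
  have h7 : 0 ≤ a ^ 2 * ‖x‖ ^ 2 := by positivity
  constructor <;> linarith

/-- integral bound from one low point -/
theorem Q_int_le {μ : Measure E} [IsProbabilityMeasure μ] {f : E → ℝ}
    (hb : BddBelow (range f)) (hsq : Integrable (fun x : E => ‖x‖ ^ 2) μ) (a : ℝ) (w : E) :
    ∫ x, Q a f x ∂μ ≤ f w + 2 * a ^ 2 * (∫ x, ‖x‖ ^ 2 ∂μ) + 2 * a ^ 2 * ‖w‖ ^ 2 := by
  have hI : Integrable (fun x : E => 2 * a ^ 2 * ‖x‖ ^ 2) μ := hsq.const_mul _
  have h1 : ∫ x, Q a f x ∂μ ≤ ∫ x, (f w + 2 * a ^ 2 * ‖w‖ ^ 2 + 2 * a ^ 2 * ‖x‖ ^ 2) ∂μ := by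
    apply integral_mono (Q_integrable hb hsq a) ((integrable_const _).add hI)
    intro x
    simp only [Pi.add_apply]
    have h2 := Q_le hb a x w
    have h3 := mul_le_mul_of_nonneg_left (norm_sub_sq_le x w) (sq_nonneg a)
    linarith
  rw [integral_add (integrable_const _) hI, integral_const_mul] at h1
  simp only [integral_const, probReal_univ, smul_eq_mul, one_mul] at h1
  linarith

theorem exists_tail {μ : Measure E} [IsProbabilityMeasure μ] {g : E → ℝ} (hg : Integrable g μ)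
    {ε : ℝ} (hε : 0 < ε) : ∃ N : ℕ, ∀ n : ℕ, N ≤ n → ∫ x in {x : E | (n : ℝ) < ‖x‖}, g x ∂μ < ε := by
  have h1 : Tendsto (fun n : ℕ => ∫ x in {x : E | (n : ℝ) < ‖x‖}, g x ∂μ) atTop
      (𝓝 (∫ x in ⋂ n : ℕ, {x : E | (n : ℝ) < ‖x‖}, g x ∂μ)) := by
    apply tendsto_setIntegral_of_antitone
    · intro n
      exact measurableSet_lt measurable_const measurable_norm
    · intro n k hnk x hx
      simp only [Set.mem_ofPred_eq] at hx ⊢
      have : (n : ℝ) ≤ k := by exact_mod_cast hnk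
      linarith
    · exact ⟨0, hg.integrableOn⟩
  have h2 : ⋂ n : ℕ, {x : E | (n : ℝ) < ‖x‖} = ∅ := by
    ext x
    simp only [mem_iInter, Set.mem_ofPred_eq, mem_empty_iff_false, iff_false, not_forall, not_lt]
    exact exists_nat_ge ‖x‖
  rw [h2, Measure.restrict_empty, integral_zero_measure] at h1
  have h3 := (h1.eventually (gt_mem_nhds hε))
  exact eventually_atTop.1 h3

/-- existence of a not too high point in the bulk -/
theorem exists_bulk {μ : Measure E} [IsProbabilityMeasure μ] {f : E → ℝ} {a R : ℝ}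
    (hc : Continuous f) (hb : BddBelow (range f)) (h1 : ∫ x, exp (-f x) ∂μ = 1)
    (hg : Integrable (fun x : E => exp (a ^ 2 / 2 * ‖x‖ ^ 2)) μ)
    (hR : ∫ x in {x : E | R < ‖x‖}, exp (a ^ 2 / 2 * ‖x‖ ^ 2) ∂μ < 1 / 2)
    (hfar : ∀ x, R < ‖x‖ → -(a ^ 2 / 2 * ‖x‖ ^ 2) ≤ f x) : ∃ y, ‖y‖ ≤ R ∧ f y ≤ 1 := by
  by_contra hcon
  push Not at hcon
  have hms : MeasurableSet {x : E | R < ‖x‖} := measurableSet_lt measurable_const measurable_norm
  have hI : Integrable ({x : E | R < ‖x‖}.indicator fun x => exp (a ^ 2 / 2 * ‖x‖ ^ 2)) μ :=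
    hg.indicator hms
  have h2 : ∫ x, exp (-f x) ∂μ ≤ ∫ x, (exp (-1) +
      {x : E | R < ‖x‖}.indicator (fun x => exp (a ^ 2 / 2 * ‖x‖ ^ 2)) x) ∂μ := by
    apply integral_mono (integrable_exp_neg hc hb) ((integrable_const _).add hI)
    intro x
    simp only [Pi.add_apply]
    by_cases hx : R < ‖x‖
    · rw [Set.indicator_of_mem (by exact hx)]
      have h3 := hfar x hx
      have h4 : exp (-f x) ≤ exp (a ^ 2 / 2 * ‖x‖ ^ 2) := exp_le_exp.2 (by linarith)
      have := exp_pos (-1)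
      linarith
    · rw [Set.indicator_of_notMem (by exact hx), add_zero]
      apply exp_le_exp.2
      have := hcon x (not_lt.1 hx)
      linarith
  rw [integral_add (integrable_const _) hI, integral_indicator hms] at h2
  simp only [integral_const, probReal_univ, smul_eq_mul, one_mul] at h2
  have h3 := Real.exp_neg_one_lt_d9
  rw [h1] at h2
  norm_num at h3
  linarith

/-- a point in the bulk where a Lipschitz function with low mean is low -/
theorem exists_low {μ : Measure E} [IsProbabilityMeasure μ] {q : E → ℝ} {L R c τ : ℝ}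
    (hL : 0 ≤ L) (hR : 1 ≤ R) (hq : Lipsch L q)
    (hnorm : Integrable (fun x : E => ‖x‖) μ)
    (hτ : ∫ x in {x : E | R < ‖x‖}, ‖x‖ ∂μ ≤ τ)
    (hm : ∫ x, q x ∂μ < -c - L * τ) : ∃ x, ‖x‖ ≤ R ∧ q x ≤ -c := by
  by_contra hcon
  push Not at hcon
  have hms : MeasurableSet {x : E | R < ‖x‖} := measurableSet_lt measurable_const measurable_norm
  have hI : Integrable ({x : E | R < ‖x‖}.indicator fun x => ‖x‖) μ := hnorm.indicator hms
  have h2 : ∫ x, (-c - L * {x : E | R < ‖x‖}.indicator (fun x => ‖x‖) x) ∂μ ≤ ∫ x, q x ∂μ := by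
    apply integral_mono ((integrable_const _).sub (hI.const_mul L)) (hq.integrable hnorm)
    intro x
    simp only [Pi.sub_apply]
    by_cases hx : R < ‖x‖
    · rw [Set.indicator_of_mem (by exact hx)]
      have hx0 : 0 < ‖x‖ := by linarith
      have h3 := hcon ((R / ‖x‖) • x) (by
        rw [norm_smul, Real.norm_of_nonneg (by positivity)]
        field_simp
        exact le_rfl)
      have h4 := hq ((R / ‖x‖) • x) x
      have h5 : ‖(R / ‖x‖) • x - x‖ = ‖x‖ - R := by
        have e : (R / ‖x‖) • x - x = (R / ‖x‖ - 1) • x := by rw [sub_smul, one_smul]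
        rw [e, norm_smul, Real.norm_eq_abs, abs_of_nonpos]
        · field_simp; ring
        · rw [sub_nonpos, div_le_one hx0]; exact hx.le
      rw [h5] at h4
      nlinarith
    · rw [Set.indicator_of_notMem (by exact hx), mul_zero, sub_zero]
      exact (hcon x (not_lt.1 hx)).le
  rw [integral_sub (integrable_const _) (hI.const_mul L), integral_const_mul,
    integral_indicator hms] at h2
  simp only [integral_const, probReal_univ, smul_eq_mul, one_mul] at h2
  have h3 : L * ∫ x in {x : E | R < ‖x‖}, ‖x‖ ∂μ ≤ L * τ := mul_le_mul_of_nonneg_left hτ hL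
  linarith

end Pool.Agent.V11128.Weak
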