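import Mathlib
import Pool.Agent.V11128.WeakTr5

namespace Pool.Agent.V11128.Weak

open MeasureTheory Real Set Filter Topology

set_option linter.unusedSectionVars false

variable {E : Type*} [NormedAddCommGroup E] [NormedSpace ℝ E]
  [MeasurableSpace E] [BorelSpace E]

theorem ell_continuous (B : ℝ) : Continuous (fun x : E => ell B x) := by
  unfold ell; fun_prop

/-- the normalised inequality -/
theorem normalized {μ : Measure E} [IsProbabilityMeasure μ]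
    {a a₁ a₂ L B C C₂ θ R D₃ : ℝ} (ha₁ : 0 < a₁)
    (h8 : 8 * a₁ ≤ a) (hT : TMinus μ a)
    (hnorm : Integrable (fun x : E => ‖x‖) μ) (hsq : Integrable (fun x : E => ‖x‖ ^ 2) μ)
    (hgauss : Integrable (fun x : E => exp (a ^ 2 / 2 * ‖x‖ ^ 2)) μ)
    (hB1 : 1 ≤ B) (hB : ∫ x, ‖x‖ ^ 2 ∂μ ≤ B)
    (hw : Integrable (fun x : E => ell B x ^ 2 * exp (ell B x)) μ)
    (hC : ∫ x, ell B x ^ 2 * exp (ell B x) ∂μ ≤ C) (hC2 : 32 * a₁ ^ 2 * C ≤ 1)
    (ha12 : a₁ ^ 2 ≤ 1 / 2) (hLd : L = a₁ ^ 2 / 2)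
    (hw2 : Integrable (fun x : E => (ell B x + 2) ^ 2) μ)
    (hCC2 : ∫ x, (ell B x + 2) ^ 2 ∂μ ≤ C₂)
    (hθ : θ = L ^ 2 / (64 * a₁ ^ 2)) (hR : 1 ≤ R)
    (hR1 : ∫ x in {x : E | R < ‖x‖}, ‖x‖ ∂μ ≤ θ / (4 * L))
    (hR2 : ∫ x in {x : E | R < ‖x‖}, exp (a ^ 2 / 2 * ‖x‖ ^ 2) ∂μ < 1 / 2)
    (hD₃ : D₃ = (1 + L ^ 2 / (4 * a₁ ^ 2) + 2 * R * L + θ / 4) / L)
    (hA1 : 2 * a₂ ^ 2 ≤ a₁ ^ 2)
    (hA2 : 24 * a₂ ^ 2 / L ^ 2 * (1 / 4 + 4 * a₁ ^ 2 * C₂) ≤ 3 / 4)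
    (hA3 : 2 * a₂ ^ 2 * (B + (R + D₃) ^ 2) ≤ θ / 4)
    (hA4 : 2 * a₂ ^ 2 ≤ a ^ 2 / 4) (hA5 : 2 * a₂ ^ 2 * B ≤ a ^ 2 / 4)
    {f : E → ℝ} (hf : ConvexOn ℝ univ f) (hc : Continuous f) (hb : BddBelow (range f))
    (h1 : ∫ x, exp (-f x) ∂μ = 1) : ∫ x, Q a₂ f x ∂μ ≤ 0 := by
  have hL0 : 0 < L := by rw [hLd]; positivity
  have hθ0 : 0 < θ := by rw [hθ]; positivity
  have hM0 : 0 ≤ ∫ x : E, ‖x‖ ^ 2 ∂μ := integral_nonneg fun x => by positivity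
  by_cases hfar : ∃ x, R < ‖x‖ ∧ f x < -(a ^ 2 / 2 * ‖x‖ ^ 2)
  · obtain ⟨x, hx, hfx⟩ := hfar
    have h2 := Q_int_le hb hsq a₂ x
    have h3 : 2 * a₂ ^ 2 * ‖x‖ ^ 2 ≤ a ^ 2 / 4 * ‖x‖ ^ 2 :=
      mul_le_mul_of_nonneg_right hA4 (sq_nonneg _)
    have h4 : 2 * a₂ ^ 2 * ∫ x, ‖x‖ ^ 2 ∂μ ≤ a ^ 2 / 4 := by
      have : 2 * a₂ ^ 2 * ∫ x, ‖x‖ ^ 2 ∂μ ≤ 2 * a₂ ^ 2 * B :=
        mul_le_mul_of_nonneg_left hB (by positivity)
      linarith
    have h5 : a ^ 2 / 4 * 1 ≤ a ^ 2 / 4 * ‖x‖ ^ 2 := by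
      apply mul_le_mul_of_nonneg_left _ (by positivity)
      have : 1 ≤ ‖x‖ := by linarith
      nlinarith
    linarith
  push Not at hfar
  obtain ⟨y₀, hy₀, hfy₀⟩ := exists_bulk hc hb h1 hgauss hR2 hfar
  set φ := Lp L f with hφd
  have hφc : ConvexOn ℝ univ φ := Lp_convex hf hb hL0.le
  have hφb : BddBelow (range φ) := bdd_Lp hb hL0.le
  have hφl : Lipsch L φ := Lp_lipsch hb hL0.le
  have ha14 : a₁ ^ 2 * a₁ ^ 2 ≤ a₁ ^ 2 * (1 / 2) := mul_le_mul_of_nonneg_left ha12 (sq_nonneg _)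
  obtain ⟨hV0, hlow, hY, hexp⟩ := step1 ha₁ h8 hT hnorm hsq hB1 hB hw hC hC2 ha12 hL0
    (by rw [hLd]; nlinarith) (by rw [hLd]; nlinarith [sq_nonneg a₁]) hφc hφb hφl
  have hi1 : Integrable φ μ := hφl.integrable hnorm
  have hi2 : Integrable (Q a₁ φ) μ := (Q_lipsch hφb hφl a₁).integrable hnorm
  have hVm : ∫ x, Q a₁ φ x ∂μ = ∫ y, φ y ∂μ - ∫ x, (φ x - Q a₁ φ x) ∂μ := by
    rw [integral_sub hi1 hi2]; ring
  set V := ∫ x, (φ x - Q a₁ φ x) ∂μ with hVd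
  set m := ∫ y, φ y ∂μ with hm
  have hmV : m ≤ V / 4 := by
    have h2 : ∫ x, exp (-f x) ∂μ ≤ ∫ x, exp (-φ x) ∂μ := by
      apply integral_mono (integrable_exp_neg hc hb) (integrable_exp_neg hφl.continuous hφb)
      intro x
      apply exp_le_exp.2
      have := Lp_le_self hb hL0.le x
      linarith
    rw [h1] at h2
    have h3 := h2.trans hexp
    have h4 : (0 : ℝ) ≤ -m + V / 4 := by
      by_contra hcon
      push Not at hcon
      have h5 := Real.exp_lt_exp.2 hcon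
      rw [Real.exp_zero] at h5
      linarith
    linarith
  by_cases hVθ : V ≤ θ
  · -- case A
    have hs : √V ≤ L / (8 * a₁) := by
      rw [Real.sqrt_le_left (by positivity)]
      rw [hθ] at hVθ
      refine hVθ.trans (le_of_eq ?_)
      field_simp
      norm_num
    have hSL : 4 * a₁ * √V ≤ L / 2 := by
      rw [le_div_iff₀ (by positivity)] at hs
      linarith
    have hpt := pointwiseA hb ha₁ hL0 (by rw [hLd]; linarith : 2 * L ≤ a₁ ^ 2)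
      (Real.sqrt_nonneg V) hSL hA1 (by linarith : (0 : ℝ) ≤ B) hlow
    have hIY : Integrable (fun x => max (φ x - m) 0 ^ 2) μ := hφl.integrable_sq hL0.le hsq m
    have hIW : Integrable (fun x : E => 4 * a₁ ^ 2 * √V ^ 2 * (ell B x + 2) ^ 2) μ :=
      hw2.const_mul _
    have hI2 : Integrable (fun x => max (φ x - m) 0 ^ 2 +
        4 * a₁ ^ 2 * √V ^ 2 * (ell B x + 2) ^ 2) μ := hIY.add hIW
    have hI3 : Integrable (fun x => 24 * a₂ ^ 2 / L ^ 2 * (max (φ x - m) 0 ^ 2 +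
        4 * a₁ ^ 2 * √V ^ 2 * (ell B x + 2) ^ 2)) μ := hI2.const_mul _
    have h2 : ∫ x, Q a₂ f x ∂μ ≤ ∫ x, (Q a₁ φ x + 24 * a₂ ^ 2 / L ^ 2 *
        (max (φ x - m) 0 ^ 2 + 4 * a₁ ^ 2 * √V ^ 2 * (ell B x + 2) ^ 2)) ∂μ :=
      integral_mono (Q_integrable hb hsq a₂) (hi2.add hI3) hpt
    rw [integral_add hi2 hI3, integral_const_mul, integral_add hIY hIW, integral_const_mul,
      Real.sq_sqrt hV0] at h2
    have h3 : 4 * a₁ ^ 2 * V * ∫ x, (ell B x + 2) ^ 2 ∂μ ≤ 4 * a₁ ^ 2 * V * C₂ :=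
      mul_le_mul_of_nonneg_left hCC2 (by positivity)
    have h4 : 24 * a₂ ^ 2 / L ^ 2 * (∫ x, max (φ x - m) 0 ^ 2 ∂μ +
        4 * a₁ ^ 2 * V * ∫ x, (ell B x + 2) ^ 2 ∂μ) ≤
        24 * a₂ ^ 2 / L ^ 2 * (V / 4 + 4 * a₁ ^ 2 * V * C₂) :=
      mul_le_mul_of_nonneg_left (by linarith) (by positivity)
    have h5 : 24 * a₂ ^ 2 / L ^ 2 * (V / 4 + 4 * a₁ ^ 2 * V * C₂) =
        (24 * a₂ ^ 2 / L ^ 2 * (1 / 4 + 4 * a₁ ^ 2 * C₂)) * V := by ring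
    have h6 : (24 * a₂ ^ 2 / L ^ 2 * (1 / 4 + 4 * a₁ ^ 2 * C₂)) * V ≤ 3 / 4 * V :=
      mul_le_mul_of_nonneg_right hA2 hV0
    linarith
  · -- case B
    push Not at hVθ
    have hq : ∫ x, Q a₁ φ x ∂μ < -(2 * (θ / 4)) - L * (θ / (4 * L)) := by
      have : L * (θ / (4 * L)) = θ / 4 := by field_simp
      rw [this, hVm]
      linarith
    obtain ⟨x, hx, hqx⟩ := exists_low hL0.le hR (Q_lipsch hφb hφl a₁) hnorm hR1 hq
    obtain ⟨w, hw, hfw⟩ := low_point hf ha₁ hL0 (by positivity : 0 < θ / 4) (by linarith) hx hqx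
      hy₀ hfy₀
    rw [← hD₃] at hw
    have h2 := Q_int_le hb hsq a₂ w
    have h3 : ‖w‖ ^ 2 ≤ (R + D₃) ^ 2 := pow_le_pow_left₀ (norm_nonneg _) hw 2
    have h4 : 2 * a₂ ^ 2 * (∫ x, ‖x‖ ^ 2 ∂μ) + 2 * a₂ ^ 2 * ‖w‖ ^ 2 ≤
        2 * a₂ ^ 2 * (B + (R + D₃) ^ 2) := by
      rw [← mul_add]
      exact mul_le_mul_of_nonneg_left (by linarith) (by positivity)
    linarith

/-- `T⁻` implies `T⁺` -/
theorem main [FiniteDimensional ℝ E] {μ : Measure E} [IsProbabilityMeasure μ] {a : ℝ}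
    (ha : 0 < a) (hnorm : Integrable (fun x : E => ‖x‖) μ) (hT : TMinus μ a) :
    ∃ a₂ : ℝ, 0 < a₂ ∧ a₂ ≤ a ∧ TPlus μ a₂ := by
  have hexp1 := exp_moment ha hT hnorm (zero_le_one)
  have hexp4 := exp_moment ha hT hnorm (by norm_num : (0 : ℝ) ≤ 4)
  have hsq := sq_moment hexp1
  have hgauss := gauss_moment ha hT hsq
  have hM0 : 0 ≤ ∫ x : E, ‖x‖ ^ 2 ∂μ := integral_nonneg fun x => by positivity
  set B := 1 + ∫ x : E, ‖x‖ ^ 2 ∂μ with hBd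
  have hB1 : 1 ≤ B := by linarith
  have hB : ∫ x : E, ‖x‖ ^ 2 ∂μ ≤ B := by linarith
  have hw : Integrable (fun x : E => ell B x ^ 2 * exp (ell B x)) μ := by
    refine (hexp4.const_mul (2 * exp (4 * B))).mono' ?_ (Eventually.of_forall fun x => ?_)
    · have := ell_continuous (E := E) B
      exact (by fun_prop : Continuous fun x : E => ell B x ^ 2 * exp (ell B x)).aestronglyMeasurable
    · have h0 : 0 ≤ ell B x := by have := ell_ge_one hB1 x; linarith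
      rw [Real.norm_of_nonneg (by positivity)]
      have h2 := Real.quadratic_le_exp_of_nonneg h0
      have h3 : ell B x ^ 2 ≤ 2 * exp (ell B x) := by linarith
      have h4 : 2 * exp (4 * B) * exp (4 * ‖x‖) = 2 * exp (ell B x) * exp (ell B x) := by
        rw [mul_assoc, mul_assoc, ← exp_add, ← exp_add]
        congr 2
        unfold ell; ring
      rw [h4]
      exact mul_le_mul_of_nonneg_right h3 (exp_pos _).le
  have hw2 : Integrable (fun x : E => (ell B x + 2) ^ 2) μ := by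
    refine ((hsq.const_mul 8).add (integrable_const (2 * (2 * B + 2) ^ 2))).mono' ?_
      (Eventually.of_forall fun x => ?_)
    · have := ell_continuous (E := E) B
      exact (by fun_prop : Continuous fun x : E => (ell B x + 2) ^ 2).aestronglyMeasurable
    · rw [Real.norm_of_nonneg (by positivity)]
      simp only [Pi.add_apply]
      unfold ell
      nlinarith [sq_nonneg (2 * ‖x‖ - (2 * B + 2))]
  set C := ∫ x : E, ell B x ^ 2 * exp (ell B x) ∂μ with hCd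
  have hC0 : 0 ≤ C := integral_nonneg fun x => by positivity
  set C₂ := ∫ x : E, (ell B x + 2) ^ 2 ∂μ with hC₂d
  have hC₂0 : 0 ≤ C₂ := integral_nonneg fun x => by positivity
  -- `a₁`
  set a₁ := min (a / 8) (1 / (8 * (1 + C))) with ha₁d
  have ha₁ : 0 < a₁ := lt_min (by positivity) (by positivity)
  have h8 : 8 * a₁ ≤ a := by
    have : a₁ ≤ a / 8 := min_le_left _ _
    linarith
  have ha₁C : a₁ * (8 * (1 + C)) ≤ 1 := by
    have : a₁ ≤ 1 / (8 * (1 + C)) := min_le_right _ _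
    rwa [le_div_iff₀ (by positivity)] at this
  have ha₁8 : a₁ ≤ 1 / 8 := by nlinarith
  have ha12 : a₁ ^ 2 ≤ 1 / 2 := by nlinarith
  have hC2 : 32 * a₁ ^ 2 * C ≤ 1 := by
    have h2 : a₁ * C ≤ 1 / 8 := by nlinarith
    have h3 : a₁ * (a₁ * C) ≤ 1 / 8 * (1 / 8) := mul_le_mul ha₁8 h2 (by positivity) (by norm_num)
    nlinarith
  set L := a₁ ^ 2 / 2 with hLd
  have hL0 : 0 < L := by positivity
  set θ := L ^ 2 / (64 * a₁ ^ 2) with hθ
  have hθ0 : 0 < θ := by positivity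
  obtain ⟨N₁, hN₁⟩ := exists_tail hnorm (by positivity : 0 < θ / (4 * L))
  obtain ⟨N₂, hN₂⟩ := exists_tail hgauss (by norm_num : (0 : ℝ) < 1 / 2)
  set N := max (max N₁ N₂) 1 with hN
  set R : ℝ := (N : ℝ) with hRd
  have hR : 1 ≤ R := by
    have h : 1 ≤ N := le_max_right _ _
    exact Nat.one_le_cast.2 h
  have hR1 : ∫ x in {x : E | R < ‖x‖}, ‖x‖ ∂μ ≤ θ / (4 * L) :=
    (hN₁ N ((le_max_left _ _).trans (le_max_left _ _))).le
  have hR2 : ∫ x in {x : E | R < ‖x‖}, exp (a ^ 2 / 2 * ‖x‖ ^ 2) ∂μ < 1 / 2 :=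
    hN₂ N ((le_max_right _ _).trans (le_max_left _ _))
  set D₃ := (1 + L ^ 2 / (4 * a₁ ^ 2) + 2 * R * L + θ / 4) / L with hD₃
  -- `a₂`
  set K := 1 + 1 / a + 2 / a₁ ^ 2 + (24 / L ^ 2 * (1 / 4 + 4 * a₁ ^ 2 * C₂)) / (3 / 4) +
    2 * (B + (R + D₃) ^ 2) / (θ / 4) + 2 / (a ^ 2 / 4) + 2 * B / (a ^ 2 / 4) with hK
  have t1 : 0 ≤ 1 / a := by positivity
  have t2 : 0 ≤ 2 / a₁ ^ 2 := by positivity
  have t3 : 0 ≤ (24 / L ^ 2 * (1 / 4 + 4 * a₁ ^ 2 * C₂)) / (3 / 4) := by positivity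
  have t4 : 0 ≤ 2 * (B + (R + D₃) ^ 2) / (θ / 4) := by positivity
  have t5 : 0 ≤ 2 / (a ^ 2 / 4) := by positivity
  have t6 : 0 ≤ 2 * B / (a ^ 2 / 4) := by positivity
  have hK1 : 1 ≤ K := by rw [hK]; linarith
  have hK0 : 0 < K := by linarith
  set a₂ := 1 / K with ha₂d
  have ha₂ : 0 < a₂ := by positivity
  have ha₂1 : a₂ ≤ 1 := by rw [ha₂d, div_le_one hK0]; exact hK1
  have ha₂K : a₂ * K = 1 := by rw [ha₂d]; field_simp
  -- generic consequence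
  have gen : ∀ u c : ℝ, 0 ≤ u → 0 < c → u / c ≤ K → a₂ ^ 2 * u ≤ c := by
    intro u c hu hc h
    have h2 : u ≤ K * c := by rwa [div_le_iff₀ hc] at h
    have h3 : a₂ ^ 2 * u ≤ a₂ ^ 2 * (K * c) := mul_le_mul_of_nonneg_left h2 (sq_nonneg _)
    have h4 : a₂ ^ 2 * (K * c) = a₂ * c * (a₂ * K) := by ring
    rw [h4, ha₂K, mul_one] at h3
    nlinarith
  have ha₂a : a₂ ≤ a := by
    rw [ha₂d, div_le_iff₀ hK0]
    have h2 : 1 / a ≤ K := by rw [hK]; linarith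
    have h3 : a * (1 / a) ≤ a * K := mul_le_mul_of_nonneg_left h2 ha.le
    have h4 : a * (1 / a) = 1 := by field_simp
    linarith
  have hA1 : 2 * a₂ ^ 2 ≤ a₁ ^ 2 := by
    have := gen 2 (a₁ ^ 2) (by norm_num) (by positivity) (by rw [hK]; linarith)
    linarith
  have hA2 : 24 * a₂ ^ 2 / L ^ 2 * (1 / 4 + 4 * a₁ ^ 2 * C₂) ≤ 3 / 4 := by
    have := gen (24 / L ^ 2 * (1 / 4 + 4 * a₁ ^ 2 * C₂)) (3 / 4) (by positivity) (by norm_num)
      (by rw [hK]; linarith)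
    have e : 24 * a₂ ^ 2 / L ^ 2 * (1 / 4 + 4 * a₁ ^ 2 * C₂) =
      a₂ ^ 2 * (24 / L ^ 2 * (1 / 4 + 4 * a₁ ^ 2 * C₂)) := by ring
    rw [e]; exact this
  have hA3 : 2 * a₂ ^ 2 * (B + (R + D₃) ^ 2) ≤ θ / 4 := by
    have := gen (2 * (B + (R + D₃) ^ 2)) (θ / 4) (by positivity) (by positivity)
      (by rw [hK]; linarith)
    linarith
  have hA4 : 2 * a₂ ^ 2 ≤ a ^ 2 / 4 := by
    have := gen 2 (a ^ 2 / 4) (by norm_num) (by positivity) (by rw [hK]; linarith)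
    linarith
  have hA5 : 2 * a₂ ^ 2 * B ≤ a ^ 2 / 4 := by
    have := gen (2 * B) (a ^ 2 / 4) (by positivity) (by positivity) (by rw [hK]; linarith)
    linarith
  refine ⟨a₂, ha₂, ha₂a, ?_⟩
  intro f hf hb
  have hc : Continuous f := by
    have := hf.continuousOn isOpen_univ
    exact continuousOn_univ.1 this
  refine ⟨Q_integrable hb hsq a₂, ?_⟩
  have hpos : 0 < ∫ x, exp (-f x) ∂μ := by
    rw [integral_pos_iff_support_of_nonneg (fun x => (exp_pos _).le) (integrable_exp_neg hc hb)]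
    have : Function.support (fun x => exp (-f x)) = univ := by
      ext x; simp [(exp_pos (-f x)).ne']
    rw [this]
    simp
  set c := Real.log (∫ x, exp (-f x) ∂μ) with hcd
  have hexpc : exp c = ∫ x, exp (-f x) ∂μ := Real.exp_log hpos
  have hconv : ConvexOn ℝ univ (fun x => f x + c) := hf.add (convexOn_const c convex_univ)
  have hb' : BddBelow (range fun y => f y + c) := by
    obtain ⟨b, hb⟩ := hb
    refine ⟨b + c, ?_⟩
    rintro _ ⟨y, rfl⟩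
    have : b ≤ f y := hb ⟨y, rfl⟩
    simp only
    linarith
  have hnormd : ∫ x, exp (-(f x + c)) ∂μ = 1 := by
    have e : ∀ x, exp (-(f x + c)) = exp (-c) * exp (-f x) := by
      intro x; rw [← exp_add]; congr 1; ring
    simp only [e]
    rw [integral_const_mul, ← hexpc, ← exp_add]
    simp
  have h2 := normalized ha₁ h8 hT hnorm hsq hgauss hB1 hB hw le_rfl hC2 ha12 hLd hw2 le_rfl hθ hR
    hR1 hR2 hD₃ hA1 hA2 hA3 hA4 hA5 hconv (by fun_prop) hb' hnormd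
  have h3 : ∫ x, Q a₂ (fun y => f y + c) x ∂μ = ∫ x, Q a₂ f x ∂μ + c := by
    simp only [Q_shift hb]
    rw [integral_add (Q_integrable hb hsq a₂) (integrable_const _)]
    simp
  rw [h3] at h2
  rw [← hexpc, ← exp_add]
  exact (Real.exp_le_one_iff).2 h2

end Pool.Agent.V11128.Weak
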