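import Mathlib

namespace Pool.Agent.V11128.ForestGame

/-- colour sign: white (`true`) counts `1`, black (`false`) counts `-1` -/
def sg : Bool → ℤ
  | true => 1
  | false => -1

/-- planar coloured forests -/
inductive Fo
  | nil
  | cons (c : Bool) (ch rest : Fo)

namespace Fo

def app : Fo → Fo → Fo
  | nil, g => g
  | cons c ch r, g => cons c ch (app r g)

/-- some root has colour `d` -/
def hasCol (d : Bool) : Fo → Bool
  | nil => false
  | cons c _ r => (c == d) || hasCol d r

/-- some root of colour `c` has a child of colour `!c` -/
def wit (c : Bool) : Fo → Bool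
  | nil => false
  | cons c' ch r => ((c' == c) && hasCol (!c) ch) || wit c r

/-- no blocking triple -/
def good : Fo → Bool
  | nil => true
  | cons c ch r => (!wit c ch && good ch) && good r

def gt (c : Bool) (ch : Fo) : Bool := !wit c ch && good ch

def u : Fo → ℤ
  | nil => 0
  | cons c ch r => (if gt c ch then sg c else 0) + u ch + u r

def dl : Fo → ℤ
  | nil => 0
  | cons c ch r => (if gt c ch then 0 else if c then max 0 (1 + dl ch) else min 0 (-1 + dl ch))
      + dl r

def v (f : Fo) : ℤ := u f + dl f

theorem good_cons (c : Bool) (ch r : Fo) : good (cons c ch r) = (gt c ch && good r) := rfl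

theorem dl_good : ∀ f : Fo, good f = true → dl f = 0
  | nil, _ => rfl
  | cons c ch r, h => by
    rw [good_cons, Bool.and_eq_true] at h
    simp [dl, h.1, dl_good r h.2]

/-- leaf removal of colour `p` -/
inductive Lf (p : Bool) : Fo → Fo → Prop
  | here (r : Fo) : Lf p (cons p nil r) r
  | rest (c : Bool) (ch : Fo) {r r' : Fo} : Lf p r r' → Lf p (cons c ch r) (cons c ch r')
  | up (c : Bool) {ch ch' : Fo} (r : Fo) : Lf p ch ch' → Lf p (cons c ch r) (cons c ch' r)

/-- root removal of colour `p` -/
inductive Rt (p : Bool) : Fo → Fo → Prop
  | here (ch r : Fo) : Rt p (cons p ch r) (app ch r)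
  | rest (c : Bool) (ch : Fo) {r r' : Fo} : Rt p r r' → Rt p (cons c ch r) (cons c ch r')

theorem hasCol_Lf {p d : Bool} {f f' : Fo} (h : Lf p f f') : hasCol d f' = true → hasCol d f = true := by
  induction h with
  | here r => intro h; simp [hasCol, h]
  | rest c ch _ ih => intro h; simp only [hasCol, Bool.or_eq_true] at h ⊢; exact h.imp id ih
  | up c r _ ih => intro h; simpa [hasCol] using h

theorem wit_Lf {p d : Bool} {f f' : Fo} (h : Lf p f f') : wit d f' = true → wit d f = true := by
  induction h with
  | here r => intro h; simp [wit, h]
  | rest c ch _ ih =>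
    intro h; simp only [wit, Bool.or_eq_true] at h ⊢; exact h.imp id ih
  | up c r h1 ih =>
    intro h
    simp only [wit, Bool.or_eq_true, Bool.and_eq_true] at h ⊢
    exact h.imp (fun h => ⟨h.1, hasCol_Lf h1 h.2⟩) id

theorem good_Lf {p : Bool} {f f' : Fo} (h : Lf p f f') : good f = true → good f' = true := by
  induction h with
  | here r => intro h; rw [good_cons, Bool.and_eq_true] at h; exact h.2
  | rest c ch _ ih =>
    intro h; rw [good_cons, Bool.and_eq_true] at h ⊢; exact ⟨h.1, ih h.2⟩
  | up c r h1 ih =>
    intro h
    rw [good_cons, Bool.and_eq_true, gt, Bool.and_eq_true, Bool.not_eq_true'] at h ⊢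
    refine ⟨⟨?_, ih h.1.2⟩, h.2⟩
    by_contra h2
    rw [Bool.not_eq_false] at h2
    rw [wit_Lf h1 h2] at h
    exact absurd h.1.1 (by simp)

theorem gt_Lf {p c : Bool} {f f' : Fo} (h : Lf p f f') : gt c f = true → gt c f' = true := by
  intro hg
  have := good_Lf (Lf.up c nil h) (by rw [good_cons, hg]; rfl)
  rw [good_cons, Bool.and_eq_true] at this
  exact this.1

/-- removing a white leaf keeps black roots -/
theorem hasCol_false_Lf {f f' : Fo} (h : Lf true f f') : hasCol false f = true →
    hasCol false f' = true := by
  induction h with
  | here r => intro h; simpa [hasCol] using h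
  | rest c ch _ ih => intro h; simp only [hasCol, Bool.or_eq_true] at h ⊢; exact h.imp id ih
  | up c r _ ih => intro h; simpa [hasCol] using h

theorem wit_true_Lf {f f' : Fo} (h : Lf true f f') : wit true f = true →
    wit true f' = true := by
  induction h with
  | here r => intro h; simpa [wit, hasCol] using h
  | rest c ch _ ih =>
    intro h; simp only [wit, Bool.or_eq_true] at h ⊢; exact h.imp id ih
  | up c r h1 ih =>
    intro h
    simp only [wit, Bool.or_eq_true, Bool.and_eq_true] at h ⊢
    exact h.imp (fun h => ⟨h.1, hasCol_false_Lf h1 h.2⟩) id

/-- all vertices are white -/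
def allW : Fo → Prop
  | nil => True
  | cons c ch r => c = true ∧ allW ch ∧ allW r

theorem allW_Lf {f f' : Fo} (h : Lf true f f') : allW f' → allW f := by
  induction h with
  | here r => intro h; exact ⟨rfl, trivial, h⟩
  | rest c ch _ ih => intro h; exact ⟨h.1, h.2.1, ih h.2.2⟩
  | up c r _ ih => intro h; exact ⟨h.1, ih h.2.1, h.2.2⟩

theorem allW_hasCol : ∀ f : Fo, allW f → hasCol false f = false
  | nil, _ => rfl
  | cons c ch r, h => by simp [hasCol, h.1, allW_hasCol r h.2.2]

theorem allW_wit : ∀ f : Fo, allW f → wit true f = false
  | nil, _ => rfl
  | cons c ch r, h => by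
    simp [wit, allW_hasCol ch h.2.1, allW_wit r h.2.2]

theorem allW_good : ∀ f : Fo, allW f → good f = true
  | nil, _ => rfl
  | cons c ch r, h => by
    have hc := h.1
    subst hc
    simp [good, allW_wit ch h.2.1, allW_good ch h.2.1, allW_good r h.2.2]

theorem allW_of : ∀ f : Fo, good f = true → hasCol false f = false → wit true f = false → allW f
  | nil, _, _, _ => trivial
  | cons c ch r, h1, h2, h3 => by
    rw [good_cons, Bool.and_eq_true, gt, Bool.and_eq_true, Bool.not_eq_true'] at h1
    simp only [hasCol, Bool.or_eq_false_iff] at h2
    have hc : c = true := by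
      cases c
      · simp at h2
      · rfl
    subst hc
    simp only [wit, Bool.or_eq_false_iff, BEq.rfl, Bool.true_and, Bool.not_true] at h3
    exact ⟨rfl, allW_of ch h1.1.2 h3.1 h1.1.1, allW_of r h1.2 h2.2 h3.2⟩

/-- main inequality for `u` under removal of a white leaf -/
theorem u_Lf {f f' : Fo} (h : Lf true f f') :
    u f' ≤ u f - 1 ∧ (good f = false → good f' = true → wit true f' = false → u f' ≤ u f - 2) := by
  induction h with
  | here r =>
    refine ⟨by simp [u, gt, wit, good, sg], ?_⟩
    intro h1 h2
    rw [good_cons, h2] at h1
    simp [gt, wit, good] at h1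
  | rest c ch h ih =>
    refine ⟨by simp only [u]; linarith [ih.1], ?_⟩
    intro h1 h2 h3
    rw [good_cons, Bool.and_eq_true] at h2
    rw [good_cons, h2.1, Bool.true_and] at h1
    simp only [wit, Bool.or_eq_false_iff] at h3
    have := ih.2 h1 h2.2 h3.2
    simp only [u]
    linarith
  | @up c ch ch' r h ih =>
    -- the tree part
    have key : (if gt c ch' then sg c else 0) + u ch' ≤ (if gt c ch then sg c else 0) + u ch - 1 := by
      by_cases hg : gt c ch = true
      · rw [hg, gt_Lf h hg]; linarith [ih.1]
      · by_cases hg' : gt c ch' = true
        · rw [hg', if_neg hg, if_pos rfl]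
          cases c
          · simp only [sg]; linarith [ih.1]
          · have hw' : wit true ch' = false ∧ good ch' = true := by
              rw [gt, Bool.and_eq_true, Bool.not_eq_true'] at hg'
              exact hg'
            have hw : wit true ch = false := by
              by_contra h2
              rw [Bool.not_eq_false] at h2
              rw [wit_true_Lf h h2] at hw'
              simp at hw'
            have hgd : good ch = false := by
              by_contra h2
              rw [Bool.not_eq_false] at h2
              exact hg (by rw [gt, hw, h2]; rfl)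
            have := ih.2 hgd hw'.2 hw'.1
            simp only [sg]
            linarith
        · rw [if_neg hg, if_neg hg']; linarith [ih.1]
    refine ⟨by simp only [u]; linarith, ?_⟩
    intro h1 h2 h3
    rw [good_cons, Bool.and_eq_true] at h2
    rw [good_cons, h2.2, Bool.and_true] at h1
    have hw' : wit c ch' = false ∧ good ch' = true := by
      have := h2.1
      rw [gt, Bool.and_eq_true, Bool.not_eq_true'] at this
      exact this
    cases c
    · simp only [u, h1, h2.1, if_true, sg]
      have : u ch' ≤ u ch - 1 := ih.1
      simp
      linarith
    · exfalso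
      simp only [wit, Bool.or_eq_false_iff, BEq.rfl, Bool.true_and, Bool.not_true] at h3
      have h4 := allW_of ch' hw'.2 h3.1 hw'.1
      have h5 := allW_Lf h h4
      rw [gt, allW_wit ch h5, allW_good ch h5] at h1
      simp at h1

theorem v_app : ∀ f g : Fo, v (app f g) = v f + v g
  | nil, g => by simp [app, v, u, dl]
  | cons c ch r, g => by
    have := v_app r g
    simp only [v, app, u, dl] at this ⊢
    linarith

theorem v_cons (c : Bool) (ch r : Fo) : v (cons c ch r) =
    (if gt c ch then sg c + v ch else if c then max (u ch) (1 + v ch) else min (u ch) (-1 + v ch))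
      + v r := by
  by_cases hg : gt c ch = true
  · have hgd : good ch = true := by
      rw [gt, Bool.and_eq_true] at hg
      exact hg.2
    simp only [v, u, dl, hg, if_true, dl_good ch hgd]
    ring
  · simp only [v, u, dl, if_neg hg]
    cases c
    · simp only [Bool.false_eq_true, if_false]
      have : min (u ch) (-1 + (u ch + dl ch)) = u ch + min 0 (-1 + dl ch) := by
        rw [← min_add_add_left]; ring_nf
      rw [this]; ring
    · simp only [if_true]
      have : max (u ch) (1 + (u ch + dl ch)) = u ch + max 0 (1 + dl ch) := by
        rw [← max_add_add_left]; ring_nf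
      rw [this]; ring

theorem v_Lf {f f' : Fo} (h : Lf true f f') : v f' ≤ v f - 1 := by
  induction h with
  | here r => rw [v_cons]; simp [gt, wit, good, sg, v, u, dl]
  | rest c ch h ih => rw [v_cons, v_cons]; linarith
  | @up c ch ch' r h ih =>
    rw [v_cons, v_cons]
    have hu := u_Lf h
    have hU := (u_Lf (Lf.up c nil h)).1
    simp only [u] at hU
    by_cases hg : gt c ch = true
    · rw [if_pos hg, if_pos (gt_Lf h hg)]; linarith
    · rw [if_neg hg] at hU ⊢
      by_cases hg' : gt c ch' = true
      · rw [if_pos hg'] at hU ⊢
        have hgd : good ch' = true := by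
          rw [gt, Bool.and_eq_true] at hg'
          exact hg'.2
        have hv' : v ch' = u ch' := by simp [v, dl_good ch' hgd]
        cases c
        · simp only [Bool.false_eq_true, if_false, sg]
          have : -1 + v ch' ≤ min (u ch) (-1 + v ch) - 1 := by
            rw [← min_sub_sub_right]
            apply le_min
            · linarith [hu.1]
            · linarith
          linarith
        · simp only [if_true, sg] at hU ⊢
          have : u ch ≤ max (u ch) (1 + v ch) := le_max_left _ _
          linarith
      · rw [if_neg hg']
        cases c
        · simp only [Bool.false_eq_true, if_false]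
          have : min (u ch') (-1 + v ch') ≤ min (u ch) (-1 + v ch) - 1 := by
            rw [← min_sub_sub_right]
            exact min_le_min hu.1 (by linarith)
          linarith
        · simp only [if_true]
          have : max (u ch') (1 + v ch') ≤ max (u ch) (1 + v ch) - 1 := by
            rw [← max_sub_sub_right]
            exact max_le_max hu.1 (by linarith)
          linarith

theorem v_Rt {f f' : Fo} (h : Rt true f f') : v f' ≤ v f - 1 := by
  induction h with
  | here ch r =>
    rw [v_cons, v_app]
    by_cases hg : gt true ch = true
    · rw [if_pos hg]; simp only [sg]; linarith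
    · rw [if_neg hg, if_pos rfl]
      have : 1 + v ch ≤ max (u ch) (1 + v ch) := le_max_right _ _
      linarith
  | rest c ch h ih => rw [v_cons, v_cons]; linarith

/-- white leaf removal which changes no status -/
inductive SP : Fo → Fo → Prop
  | here (r : Fo) : SP (cons true nil r) r
  | rest (c : Bool) (ch : Fo) {r r' : Fo} : SP r r' → SP (cons c ch r) (cons c ch r')
  | up (c : Bool) {ch ch' : Fo} (r : Fo) : SP ch ch' → gt c ch = gt c ch' →
      SP (cons c ch r) (cons c ch' r)

theorem SP.lf {f f' : Fo} (h : SP f f') : Lf true f f' := by
  induction h with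
  | here r => exact Lf.here r
  | rest c ch _ ih => exact Lf.rest c ch ih
  | up c r _ _ ih => exact Lf.up c r ih

theorem SP.good_eq {f f' : Fo} (h : SP f f') : good f = good f' := by
  induction h with
  | here r => simp [good, wit]
  | rest c ch _ ih => rw [good_cons, good_cons, ih]
  | up c r _ hg ih => rw [good_cons, good_cons, hg]

theorem SP.u_eq {f f' : Fo} (h : SP f f') : u f' = u f - 1 := by
  induction h with
  | here r => simp [u, gt, wit, good, sg]
  | rest c ch _ ih => simp only [u]; linarith
  | up c r _ hg ih => simp only [u, hg]; linarith

theorem SP.dl_eq {f f' : Fo} (h : SP f f') : dl f' = dl f := by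
  induction h with
  | here r => simp [dl, gt, wit, good]
  | rest c ch _ ih => simp only [dl]; linarith
  | up c r _ hg ih => simp only [dl, hg, ih]

theorem SP.v_eq {f f' : Fo} (h : SP f f') : v f' = v f - 1 := by
  simp only [v, h.u_eq, h.dl_eq]; ring

/-- a good forest with a white root none of whose white roots has a black child has a white leaf -/
theorem exists_lf : ∀ g : Fo, hasCol true g = true → wit true g = false → good g = true →
    ∃ g', Lf true g g'
  | nil, h, _, _ => by simp [hasCol] at h
  | cons c g1 r, h1, h2, h3 => by
    rw [good_cons, Bool.and_eq_true, gt, Bool.and_eq_true, Bool.not_eq_true'] at h3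
    simp only [wit, Bool.or_eq_false_iff] at h2
    cases c
    · have h4 : hasCol true r = true := by simpa [hasCol] using h1
      obtain ⟨r', hr⟩ := exists_lf r h4 h2.2 h3.2
      exact ⟨_, Lf.rest _ _ hr⟩
    · have h5 : hasCol false g1 = false := by simpa using h2.1
      cases g1 with
      | nil => exact ⟨_, Lf.here r⟩
      | cons c' a b =>
        have h6 : c' = true := by
          cases c'
          · simp [hasCol] at h5
          · rfl
        obtain ⟨g', hg⟩ := exists_lf (cons c' a b) (by simp [hasCol, h6]) h3.1.1 h3.1.2
        exact ⟨_, Lf.up _ _ hg⟩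

/-- good forests without white leaves -/
theorem no_lf : ∀ f : Fo, good f = true → (∀ f', ¬ Lf true f f') →
    u f ≤ 0 ∧ (f ≠ nil → hasCol true f = false → u f ≤ -1)
  | nil, _, _ => ⟨le_rfl, fun h => absurd rfl h⟩
  | cons c ch r, h1, h2 => by
    rw [good_cons, Bool.and_eq_true] at h1
    have hg := h1.1
    have hw : wit c ch = false ∧ good ch = true := by
      rw [gt, Bool.and_eq_true, Bool.not_eq_true'] at hg
      exact hg
    have hr := no_lf r h1.2 (fun r' h => h2 _ (Lf.rest c ch h))
    have hc := no_lf ch hw.2 (fun r' h => h2 _ (Lf.up c r h))
    cases c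
    · have : u (cons false ch r) ≤ -1 := by
        simp only [u, hg, if_true, sg]
        linarith [hr.1, hc.1]
      exact ⟨by linarith, fun _ _ => this⟩
    · have hne : ch ≠ nil := by
        rintro rfl
        exact h2 _ (Lf.here r)
      have hcol : hasCol true ch = false := by
        by_contra h3
        rw [Bool.not_eq_false] at h3
        obtain ⟨g', hg'⟩ := exists_lf ch h3 hw.1 hw.2
        exact h2 _ (Lf.up _ _ hg')
      have := hc.2 hne hcol
      refine ⟨?_, fun _ h3 => ?_⟩
      · simp only [u, hg, if_true, sg]
        linarith [hr.1]
      · simp [hasCol] at h3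

/-- if every white leaf removal kills all white roots, then `u ≤ 1` -/
theorem kill_one : ∀ g : Fo, good g = true → hasCol true g = true →
    (∀ g', Lf true g g' → hasCol true g' = false) → u g ≤ 1
  | nil, _, _, _ => by simp [u]
  | cons c g1 r, h1, h0, h2 => by
    rw [good_cons, Bool.and_eq_true] at h1
    by_cases hr : hasCol true r = true
    · have hnl : ∀ f', ¬ Lf true g1 f' := by
        intro f' hf
        have := h2 _ (Lf.up c r hf)
        simp [hasCol, hr] at this
      have hc : u (cons c g1 nil) ≤ 0 := by
        apply (no_lf (cons c g1 nil) (by rw [good_cons, h1.1]; rfl) ?_).1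
        intro f' hf
        cases hf with
        | here =>
          have := h2 _ (Lf.here r)
          rw [hr] at this
          exact absurd this (by simp)
        | rest _ _ h => cases h
        | up _ _ h => exact hnl _ h
      have := kill_one r h1.2 hr (fun g' h => by
        have := h2 _ (Lf.rest c g1 h)
        simp only [hasCol, Bool.or_eq_false_iff] at this
        exact this.2)
      simp only [u] at hc ⊢
      linarith
    · rw [Bool.not_eq_true] at hr
      cases c
      · simp [hasCol, hr] at h0
      · have hnr : ∀ f', ¬ Lf true r f' := by
          intro f' hf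
          have := h2 _ (Lf.rest true g1 hf)
          simp [hasCol] at this
        have hur := (no_lf r h1.2 hnr).1
        have hng : ∀ f', ¬ Lf true g1 f' := by
          intro f' hf
          have := h2 _ (Lf.up true r hf)
          simp [hasCol] at this
        have hw : wit true g1 = false ∧ good g1 = true := by
          have := h1.1
          rw [gt, Bool.and_eq_true, Bool.not_eq_true'] at this
          exact this
        have hug := (no_lf g1 hw.2 hng).1
        simp only [u, h1.1, if_true, sg]
        linarith

/-- if every white leaf removal kills the witness for a black parent, then `u ≤ 0` -/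
theorem kill_wit : ∀ f : Fo, good f = true → wit false f = true →
    (∀ f', Lf true f f' → wit false f' = false) → u f ≤ 0
  | nil, _, _, _ => by simp [u]
  | cons c g r, h1, h0, h2 => by
    rw [good_cons, Bool.and_eq_true] at h1
    have hw : wit c g = false ∧ good g = true := by
      have := h1.1
      rw [gt, Bool.and_eq_true, Bool.not_eq_true'] at this
      exact this
    by_cases hr : wit false r = true
    · have hnl : ∀ f', ¬ Lf true g f' := by
        intro f' hf
        have := h2 _ (Lf.up c r hf)
        simp [wit, hr] at this
      have hc : u (cons c g nil) ≤ 0 := by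
        apply (no_lf (cons c g nil) (by rw [good_cons, h1.1]; rfl) ?_).1
        intro f' hf
        cases hf with
        | here =>
          have := h2 _ (Lf.here r)
          rw [hr] at this
          exact absurd this (by simp)
        | rest _ _ h => cases h
        | up _ _ h => exact hnl _ h
      have := kill_wit r h1.2 hr (fun g' h => by
        have := h2 _ (Lf.rest c g h)
        simp only [wit, Bool.or_eq_false_iff] at this
        exact this.2)
      simp only [u] at hc ⊢
      linarith
    · rw [Bool.not_eq_true] at hr
      have h3 : c = false ∧ hasCol true g = true := by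
        simpa [wit, hr] using h0
      obtain ⟨rfl, h4⟩ := h3
      have hnr : ∀ f', ¬ Lf true r f' := by
        intro f' hf
        have := h2 _ (Lf.rest false g hf)
        simp [wit, h4] at this
      have hur := (no_lf r h1.2 hnr).1
      have hk := kill_one g hw.2 h4 (fun g' h => by
        have := h2 _ (Lf.up false r h)
        simp only [wit, Bool.or_eq_false_iff, BEq.rfl, Bool.true_and, Bool.not_false] at this
        exact this.1)
      simp only [u, h1.1, if_true, sg]
      linarith

/-- if there is no status preserving white leaf removal then `u ≤ 0` -/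
theorem u_nonpos : ∀ f : Fo, (∀ f', ¬ SP f f') → u f ≤ 0
  | nil, _ => by simp [u]
  | cons c ch r, h => by
    have hr := u_nonpos r (fun f' hf => h _ (SP.rest c ch hf))
    suffices hT : (if gt c ch then sg c else 0) + u ch ≤ 0 by
      simp only [u]; linarith
    by_cases hg : gt c ch = true
    · -- everything is good: every leaf removal preserves the status
      have hw : wit c ch = false ∧ good ch = true := by
        rw [gt, Bool.and_eq_true, Bool.not_eq_true'] at hg
        exact hg
      have hSP : ∀ f f' : Fo, Lf true f f' → good f = true → SP f f' := by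
        intro f f' hf
        induction hf with
        | here r => intro _; exact SP.here r
        | rest c ch h ih =>
          intro hgd
          rw [good_cons, Bool.and_eq_true] at hgd
          exact SP.rest c ch (ih hgd.2)
        | up c r h ih =>
          intro hgd
          rw [good_cons, Bool.and_eq_true] at hgd
          have h1 := hgd.1
          rw [gt, Bool.and_eq_true] at h1
          exact SP.up c r (ih h1.2) (by rw [hgd.1, gt_Lf h hgd.1])
      have hgood : good (cons c ch nil) = true := by rw [good_cons, hg]; rfl
      have := (no_lf (cons c ch nil) hgood ?_).1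
      · simp only [u] at this; linarith
      · intro f' hf
        cases hf with
        | here => exact h _ (SP.here r)
        | rest _ _ h => cases h
        | up _ _ h1 => exact h _ (SP.up c r (hSP _ _ h1 hw.2) (by rw [hg, gt_Lf h1 hg]))
    · rw [if_neg hg, zero_add]
      by_cases hgd : good ch = true
      · have hwit : wit c ch = true := by
          by_contra h2
          rw [Bool.not_eq_true] at h2
          exact hg (by rw [gt, h2, hgd]; rfl)
        by_cases hex : ∃ f', SP ch f'
        · cases c
          · apply kill_wit ch hgd hwit
            intro f' hf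
            by_contra h2
            rw [Bool.not_eq_false] at h2
            have hSP : ∀ f f' : Fo, Lf true f f' → good f = true → SP f f' := by
              intro f f' hf
              induction hf with
              | here r => intro _; exact SP.here r
              | rest c ch h ih =>
                intro hgd
                rw [good_cons, Bool.and_eq_true] at hgd
                exact SP.rest c ch (ih hgd.2)
              | up c r h ih =>
                intro hgd
                rw [good_cons, Bool.and_eq_true] at hgd
                have h1 := hgd.1
                rw [gt, Bool.and_eq_true] at h1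
                exact SP.up c r (ih h1.2) (by rw [hgd.1, gt_Lf h hgd.1])
            refine h _ (SP.up false r (hSP _ _ hf hgd) ?_)
            simp [gt, hwit, h2]
          · exfalso
            obtain ⟨f', hf⟩ := hex
            refine h _ (SP.up true r hf ?_)
            simp [gt, hwit, wit_true_Lf hf.lf hwit]
        · push Not at hex
          exact u_nonpos ch hex
      · rw [Bool.not_eq_true] at hgd
        apply u_nonpos ch
        intro f' hf
        refine h _ (SP.up c r hf ?_)
        have := hf.good_eq
        simp [gt, hgd, ← this]

/-- if the value is positive, White has a move decreasing it by exactly one -/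
theorem exists_move : ∀ f : Fo, 0 < v f → ∃ f', (Lf true f f' ∨ Rt true f f') ∧ v f' = v f - 1
  | nil, h => by simp [v, u, dl] at h
  | cons c ch r, h => by
    by_cases hr : 0 < v r
    · obtain ⟨r', h1, h2⟩ := exists_move r hr
      refine ⟨cons c ch r', h1.imp (Lf.rest c ch) (Rt.rest c ch), ?_⟩
      rw [v_cons, v_cons, h2]; ring
    -- the tree part has positive value
    have hT : 0 < v (cons c ch nil) := by
      rw [v_cons] at h ⊢
      have : v nil = 0 := rfl
      linarith
    have hSP : 0 < u (cons c ch nil) → ∃ f', (Lf true (cons c ch r) f' ∨ Rt true (cons c ch r) f') ∧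
        v f' = v (cons c ch r) - 1 := by
      intro hu
      have : ∃ f', SP (cons c ch nil) f' := by
        by_contra hno
        push Not at hno
        exact absurd (u_nonpos _ hno) (not_le.2 hu)
      obtain ⟨f', hf⟩ := this
      have : ∃ f'', SP (cons c ch r) f'' := by
        cases hf with
        | here => exact ⟨_, SP.here r⟩
        | rest _ _ h => cases h
        | up _ _ h1 h2 => exact ⟨_, SP.up c r h1 h2⟩
      obtain ⟨f'', hf''⟩ := this
      exact ⟨f'', Or.inl hf''.lf, hf''.v_eq⟩
    have hRt : c = true → v (cons c ch nil) = 1 + v ch →
        ∃ f', (Lf true (cons c ch r) f' ∨ Rt true (cons c ch r) f') ∧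
        v f' = v (cons c ch r) - 1 := by
      rintro rfl h1
      refine ⟨app ch r, Or.inr (Rt.here ch r), ?_⟩
      rw [v_cons] at h1 ⊢
      have h2 : v nil = 0 := rfl
      rw [v_app]
      linarith
    have huT : u (cons c ch nil) = (if gt c ch then sg c else 0) + u ch := by simp [u]
    rw [huT] at hSP
    have hvT := v_cons c ch nil
    have h2 : v nil = 0 := rfl
    rw [h2, add_zero] at hvT
    by_cases hg : gt c ch = true
    · rw [if_pos hg] at hvT hSP
      have hgd : good ch = true := by
        rw [gt, Bool.and_eq_true] at hg
        exact hg.2
      have hv' : v ch = u ch := by simp [v, dl_good ch hgd]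
      apply hSP
      rw [hvT, hv'] at hT
      exact hT
    · rw [if_neg hg] at hvT hSP
      cases c
      · apply hSP
        simp only [Bool.false_eq_true, if_false] at hvT
        have : min (u ch) (-1 + v ch) ≤ u ch := min_le_left _ _
        linarith
      · simp only [if_true] at hvT
        by_cases h3 : u ch ≤ 1 + v ch
        · exact hRt rfl (by rw [hvT, max_eq_right h3])
        · apply hSP
          rw [hvT, max_eq_left (by linarith)] at hT
          linarith

/-- colour swap -/
def neg : Fo → Fo
  | nil => nil
  | cons c ch r => cons (!c) (neg ch) (neg r)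

theorem neg_neg : ∀ f : Fo, neg (neg f) = f
  | nil => rfl
  | cons c ch r => by simp [neg, neg_neg ch, neg_neg r]

theorem neg_app : ∀ f g : Fo, neg (app f g) = app (neg f) (neg g)
  | nil, g => rfl
  | cons c ch r, g => by simp [neg, app, neg_app r g]

theorem hasCol_neg (d : Bool) : ∀ f : Fo, hasCol (!d) (neg f) = hasCol d f
  | nil => rfl
  | cons c ch r => by
    simp only [neg, hasCol, hasCol_neg d r]
    cases c <;> cases d <;> rfl

theorem wit_neg (d : Bool) : ∀ f : Fo, wit (!d) (neg f) = wit d f
  | nil => rfl
  | cons c ch r => by
    simp only [neg, wit, wit_neg d r, hasCol_neg (!d) ch]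
    cases c <;> cases d <;> rfl

theorem good_neg : ∀ f : Fo, good (neg f) = good f
  | nil => rfl
  | cons c ch r => by simp only [neg, good, wit_neg, good_neg ch, good_neg r]

theorem gt_neg (c : Bool) (f : Fo) : gt (!c) (neg f) = gt c f := by
  simp only [gt, wit_neg, good_neg]

theorem u_neg : ∀ f : Fo, u (neg f) = - u f
  | nil => rfl
  | cons c ch r => by
    simp only [neg, u, gt_neg, u_neg ch, u_neg r]
    have hs : sg (!c) = - sg c := by cases c <;> rfl
    by_cases h : gt c ch = true
    · simp only [h, if_true, hs]; ring
    · simp only [if_neg h]; ring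

theorem dl_neg : ∀ f : Fo, dl (neg f) = - dl f
  | nil => rfl
  | cons c ch r => by
    simp only [neg, dl, gt_neg, dl_neg ch, dl_neg r]
    by_cases h : gt c ch = true
    · simp [h]
    · rw [if_neg h, if_neg h]
      cases c
      · simp only [Bool.not_false, if_true, Bool.false_eq_true, if_false]
        have : max 0 (1 + -dl ch) = - min 0 (-1 + dl ch) := by
          rw [← max_neg_neg]; ring_nf
        rw [this]; ring
      · simp only [Bool.not_true, if_true, Bool.false_eq_true, if_false]
        have : min 0 (-1 + -dl ch) = - max 0 (1 + dl ch) := by
          rw [← min_neg_neg]; ring_nf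
        rw [this]; ring

theorem v_neg (f : Fo) : v (neg f) = - v f := by
  simp only [v, u_neg, dl_neg]; ring

theorem Lf_neg {p : Bool} {f f' : Fo} (h : Lf p f f') : Lf (!p) (neg f) (neg f') := by
  induction h with
  | here r => exact Lf.here _
  | rest c ch _ ih => exact Lf.rest _ _ ih
  | up c r _ ih => exact Lf.up _ _ ih

theorem Rt_neg {p : Bool} {f f' : Fo} (h : Rt p f f') : Rt (!p) (neg f) (neg f') := by
  induction h with
  | here ch r => rw [neg_app]; exact Rt.here _ _
  | rest c ch _ ih => exact Rt.rest _ _ ih

/-- a move of player `p` -/
def Mv (p : Bool) (f f' : Fo) : Prop := Lf p f f' ∨ Rt p f f'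

theorem Mv_neg {p : Bool} {f f' : Fo} (h : Mv p f f') : Mv (!p) (neg f) (neg f') :=
  h.imp Lf_neg Rt_neg

theorem v_white {f f' : Fo} (h : Mv true f f') : v f' ≤ v f - 1 := h.elim v_Lf v_Rt

theorem v_black {f f' : Fo} (h : Mv false f f') : v f + 1 ≤ v f' := by
  have := v_white (Mv_neg h)
  rw [v_neg, v_neg] at this
  linarith

theorem white_move (f : Fo) (h : 0 < v f) : ∃ f', Mv true f f' ∧ v f' = v f - 1 :=
  exists_move f h

theorem black_move (f : Fo) (h : v f < 0) : ∃ f', Mv false f f' ∧ v f' = v f + 1 := by
  obtain ⟨g, h1, h2⟩ := exists_move (neg f) (by rw [v_neg]; linarith)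
  refine ⟨neg g, ?_, ?_⟩
  · have := Mv_neg h1
    rwa [neg_neg] at this
  · rw [v_neg, h2, v_neg]; ring

end Fo

end Pool.Agent.V11128.ForestGame
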