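import Mathlib

/-!
# Binary linear states and normalised flow polynomials

A state is a pair `(U, R)`: a subspace `U` of a finite-dimensional space over `ZMod 2` and a finite set
`R` of labels of vectors.  `A v U R` is the sign-normalised flow polynomial of the binary matroid
`(M / U) | R`.
-/

namespace Pool.Agent.V11128.FlowLin

open Polynomial Module

set_option linter.unusedSectionVars false

variable {ι W : Type*} [DecidableEq ι] [AddCommGroup W] [Module (ZMod 2) W]

/-- Nonnegativity of all coefficients. -/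
def NN (p : ℤ[X]) : Prop := ∀ i, 0 ≤ p.coeff i

theorem NN.add {p q : ℤ[X]} (hp : NN p) (hq : NN q) : NN (p + q) := fun i => by
  rw [coeff_add]; exact add_nonneg (hp i) (hq i)

theorem NN.mul {p q : ℤ[X]} (hp : NN p) (hq : NN q) : NN (p * q) := fun i => by
  rw [coeff_mul]; exact Finset.sum_nonneg fun x _ => mul_nonneg (hp _) (hq _)

theorem NN.zero : NN 0 := fun i => by simp

theorem NN.one : NN 1 := fun i => by
  rw [coeff_one]; split_ifs <;> norm_num

theorem NN.vX : NN X := fun i => by
  rw [coeff_X]; split_ifs <;> norm_num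

theorem NN.two : NN 2 := by
  have : (2 : ℤ[X]) = 1 + 1 := by norm_num
  rw [this]; exact NN.one.add NN.one

theorem NN.three : NN 3 := by
  have : (3 : ℤ[X]) = 1 + 2 := by norm_num
  rw [this]; exact NN.one.add NN.two

theorem NN.X1 : NN (X + 1) := NN.vX.add NN.one
theorem NN.X2 : NN (X + 2) := NN.vX.add NN.two
theorem NN.X3 : NN (X + 3) := NN.vX.add NN.three

theorem NN.pow {p : ℤ[X]} (hp : NN p) (k : ℕ) : NN (p ^ k) := by
  induction k with
  | zero => simpa using NN.one
  | succ k ih => rw [pow_succ]; exact ih.mul hp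

variable (v : ι → W)

/-- Contraction of a vector. -/
def ct (U : Submodule (ZMod 2) W) (w : W) : Submodule (ZMod 2) W := U ⊔ Submodule.span (ZMod 2) {w}

/-- The span of `U` and the vectors labelled by `Z`. -/
def sp (U : Submodule (ZMod 2) W) (Z : Finset ι) : Submodule (ZMod 2) W :=
  U ⊔ Submodule.span (ZMod 2) (v '' (Z : Set ι))

theorem zmod2 : ∀ a : ZMod 2, a = 0 ∨ a = 1 := by decide

theorem add_self2 (w : W) : w + w = 0 := by
  have h : (2 : ZMod 2) • w = 0 := by
    have : (2 : ZMod 2) = 0 := by decide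
    rw [this, zero_smul]
  rwa [two_smul] at h

theorem mem_ct {U : Submodule (ZMod 2) W} {w x : W} : x ∈ ct U w ↔ x ∈ U ∨ x + w ∈ U := by
  unfold ct
  rw [Submodule.mem_sup]
  constructor
  · rintro ⟨y, hy, z, hz, rfl⟩
    rw [Submodule.mem_span_singleton] at hz
    obtain ⟨a, rfl⟩ := hz
    have ha : a = 0 ∨ a = 1 := zmod2 a
    rcases ha with rfl | rfl
    · left; simpa using hy
    · right
      rw [one_smul, add_assoc, add_self2, add_zero]; exact hy
  · rintro (h | h)
    · exact ⟨x, h, 0, Submodule.zero_mem _, add_zero x⟩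
    · refine ⟨x + w, h, w, Submodule.mem_span_singleton_self w, ?_⟩
      rw [add_assoc, add_self2, add_zero]

theorem le_ct (U : Submodule (ZMod 2) W) (w : W) : U ≤ ct U w := le_sup_left

theorem self_mem_ct (U : Submodule (ZMod 2) W) (w : W) : w ∈ ct U w :=
  mem_ct.2 (Or.inr (by rw [add_self2]; exact U.zero_mem))

theorem ct_comm (U : Submodule (ZMod 2) W) (w x : W) : ct (ct U w) x = ct (ct U x) w := by
  unfold ct; exact sup_right_comm _ _ _

theorem ct_of_mem {U : Submodule (ZMod 2) W} {w : W} (h : w ∈ U) : ct U w = U := by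
  unfold ct
  rw [sup_eq_left, Submodule.span_singleton_le_iff_mem]; exact h

theorem ct_mono {U U' : Submodule (ZMod 2) W} (h : U ≤ U') (w : W) : ct U w ≤ ct U' w :=
  sup_le_sup_right h _

@[simp] theorem sp_empty (U : Submodule (ZMod 2) W) : sp v U ∅ = U := by
  unfold sp; simp

theorem sp_insert (U : Submodule (ZMod 2) W) (f : ι) (Z : Finset ι) :
    sp v U (insert f Z) = sp v (ct U (v f)) Z := by
  unfold sp ct
  rw [Finset.coe_insert, Set.image_insert_eq, Submodule.span_insert, sup_assoc]

theorem sp_ct (U : Submodule (ZMod 2) W) (w : W) (Z : Finset ι) :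
    sp v (ct U w) Z = ct (sp v U Z) w := by
  unfold sp ct; exact sup_right_comm _ _ _

theorem sp_insert' (U : Submodule (ZMod 2) W) (f : ι) (Z : Finset ι) :
    sp v U (insert f Z) = ct (sp v U Z) (v f) := by rw [sp_insert, sp_ct]

theorem le_sp (U : Submodule (ZMod 2) W) (Z : Finset ι) : U ≤ sp v U Z := le_sup_left

theorem sp_mono {U U' : Submodule (ZMod 2) W} (h : U ≤ U') {Z Z' : Finset ι} (hZ : Z ⊆ Z') :
    sp v U Z ≤ sp v U' Z' := by
  unfold sp
  refine sup_le_sup h (Submodule.span_mono (Set.image_mono ?_))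
  exact_mod_cast hZ

theorem mem_sp_of_mem (U : Submodule (ZMod 2) W) {Z : Finset ι} {f : ι} (h : f ∈ Z) :
    v f ∈ sp v U Z := by
  unfold sp
  exact Submodule.mem_sup_right (Submodule.subset_span ⟨f, by exact_mod_cast h, rfl⟩)

theorem sp_le {U S : Submodule (ZMod 2) W} {Z : Finset ι} (hU : U ≤ S) (h : ∀ f ∈ Z, v f ∈ S) :
    sp v U Z ≤ S := by
  unfold sp
  refine sup_le hU (Submodule.span_le.2 ?_)
  rintro _ ⟨f, hf, rfl⟩
  exact h f (by exact_mod_cast hf)

theorem sp_union (U : Submodule (ZMod 2) W) (Z Z' : Finset ι) :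
    sp v U (Z ∪ Z') = sp v (sp v U Z) Z' := by
  apply le_antisymm
  · refine sp_le v ((le_sp v U Z).trans (le_sp v _ Z')) ?_
    intro f hf
    rcases Finset.mem_union.1 hf with h | h
    · exact le_sp v _ _ (mem_sp_of_mem v U h)
    · exact mem_sp_of_mem v _ h
  · refine sp_le v (sp_mono v le_rfl Finset.subset_union_left) ?_
    intro f hf
    exact mem_sp_of_mem v _ (Finset.mem_union_right _ hf)

/-- Separation by a functional. -/
theorem exists_functional {S : Submodule (ZMod 2) W} {x : W} (hx : x ∉ S) :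
    ∃ φ : W →ₗ[ZMod 2] ZMod 2, φ x = 1 ∧ ∀ s ∈ S, φ s = 0 := by
  obtain ⟨f, hf, hS⟩ := Submodule.exists_dual_map_eq_bot_of_notMem hx inferInstance
  refine ⟨f, ?_, ?_⟩
  · have : ∀ a : ZMod 2, a ≠ 0 → a = 1 := by decide
    exact this _ hf
  · intro s hs
    have : f s ∈ S.map f := Submodule.mem_map_of_mem hs
    rw [hS] at this
    simpa using this

theorem functional_sp {U : Submodule (ZMod 2) W} {Z : Finset ι} (φ : W →ₗ[ZMod 2] ZMod 2)
    (hU : ∀ x ∈ U, φ x = 0) (hZ : ∀ f ∈ Z, φ (v f) = 0) : ∀ x ∈ sp v U Z, φ x = 0 := by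
  have : sp v U Z ≤ LinearMap.ker φ :=
    sp_le v (fun x hx => by simpa using hU x hx) (fun f hf => by simpa using hZ f hf)
  intro x hx
  simpa using this hx

theorem functional_ct {U : Submodule (ZMod 2) W} {w : W} (φ : W →ₗ[ZMod 2] ZMod 2)
    (hU : ∀ x ∈ U, φ x = 0) (hw : φ w = 0) : ∀ x ∈ ct U w, φ x = 0 := by
  intro x hx
  rcases mem_ct.1 hx with h | h
  · exact hU x h
  · have := hU _ h
    rw [map_add, hw, add_zero] at this; exact this

section dim

variable [FiniteDimensional (ZMod 2) W]

theorem finrank_ct {U : Submodule (ZMod 2) W} {w : W} (h : w ∉ U) :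
    finrank (ZMod 2) (ct U w) = finrank (ZMod 2) U + 1 := by
  have hw : w ≠ 0 := fun h0 => h (h0 ▸ U.zero_mem)
  have hinf : U ⊓ Submodule.span (ZMod 2) {w} = ⊥ := by
    rw [eq_bot_iff]
    rintro x ⟨hx, hx'⟩
    obtain ⟨a, rfl⟩ := Submodule.mem_span_singleton.1 hx'
    have ha : a = 0 ∨ a = 1 := zmod2 a
    rcases ha with rfl | rfl
    · simp
    · exact absurd (by simpa using hx) h
  have := Submodule.finrank_sup_add_finrank_inf_eq U (Submodule.span (ZMod 2) {w})
  rw [hinf, finrank_bot, add_zero, finrank_span_singleton hw] at this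
  exact this

/-- Rank of `U` and the vectors labelled by `Z`. -/
noncomputable def d (U : Submodule (ZMod 2) W) (Z : Finset ι) : ℕ := finrank (ZMod 2) (sp v U Z)

theorem d_mono (U : Submodule (ZMod 2) W) {Z Z' : Finset ι} (h : Z ⊆ Z') : d v U Z ≤ d v U Z' :=
  Submodule.finrank_mono (sp_mono v le_rfl h)

theorem d_insert (U : Submodule (ZMod 2) W) (f : ι) (Z : Finset ι) :
    d v U (insert f Z) = d v (ct U (v f)) Z := by unfold d; rw [sp_insert]

theorem d_ct_of_notMem {U : Submodule (ZMod 2) W} {Z : Finset ι} {w : W} (h : w ∉ sp v U Z) :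
    d v (ct U w) Z = d v U Z + 1 := by
  unfold d; rw [sp_ct, finrank_ct h]

theorem d_ct_of_mem {U : Submodule (ZMod 2) W} {Z : Finset ι} {w : W} (h : w ∈ sp v U Z) :
    d v (ct U w) Z = d v U Z := by
  unfold d; rw [sp_ct, ct_of_mem h]

theorem d_le (U : Submodule (ZMod 2) W) (Z : Finset ι) : d v U Z ≤ Z.card + d v U ∅ := by
  induction Z using Finset.induction with
  | empty => simp
  | insert f Z hf ih =>
    rw [d_insert, Finset.card_insert_of_notMem hf]
    by_cases h : v f ∈ sp v U Z
    · rw [d_ct_of_mem v h]; omega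
    · rw [d_ct_of_notMem v h]; omega

theorem d_empty (U : Submodule (ZMod 2) W) : d v U ∅ = finrank (ZMod 2) U := by
  unfold d; rw [sp_empty]

/-- Sign-normalised flow polynomial of the state `(U, R)`. -/
noncomputable def A (U : Submodule (ZMod 2) W) (R : Finset ι) : ℤ[X] :=
  ∑ Z ∈ R.powerset, (-1) ^ (d v U R + d v U Z) * X ^ (Z.card + d v U ∅ - d v U Z)

theorem A_empty (U : Submodule (ZMod 2) W) : A v U ∅ = 1 := by
  unfold A
  simp [← two_mul]

theorem notMem_of_mem_powerset {f : ι} {R Z : Finset ι} (hf : f ∉ R) (hZ : Z ∈ R.powerset) :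
    f ∉ Z := fun h => hf (Finset.mem_powerset.1 hZ h)

/-- Deletion–contraction for an element that is neither a loop nor a coloop. -/
theorem A_dc {U : Submodule (ZMod 2) W} {R : Finset ι} {f : ι} (hf : f ∉ R) (hU : v f ∉ U)
    (hR : v f ∈ sp v U R) : A v U (insert f R) = A v (ct U (v f)) R + A v U R := by
  unfold A
  rw [Finset.sum_powerset_insert hf, add_comm]
  have hdR : d v U (insert f R) = d v U R := by rw [d_insert, d_ct_of_mem v hR]
  have hdR' : d v U (insert f R) = d v (ct U (v f)) R := d_insert v U f R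
  have h0 : d v (ct U (v f)) ∅ = d v U ∅ + 1 := by
    apply d_ct_of_notMem; simpa using hU
  congr 1
  · apply Finset.sum_congr rfl
    intro Z hZ
    rw [← hdR', d_insert v U f Z, Finset.card_insert_of_notMem (notMem_of_mem_powerset hf hZ), h0]
    congr 2
    omega
  · rw [hdR]

/-- Deleting a loop. -/
theorem A_loop {U : Submodule (ZMod 2) W} {R : Finset ι} {f : ι} (hf : f ∉ R) (hU : v f ∈ U) :
    A v U (insert f R) = (X + 1) * A v U R := by
  unfold A
  rw [Finset.sum_powerset_insert hf]
  have hd : ∀ Z, d v U (insert f Z) = d v U Z := by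
    intro Z; rw [d_insert, ct_of_mem hU]
  rw [add_mul, one_mul, add_comm, Finset.mul_sum]
  congr 1
  · apply Finset.sum_congr rfl
    intro Z hZ
    rw [hd, hd, Finset.card_insert_of_notMem (notMem_of_mem_powerset hf hZ)]
    have := d_le v U Z
    rw [show Z.card + 1 + d v U ∅ - d v U Z = (Z.card + d v U ∅ - d v U Z) + 1 by omega, pow_succ]
    ring
  · apply Finset.sum_congr rfl
    intro Z hZ
    rw [hd]

/-- Contracting a vector independent of everything changes nothing. -/
theorem A_ct_indep {U : Submodule (ZMod 2) W} {R : Finset ι} {w : W} (h : w ∉ sp v U R) :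
    A v (ct U w) R = A v U R := by
  unfold A
  apply Finset.sum_congr rfl
  intro Z hZ
  have hZ' := Finset.mem_powerset.1 hZ
  have h1 : d v (ct U w) R = d v U R + 1 := d_ct_of_notMem v h
  have h2 : d v (ct U w) Z = d v U Z + 1 :=
    d_ct_of_notMem v fun h' => h (sp_mono v le_rfl hZ' h')
  have h3 : d v (ct U w) ∅ = d v U ∅ + 1 :=
    d_ct_of_notMem v fun h' => h (sp_mono v le_rfl (Finset.empty_subset _) h')
  rw [h1, h2, h3, show d v U R + 1 + (d v U Z + 1) = (d v U R + d v U Z) + 2 by ring, pow_add]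
  rw [show Z.card + (d v U ∅ + 1) - (d v U Z + 1) = Z.card + d v U ∅ - d v U Z by omega]
  norm_num

/-- A coloop kills the polynomial. -/
theorem A_coloop {U : Submodule (ZMod 2) W} {R : Finset ι} {f : ι} (hf : f ∉ R)
    (hR : v f ∉ sp v U R) : A v U (insert f R) = 0 := by
  have key : A v U (insert f R) = A v (ct U (v f)) R - A v U R := by
    unfold A
    rw [Finset.sum_powerset_insert hf, add_comm, sub_eq_add_neg, ← Finset.sum_neg_distrib]
    have hdR : d v U (insert f R) = d v U R + 1 := by rw [d_insert, d_ct_of_notMem v hR]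
    have hdR' : d v U (insert f R) = d v (ct U (v f)) R := d_insert v U f R
    have h0 : d v (ct U (v f)) ∅ = d v U ∅ + 1 := by
      apply d_ct_of_notMem
      exact fun h' => hR (sp_mono v le_rfl (Finset.empty_subset _) h')
    congr 1
    · apply Finset.sum_congr rfl
      intro Z hZ
      rw [← hdR', d_insert v U f Z, Finset.card_insert_of_notMem (notMem_of_mem_powerset hf hZ), h0]
      congr 2
      omega
    · apply Finset.sum_congr rfl
      intro Z hZ
      rw [hdR, show d v U R + 1 + d v U Z = (d v U R + d v U Z) + 1 by ring, pow_succ]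
      ring
  rw [key, A_ct_indep v hR, sub_self]

theorem A_nonneg (R : Finset ι) : ∀ U : Submodule (ZMod 2) W, NN (A v U R) := by
  induction R using Finset.induction with
  | empty => intro U; rw [A_empty]; exact NN.one
  | insert f R hf ih =>
    intro U
    by_cases h1 : v f ∈ U
    · rw [A_loop v hf h1]; exact NN.X1.mul (ih U)
    · by_cases h2 : v f ∈ sp v U R
      · rw [A_dc v hf h1 h2]; exact (ih _).add (ih _)
      · rw [A_coloop v hf h2]; exact NN.zero

end dim

end Pool.Agent.V11128.FlowLin
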