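import Mathlib
import Pool.Agent.V11128.FlowLin

/-!
# Lower bounds for deleting one edge

`lemmaK`: a three-element star `{w, a₁, a₂}`.  `lemmaL`: two stars through `w`.
-/

namespace Pool.Agent.V11128.FlowLin

open Polynomial Module

set_option linter.unusedSectionVars false
set_option linter.unusedSimpArgs false
set_option linter.unnecessarySimpa false

variable {ι W : Type*} [DecidableEq ι] [AddCommGroup W] [Module (ZMod 2) W]
variable [FiniteDimensional (ZMod 2) W] (v : ι → W)

theorem notMem_of_functional {U : Submodule (ZMod 2) W} {x : W} (φ : W →ₗ[ZMod 2] ZMod 2)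
    (hU : ∀ x ∈ U, φ x = 0) (hx : φ x = 1) : x ∉ U := fun h => by
  rw [hU x h] at hx; exact absurd hx (by decide)

theorem notMem_ct_of_functional {U : Submodule (ZMod 2) W} {x w : W} (φ : W →ₗ[ZMod 2] ZMod 2)
    (hU : ∀ x ∈ U, φ x = 0) (hw : φ w = 1) (hx : φ x = 0) (h : x ∉ U) : x ∉ ct U w := fun h' => by
  rcases mem_ct.1 h' with h1 | h1
  · exact h h1
  · have := hU _ h1
    rw [map_add, hw, hx] at this; exact absurd this (by decide)

theorem single_eq (b : ι) : ({b} : Finset ι) = insert b ∅ := rfl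

/-- Two parallel elements. -/
theorem A_pair_parallel {U : Submodule (ZMod 2) W} {a b : ι} (hab : a ≠ b) (ha : v a ∉ U)
    (hb : v b ∉ U) (h : v a + v b ∈ U) : A v U {a, b} = X + 1 := by
  have h1 : v a ∈ sp v U {b} := by
    rw [single_eq b, sp_insert', sp_empty]; exact mem_ct.2 (Or.inr h)
  rw [A_dc v (by simpa using hab) ha h1]
  have h2 : v b ∈ ct U (v a) := mem_ct.2 (Or.inr (by rwa [add_comm]))
  rw [single_eq b, A_loop v (Finset.notMem_empty _) h2, A_empty,
    A_coloop v (Finset.notMem_empty _) (by rwa [sp_empty])]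
  ring

theorem A_single_loop {U : Submodule (ZMod 2) W} {a : ι} (ha : v a ∈ U) : A v U {a} = X + 1 := by
  rw [single_eq a, A_loop v (Finset.notMem_empty _) ha, A_empty, mul_one]

theorem mem_sp_single {U : Submodule (ZMod 2) W} {b : ι} {x : W} :
    x ∈ sp v U {b} ↔ x ∈ U ∨ x + v b ∈ U := by
  rw [single_eq b, sp_insert', sp_empty, mem_ct]

theorem lemmaK (Q : Finset ι) : ∀ (U : Submodule (ZMod 2) W) (w : W) (a b : ι)
    (φ : W →ₗ[ZMod 2] ZMod 2), a ∉ Q → b ∉ Q → a ≠ b → (∀ x ∈ U, φ x = 0) → φ w = 1 →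
    φ (v a) = 1 → φ (v b) = 1 → (∀ f ∈ Q, φ (v f) = 0) → w ∈ sp v U (insert a (insert b Q)) →
    NN (A v (ct U w) (insert a (insert b Q)) - (X + 1) * A v U (insert a (insert b Q))) := by
  induction Q using Finset.induction with
  | empty =>
    intro U w a b φ _ _ hab hU hw ha hb _ hwsp
    by_cases h : v a ∈ sp v U {b}
    · have haU : v a ∉ U := notMem_of_functional φ hU ha
      have hbU : v b ∉ U := notMem_of_functional φ hU hb
      have hab' : v a + v b ∈ U := by
        rcases (mem_sp_single v).1 h with h1 | h1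
        · exact absurd h1 haU
        · exact h1
      have hwb : w + v b ∈ U := by
        have : sp v U (insert a (insert b ∅)) = ct U (v b) := by
          rw [sp_insert', Finset.insert_empty, ct_of_mem h, single_eq b, sp_insert',
            sp_empty]
        rw [this] at hwsp
        rcases mem_ct.1 hwsp with h1 | h1
        · exact absurd h1 (notMem_of_functional φ hU hw)
        · exact h1
      have hb' : v b ∈ ct U w := mem_ct.2 (Or.inr (by rwa [add_comm]))
      have ha' : v a ∈ ct U w := by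
        have : v a = (v a + v b) + v b := by rw [add_assoc, add_self2, add_zero]
        rw [this]
        exact (ct U w).add_mem (le_ct U w hab') hb'
      rw [show insert a (insert b (∅ : Finset ι)) = {a, b} by simp, A_pair_parallel v hab haU hbU hab',
        A_loop v (by simpa using hab) ha', A_single_loop v hb', sub_self]
      exact NN.zero
    · rw [Finset.insert_empty, A_coloop v (by simpa using hab) h, mul_zero, sub_zero]
      exact A_nonneg v _ _
  | insert f Q hf ih =>
    intro U w a b φ haQ hbQ hab hU hw ha hb hQ hwsp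
    have hfa : f ≠ a := fun h => haQ (h ▸ Finset.mem_insert_self _ _)
    have hfb : f ≠ b := fun h => hbQ (h ▸ Finset.mem_insert_self _ _)
    have haQ' : a ∉ Q := fun h => haQ (Finset.mem_insert_of_mem h)
    have hbQ' : b ∉ Q := fun h => hbQ (Finset.mem_insert_of_mem h)
    have hR : insert a (insert b (insert f Q)) = insert f (insert a (insert b Q)) := by
      rw [Finset.insert_comm b f, Finset.insert_comm a f]
    have hfR : f ∉ insert a (insert b Q) := by simp [hfa, hfb, hf]
    rw [hR] at hwsp ⊢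
    have hφf : φ (v f) = 0 := hQ f (Finset.mem_insert_self _ _)
    have hQ' : ∀ g ∈ Q, φ (v g) = 0 := fun g hg => hQ g (Finset.mem_insert_of_mem hg)
    set R := insert a (insert b Q) with hRdef
    by_cases h1 : v f ∈ U
    · have hw' : w ∈ sp v U R := by rwa [sp_insert, ct_of_mem h1] at hwsp
      have := ih U w a b φ haQ' hbQ' hab hU hw ha hb hQ' hw'
      rw [A_loop v hfR h1, A_loop v hfR (le_ct U w h1)]
      have h2 := NN.X1.mul this
      rw [← hRdef] at h2
      rw [show (X + 1) * A v (ct U w) R - (X + 1) * ((X + 1) * A v U R) =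
        (X + 1) * (A v (ct U w) R - (X + 1) * A v U R) by ring]
      exact h2
    · by_cases h2 : v f ∈ sp v U R
      · have hfw : v f ∉ ct U w := notMem_ct_of_functional φ hU hw hφf h1
        have h2' : v f ∈ sp v (ct U w) R := sp_mono v (le_ct U w) (Finset.Subset.refl _) h2
        have hw' : w ∈ sp v U R := by rwa [sp_insert', ct_of_mem h2] at hwsp
        have i1 := ih U w a b φ haQ' hbQ' hab hU hw ha hb hQ' hw'
        have i2 := ih (ct U (v f)) w a b φ haQ' hbQ' hab (functional_ct φ hU hφf) hw ha hb hQ'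
          (sp_mono v (le_ct U (v f)) (Finset.Subset.refl _) hw')
        rw [A_dc v hfR h1 h2, A_dc v hfR hfw h2', ct_comm U w (v f)]
        rw [← hRdef] at i1 i2
        have := i2.add i1
        rw [show A v (ct (ct U (v f)) w) R + A v (ct U w) R -
          (X + 1) * (A v (ct U (v f)) R + A v U R) =
          A v (ct (ct U (v f)) w) R - (X + 1) * A v (ct U (v f)) R +
            (A v (ct U w) R - (X + 1) * A v U R) by ring]
        exact this
      · rw [A_coloop v hfR h2, mul_zero, sub_zero]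
        exact A_nonneg v _ _

/-- Deleting one element of a 3-star multiplies the bound by `X + 2`. -/
theorem lemmaK' {Q : Finset ι} {U : Submodule (ZMod 2) W} {e a b : ι}
    (φ : W →ₗ[ZMod 2] ZMod 2) (haQ : a ∉ Q) (hbQ : b ∉ Q) (hab : a ≠ b)
    (heR : e ∉ insert a (insert b Q)) (hU : ∀ x ∈ U, φ x = 0) (he : φ (v e) = 1)
    (ha : φ (v a) = 1) (hb : φ (v b) = 1) (hQ : ∀ f ∈ Q, φ (v f) = 0)
    (hsp : v e ∈ sp v U (insert a (insert b Q))) :
    NN (A v U (insert e (insert a (insert b Q))) - (X + 2) * A v U (insert a (insert b Q))) := by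
  have h := lemmaK v Q U (v e) a b φ haQ hbQ hab hU he ha hb hQ hsp
  rw [A_dc v heR (notMem_of_functional φ hU he) hsp]
  rw [show A v (ct U (v e)) (insert a (insert b Q)) + A v U (insert a (insert b Q)) -
    (X + 2) * A v U (insert a (insert b Q)) = A v (ct U (v e)) (insert a (insert b Q)) -
    (X + 1) * A v U (insert a (insert b Q)) by ring]
  exact h

theorem mem_sp_insert {U : Submodule (ZMod 2) W} {a : ι} {Z : Finset ι} {x : W} :
    x ∈ sp v U (insert a Z) ↔ x ∈ sp v U Z ∨ x + v a ∈ sp v U Z := by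
  rw [sp_insert', mem_ct]

theorem A_loops (T : Finset ι) {U : Submodule (ZMod 2) W} (h : ∀ g ∈ T, v g ∈ U) :
    A v U T = (X + 1) ^ T.card := by
  induction T using Finset.induction with
  | empty => simp [A_empty]
  | insert f T hf ih =>
    rw [A_loop v hf (h f (Finset.mem_insert_self _ _)),
      ih (fun g hg => h g (Finset.mem_insert_of_mem hg)), Finset.card_insert_of_notMem hf, pow_succ]
    ring

theorem A_par {T : Finset ι} {U : Submodule (ZMod 2) W} {f : ι} (hf : f ∉ T) (hT : T.Nonempty)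
    (hfU : v f ∉ U) (h : ∀ g ∈ T, v g + v f ∈ U) :
    A v U (insert f T) = (X + 1) ^ T.card + A v U T := by
  obtain ⟨g, hg⟩ := hT
  have h1 : v f ∈ sp v U T := by
    have : v f = v g + (v g + v f) := by rw [← add_assoc, add_self2, zero_add]
    rw [this]
    exact (sp v U T).add_mem (mem_sp_of_mem v U hg) (le_sp v U T (h g hg))
  rw [A_dc v hf hfU h1, A_loops v T (fun g hg => mem_ct.2 (Or.inr (h g hg)))]

structure LData (U : Submodule (ZMod 2) W) (w : W) (a₁ a₂ b₁ b₂ : ι) (Q : Finset ι)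
    (φ ψ : W →ₗ[ZMod 2] ZMod 2) : Prop where
  a12 : a₁ ≠ a₂
  b12 : b₁ ≠ b₂
  a1b1 : a₁ ≠ b₁
  a1b2 : a₁ ≠ b₂
  a2b1 : a₂ ≠ b₁
  a2b2 : a₂ ≠ b₂
  disj : Disjoint ({a₁, a₂, b₁, b₂} : Finset ι) Q
  φU : ∀ x ∈ U, φ x = 0
  ψU : ∀ x ∈ U, ψ x = 0
  φw : φ w = 1
  ψw : ψ w = 1
  φa1 : φ (v a₁) = 1
  φa2 : φ (v a₂) = 1
  φb1 : φ (v b₁) = 0
  φb2 : φ (v b₂) = 0
  ψa1 : ψ (v a₁) = 0
  ψa2 : ψ (v a₂) = 0
  ψb1 : ψ (v b₁) = 1
  ψb2 : ψ (v b₂) = 1
  φQ : ∀ f ∈ Q, φ (v f) = 0
  ψQ : ∀ f ∈ Q, ψ (v f) = 0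
  cf : ∀ f ∈ ({a₁, a₂, b₁, b₂} : Finset ι) ∪ Q,
    v f ∈ sp v U ((({a₁, a₂, b₁, b₂} : Finset ι) ∪ Q).erase f)
  ns : v a₁ ∈ sp v U (({a₂, b₂} : Finset ι) ∪ Q)
  hw : w ∈ sp v U (({a₁, a₂, b₁, b₂} : Finset ι) ∪ Q)

variable {v}

theorem LData.base {U : Submodule (ZMod 2) W} {w : W} {a₁ a₂ b₁ b₂ : ι}
    {φ ψ : W →ₗ[ZMod 2] ZMod 2} (D : LData v U w a₁ a₂ b₁ b₂ ∅ φ ψ) :
    A v (ct U w) {a₁, a₂, b₁, b₂} = (X + 1) ^ 3 + (X + 1) ^ 2 + (X + 1) ∧
    A v U {a₁, a₂, b₁, b₂} = (X + 1) ^ 2 := by
  obtain ⟨a12, b12, a1b1, a1b2, a2b1, a2b2, disj, φU, ψU, φw, ψw, φa1, φa2, φb1, φb2, ψa1, ψa2,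
    ψb1, ψb2, φQ, ψQ, cf, ns, hw⟩ := D
  rw [Finset.union_empty] at ns hw
  -- a₁ ∥ a₂
  have ha : v a₁ + v a₂ ∈ U := by
    rw [mem_sp_insert, mem_sp_single, mem_sp_single] at ns
    rcases ns with (h | h) | (h | h)
    · have := φU _ h
      simp only [map_add, φa1, φa2, φb1, φb2] at this
      exact absurd this (by decide)
    · have := φU _ h
      simp only [map_add, φa1, φa2, φb1, φb2] at this
      exact absurd this (by decide)
    · exact h
    · have := ψU _ h
      simp only [map_add, ψa1, ψa2, ψb1, ψb2] at this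
      exact absurd this (by decide)
  have hb : v b₁ + v b₂ ∈ U := by
    have h := cf b₁ (by simp)
    have he : (({a₁, a₂, b₁, b₂} : Finset ι) ∪ ∅).erase b₁ = {a₁, a₂, b₂} := by
      ext x
      simp only [Finset.union_empty, Finset.mem_erase, Finset.mem_insert, Finset.mem_singleton]
      constructor
      · rintro ⟨h1, h2 | h2 | h2 | h2⟩
        · exact Or.inl h2
        · exact Or.inr (Or.inl h2)
        · exact absurd h2 h1
        · exact Or.inr (Or.inr h2)
      · rintro (h2 | h2 | h2)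
        · exact ⟨h2 ▸ a1b1, Or.inl h2⟩
        · exact ⟨h2 ▸ a2b1, Or.inr (Or.inl h2)⟩
        · exact ⟨h2 ▸ b12.symm, Or.inr (Or.inr (Or.inr h2))⟩
    rw [he, mem_sp_insert, mem_sp_insert, mem_sp_insert, mem_sp_single, mem_sp_single,
      mem_sp_single, mem_sp_single] at h
    rcases h with ((h | h) | (h | h)) | ((h | h) | (h | h))
    · have := ψU _ h
      simp only [map_add, ψa1, ψa2, ψb1, ψb2] at this
      exact absurd this (by decide)
    · exact h
    · have := ψU _ h
      simp only [map_add, ψa1, ψa2, ψb1, ψb2] at this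
      exact absurd this (by decide)
    · have := φU _ h
      simp only [map_add, φa1, φa2, φb1, φb2] at this
      exact absurd this (by decide)
    · have := ψU _ h
      simp only [map_add, ψa1, ψa2, ψb1, ψb2] at this
      exact absurd this (by decide)
    · have := φU _ h
      simp only [map_add, φa1, φa2, φb1, φb2] at this
      exact absurd this (by decide)
    · have := ψU _ h
      simp only [map_add, ψa1, ψa2, ψb1, ψb2] at this
      exact absurd this (by decide)
    · have h2 := U.add_mem h ha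
      have : v b₁ + v a₁ + v a₂ + v b₂ + (v a₁ + v a₂) =
          v b₁ + v b₂ + (v a₁ + v a₁) + (v a₂ + v a₂) := by abel
      rw [this, add_self2, add_self2, add_zero, add_zero] at h2
      exact h2
  have hab : w + v a₁ + v b₁ ∈ U := by
    have key : ∀ i j : Bool, w + (if i then v a₁ else v a₂) + (if j then v b₁ else v b₂) ∈ U →
        w + v a₁ + v b₁ ∈ U := by
      intro i j h
      have h1 : v a₁ + (if i then v a₁ else v a₂) ∈ U := by
        cases i
        · simpa using ha
        · simpa [add_self2] using U.zero_mem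
      have h2 : v b₁ + (if j then v b₁ else v b₂) ∈ U := by
        cases j
        · simpa using hb
        · simpa [add_self2] using U.zero_mem
      have h3 := U.add_mem h (U.add_mem h1 h2)
      generalize (if i then v a₁ else v a₂) = α at h3
      generalize (if j then v b₁ else v b₂) = β at h3
      have : w + α + β + (v a₁ + α + (v b₁ + β)) = w + v a₁ + v b₁ + (α + α) + (β + β) := by abel
      rw [this, add_self2, add_self2, add_zero, add_zero] at h3
      exact h3
    simp only [mem_sp_insert, mem_sp_single] at hw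
    rcases hw with (((h | h) | (h | h)) | ((h | h) | (h | h))) |
      (((h | h) | (h | h)) | ((h | h) | (h | h)))
    all_goals
      first
      | (have h' := φU _ h
         simp only [map_add, φa1, φa2, φb1, φb2, φw] at h'
         exact absurd h' (by decide))
      | (have h' := ψU _ h
         simp only [map_add, ψa1, ψa2, ψb1, ψb2, ψw] at h'
         exact absurd h' (by decide))
      | exact key true true (by simpa using h)
      | exact key true false (by simpa using h)
      | exact key false true (by simpa using h)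
      | exact key false false (by simpa using h)
  have ha1 : v a₁ ∉ ct U w := by
    intro h'
    rcases mem_ct.1 h' with h | h
    · exact notMem_of_functional φ φU φa1 h
    · have h' := ψU _ h
      simp only [map_add, ψa1, ψw] at h'
      exact absurd h' (by decide)
  have hb1 : v b₁ ∉ ct U w := by
    intro h'
    rcases mem_ct.1 h' with h | h
    · exact notMem_of_functional ψ ψU ψb1 h
    · have h' := φU _ h
      simp only [map_add, φb1, φw] at h'
      exact absurd h' (by decide)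
  have hA1 : v a₁ + v a₂ ∈ ct U w := le_ct U w ha
  have hB1 : v b₁ + v b₂ ∈ ct U w := le_ct U w hb
  have hAB : v a₁ + v b₁ ∈ ct U w := mem_ct.2 (Or.inr (by
    rw [show v a₁ + v b₁ + w = w + v a₁ + v b₁ by abel]; exact hab))
  have tr : ∀ x y z : W, x + y ∈ ct U w → y + z ∈ ct U w → x + z ∈ ct U w := by
    intro x y z h1 h2
    have := (ct U w).add_mem h1 h2
    rw [show x + y + (y + z) = x + z + (y + y) by abel, add_self2, add_zero] at this
    exact this
  have sy : ∀ x y : W, x + y ∈ ct U w → y + x ∈ ct U w := fun x y h => by rwa [add_comm]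
  have hb2 : v b₂ ∉ ct U w := fun h => hb1 (by
    have := (ct U w).add_mem hB1 h
    rwa [add_assoc, add_self2, add_zero] at this)
  have ha2 : v a₂ ∉ ct U w := fun h => ha1 (by
    have := (ct U w).add_mem hA1 h
    rwa [add_assoc, add_self2, add_zero] at this)
  constructor
  · rw [A_par v (by simp [a12, a1b1, a1b2]) (Finset.insert_nonempty _ _) ha1,
      A_par v (by simp [a2b1, a2b2]) (Finset.insert_nonempty _ _) ha2,
      A_pair_parallel v b12 hb1 hb2 hB1]
    · rw [Finset.card_insert_of_notMem (by simp [a2b1, a2b2]), Finset.card_pair b12]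
      ring
    · intro g hg
      simp only [Finset.mem_insert, Finset.mem_singleton] at hg
      rcases hg with rfl | rfl
      · exact tr _ _ _ (sy _ _ hAB) hA1
      · exact tr _ _ _ (sy _ _ hB1) (tr _ _ _ (sy _ _ hAB) hA1)
    · intro g hg
      simp only [Finset.mem_insert, Finset.mem_singleton] at hg
      rcases hg with rfl | rfl | rfl
      · exact sy _ _ hA1
      · exact sy _ _ hAB
      · exact tr _ _ _ (sy _ _ hB1) (sy _ _ hAB)
  · have c1 : v a₁ ∉ U := notMem_of_functional φ φU φa1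
    have c2 : v a₁ ∈ sp v U {a₂, b₁, b₂} := sp_mono v le_rfl (by
      intro x hx; simp only [Finset.mem_insert, Finset.mem_singleton] at hx ⊢; tauto) ns
    have c3 : v a₂ ∉ sp v U {b₁, b₂} := by
      apply notMem_of_functional φ (functional_sp v φ φU ?_) φa2
      intro f hf
      simp only [Finset.mem_insert, Finset.mem_singleton] at hf
      rcases hf with rfl | rfl <;> assumption
    have ψU' := functional_ct ψ ψU ψa1
    rw [A_dc v (by simp [a12, a1b1, a1b2]) c1 c2, A_coloop v (by simp [a2b1, a2b2]) c3,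
      A_loop v (by simp [a2b1, a2b2]) (mem_ct.2 (Or.inr (by rwa [add_comm]))),
      A_pair_parallel v b12 (notMem_of_functional ψ ψU' ψb1) (notMem_of_functional ψ ψU' ψb2)
        (le_ct _ _ hb)]
    ring

section step

variable {U : Submodule (ZMod 2) W} {w : W} {a₁ a₂ b₁ b₂ : ι} {Q : Finset ι}
    {φ ψ : W →ₗ[ZMod 2] ZMod 2}

theorem union_erase_eq {P Q : Finset ι} {f : ι} (hf : f ∈ Q) :
    P ∪ Q = insert f (P ∪ Q.erase f) := by
  rw [← Finset.union_insert, Finset.insert_erase hf]

theorem LData.notMemP (D : LData v U w a₁ a₂ b₁ b₂ Q φ ψ) {f : ι} (hf : f ∈ Q) :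
    f ∉ ({a₁, a₂, b₁, b₂} : Finset ι) := fun h => Finset.disjoint_left.1 D.disj h hf

theorem LData.notMem' (D : LData v U w a₁ a₂ b₁ b₂ Q φ ψ) {f : ι} (hf : f ∈ Q) :
    f ∉ ({a₁, a₂, b₁, b₂} : Finset ι) ∪ Q.erase f := by
  rw [Finset.mem_union]
  rintro (h | h)
  · exact D.notMemP hf h
  · exact Finset.notMem_erase f Q h

theorem LData.erase_erase (D : LData v U w a₁ a₂ b₁ b₂ Q φ ψ) {f g : ι} (hf : f ∈ Q)
    (hg : g ∈ ({a₁, a₂, b₁, b₂} : Finset ι) ∪ Q.erase f) :
    (({a₁, a₂, b₁, b₂} : Finset ι) ∪ Q).erase g =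
      insert f ((({a₁, a₂, b₁, b₂} : Finset ι) ∪ Q.erase f).erase g) := by
  rw [union_erase_eq hf, Finset.erase_insert_of_ne]
  rintro rfl
  exact D.notMem' hf hg

theorem LData.contract (D : LData v U w a₁ a₂ b₁ b₂ Q φ ψ) {f : ι} (hf : f ∈ Q) :
    LData v (ct U (v f)) w a₁ a₂ b₁ b₂ (Q.erase f) φ ψ where
  a12 := D.a12
  b12 := D.b12
  a1b1 := D.a1b1
  a1b2 := D.a1b2
  a2b1 := D.a2b1
  a2b2 := D.a2b2
  disj := Finset.disjoint_of_subset_right (Finset.erase_subset _ _) D.disj
  φU := functional_ct φ D.φU (D.φQ f hf)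
  ψU := functional_ct ψ D.ψU (D.ψQ f hf)
  φw := D.φw
  ψw := D.ψw
  φa1 := D.φa1
  φa2 := D.φa2
  φb1 := D.φb1
  φb2 := D.φb2
  ψa1 := D.ψa1
  ψa2 := D.ψa2
  ψb1 := D.ψb1
  ψb2 := D.ψb2
  φQ := fun g hg => D.φQ g (Finset.mem_of_mem_erase hg)
  ψQ := fun g hg => D.ψQ g (Finset.mem_of_mem_erase hg)
  cf := fun g hg => by
    rw [← sp_insert, ← D.erase_erase hf hg]
    apply D.cf
    rw [union_erase_eq hf]
    exact Finset.mem_insert_of_mem hg
  ns := by
    rw [← sp_insert, ← union_erase_eq hf]; exact D.ns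
  hw := by
    rw [← sp_insert, ← union_erase_eq hf]; exact D.hw

theorem LData.delete (D : LData v U w a₁ a₂ b₁ b₂ Q φ ψ) {f : ι} (hf : f ∈ Q)
    (hcf : ∀ g ∈ ({a₁, a₂, b₁, b₂} : Finset ι) ∪ Q.erase f,
      v g ∈ sp v U ((({a₁, a₂, b₁, b₂} : Finset ι) ∪ Q.erase f).erase g))
    (hns : v a₁ ∈ sp v U (({a₂, b₂} : Finset ι) ∪ Q.erase f)) :
    LData v U w a₁ a₂ b₁ b₂ (Q.erase f) φ ψ where
  a12 := D.a12
  b12 := D.b12
  a1b1 := D.a1b1
  a1b2 := D.a1b2
  a2b1 := D.a2b1
  a2b2 := D.a2b2
  disj := Finset.disjoint_of_subset_right (Finset.erase_subset _ _) D.disj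
  φU := D.φU
  ψU := D.ψU
  φw := D.φw
  ψw := D.ψw
  φa1 := D.φa1
  φa2 := D.φa2
  φb1 := D.φb1
  φb2 := D.φb2
  ψa1 := D.ψa1
  ψa2 := D.ψa2
  ψb1 := D.ψb1
  ψb2 := D.ψb2
  φQ := fun g hg => D.φQ g (Finset.mem_of_mem_erase hg)
  ψQ := fun g hg => D.ψQ g (Finset.mem_of_mem_erase hg)
  cf := hcf
  ns := hns
  hw := by
    have h := D.cf f (Finset.mem_union_right _ hf)
    have he : (({a₁, a₂, b₁, b₂} : Finset ι) ∪ Q).erase f = {a₁, a₂, b₁, b₂} ∪ Q.erase f := by
      rw [union_erase_eq hf, Finset.erase_insert (D.notMem' hf)]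
    rw [he] at h
    have := D.hw
    rw [union_erase_eq hf, sp_insert', ct_of_mem h] at this
    exact this

theorem LData.fspan (D : LData v U w a₁ a₂ b₁ b₂ Q φ ψ) {f : ι} (hf : f ∈ Q) :
    v f ∈ sp v U (({a₁, a₂, b₁, b₂} : Finset ι) ∪ Q.erase f) := by
  have h := D.cf f (Finset.mem_union_right _ hf)
  have he : (({a₁, a₂, b₁, b₂} : Finset ι) ∪ Q).erase f = {a₁, a₂, b₁, b₂} ∪ Q.erase f := by
    rw [union_erase_eq hf, Finset.erase_insert (D.notMem' hf)]
  rwa [he] at h

/-- A functional witnessing that `f` is bad. -/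
theorem LData.badFunctional (D : LData v U w a₁ a₂ b₁ b₂ Q φ ψ) {f : ι} (hf : f ∈ Q)
    (hcf : ∀ g ∈ ({a₁, a₂, b₁, b₂} : Finset ι) ∪ Q.erase f,
      v g ∈ sp v U ((({a₁, a₂, b₁, b₂} : Finset ι) ∪ Q.erase f).erase g))
    (hns : v a₁ ∉ sp v U (({a₂, b₂} : Finset ι) ∪ Q.erase f)) :
    ∃ μ : W →ₗ[ZMod 2] ZMod 2, (∀ x ∈ U, μ x = 0) ∧ μ (v a₁) = 1 ∧ μ (v b₁) = 1 ∧
      μ (v a₂) = 0 ∧ μ (v b₂) = 0 ∧ μ (v f) = 1 ∧ ∀ g ∈ Q.erase f, μ (v g) = 0 := by
  obtain ⟨μ, h1, h2⟩ := exists_functional hns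
  have hU : ∀ x ∈ U, μ x = 0 := fun x hx => h2 x (le_sp v U _ hx)
  have hg : ∀ g ∈ ({a₂, b₂} : Finset ι) ∪ Q.erase f, μ (v g) = 0 := fun g hg =>
    h2 _ (mem_sp_of_mem v U hg)
  refine ⟨μ, hU, h1, ?_, hg _ (by simp), hg _ (by simp), ?_, fun g hgQ =>
    hg g (Finset.mem_union_right _ hgQ)⟩
  · by_contra hb
    have hb0 : μ (v b₁) = 0 := (zmod2 _).resolve_right hb
    have := hcf a₁ (by simp)
    have h0 := functional_sp v μ hU (Z := (({a₁, a₂, b₁, b₂} : Finset ι) ∪ Q.erase f).erase a₁) (by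
      intro g hgm
      rw [Finset.mem_erase, Finset.mem_union] at hgm
      obtain ⟨hne, hgm | hgm⟩ := hgm
      · simp only [Finset.mem_insert, Finset.mem_singleton] at hgm
        rcases hgm with rfl | rfl | rfl | rfl
        · exact absurd rfl hne
        · exact hg _ (by simp)
        · exact hb0
        · exact hg _ (by simp)
      · exact hg _ (Finset.mem_union_right _ hgm)) _ this
    rw [h1] at h0
    exact absurd h0 (by decide)
  · by_contra hb
    have hb0 : μ (v f) = 0 := (zmod2 _).resolve_right hb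
    have h0 := functional_sp v μ hU (Z := (({a₂, b₂} : Finset ι) ∪ Q)) (by
      intro g hgm
      by_cases hgf : g = f
      · rw [hgf]; exact hb0
      · apply hg
        rw [Finset.mem_union] at hgm ⊢
        rcases hgm with h | h
        · exact Or.inl h
        · exact Or.inr (Finset.mem_erase.2 ⟨hgf, h⟩)) _ D.ns
    rw [h1] at h0
    exact absurd h0 (by decide)

/-- The four-element circuit. -/
theorem A_circuit4 {a b c e : ι} (hab : a ≠ b) (hac : a ≠ c) (hae : a ≠ e)
    (hbc : b ≠ c) (hbe : b ≠ e) (hce : c ≠ e) (φ ψ μ : W →ₗ[ZMod 2] ZMod 2)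
    (φU : ∀ x ∈ U, φ x = 0) (ψU : ∀ x ∈ U, ψ x = 0) (μU : ∀ x ∈ U, μ x = 0)
    (φa : φ (v a) = 1) (φb : φ (v b) = 1) (φc : φ (v c) = 0) (φe : φ (v e) = 0)
    (ψa : ψ (v a) = 0) (ψb : ψ (v b) = 0) (ψc : ψ (v c) = 1) (ψe : ψ (v e) = 1)
    (μa : μ (v a) = 1) (μb : μ (v b) = 0) (μc : μ (v c) = 1) (μe : μ (v e) = 0) :
    NN (X + 1 - A v U {a, b, c, e}) := by
  by_cases h : v a ∈ sp v U {b, c, e}
  · have haU : v a ∉ U := notMem_of_functional φ φU φa
    have h2 : v b ∉ sp v U {c, e} := by
      apply notMem_of_functional φ (functional_sp v φ φU ?_) φb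
      intro g hg
      simp only [Finset.mem_insert, Finset.mem_singleton] at hg
      rcases hg with rfl | rfl <;> assumption
    rw [A_dc v (by simp [hab, hac, hae]) haU h, A_coloop v (by simp [hbc, hbe]) h2, add_zero]
    have hba : v b ∉ ct U (v a) := by
      intro h'
      rcases mem_ct.1 h' with h3 | h3
      · exact notMem_of_functional φ φU φb h3
      · have := μU _ h3
        rw [map_add, μa, μb] at this
        exact absurd this (by decide)
    have hbsp : v b ∈ sp v (ct U (v a)) {c, e} := by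
      rw [mem_sp_insert, mem_sp_insert, mem_sp_insert, mem_sp_single, mem_sp_single,
        mem_sp_single, mem_sp_single] at h
      rw [mem_sp_insert, mem_sp_single, mem_sp_single]
      simp only [mem_ct]
      rcases h with ((h | h) | (h | h)) | ((h | h) | (h | h))
      all_goals
        first
        | (have h' := φU _ h
           simp only [map_add, φa, φb, φc, φe] at h'
           exact absurd h' (by decide))
        | (have h' := ψU _ h
           simp only [map_add, ψa, ψb, ψc, ψe] at h'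
           exact absurd h' (by decide))
        | (have h' := μU _ h
           simp only [map_add, μa, μb, μc, μe] at h'
           exact absurd h' (by decide))
        | (right; right; right
           rw [show v b + v c + v e + v a = v a + v b + v c + v e by abel]
           exact h)
    have h3 : v c ∉ sp v (ct U (v a)) {e} := by
      intro h'
      rw [mem_sp_single] at h'
      simp only [mem_ct] at h'
      rcases h' with (h' | h') | (h' | h')
      all_goals
        first
        | (have h'' := φU _ h'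
           simp only [map_add, φa, φb, φc, φe] at h''
           exact absurd h'' (by decide))
        | (have h'' := ψU _ h'
           simp only [map_add, ψa, ψb, ψc, ψe] at h''
           exact absurd h'' (by decide))
        | (have h'' := μU _ h'
           simp only [map_add, μa, μb, μc, μe] at h''
           exact absurd h'' (by decide))
    rw [A_dc v (by simp [hbc, hbe]) hba hbsp, A_coloop v (by simp [hce]) h3, add_zero]
    -- contract a, b ; now {c, e}
    by_cases hc : v c ∈ sp v (ct (ct U (v a)) (v b)) {e}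
    · have hcn : v c ∉ ct (ct U (v a)) (v b) := by
        intro h'
        simp only [mem_ct] at h'
        rcases h' with (h' | h') | (h' | h')
        all_goals
          (have h'' := ψU _ h'
           simp only [map_add, ψa, ψb, ψc, ψe] at h''
           exact absurd h'' (by decide))
      have hen : v e ∉ ct (ct U (v a)) (v b) := by
        intro h'
        simp only [mem_ct] at h'
        rcases h' with (h' | h') | (h' | h')
        all_goals
          (have h'' := ψU _ h'
           simp only [map_add, ψa, ψb, ψc, ψe] at h''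
           exact absurd h'' (by decide))
      have hce' : v c + v e ∈ ct (ct U (v a)) (v b) := by
        rcases (mem_sp_single v).1 hc with h4 | h4
        · exact absurd h4 hcn
        · exact h4
      rw [A_pair_parallel v hce hcn hen hce', sub_self]
      exact NN.zero
    · rw [A_coloop v (by simp [hce]) hc, sub_zero]
      exact NN.X1
  · rw [A_coloop v (by simp [hab, hac, hae]) h, sub_zero]
    exact NN.X1

end step

theorem lemmaL (n : ℕ) : ∀ (U : Submodule (ZMod 2) W) (w : W) (a₁ a₂ b₁ b₂ : ι) (Q : Finset ι)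
    (φ ψ : W →ₗ[ZMod 2] ZMod 2), Q.card = n → LData v U w a₁ a₂ b₁ b₂ Q φ ψ →
    NN (A v (ct U w) ({a₁, a₂, b₁, b₂} ∪ Q) - (X + 2) * A v U ({a₁, a₂, b₁, b₂} ∪ Q)) := by
  induction n with
  | zero =>
    intro U w a₁ a₂ b₁ b₂ Q φ ψ hQ D
    rw [Finset.card_eq_zero] at hQ
    subst hQ
    obtain ⟨h1, h2⟩ := D.base
    rw [Finset.union_empty, h1, h2]
    have : (X + 1) ^ 3 + (X + 1) ^ 2 + (X + 1) - (X + 2) * (X + 1) ^ 2 = (X + 1 : ℤ[X]) := by ring
    rw [this]
    exact NN.X1
  | succ n ih =>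
    intro U w a₁ a₂ b₁ b₂ Q φ ψ hQ D
    have hcard : ∀ f ∈ Q, (Q.erase f).card = n := fun f hf => by
      rw [Finset.card_erase_of_mem hf, hQ]; rfl
    by_cases hloop : ∃ f ∈ Q, v f ∈ U
    · obtain ⟨f, hf, hfU⟩ := hloop
      have D1 := D.contract hf
      rw [ct_of_mem hfU] at D1
      have := ih U w a₁ a₂ b₁ b₂ _ φ ψ (hcard f hf) D1
      rw [union_erase_eq hf, A_loop v (D.notMem' hf) hfU,
        A_loop v (D.notMem' hf) (le_ct U w hfU)]
      have h2 := NN.X1.mul this
      rw [mul_sub] at h2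
      rw [show (X + 2) * ((X + 1) * A v U ({a₁, a₂, b₁, b₂} ∪ Q.erase f)) =
        (X + 1) * ((X + 2) * A v U ({a₁, a₂, b₁, b₂} ∪ Q.erase f)) by ring]
      exact h2
    push Not at hloop
    by_cases hser : ∃ f ∈ Q, ∃ g ∈ ({a₁, a₂, b₁, b₂} : Finset ι) ∪ Q.erase f,
        v g ∉ sp v U ((({a₁, a₂, b₁, b₂} : Finset ι) ∪ Q.erase f).erase g)
    · obtain ⟨f, hf, g, hg, hgs⟩ := hser
      have hfw : v f ∉ ct U w := notMem_ct_of_functional φ D.φU D.φw (D.φQ f hf) (hloop f hf)
      have h0 : A v U ({a₁, a₂, b₁, b₂} ∪ Q.erase f) = 0 := by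
        rw [← Finset.insert_erase hg]
        exact A_coloop v (Finset.notMem_erase _ _) hgs
      have h1 := ih _ w a₁ a₂ b₁ b₂ _ φ ψ (hcard f hf) (D.contract hf)
      rw [union_erase_eq hf, A_dc v (D.notMem' hf) (hloop f hf) (D.fspan hf), h0, add_zero,
        A_dc v (D.notMem' hf) hfw (sp_mono v (le_ct U w) (Finset.Subset.refl _) (D.fspan hf)),
        ct_comm U w]
      have := h1.add (A_nonneg v ({a₁, a₂, b₁, b₂} ∪ Q.erase f) (ct U w))
      rwa [sub_add_eq_add_sub] at this
    push Not at hser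
    by_cases hns : ∃ f ∈ Q, v a₁ ∈ sp v U (({a₂, b₂} : Finset ι) ∪ Q.erase f)
    · obtain ⟨f, hf, hfs⟩ := hns
      have hfw : v f ∉ ct U w := notMem_ct_of_functional φ D.φU D.φw (D.φQ f hf) (hloop f hf)
      have h1 := ih _ w a₁ a₂ b₁ b₂ _ φ ψ (hcard f hf) (D.contract hf)
      have h2 := ih _ w a₁ a₂ b₁ b₂ _ φ ψ (hcard f hf) (D.delete hf (hser f hf) hfs)
      rw [union_erase_eq hf, A_dc v (D.notMem' hf) (hloop f hf) (D.fspan hf),
        A_dc v (D.notMem' hf) hfw (sp_mono v (le_ct U w) (Finset.Subset.refl _) (D.fspan hf)),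
        ct_comm U w]
      have := h1.add h2
      refine (congrArg NN ?_).mp this
      ring
    push Not at hns
    -- everything is bad, so `Q` is a singleton
    have hQ1 : ∀ f ∈ Q, ∀ g ∈ Q, f = g := by
      intro f hf g hg
      by_contra hfg
      obtain ⟨μ, μU, μa1, μb1, μa2, μb2, μf, μQ⟩ := D.badFunctional hf (hser f hf) (hns f hf)
      obtain ⟨ν, νU, νa1, νb1, νa2, νb2, νg, νQ⟩ := D.badFunctional hg (hser g hg) (hns g hg)
      have hgf : g ∈ ({a₁, a₂, b₁, b₂} : Finset ι) ∪ Q.erase f :=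
        Finset.mem_union_right _ (Finset.mem_erase.2 ⟨fun h => hfg h.symm, hg⟩)
      have h1 := hser f hf g hgf
      have h0 := functional_sp v (μ + ν) (U := U) (by
        intro x hx
        rw [LinearMap.add_apply, μU x hx, νU x hx]; rfl)
        (Z := ((({a₁, a₂, b₁, b₂} : Finset ι) ∪ Q.erase f).erase g)) (by
        intro x hx
        rw [Finset.mem_erase, Finset.mem_union, Finset.mem_erase] at hx
        rw [LinearMap.add_apply]
        obtain ⟨hxg, hx | ⟨hxf, hx⟩⟩ := hx
        · simp only [Finset.mem_insert, Finset.mem_singleton] at hx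
          rcases hx with rfl | rfl | rfl | rfl
          · rw [μa1, νa1]; decide
          · rw [μa2, νa2]; decide
          · rw [μb1, νb1]; decide
          · rw [μb2, νb2]; decide
        · rw [μQ x (Finset.mem_erase.2 ⟨hxf, hx⟩), νQ x (Finset.mem_erase.2 ⟨hxg, hx⟩)]; rfl) _ h1
      rw [LinearMap.add_apply, νg, μQ g (Finset.mem_erase.2 ⟨fun h => hfg h.symm, hg⟩)] at h0
      exact absurd h0 (by decide)
    obtain ⟨f, hf⟩ : Q.Nonempty := Finset.card_pos.1 (by omega)
    have hQe : Q.erase f = ∅ := by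
      rw [Finset.eq_empty_iff_forall_notMem]
      intro g hg
      rw [Finset.mem_erase] at hg
      exact hg.1 (hQ1 g hg.2 f hf)
    have hfw : v f ∉ ct U w := notMem_ct_of_functional φ D.φU D.φw (D.φQ f hf) (hloop f hf)
    obtain ⟨μ, μU, μa1, μb1, μa2, μb2, μf, μQ⟩ := D.badFunctional hf (hser f hf) (hns f hf)
    have D1 := D.contract hf
    have hsp := D.fspan hf
    have hwsp : w ∈ sp v U ({a₁, a₂, b₁, b₂} ∪ Q.erase f) := by
      have := D.hw
      rwa [union_erase_eq hf, sp_insert', ct_of_mem hsp] at this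
    have hsp' := sp_mono v (le_ct U w) (Finset.Subset.refl _) hsp
    have hnm := D.notMem' hf
    rw [union_erase_eq hf]
    rw [hQe, Finset.union_empty] at hsp hsp' hwsp hnm ⊢
    rw [hQe] at D1
    obtain ⟨h1, h2⟩ := D1.base
    rw [A_dc v hnm (hloop f hf) hsp, A_dc v hnm hfw hsp', ct_comm U w, h1, h2]
    have hK := lemmaK v {b₁, b₂} U w a₁ a₂ φ (by simp [D.a1b1, D.a1b2]) (by simp [D.a2b1, D.a2b2])
      D.a12 D.φU D.φw D.φa1 D.φa2 (by
        intro g hg
        simp only [Finset.mem_insert, Finset.mem_singleton] at hg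
        rcases hg with rfl | rfl
        · exact D.φb1
        · exact D.φb2) hwsp
    have hC := A_circuit4 (U := U) D.a12 D.a1b1 D.a1b2 D.a2b1 D.a2b2 D.b12 φ ψ μ D.φU D.ψU μU
      D.φa1 D.φa2 D.φb1 D.φb2 D.ψa1 D.ψa2 D.ψb1 D.ψb2 μa1 μa2 μb1 μb2
    have := hK.add hC
    refine (congrArg NN ?_).mp this
    ring

/-- Deleting the edge `e` of two disjoint stars multiplies the bound by `X + 3`. -/
theorem lemmaL' {U : Submodule (ZMod 2) W} {e a₁ a₂ b₁ b₂ : ι} {Q : Finset ι}
    {φ ψ : W →ₗ[ZMod 2] ZMod 2} (D : LData v U (v e) a₁ a₂ b₁ b₂ Q φ ψ)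
    (he : e ∉ ({a₁, a₂, b₁, b₂} : Finset ι) ∪ Q) :
    NN (A v U (insert e ({a₁, a₂, b₁, b₂} ∪ Q)) - (X + 3) * A v U ({a₁, a₂, b₁, b₂} ∪ Q)) := by
  have h := lemmaL _ U (v e) a₁ a₂ b₁ b₂ Q φ ψ rfl D
  rw [A_dc v he (notMem_of_functional φ D.φU D.φw) D.hw]
  refine (congrArg NN ?_).mp h
  ring

end Pool.Agent.V11128.FlowLin
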