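import Mathlib
import Pool.Agent.V11128.FlowKL

/-!
# The ear bound `(X + 1) (X + 2)^k` for connected bridgeless edge sets of maximum degree three
-/

namespace Pool.Agent.V11128.FlowLin

open Polynomial Module

set_option linter.unusedSectionVars false
set_option linter.unusedSimpArgs false
set_option linter.unnecessarySimpa false

section general

variable {ι W : Type*} [DecidableEq ι] [AddCommGroup W] [Module (ZMod 2) W]
variable [FiniteDimensional (ZMod 2) W] (v : ι → W)

theorem A_contract_le (S : Finset ι) : ∀ (U : Submodule (ZMod 2) W) (R : Finset ι), Disjoint S R →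
    (∀ g ∈ S, v g ∉ sp v U (S.erase g)) → (∀ g ∈ S, v g ∈ sp v U ((S ∪ R).erase g)) →
    NN (A v U (S ∪ R) - A v (sp v U S) R) := by
  induction S using Finset.induction with
  | empty => intro U R _ _ _; rw [Finset.empty_union, sp_empty, sub_self]; exact NN.zero
  | insert g S hg ih =>
    intro U R hd h1 h2
    have hgR : g ∉ R := Finset.disjoint_left.1 hd (Finset.mem_insert_self _ _)
    have hg' : g ∉ S ∪ R := by simp [hg, hgR]
    have hgsp : v g ∉ sp v U S := by
      have := h1 g (Finset.mem_insert_self _ _)
      rwa [Finset.erase_insert hg] at this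
    have hgU : v g ∉ U := fun h => hgsp (le_sp v U S h)
    have hgR' : v g ∈ sp v U (S ∪ R) := by
      have := h2 g (Finset.mem_insert_self _ _)
      rwa [Finset.insert_union, Finset.erase_insert hg'] at this
    have i := ih (ct U (v g)) R (Finset.disjoint_of_subset_left (Finset.subset_insert _ _) hd)
      (by
        intro h hh
        have hne : g ≠ h := fun e => hg (e ▸ hh)
        rw [← sp_insert, ← Finset.erase_insert_of_ne hne]
        exact h1 h (Finset.mem_insert_of_mem hh))
      (by
        intro h hh
        have hne : g ≠ h := fun e => hg (e ▸ hh)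
        rw [← sp_insert, ← Finset.erase_insert_of_ne hne, ← Finset.insert_union]
        exact h2 h (Finset.mem_insert_of_mem hh))
    rw [Finset.insert_union, A_dc v hg' hgU hgR', sp_insert]
    have := i.add (A_nonneg v (S ∪ R) U)
    rwa [sub_add_eq_add_sub] at this

theorem A_sp_indep (S : Finset ι) : ∀ (U : Submodule (ZMod 2) W) (R : Finset ι),
    (∀ g ∈ S, v g ∉ sp v (sp v U R) (S.erase g)) → A v (sp v U S) R = A v U R := by
  induction S using Finset.induction with
  | empty => intro U R _; rw [sp_empty]
  | insert g S hg ih =>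
    intro U R h1
    have hgR : v g ∉ sp v U R := by
      have := h1 g (Finset.mem_insert_self _ _)
      rw [Finset.erase_insert hg] at this
      exact fun h => this (le_sp v _ S h)
    rw [sp_insert, ih, A_ct_indep v hgR]
    intro h hh
    have hne : g ≠ h := fun e => hg (e ▸ hh)
    rw [sp_ct, ← sp_insert, ← Finset.erase_insert_of_ne hne]
    exact h1 h (Finset.mem_insert_of_mem hh)

theorem finrank_sp_indep (S : Finset ι) : ∀ (U : Submodule (ZMod 2) W),
    (∀ g ∈ S, v g ∉ sp v U (S.erase g)) →
    finrank (ZMod 2) (sp v U S) = finrank (ZMod 2) U + S.card := by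
  induction S using Finset.induction with
  | empty => intro U _; rw [sp_empty]; simp
  | insert g S hg ih =>
    intro U h1
    have hgU : v g ∉ U := by
      have := h1 g (Finset.mem_insert_self _ _)
      rw [Finset.erase_insert hg] at this
      exact fun h => this (le_sp v _ S h)
    rw [sp_insert, ih, finrank_ct hgU, Finset.card_insert_of_notMem hg]
    · ring
    · intro h hh
      have hne : g ≠ h := fun e => hg (e ▸ hh)
      rw [← sp_insert, ← Finset.erase_insert_of_ne hne]
      exact h1 h (Finset.mem_insert_of_mem hh)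

end general

section graph

variable {V : Type*} [Fintype V] [DecidableEq V]

/-- The incidence vector of an edge. -/
def ev (e : Sym2 V) : V → ZMod 2 := fun x => if x ∈ e then 1 else 0

/-- Connectedness of an edge set. -/
def Conn (R : Finset (Sym2 V)) : Prop :=
  ∀ T : Set V, (∀ f ∈ R, ∀ x ∈ f, ∀ y ∈ f, x ∈ T → y ∈ T) → (∃ f ∈ R, ∃ x ∈ f, x ∈ T) →
    ∀ f ∈ R, ∀ x ∈ f, x ∈ T

/-- Nonempty, connected, bridgeless. -/
structure Nice (R : Finset (Sym2 V)) : Prop where
  ne : R.Nonempty
  conn : Conn R
  cf : ∀ f ∈ R, ev f ∈ sp ev ⊥ (R.erase f)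

open Classical in
/-- Restriction of a vector to a set of vertices. -/
noncomputable def rho (T : Set V) : (V → ZMod 2) →ₗ[ZMod 2] (V → ZMod 2) where
  toFun w x := if x ∈ T then w x else 0
  map_add' w w' := by ext x; simp only [Pi.add_apply]; split_ifs <;> simp
  map_smul' a w := by ext x; simp only [Pi.smul_apply, RingHom.id_apply]; split_ifs <;> simp

theorem rho_ev_in {T : Set V} {e : Sym2 V} (h : ∀ x ∈ e, x ∈ T) : rho T (ev e) = ev e := by
  ext x
  simp only [rho, ev, LinearMap.coe_mk, AddHom.coe_mk]
  by_cases hx : x ∈ e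
  · simp [hx, h x hx]
  · simp [hx]

theorem rho_ev_out {T : Set V} {e : Sym2 V} (h : ∀ x ∈ e, x ∉ T) : rho T (ev e) = 0 := by
  ext x
  simp only [rho, ev, LinearMap.coe_mk, AddHom.coe_mk, Pi.zero_apply]
  by_cases hx : x ∈ e
  · simp [hx, h x hx]
  · simp [hx]

/-- Evaluation at a vertex. -/
def evalAt (x : V) : (V → ZMod 2) →ₗ[ZMod 2] ZMod 2 := LinearMap.proj x

theorem evalAt_ev (x : V) (e : Sym2 V) : evalAt x (ev e) = if x ∈ e then 1 else 0 := rfl

theorem Nice.two_at {R : Finset (Sym2 V)} (h : Nice R) {a : Sym2 V} (ha : a ∈ R) {x : V}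
    (hx : x ∈ a) : ∃ b ∈ R, b ≠ a ∧ x ∈ b := by
  by_contra hcon
  push Not at hcon
  have := functional_sp ev (evalAt x) (U := ⊥) (by
    intro y hy; rw [Submodule.mem_bot] at hy; rw [hy, map_zero]) (Z := R.erase a) (by
    intro f hf
    rw [Finset.mem_erase] at hf
    rw [evalAt_ev, if_neg (hcon f hf.2 hf.1)]) _ (h.cf a ha)
  rw [evalAt_ev, if_pos hx] at this
  exact absurd this (by decide)

/-- The main ear bound. -/
theorem ear_bound {E : Finset (Sym2 V)} (hE : ∀ x, (E.filter (x ∈ ·)).card ≤ 3) (n : ℕ) :
    ∀ R : Finset (Sym2 V), R.card ≤ n → R ⊆ E → Nice R →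
      ∃ k, R.card = finrank (ZMod 2) (sp (ev (V := V)) ⊥ R) + k + 1 ∧
        NN (A ev ⊥ R - (X + 1) * (X + 2) ^ k) := by
  classical
  induction n with
  | zero =>
    intro R hR _ hN
    exact absurd hN.ne (by simpa [Finset.not_nonempty_iff_eq_empty] using hR)
  | succ n ih =>
    intro R hRn hRE hN
    -- a maximal proper nice subset (or the empty set)
    obtain ⟨R₀, hR₀, hmax⟩ := Finset.exists_max_image
      (R.powerset.filter fun R₀ => R₀ ≠ R ∧ (R₀ = ∅ ∨ Nice R₀)) Finset.card
      ⟨∅, by
        rw [Finset.mem_filter, Finset.mem_powerset]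
        exact ⟨Finset.empty_subset _, fun h => by
          have := hN.ne; rw [← h] at this; exact Finset.not_nonempty_empty this, Or.inl rfl⟩⟩
    rw [Finset.mem_filter, Finset.mem_powerset] at hR₀
    obtain ⟨hsub, hneR, hor⟩ := hR₀
    -- the first new edge
    obtain ⟨f₀, x, hf₀R, hf₀, hx, hxR₀⟩ : ∃ f₀ x, f₀ ∈ R ∧ f₀ ∉ R₀ ∧ x ∈ f₀ ∧
        (R₀.Nonempty → ∃ f ∈ R₀, x ∈ f) := by
      rcases hor with h0 | h0
      · obtain ⟨f, hf⟩ := hN.ne
        refine ⟨f, f.out.1, hf, by rw [h0]; exact Finset.notMem_empty _, Sym2.out_fst_mem f, ?_⟩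
        intro h; rw [h0] at h; exact absurd h Finset.not_nonempty_empty
      · by_contra hcon
        push Not at hcon
        have hcon' : ∀ f ∈ R, f ∉ R₀ → ∀ x ∈ f, ∀ g ∈ R₀, x ∉ g := fun f hf hf0 x hx =>
          (hcon f x hf hf0 hx).2
        have := hN.conn {x | ∃ f ∈ R₀, x ∈ f} (by
          intro f hf x hx y hy hxT
          by_cases hf0 : f ∈ R₀
          · exact ⟨f, hf0, hy⟩
          · obtain ⟨g, hg, hxg⟩ := hxT
            exact absurd hxg (hcon' f hf hf0 x hx g hg)) (by
          obtain ⟨f, hf⟩ := h0.ne
          exact ⟨f, hsub hf, f.out.1, Sym2.out_fst_mem f, f, hf, Sym2.out_fst_mem f⟩)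
        obtain ⟨f, hf, hf0⟩ : ∃ f ∈ R, f ∉ R₀ := by
          by_contra h'
          push Not at h'
          exact hneR (Finset.Subset.antisymm hsub h')
        obtain ⟨g, hg, hxg⟩ := this f hf f.out.1 (Sym2.out_fst_mem f)
        exact hcon' f hf hf0 _ (Sym2.out_fst_mem f) g hg hxg
    set B := sp (ev (V := V)) ⊥ R₀ with hB
    -- minimal ear
    obtain ⟨S, hS, hSmin⟩ := Finset.exists_min_image
      (((R \ R₀).erase f₀).powerset.filter fun S => ev f₀ ∈ sp ev B S) Finset.card
      ⟨(R \ R₀).erase f₀, by
        rw [Finset.mem_filter, Finset.mem_powerset]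
        refine ⟨Finset.Subset.refl _, ?_⟩
        rw [hB, ← sp_union]
        refine sp_mono ev le_rfl ?_ (hN.cf f₀ hf₀R)
        intro g hg
        rw [Finset.mem_erase] at hg
        rw [Finset.mem_union, Finset.mem_erase, Finset.mem_sdiff]
        by_cases h : g ∈ R₀
        · exact Or.inl h
        · exact Or.inr ⟨hg.1, hg.2, h⟩⟩
    rw [Finset.mem_filter, Finset.mem_powerset] at hS
    obtain ⟨hSsub, hSsp⟩ := hS
    have hSR : ∀ g ∈ S, g ∈ R ∧ g ∉ R₀ ∧ g ≠ f₀ := by
      intro g hg
      have := hSsub hg
      rw [Finset.mem_erase, Finset.mem_sdiff] at this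
      exact ⟨this.2.1, this.2.2, this.1⟩
    have hSmin' : ∀ S' ⊆ S, ev f₀ ∈ sp ev B S' → S' = S := by
      intro S' hS' h
      have := hSmin S' (by
        rw [Finset.mem_filter, Finset.mem_powerset]
        exact ⟨hS'.trans hSsub, h⟩)
      exact Finset.eq_of_subset_of_card_le hS' this
    have hne : ∀ g ∈ S, ev f₀ ∉ sp ev B (S.erase g) := by
      intro g hg h
      have h3 := hSmin' _ (Finset.erase_subset g S) h
      exact Finset.notMem_erase g S (by rw [h3]; exact hg)
    have claim1 : ∀ g ∈ S, ev g ∉ sp ev B (S.erase g) := by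
      intro g hg h
      apply hne g hg
      rw [← Finset.insert_erase hg, sp_insert', ct_of_mem h] at hSsp
      exact hSsp
    have claim2 : ∀ g ∈ S, ev g ∈ sp ev B (insert f₀ (S.erase g)) := by
      intro g hg
      rw [← Finset.insert_erase hg, mem_sp_insert] at hSsp
      rw [mem_sp_insert]
      rcases hSsp with h | h
      · exact absurd h (hne g hg)
      · right; rwa [add_comm]
    have hf₀S : f₀ ∉ S := fun h => (hSR f₀ h).2.2 rfl
    -- key connectivity claim
    have key : ∀ T : Set V, (∀ f ∈ R₀ ∪ insert f₀ S, ∀ x ∈ f, ∀ y ∈ f, x ∈ T → y ∈ T) → x ∈ T →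
        ∀ f ∈ R₀ ∪ insert f₀ S, ∀ x ∈ f, x ∈ T := by
      intro T hT hxT
      have hT0 : ∀ f ∈ R₀, ∀ y ∈ f, y ∈ T := by
        by_cases hR0 : R₀.Nonempty
        · rcases hor with h0 | h0
          · rw [h0] at hR0; exact absurd hR0 Finset.not_nonempty_empty
          · obtain ⟨f, hf, hxf⟩ := hxR₀ hR0
            exact h0.conn T (fun f hf => hT f (Finset.mem_union_left _ hf)) ⟨f, hf, x, hxf, hxT⟩
        · rw [Finset.not_nonempty_iff_eq_empty] at hR0
          intro f hf; rw [hR0] at hf; exact absurd hf (Finset.notMem_empty _)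
      have hTf₀ : ∀ y ∈ f₀, y ∈ T := fun y hy => hT f₀ (by simp) x hx y hy hxT
      have hρ : sp ev B S ≤ (sp ev B (S.filter fun g => ∃ y ∈ g, y ∈ T)).comap (rho T) := by
        apply sp_le
        · rw [hB]
          apply sp_le
          · exact bot_le
          · intro f hf
            rw [Submodule.mem_comap, rho_ev_in (hT0 f hf)]
            exact le_sp ev _ _ (mem_sp_of_mem ev _ hf)
        · intro g hg
          rw [Submodule.mem_comap]
          by_cases h : ∃ y ∈ g, y ∈ T
          · obtain ⟨y, hy, hyT⟩ := h
            rw [rho_ev_in (fun z hz => hT g (by simp [hg]) y hy z hz hyT)]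
            exact mem_sp_of_mem ev _ (Finset.mem_filter.2 ⟨hg, y, hy, hyT⟩)
          · push Not at h
            rw [rho_ev_out h]
            exact Submodule.zero_mem _
      have h1 := hρ hSsp
      rw [Submodule.mem_comap, rho_ev_in hTf₀] at h1
      have h2 := hSmin' _ (Finset.filter_subset _ _) h1
      intro f hf y hy
      rw [Finset.mem_union, Finset.mem_insert] at hf
      rcases hf with hf | rfl | hf
      · exact hT0 f hf y hy
      · exact hTf₀ y hy
      · rw [← h2, Finset.mem_filter] at hf
        obtain ⟨hfS, z, hz, hzT⟩ := hf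
        exact hT f (by simp [hfS]) z hz y hy hzT
    have hNice : Nice (R₀ ∪ insert f₀ S) := by
      refine ⟨⟨f₀, by simp⟩, ?_, ?_⟩
      · intro T hT ⟨f₁, hf₁, y, hy, hyT⟩
        by_cases hxT : x ∈ T
        · exact key T hT hxT
        · have := key Tᶜ (fun f hf a ha b hb haT hbT => haT (hT f hf b hb a ha hbT)) hxT f₁ hf₁ y hy
          exact absurd hyT this
      · intro f hf
        rw [Finset.mem_union, Finset.mem_insert] at hf
        rcases hf with hf | rfl | hf
        · rcases hor with h0 | h0
          · rw [h0] at hf; exact absurd hf (Finset.notMem_empty _)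
          · exact sp_mono ev le_rfl (Finset.erase_subset_erase _ Finset.subset_union_left)
              (h0.cf f hf)
        · rw [hB, ← sp_union] at hSsp
          refine sp_mono ev le_rfl ?_ hSsp
          intro g hg
          rw [Finset.mem_union] at hg
          rw [Finset.mem_erase, Finset.mem_union, Finset.mem_insert]
          rcases hg with hg | hg
          · exact ⟨fun h => hf₀ (h ▸ hg), Or.inl hg⟩
          · exact ⟨(hSR g hg).2.2, Or.inr (Or.inr hg)⟩
        · have := claim2 f hf
          rw [hB, ← sp_union] at this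
          refine sp_mono ev le_rfl ?_ this
          intro g hg
          rw [Finset.mem_union, Finset.mem_insert, Finset.mem_erase] at hg
          rw [Finset.mem_erase, Finset.mem_union, Finset.mem_insert]
          rcases hg with hg | rfl | hg
          · exact ⟨fun h => (hSR f hf).2.1 (h ▸ hg), Or.inl hg⟩
          · exact ⟨fun h => (hSR f hf).2.2 h.symm, Or.inr (Or.inl rfl)⟩
          · exact ⟨hg.1, Or.inr (Or.inr hg.2)⟩
    have hsubR : R₀ ∪ insert f₀ S ⊆ R := by
      intro g hg
      rw [Finset.mem_union, Finset.mem_insert] at hg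
      rcases hg with hg | rfl | hg
      · exact hsub hg
      · exact hf₀R
      · exact (hSR g hg).1
    have hReq : R₀ ∪ insert f₀ S = R := by
      by_contra hne'
      have := hmax (R₀ ∪ insert f₀ S) (by
        rw [Finset.mem_filter, Finset.mem_powerset]
        exact ⟨hsubR, hne', Or.inr hNice⟩)
      have hlt : R₀.card < (R₀ ∪ insert f₀ S).card := by
        apply Finset.card_lt_card
        rw [Finset.ssubset_iff_of_subset Finset.subset_union_left]
        exact ⟨f₀, by simp, hf₀⟩
      omega
    have hReq' : S ∪ insert f₀ R₀ = R := by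
      rw [← hReq]
      ext g
      simp only [Finset.mem_union, Finset.mem_insert]
      tauto
    have hdisj : Disjoint S (insert f₀ R₀) := by
      rw [Finset.disjoint_left]
      intro g hg h
      rw [Finset.mem_insert] at h
      rcases h with rfl | h
      · exact hf₀S hg
      · exact (hSR g hg).2.1 h
    have hcard : R.card = S.card + (R₀.card + 1) := by
      rw [← hReq', Finset.card_union_of_disjoint hdisj, Finset.card_insert_of_notMem hf₀]
    have hrank : finrank (ZMod 2) (sp (ev (V := V)) ⊥ R) = finrank (ZMod 2) B + S.card := by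
      rw [← hReq, sp_union, ← hB, sp_insert', ct_of_mem hSsp]
      exact finrank_sp_indep ev S B claim1
    have hc := A_contract_le ev S ⊥ (insert f₀ R₀) hdisj
      (fun g hg h => claim1 g hg (sp_mono ev bot_le (Finset.Subset.refl _) h))
      (fun g hg => by rw [hReq']; exact hN.cf g (hSR g hg).1)
    rw [hReq'] at hc
    rcases hor with h0 | h0
    · -- `R` is a circuit
      refine ⟨0, ?_, ?_⟩
      · rw [hcard, hrank, hB, h0, sp_empty, finrank_bot]; simp
      · rw [h0, Finset.insert_empty] at hc
        have : ev f₀ ∈ sp ev ⊥ S := by rw [hB, h0, sp_empty] at hSsp; exact hSsp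
        rw [A_single_loop ev this] at hc
        rw [pow_zero, mul_one]; exact hc
    · obtain ⟨k, hk1, hk2⟩ := ih R₀ (by omega) (hsub.trans hRE) h0
      refine ⟨k + 1, ?_, ?_⟩
      · rw [hcard, hrank, hk1]; ring
      · obtain ⟨a, ha, hxa⟩ := hxR₀ h0.ne
        obtain ⟨b, hb, hba, hxb⟩ := h0.two_at ha hxa
        have h3 : ∀ g ∈ E, x ∈ g → g = f₀ ∨ g = a ∨ g = b := by
          intro g hg hxg
          by_contra hcon
          push Not at hcon
          have hsub4 : ({g, f₀, a, b} : Finset (Sym2 V)) ⊆ E.filter (x ∈ ·) := by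
            intro h hh
            simp only [Finset.mem_insert, Finset.mem_singleton] at hh
            rw [Finset.mem_filter]
            rcases hh with rfl | rfl | rfl | rfl
            · exact ⟨hg, hxg⟩
            · exact ⟨hRE hf₀R, hx⟩
            · exact ⟨hRE (hsub ha), hxa⟩
            · exact ⟨hRE (hsub hb), hxb⟩
          have hfa : f₀ ≠ a := fun h => hf₀ (h ▸ ha)
          have hfb : f₀ ≠ b := fun h => hf₀ (h ▸ hb)
          have h4 : ({g, f₀, a, b} : Finset (Sym2 V)).card = 4 := by
            rw [Finset.card_insert_of_notMem, Finset.card_insert_of_notMem,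
              Finset.card_pair hba.symm]
            · simp [hfa, hfb]
            · simp [hcon.1, hcon.2.1, hcon.2.2]
          have := Finset.card_le_card hsub4
          have := hE x
          omega
        have hR0eq : insert a (insert b (R₀ \ {a, b})) = R₀ := by
          ext g
          simp only [Finset.mem_insert, Finset.mem_sdiff, Finset.mem_singleton]
          constructor
          · rintro (rfl | rfl | h)
            · exact ha
            · exact hb
            · exact h.1
          · intro h
            by_cases h1 : g = a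
            · exact Or.inl h1
            · by_cases h2 : g = b
              · exact Or.inr (Or.inl h2)
              · exact Or.inr (Or.inr ⟨h, fun h' => by rcases h' with h' | h' <;> contradiction⟩)
        have hK := lemmaK' ev (Q := R₀ \ {a, b}) (U := sp ev ⊥ S) (e := f₀) (a := a) (b := b)
          (evalAt x) (by simp) (by simp) hba.symm (by rw [hR0eq]; exact hf₀)
          (functional_sp ev (evalAt x) (by
            intro y hy; rw [Submodule.mem_bot] at hy; rw [hy, map_zero]) (by
            intro g hg
            rw [evalAt_ev, if_neg]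
            intro hxg
            rcases h3 g (hRE (hSR g hg).1) hxg with h | h | h
            · exact (hSR g hg).2.2 h
            · exact (hSR g hg).2.1 (h ▸ ha)
            · exact (hSR g hg).2.1 (h ▸ hb)))
          (by rw [evalAt_ev, if_pos hx]) (by rw [evalAt_ev, if_pos hxa])
          (by rw [evalAt_ev, if_pos hxb]) (by
            intro g hg
            rw [evalAt_ev, if_neg]
            intro hxg
            simp only [Finset.mem_sdiff, Finset.mem_insert, Finset.mem_singleton] at hg
            rcases h3 g (hRE (hsub hg.1)) hxg with h | h | h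
            · exact hf₀ (h ▸ hg.1)
            · exact hg.2 (Or.inl h)
            · exact hg.2 (Or.inr h)) (by
            rw [hR0eq, ← sp_union, Finset.union_comm, sp_union]; exact hSsp)
        rw [hR0eq, A_sp_indep ev S ⊥ R₀ (fun g hg => claim1 g hg)] at hK
        have := (hc.add hK).add (NN.X2.mul hk2)
        refine (congrArg NN ?_).mp this
        ring

end graph

end Pool.Agent.V11128.FlowLin
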