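import Mathlib

/-!
# Cuts of cubic graphs and two good disjoint edges
-/

namespace Pool.Agent.V11128.FlowCuts

set_option linter.unusedSectionVars false
set_option linter.unusedSimpArgs false
set_option linter.unnecessarySimpa false

variable {V : Type*} [Fintype V] [DecidableEq V]

/-- The edge `e` crosses the cut `T`. -/
def cr (T : Finset V) (e : Sym2 V) : Prop := ∃ x ∈ e, ∃ y ∈ e, x ∈ T ∧ y ∉ T

theorem cr_mk {T : Finset V} {a b : V} : cr T s(a, b) ↔ (a ∈ T ∧ b ∉ T) ∨ (b ∈ T ∧ a ∉ T) := by
  unfold cr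
  constructor
  · rintro ⟨x, hx, y, hy, h1, h2⟩
    rw [Sym2.mem_iff] at hx hy
    rcases hx with rfl | rfl <;> rcases hy with rfl | rfl
    · exact absurd h1 h2
    · exact Or.inl ⟨h1, h2⟩
    · exact Or.inr ⟨h1, h2⟩
    · exact absurd h1 h2
  · rintro (⟨h1, h2⟩ | ⟨h1, h2⟩)
    · exact ⟨a, by simp, b, by simp, h1, h2⟩
    · exact ⟨b, by simp, a, by simp, h1, h2⟩

open Classical in
/-- The cut of `T`. -/
noncomputable def dl (E : Finset (Sym2 V)) (T : Finset V) : Finset (Sym2 V) := E.filter (cr T)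

theorem mem_dl {E : Finset (Sym2 V)} {T : Finset V} {e : Sym2 V} : e ∈ dl E T ↔ e ∈ E ∧ cr T e := by
  simp only [dl, Finset.mem_filter]

theorem dl_symmDiff (E : Finset (Sym2 V)) (S T : Finset V) :
    dl E (symmDiff S T) = symmDiff (dl E S) (dl E T) := by
  ext e
  rw [Finset.mem_symmDiff]
  simp only [mem_dl]
  induction e with
  | _ a b =>
    simp only [cr_mk, Finset.mem_symmDiff]
    tauto

theorem dl_compl (E : Finset (Sym2 V)) (T : Finset V) : dl E Tᶜ = dl E T := by
  ext e
  simp only [mem_dl]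
  induction e with
  | _ a b =>
    simp only [cr_mk, Finset.mem_compl]
    tauto

theorem card_symmDiff (A B : Finset (Sym2 V)) :
    (symmDiff A B).card + 2 * (A ∩ B).card = A.card + B.card := by
  have h1 : symmDiff A B = (A \ B) ∪ (B \ A) := rfl
  rw [h1, Finset.card_union_of_disjoint (by
    rw [Finset.disjoint_left]
    intro x hx hy
    rw [Finset.mem_sdiff] at hx hy
    exact hx.2 hy.1)]
  have h2 := Finset.card_sdiff_add_card_inter A B
  have h3 := Finset.card_sdiff_add_card_inter B A
  rw [Finset.inter_comm B A] at h3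
  omega

theorem submod (E : Finset (Sym2 V)) (S T : Finset V) :
    (dl E (S ∩ T)).card + (dl E (S ∪ T)).card ≤ (dl E S).card + (dl E T).card := by
  classical
  unfold dl
  simp only [Finset.card_filter]
  rw [← Finset.sum_add_distrib, ← Finset.sum_add_distrib]
  apply Finset.sum_le_sum
  intro e _
  induction e with
  | _ a b =>
    simp only [cr_mk, Finset.mem_inter, Finset.mem_union]
    by_cases h1 : a ∈ S <;> by_cases h2 : a ∈ T <;> by_cases h3 : b ∈ S <;> by_cases h4 : b ∈ T <;>
      simp [h1, h2, h3, h4]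

theorem posimod (E : Finset (Sym2 V)) (S T : Finset V) :
    (dl E (S \ T)).card + (dl E (T \ S)).card ≤ (dl E S).card + (dl E T).card := by
  classical
  unfold dl
  simp only [Finset.card_filter]
  rw [← Finset.sum_add_distrib, ← Finset.sum_add_distrib]
  apply Finset.sum_le_sum
  intro e _
  induction e with
  | _ a b =>
    simp only [cr_mk, Finset.mem_sdiff]
    by_cases h1 : a ∈ S <;> by_cases h2 : a ∈ T <;> by_cases h3 : b ∈ S <;> by_cases h4 : b ∈ T <;>
      simp [h1, h2, h3, h4]

/-- Cubic, loopless, connected, bridgeless. -/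
structure Cub (E : Finset (Sym2 V)) : Prop where
  loop : ∀ e ∈ E, ¬ e.IsDiag
  three : ∀ x, (E.filter (x ∈ ·)).card = 3
  two : ∀ T : Finset V, T.Nonempty → T ≠ Finset.univ → 2 ≤ (dl E T).card

variable {E : Finset (Sym2 V)}

theorem Cub.ne (h : Cub E) {a b : V} (he : s(a, b) ∈ E) : a ≠ b := fun hab =>
  h.loop _ he (by rw [hab]; simp)

theorem Cub.mem_single (h : Cub E) {x : V} {e : Sym2 V} : e ∈ dl E {x} ↔ e ∈ E ∧ x ∈ e := by
  rw [mem_dl]
  induction e with
  | _ a b =>
    rw [cr_mk, Sym2.mem_iff, Finset.mem_singleton, Finset.mem_singleton]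
    constructor
    · rintro ⟨h1, (h2 | h2)⟩
      · exact ⟨h1, Or.inl h2.1.symm⟩
      · exact ⟨h1, Or.inr h2.1.symm⟩
    · rintro ⟨h1, h2⟩
      have := h.ne h1
      refine ⟨h1, ?_⟩
      rcases h2 with rfl | rfl
      · exact Or.inl ⟨rfl, fun h => this h.symm⟩
      · exact Or.inr ⟨rfl, this⟩

theorem Cub.card_single (h : Cub E) (x : V) : (dl E {x}).card = 3 := by
  rw [← h.three x]
  congr 1
  ext e
  rw [h.mem_single, Finset.mem_filter]

theorem Cub.parity (h : Cub E) (T : Finset V) : (dl E T).card % 2 = T.card % 2 := by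
  induction T using Finset.induction with
  | empty =>
    have : dl E (∅ : Finset V) = ∅ := by
      ext e; rw [mem_dl]; unfold cr; simp
    rw [this]; rfl
  | insert x T hx ih =>
    have h1 : insert x T = symmDiff {x} T := by
      ext y
      simp only [Finset.mem_insert, Finset.mem_symmDiff, Finset.mem_singleton]
      constructor
      · rintro (rfl | h)
        · exact Or.inl ⟨rfl, hx⟩
        · exact Or.inr ⟨h, fun h' => hx (h' ▸ h)⟩
      · rintro (h | h)
        · exact Or.inl h.1
        · exact Or.inr h.1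
    rw [Finset.card_insert_of_notMem hx, h1, dl_symmDiff]
    have := card_symmDiff (dl E {x}) (dl E T)
    rw [h.card_single] at this
    omega

/-- An edge inside `S`. -/
theorem Cub.inside (h : Cub E) {S : Finset V} (hS : 2 ≤ S.card) (hd : (dl E S).card ≤ 5) :
    ∃ a b, a ∈ S ∧ b ∈ S ∧ s(a, b) ∈ E := by
  by_contra hcon
  push Not at hcon
  obtain ⟨x, hx, y, hy, hxy⟩ := Finset.one_lt_card.1 hS
  have hsub : ∀ z ∈ S, dl E {z} ⊆ dl E S := by
    intro z hz e he
    rw [h.mem_single] at he
    rw [mem_dl]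
    refine ⟨he.1, ?_⟩
    obtain ⟨w, rfl⟩ := Sym2.mem_iff_exists.1 he.2
    rw [cr_mk]
    exact Or.inl ⟨hz, fun hw => hcon z w hz hw he.1⟩
  have hdisj : Disjoint (dl E {x}) (dl E {y}) := by
    rw [Finset.disjoint_left]
    intro e h1 h2
    rw [h.mem_single] at h1 h2
    have : e = s(x, y) := ((Sym2.mem_and_mem_iff hxy).1 ⟨h1.2, h2.2⟩)
    exact hcon x y hx hy (this ▸ h1.1)
  have := Finset.card_le_card (Finset.union_subset (hsub x hx) (hsub y hy))
  rw [Finset.card_union_of_disjoint hdisj, h.card_single, h.card_single] at this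
  omega

theorem dl_pair (h : Cub E) {u v : V} (he : s(u, v) ∈ E) : (dl E {u, v}).card = 4 := by
  have huv := h.ne he
  have h1 : ({u, v} : Finset V) = symmDiff {u} {v} := by
    ext y
    simp only [Finset.mem_insert, Finset.mem_symmDiff, Finset.mem_singleton]
    constructor
    · rintro (rfl | rfl)
      · exact Or.inl ⟨rfl, huv⟩
      · exact Or.inr ⟨rfl, fun h' => huv h'.symm⟩
    · rintro (h | h)
      · exact Or.inl h.1
      · exact Or.inr h.1
  have h2 : dl E {u} ∩ dl E {v} = {s(u, v)} := by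
    ext e
    rw [Finset.mem_inter, h.mem_single, h.mem_single, Finset.mem_singleton]
    constructor
    · rintro ⟨h1, h2⟩
      exact (Sym2.mem_and_mem_iff huv).1 ⟨h1.2, h2.2⟩
    · rintro rfl
      exact ⟨⟨he, by simp⟩, he, by simp⟩
  have := card_symmDiff (dl E {u}) (dl E {v})
  rw [h2, h.card_single, h.card_single, Finset.card_singleton] at this
  rw [h1, dl_symmDiff]
  omega

/-- The properties needed of the two edges. -/
structure Good (E : Finset (Sym2 V)) (u v u' v' : V) : Prop where
  e : s(u, v) ∈ E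
  e' : s(u', v') ∈ E
  uu' : u ≠ u'
  uv' : u ≠ v'
  vu' : v ≠ u'
  vv' : v ≠ v'
  O1 : ∀ T g, (dl E T).Nonempty → ¬ dl E T ⊆ {s(u, v), s(u', v'), g}
  B : ∀ T a b, a ∈ E → b ∈ E → u ∈ a → v ∈ b → a ≠ s(u, v) → b ≠ s(u, v) → a ∈ dl E T →
    b ∈ dl E T → ¬ dl E T ⊆ {a, b}
  D : ∀ T a b, a ∈ E → b ∈ E → u' ∈ a → v' ∈ b → a ≠ s(u', v') → b ≠ s(u', v') → a ∈ dl E T →
    b ∈ dl E T → ¬ dl E T ⊆ {a, b, s(u, v)}

theorem mem_edge_cases {x y : V} (hxy : x ≠ y) {a : Sym2 V} (hx : x ∈ a) (hy : y ∈ a) : a = s(x, y) :=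
  (Sym2.mem_and_mem_iff hxy).1 ⟨hx, hy⟩

/-- An atom. -/
structure Atom (E : Finset (Sym2 V)) (S : Finset V) : Prop where
  ne : S.Nonempty
  nu : S ≠ Finset.univ
  two : (dl E S).card = 2
  min : ∀ Y, Y ⊆ S → Y ≠ S → Y.Nonempty → 3 ≤ (dl E Y).card

theorem exists_atom (h : Cub E) {T : Finset V} (hT : T.Nonempty) (hT' : T ≠ Finset.univ)
    (h2 : (dl E T).card ≤ 2) : ∃ S ⊆ T, Atom E S := by
  obtain ⟨S, hS, hmin⟩ := Finset.exists_min_image
    (T.powerset.filter fun S => S.Nonempty ∧ (dl E S).card ≤ 2) Finset.card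
    ⟨T, by rw [Finset.mem_filter, Finset.mem_powerset]; exact ⟨Finset.Subset.refl _, hT, h2⟩⟩
  rw [Finset.mem_filter, Finset.mem_powerset] at hS
  obtain ⟨hST, hSne, hS2⟩ := hS
  have hSu : S ≠ Finset.univ := fun hu => hT' (Finset.eq_univ_iff_forall.2 fun x =>
    hST (hu ▸ Finset.mem_univ x))
  refine ⟨S, hST, hSne, hSu, le_antisymm hS2 (h.two S hSne hSu), ?_⟩
  intro Y hYS hY hYne
  by_contra hcon
  have := hmin Y (by
    rw [Finset.mem_filter, Finset.mem_powerset]
    exact ⟨hYS.trans hST, hYne, by omega⟩)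
  exact hY (Finset.eq_of_subset_of_card_le hYS this)

/-- `T` crosses `S`. -/
def X (T S : Finset V) : Prop := (S ∩ T).Nonempty ∧ (S \ T).Nonempty

theorem X_of_cr {T S : Finset V} {u v : V} (hu : u ∈ S) (hv : v ∈ S) (h : cr T s(u, v)) : X T S := by
  rw [cr_mk] at h
  rcases h with ⟨h1, h2⟩ | ⟨h1, h2⟩
  · exact ⟨⟨u, Finset.mem_inter.2 ⟨hu, h1⟩⟩, ⟨v, Finset.mem_sdiff.2 ⟨hv, h2⟩⟩⟩
  · exact ⟨⟨v, Finset.mem_inter.2 ⟨hv, h1⟩⟩, ⟨u, Finset.mem_sdiff.2 ⟨hu, h2⟩⟩⟩

theorem inter_ne {T S : Finset V} (h : (S \ T).Nonempty) : S ∩ T ≠ S := by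
  obtain ⟨x, hx⟩ := h
  rw [Finset.mem_sdiff] at hx
  intro he
  rw [← he, Finset.mem_inter] at hx
  exact hx.2 hx.1.2

theorem sdiff_ne {T S : Finset V} (h : (S ∩ T).Nonempty) : S \ T ≠ S := by
  obtain ⟨x, hx⟩ := h
  rw [Finset.mem_inter] at hx
  intro he
  rw [← he, Finset.mem_sdiff] at hx
  exact hx.1.2 hx.2

theorem Atom.AL1 (h : Cub E) {S T : Finset V} (hS : Atom E S) (hT : (dl E T).card ≤ 2)
    (hX : X T S) : False := by
  have h1 := hS.min (S ∩ T) Finset.inter_subset_left (inter_ne hX.2) hX.1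
  have h2 := hS.min (S \ T) Finset.sdiff_subset (sdiff_ne hX.1) hX.2
  have h3 := submod E S T
  have h4 := posimod E S T
  rw [hS.two] at h3 h4
  by_cases hu : S ∪ T = Finset.univ
  · have h5 : (T \ S).Nonempty := by
      by_contra hcon
      rw [Finset.not_nonempty_iff_eq_empty, Finset.sdiff_eq_empty_iff_subset] at hcon
      rw [Finset.union_eq_left.2 hcon] at hu
      exact hS.nu hu
    have h6 : T \ S ≠ Finset.univ := by
      obtain ⟨x, hx⟩ := hS.ne
      intro he
      have := Finset.mem_univ x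
      rw [← he, Finset.mem_sdiff] at this
      exact this.2 hx
    have := h.two _ h5 h6
    omega
  · have := h.two (S ∪ T) (hS.ne.mono Finset.subset_union_left) hu
    omega

theorem Atom.AL3 (h : Cub E) {S : Finset V} (hS : Atom E S) {u v : V} (hu : u ∈ S) (hv : v ∈ S)
    (he : s(u, v) ∈ E) {a b : Sym2 V} (hua : u ∈ a) (hvb : v ∈ b) (hane : a ≠ s(u, v))
    (hbne : b ≠ s(u, v)) (ha : a ∈ dl E S) (hb : b ∈ dl E S) : False := by
  have huv := h.ne he
  have hva : v ∉ a := fun hva => hane (mem_edge_cases huv hua hva)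
  have hub : u ∉ b := fun hub => hbne (mem_edge_cases huv hub hvb)
  have hab : a ≠ b := fun hab => hva (hab ▸ hvb)
  have hsub : ({u, v} : Finset V) ⊆ S := by
    intro x hx
    simp only [Finset.mem_insert, Finset.mem_singleton] at hx
    rcases hx with rfl | rfl <;> assumption
  have hP := dl_pair h he
  have haP : a ∈ dl E {u, v} := by
    rw [mem_dl] at ha ⊢
    refine ⟨ha.1, ?_⟩
    obtain ⟨w, rfl⟩ := Sym2.mem_iff_exists.1 hua
    rw [cr_mk]
    left
    refine ⟨by simp, ?_⟩
    simp only [Finset.mem_insert, Finset.mem_singleton, not_or]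
    exact ⟨fun hw => h.ne ha.1 hw.symm, fun hw => hva (by rw [hw]; simp)⟩
  have hbP : b ∈ dl E {u, v} := by
    rw [mem_dl] at hb ⊢
    refine ⟨hb.1, ?_⟩
    obtain ⟨w, rfl⟩ := Sym2.mem_iff_exists.1 hvb
    rw [cr_mk]
    left
    refine ⟨by simp, ?_⟩
    simp only [Finset.mem_insert, Finset.mem_singleton, not_or]
    exact ⟨fun hw => hub (by rw [hw]; simp), fun hw => h.ne hb.1 hw.symm⟩
  have h1 := card_symmDiff (dl E S) (dl E {u, v})
  have h2 : 2 ≤ (dl E S ∩ dl E {u, v}).card := by
    rw [← Finset.card_pair hab]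
    apply Finset.card_le_card
    intro x hx
    simp only [Finset.mem_insert, Finset.mem_singleton] at hx
    rcases hx with rfl | rfl
    · exact Finset.mem_inter.2 ⟨ha, haP⟩
    · exact Finset.mem_inter.2 ⟨hb, hbP⟩
  rw [hS.two, hP, ← dl_symmDiff] at h1
  have h3 : symmDiff S {u, v} = S \ {u, v} := by
    ext x
    rw [Finset.mem_symmDiff, Finset.mem_sdiff]
    constructor
    · rintro (h | h)
      · exact h
      · exact absurd (hsub h.1) h.2
    · exact Or.inl
  rw [h3] at h1
  by_cases hne : (S \ {u, v}).Nonempty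
  · have := hS.min _ Finset.sdiff_subset (by
      intro h'
      have : u ∈ S \ {u, v} := by rw [h']; exact hu
      rw [Finset.mem_sdiff] at this
      exact this.2 (by simp)) hne
    omega
  · rw [Finset.not_nonempty_iff_eq_empty, Finset.sdiff_eq_empty_iff_subset] at hne
    have : S = {u, v} := Finset.Subset.antisymm hne hsub
    have := hS.two
    rw [Finset.Subset.antisymm hne hsub, hP] at this
    omega

/-- If `S ⊆ T` and `a` crosses `T` from a vertex of `S`, it crosses `S`. -/
theorem cross_sub {S T : Finset V} (hST : S ⊆ T) {u : V} (hu : u ∈ S) {a : Sym2 V} (hua : u ∈ a)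
    (ha : a ∈ dl E T) : a ∈ dl E S := by
  rw [mem_dl] at ha ⊢
  refine ⟨ha.1, ?_⟩
  obtain ⟨w, rfl⟩ := Sym2.mem_iff_exists.1 hua
  have h2 := ha.2
  rw [cr_mk] at h2 ⊢
  rcases h2 with h2 | h2
  · exact Or.inl ⟨hu, fun hw => h2.2 (hST hw)⟩
  · exact absurd (hST hu) h2.2

theorem sub_of_not_X {T S : Finset V} (h : ¬ X T S) (h1 : (S ∩ T).Nonempty) : S ⊆ T := by
  intro x hx
  by_contra hxT
  exact h ⟨h1, x, Finset.mem_sdiff.2 ⟨hx, hxT⟩⟩

theorem Atom.AL2 (h : Cub E) {S : Finset V} (hS : Atom E S) {u v : V} (hu : u ∈ S) (hv : v ∈ S)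
    (he : s(u, v) ∈ E) {a b : Sym2 V} (hua : u ∈ a) (hvb : v ∈ b) (hane : a ≠ s(u, v))
    (hbne : b ≠ s(u, v)) {T : Finset V} (ha : a ∈ dl E T) (hb : b ∈ dl E T)
    (hsub : dl E T ⊆ {a, b}) : False := by
  -- normalise so that `u ∈ T`
  wlog huT : u ∈ T generalizing T with H
  · exact H (T := Tᶜ) (by rwa [dl_compl]) (by rwa [dl_compl]) (by rwa [dl_compl])
      (Finset.mem_compl.2 huT)
  have hcard : (dl E T).card ≤ 2 := (Finset.card_le_card hsub).trans Finset.card_le_two
  have hST : S ⊆ T := sub_of_not_X (fun hX => hS.AL1 h hcard hX) ⟨u, Finset.mem_inter.2 ⟨hu, huT⟩⟩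
  exact hS.AL3 h hu hv he hua hvb hane hbne (cross_sub hST hu hua ha) (cross_sub hST hv hvb hb)

theorem case1 (h : Cub E) {T₀ : Finset V} (hT₀ : T₀.Nonempty) (hT₀' : T₀ ≠ Finset.univ)
    (h2 : (dl E T₀).card ≤ 2) : ∃ u v u' v', Good E u v u' v' := by
  obtain ⟨S, hST, hS⟩ := exists_atom h hT₀ hT₀' h2
  obtain ⟨S', hST', hS'⟩ := exists_atom h (T := T₀ᶜ) (by
    by_contra hcon
    rw [Finset.not_nonempty_iff_eq_empty] at hcon
    exact hT₀' (by rw [← compl_compl T₀, hcon, Finset.compl_empty])) (by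
    intro hcon
    obtain ⟨x, hx⟩ := hT₀
    have := Finset.mem_univ x
    rw [← hcon, Finset.mem_compl] at this
    exact this hx) (by rwa [dl_compl])
  have hdisj : ∀ x ∈ S, x ∉ S' := fun x hx hx' =>
    (Finset.mem_compl.1 (hST' hx')) (hST hx)
  have hcardS : ∀ R : Finset V, Atom E R → 2 ≤ R.card := by
    intro R hR
    have h1 := h.parity R
    rw [hR.two] at h1
    have h2 := hR.ne.card_pos
    omega
  obtain ⟨u, v, hu, hv, he⟩ := h.inside (hcardS S hS) (by rw [hS.two]; norm_num)
  obtain ⟨u', v', hu', hv', he'⟩ := h.inside (hcardS S' hS') (by rw [hS'.two]; norm_num)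
  have O1 : ∀ T g, (dl E T).Nonempty → ¬ dl E T ⊆ {s(u, v), s(u', v'), g} := by
    intro T g hne hsub
    have hTne : T.Nonempty := by
      by_contra hcon
      rw [Finset.not_nonempty_iff_eq_empty] at hcon
      obtain ⟨f, hf⟩ := hne
      rw [hcon, mem_dl] at hf
      obtain ⟨_, x, _, y, _, hx, _⟩ := hf
      exact absurd hx (Finset.notMem_empty _)
    have hTu : T ≠ Finset.univ := by
      intro hcon
      obtain ⟨f, hf⟩ := hne
      rw [hcon, mem_dl] at hf
      obtain ⟨_, x, _, y, _, _, hy⟩ := hf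
      exact hy (Finset.mem_univ _)
    have hge := h.two T hTne hTu
    have hle : (dl E T).card ≤ 3 := (Finset.card_le_card hsub).trans Finset.card_le_three
    by_cases hc2 : (dl E T).card ≤ 2
    · by_cases h1 : s(u, v) ∈ dl E T
      · exact hS.AL1 h hc2 (X_of_cr hu hv (mem_dl.1 h1).2)
      · by_cases h1' : s(u', v') ∈ dl E T
        · exact hS'.AL1 h hc2 (X_of_cr hu' hv' (mem_dl.1 h1').2)
        · have : dl E T ⊆ {g} := by
            intro f hf
            have := hsub hf
            simp only [Finset.mem_insert, Finset.mem_singleton] at this ⊢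
            rcases this with rfl | rfl | rfl
            · exact absurd hf h1
            · exact absurd hf h1'
            · rfl
          have := Finset.card_le_card this
          rw [Finset.card_singleton] at this
          omega
    · have heq : dl E T = {s(u, v), s(u', v'), g} :=
        Finset.eq_of_subset_of_card_le hsub (Finset.card_le_three.trans (by omega))
      have h1 : s(u, v) ∈ dl E T := by rw [heq]; simp
      have h1' : s(u', v') ∈ dl E T := by rw [heq]; simp
      have X1 := X_of_cr hu hv (mem_dl.1 h1).2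
      have X2 := X_of_cr hu' hv' (mem_dl.1 h1').2
      have g2 := hS.min (S \ T) Finset.sdiff_subset (sdiff_ne X1.1) X1.2
      have g4 := posimod E S T
      rw [hS.two] at g4
      apply hS'.AL1 h (T := T \ S) (by omega)
      refine ⟨?_, ?_⟩
      · obtain ⟨x, hx⟩ := X2.1
        rw [Finset.mem_inter] at hx
        exact ⟨x, Finset.mem_inter.2 ⟨hx.1, Finset.mem_sdiff.2 ⟨hx.2, fun hxS => hdisj x hxS hx.1⟩⟩⟩
      · obtain ⟨x, hx⟩ := X2.2
        rw [Finset.mem_sdiff] at hx
        exact ⟨x, Finset.mem_sdiff.2 ⟨hx.1, fun hx' => hx.2 (Finset.mem_sdiff.1 hx').1⟩⟩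
  refine ⟨u, v, u', v', he, he', fun h => hdisj u hu (h ▸ hu'), fun h => hdisj u hu (h ▸ hv'),
    fun h => hdisj v hv (h ▸ hu'), fun h => hdisj v hv (h ▸ hv'), O1, ?_, ?_⟩
  · intro T a b _ _ hua hvb hane hbne ha hb hsub
    exact hS.AL2 h hu hv he hua hvb hane hbne ha hb hsub
  · intro T a b haE hbE hua hvb hane hbne ha hb hsub
    wlog huT : u' ∈ T generalizing T with H
    · exact H (T := Tᶜ) (by rwa [dl_compl]) (by rwa [dl_compl]) (by rwa [dl_compl])
        (Finset.mem_compl.2 huT)
    by_cases h1 : s(u, v) ∈ dl E T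
    · have hvT : v' ∈ T := by
        by_contra hvT
        have : s(u', v') ∈ dl E T := mem_dl.2 ⟨he', cr_mk.2 (Or.inl ⟨huT, hvT⟩)⟩
        have := hsub this
        simp only [Finset.mem_insert, Finset.mem_singleton] at this
        rcases this with h' | h' | h'
        · exact hane h'.symm
        · exact hbne h'.symm
        · rw [Sym2.eq_iff] at h'
          rcases h' with h' | h'
          · exact hdisj u hu (h'.1 ▸ hu')
          · exact hdisj v hv (h'.1 ▸ hu')
      have X1 := X_of_cr hu hv (mem_dl.1 h1).2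
      have g2 := hS.min (S \ T) Finset.sdiff_subset (sdiff_ne X1.1) X1.2
      have g4 := posimod E S T
      have hle : (dl E T).card ≤ 3 := (Finset.card_le_card hsub).trans Finset.card_le_three
      rw [hS.two] at g4
      have huS : u' ∈ T \ S := Finset.mem_sdiff.2 ⟨huT, fun h' => hdisj u' h' hu'⟩
      have hST : S' ⊆ T \ S := sub_of_not_X (fun hX => hS'.AL1 h (by omega) hX)
        ⟨u', Finset.mem_inter.2 ⟨hu', huS⟩⟩
      have hST2 : S' ⊆ T := hST.trans Finset.sdiff_subset
      exact hS'.AL3 h hu' hv' he' hua hvb hane hbne (cross_sub hST2 hu' hua ha)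
        (cross_sub hST2 hv' hvb hb)
    · apply hS'.AL2 h hu' hv' he' hua hvb hane hbne ha hb
      intro f hf
      have := hsub hf
      simp only [Finset.mem_insert, Finset.mem_singleton] at this ⊢
      rcases this with h' | h' | h'
      · exact Or.inl h'
      · exact Or.inr h'
      · rw [h'] at hf; exact absurd hf h1

theorem proper_of_dl {T : Finset V} (hne : (dl E T).Nonempty) : T.Nonempty ∧ T ≠ Finset.univ := by
  constructor
  · by_contra hcon
    rw [Finset.not_nonempty_iff_eq_empty] at hcon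
    obtain ⟨f, hf⟩ := hne
    rw [hcon, mem_dl] at hf
    obtain ⟨_, x, _, y, _, hx, _⟩ := hf
    exact absurd hx (Finset.notMem_empty _)
  · intro hcon
    obtain ⟨f, hf⟩ := hne
    rw [hcon, mem_dl] at hf
    obtain ⟨_, x, _, y, _, _, hy⟩ := hf
    exact hy (Finset.mem_univ _)

theorem crossing3 (h : Cub E) (h3 : ∀ T : Finset V, T.Nonempty → T ≠ Finset.univ → 3 ≤ (dl E T).card)
    {S T : Finset V} (hS : (dl E S).card = 3) (hT : (dl E T).card ≤ 3) (h1 : (S ∩ T).Nonempty)
    (h2 : (S \ T).Nonempty) (h4 : (T \ S).Nonempty) (h5 : S ∪ T ≠ Finset.univ) : False := by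
  have hu1 : S ∩ T ≠ Finset.univ := by
    intro he
    obtain ⟨x, hx⟩ := h2
    have := Finset.mem_univ x
    rw [← he, Finset.mem_inter] at this
    exact (Finset.mem_sdiff.1 hx).2 this.2
  have hu2 : S \ T ≠ Finset.univ := by
    intro he
    obtain ⟨x, hx⟩ := h1
    have := Finset.mem_univ x
    rw [← he, Finset.mem_sdiff] at this
    exact this.2 (Finset.mem_inter.1 hx).2
  have hu4 : T \ S ≠ Finset.univ := by
    intro he
    obtain ⟨x, hx⟩ := h1
    have := Finset.mem_univ x
    rw [← he, Finset.mem_sdiff] at this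
    exact this.2 (Finset.mem_inter.1 hx).1
  have hn5 : (S ∪ T).Nonempty := by
    obtain ⟨x, hx⟩ := h1
    exact ⟨x, Finset.mem_union_left _ (Finset.mem_inter.1 hx).1⟩
  have e1 := h3 _ h1 hu1
  have e2 := h3 _ h2 hu2
  have e4 := h3 _ h4 hu4
  have e5 := h3 _ hn5 h5
  have s1 := submod E S T
  have s2 := posimod E S T
  have p1 := h.parity (S ∩ T)
  have p2 := h.parity (S \ T)
  have p3 := h.parity S
  have c := Finset.card_sdiff_add_card_inter S T
  omega

theorem case2b (h : Cub E) (h3 : ∀ T : Finset V, T.Nonempty → T ≠ Finset.univ → 3 ≤ (dl E T).card)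
    {T₀ : Finset V} (hT₀ : 2 ≤ T₀.card) (hT₀' : 2 ≤ T₀ᶜ.card) (hd : (dl E T₀).card ≤ 3) :
    ∃ u v u' v', Good E u v u' v' := by
  obtain ⟨S, hS, hmin⟩ := Finset.exists_min_image
    ((Finset.univ : Finset (Finset V)).filter fun S => 2 ≤ S.card ∧ 2 ≤ Sᶜ.card ∧ (dl E S).card ≤ 3)
    Finset.card ⟨T₀, by rw [Finset.mem_filter]; exact ⟨Finset.mem_univ _, hT₀, hT₀', hd⟩⟩
  rw [Finset.mem_filter] at hS
  obtain ⟨_, hS2, hS2', hSd⟩ := hS
  have hmin' : ∀ Y : Finset V, 2 ≤ Y.card → 2 ≤ Yᶜ.card → (dl E Y).card ≤ 3 → S.card ≤ Y.card :=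
    fun Y h1 h2 h3 => hmin Y (by rw [Finset.mem_filter]; exact ⟨Finset.mem_univ _, h1, h2, h3⟩)
  have hSne : S.Nonempty := Finset.card_pos.1 (by omega)
  have hSu : S ≠ Finset.univ := by
    intro he; rw [he, Finset.compl_univ, Finset.card_empty] at hS2'; omega
  have hS3 : (dl E S).card = 3 := le_antisymm hSd (h3 S hSne hSu)
  obtain ⟨u, v, hu, hv, he⟩ := h.inside hS2 (by omega)
  obtain ⟨u', v', hu', hv', he'⟩ := h.inside hS2' (by rw [dl_compl]; omega)
  rw [Finset.mem_compl] at hu' hv'
  have O1 : ∀ T g, (dl E T).Nonempty → ¬ dl E T ⊆ {s(u, v), s(u', v'), g} := by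
    intro T g hne hsub
    obtain ⟨hTne, hTu⟩ := proper_of_dl hne
    have hge := h3 T hTne hTu
    have hle : (dl E T).card ≤ 3 := (Finset.card_le_card hsub).trans Finset.card_le_three
    have heq : dl E T = {s(u, v), s(u', v'), g} :=
      Finset.eq_of_subset_of_card_le hsub (Finset.card_le_three.trans hge)
    have h1 : s(u, v) ∈ dl E T := by rw [heq]; simp
    have h1' : s(u', v') ∈ dl E T := by rw [heq]; simp
    have X1 := X_of_cr hu hv (mem_dl.1 h1).2
    have X2 := X_of_cr (Finset.mem_compl.2 hu') (Finset.mem_compl.2 hv') (mem_dl.1 h1').2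
    apply crossing3 h h3 hS3 hle X1.1 X1.2
    · obtain ⟨x, hx⟩ := X2.1
      rw [Finset.mem_inter, Finset.mem_compl] at hx
      exact ⟨x, Finset.mem_sdiff.2 ⟨hx.2, hx.1⟩⟩
    · obtain ⟨x, hx⟩ := X2.2
      rw [Finset.mem_sdiff, Finset.mem_compl] at hx
      intro hcon
      have := Finset.mem_univ x
      rw [← hcon, Finset.mem_union] at this
      rcases this with h | h
      · exact hx.1 h
      · exact hx.2 h
  refine ⟨u, v, u', v', he, he', fun h => hu' (h ▸ hu), fun h => hv' (h ▸ hu),
    fun h => hu' (h ▸ hv), fun h => hv' (h ▸ hv), O1, ?_, ?_⟩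
  · intro T a b _ _ hua hvb hane hbne ha hb hsub
    obtain ⟨hTne, hTu⟩ := proper_of_dl ⟨a, ha⟩
    have hge := h3 T hTne hTu
    have := (Finset.card_le_card hsub).trans Finset.card_le_two
    omega
  · intro T a b haE hbE hua hvb hane hbne ha hb hsub
    wlog huT : u' ∈ T generalizing T with H
    · exact H (T := Tᶜ) (by rwa [dl_compl]) (by rwa [dl_compl]) (by rwa [dl_compl])
        (Finset.mem_compl.2 huT)
    obtain ⟨hTne, hTu⟩ := proper_of_dl ⟨a, ha⟩
    have hge := h3 T hTne hTu
    have hle : (dl E T).card ≤ 3 := (Finset.card_le_card hsub).trans Finset.card_le_three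
    have heq : dl E T = {a, b, s(u, v)} :=
      Finset.eq_of_subset_of_card_le hsub (Finset.card_le_three.trans hge)
    have h1 : s(u, v) ∈ dl E T := by rw [heq]; simp
    have huv' := h.ne he'
    have hvT : v' ∈ T := by
      by_contra hvT
      have : s(u', v') ∈ dl E T := mem_dl.2 ⟨he', cr_mk.2 (Or.inl ⟨huT, hvT⟩)⟩
      have := hsub this
      simp only [Finset.mem_insert, Finset.mem_singleton] at this
      rcases this with h' | h' | h'
      · exact hane h'.symm
      · exact hbne h'.symm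
      · rw [Sym2.eq_iff] at h'
        rcases h' with h' | h'
        · exact hu' (h'.1 ▸ hu)
        · exact hu' (h'.1 ▸ hv)
    have X1 := X_of_cr hu hv (mem_dl.1 h1).2
    by_cases hun : S ∪ T = Finset.univ
    · have hsubT : Tᶜ ⊆ S := by
        intro x hx
        have := Finset.mem_univ x
        rw [← hun, Finset.mem_union] at this
        rcases this with h | h
        · exact h
        · exact absurd h (Finset.mem_compl.1 hx)
      have hneT : Tᶜ ≠ S := by
        intro h'
        obtain ⟨x, hx⟩ := X1.1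
        rw [Finset.mem_inter, ← h', Finset.mem_compl] at hx
        exact hx.1 hx.2
      have hlt : Tᶜ.card < S.card := Finset.card_lt_card (Finset.ssubset_iff_subset_ne.2 ⟨hsubT, hneT⟩)
      have hT2 : 2 ≤ T.card := by
        rw [← Finset.card_pair huv']
        apply Finset.card_le_card
        intro x hx
        simp only [Finset.mem_insert, Finset.mem_singleton] at hx
        rcases hx with rfl | rfl <;> assumption
      have hTc1 : Tᶜ.card ≤ 1 := by
        by_contra hcon
        have := hmin' Tᶜ (by omega) (by rwa [compl_compl]) (by rwa [dl_compl])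
        omega
      have hTcne : Tᶜ.Nonempty := by
        by_contra hcon
        rw [Finset.not_nonempty_iff_eq_empty] at hcon
        exact hTu (by rw [← compl_compl T, hcon, Finset.compl_empty])
      obtain ⟨w, hw⟩ := Finset.card_eq_one.1 (le_antisymm hTc1 hTcne.card_pos)
      have hwS : w ∈ S := hsubT (by rw [hw]; simp)
      have hdw : dl E {w} = {a, b, s(u, v)} := by rw [← hw, dl_compl, heq]
      have hwa : w ∈ a := (h.mem_single.1 (by rw [hdw]; simp : a ∈ dl E {w})).2
      have hwb : w ∈ b := (h.mem_single.1 (by rw [hdw]; simp : b ∈ dl E {w})).2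
      have haS : a ∈ dl E S := mem_dl.2 ⟨haE, w, hwa, u', hua, hwS, hu'⟩
      have hbS : b ∈ dl E S := mem_dl.2 ⟨hbE, w, hwb, v', hvb, hwS, hv'⟩
      have hab : a ≠ b := fun hab => hane (mem_edge_cases huv' hua (hab ▸ hvb))
      have hc := card_symmDiff (dl E S) (dl E {w})
      have h2 : 2 ≤ (dl E S ∩ dl E {w}).card := by
        rw [← Finset.card_pair hab]
        apply Finset.card_le_card
        intro x hx
        simp only [Finset.mem_insert, Finset.mem_singleton] at hx
        rcases hx with rfl | rfl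
        · exact Finset.mem_inter.2 ⟨haS, by rw [hdw]; simp⟩
        · exact Finset.mem_inter.2 ⟨hbS, by rw [hdw]; simp⟩
      rw [hS3, h.card_single, ← dl_symmDiff] at hc
      have h4 : symmDiff S {w} = S \ {w} := by
        ext x
        rw [Finset.mem_symmDiff, Finset.mem_sdiff]
        constructor
        · rintro (h | h)
          · exact h
          · rw [Finset.mem_singleton] at h
            exact absurd (h.1 ▸ hwS) h.2
        · exact Or.inl
      rw [h4] at hc
      have := h3 (S \ {w}) (by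
        rw [Finset.sdiff_nonempty]
        intro h'
        have := Finset.card_le_card h'
        rw [Finset.card_singleton] at this
        omega) (by
        intro h'
        have := Finset.mem_univ w
        rw [← h', Finset.mem_sdiff] at this
        exact this.2 (by simp))
      omega
    · exact crossing3 h h3 hS3 hle X1.1 X1.2 ⟨u', Finset.mem_sdiff.2 ⟨huT, hu'⟩⟩ hun

theorem case2a (h : Cub E) (h3 : ∀ T : Finset V, T.Nonempty → T ≠ Finset.univ → 3 ≤ (dl E T).card)
    (h4 : ∀ T : Finset V, 2 ≤ T.card → 2 ≤ Tᶜ.card → 4 ≤ (dl E T).card) (hn : 6 ≤ Fintype.card V) :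
    ∃ u v u' v', Good E u v u' v' := by
  have hpos : 0 < Fintype.card V := by omega
  obtain ⟨x₀⟩ := Fintype.card_pos_iff.1 hpos
  obtain ⟨u, v, he⟩ : ∃ u v, s(u, v) ∈ E := by
    have := h.card_single x₀
    obtain ⟨f, hf⟩ := Finset.card_pos.1 (by omega : 0 < (dl E {x₀}).card)
    rw [mem_dl] at hf
    revert hf
    induction f with
    | _ a b => intro hf; exact ⟨a, b, hf.1⟩
  have huv := h.ne he
  have hP := dl_pair h he
  have hPc : ({u, v} : Finset V)ᶜ.card = Fintype.card V - 2 := by
    rw [Finset.card_compl, Finset.card_pair huv]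
  obtain ⟨u', v', hu', hv', he'⟩ := h.inside (S := ({u, v} : Finset V)ᶜ) (by omega)
    (by rw [dl_compl]; omega)
  simp only [Finset.mem_compl, Finset.mem_insert, Finset.mem_singleton, not_or] at hu' hv'
  have huv' := h.ne he'
  -- small cuts are stars
  have star : ∀ T : Finset V, (dl E T).Nonempty → (dl E T).card ≤ 3 → ∃ w, dl E T = dl E {w} := by
    intro T hne hle
    obtain ⟨hTne, hTu⟩ := proper_of_dl hne
    by_cases h1 : T.card ≤ 1
    · obtain ⟨w, hw⟩ := Finset.card_eq_one.1 (le_antisymm h1 hTne.card_pos)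
      exact ⟨w, by rw [hw]⟩
    · by_cases h2 : Tᶜ.card ≤ 1
      · have hTcne : Tᶜ.Nonempty := by
          by_contra hcon
          rw [Finset.not_nonempty_iff_eq_empty] at hcon
          exact hTu (by rw [← compl_compl T, hcon, Finset.compl_empty])
        obtain ⟨w, hw⟩ := Finset.card_eq_one.1 (le_antisymm h2 hTcne.card_pos)
        exact ⟨w, by rw [← hw, dl_compl]⟩
      · have := h4 T (by omega) (by omega)
        omega
  refine ⟨u, v, u', v', he, he', fun h => hu'.1 h.symm, fun h => hv'.1 h.symm,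
    fun h => hu'.2 h.symm, fun h => hv'.2 h.symm, ?_, ?_, ?_⟩
  · intro T g hne hsub
    have hle : (dl E T).card ≤ 3 := (Finset.card_le_card hsub).trans Finset.card_le_three
    obtain ⟨w, hw⟩ := star T hne hle
    have hc := h.card_single w
    rw [hw] at hsub
    have heq : dl E {w} = {s(u, v), s(u', v'), g} :=
      Finset.eq_of_subset_of_card_le hsub (Finset.card_le_three.trans (by omega))
    have h1 := (h.mem_single.1 (by rw [heq]; simp : s(u, v) ∈ dl E {w})).2
    have h2 := (h.mem_single.1 (by rw [heq]; simp : s(u', v') ∈ dl E {w})).2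
    rw [Sym2.mem_iff] at h1 h2
    rcases h1 with rfl | rfl <;> rcases h2 with h2 | h2
    · exact hu'.1 h2.symm
    · exact hv'.1 h2.symm
    · exact hu'.2 h2.symm
    · exact hv'.2 h2.symm
  · intro T a b _ _ hua hvb hane hbne ha hb hsub
    obtain ⟨hTne, hTu⟩ := proper_of_dl ⟨a, ha⟩
    have hge := h3 T hTne hTu
    have := (Finset.card_le_card hsub).trans Finset.card_le_two
    omega
  · intro T a b haE hbE hua hvb hane hbne ha hb hsub
    have hle : (dl E T).card ≤ 3 := (Finset.card_le_card hsub).trans Finset.card_le_three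
    obtain ⟨w, hw⟩ := star T ⟨a, ha⟩ hle
    have hc := h.card_single w
    rw [hw] at hsub
    have heq : dl E {w} = {a, b, s(u, v)} :=
      Finset.eq_of_subset_of_card_le hsub (Finset.card_le_three.trans (by omega))
    have hwe := (h.mem_single.1 (by rw [heq]; simp : s(u, v) ∈ dl E {w})).2
    have hwa : w ∈ a := (h.mem_single.1 (by rw [heq]; simp : a ∈ dl E {w})).2
    have hwb : w ∈ b := (h.mem_single.1 (by rw [heq]; simp : b ∈ dl E {w})).2
    have hwu : w ≠ u' := by
      rw [Sym2.mem_iff] at hwe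
      rcases hwe with rfl | rfl
      · exact fun h => hu'.1 h.symm
      · exact fun h => hu'.2 h.symm
    have hwv : w ≠ v' := by
      rw [Sym2.mem_iff] at hwe
      rcases hwe with rfl | rfl
      · exact fun h => hv'.1 h.symm
      · exact fun h => hv'.2 h.symm
    have ha' : a = s(u', w) := mem_edge_cases hwu.symm hua hwa
    have hb' : b = s(v', w) := mem_edge_cases hwv.symm hvb hwb
    -- the triangle
    have hY3 : ({u', v', w} : Finset V).card = 3 := by
      rw [Finset.card_insert_of_notMem (by simp [huv', hwu.symm]), Finset.card_pair hwv.symm]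
    have hYc : ({u', v', w} : Finset V)ᶜ.card = Fintype.card V - 3 := by
      rw [Finset.card_compl, hY3]
    have h5 := h4 {u', v', w} (by omega) (by omega)
    -- the edges leaving the triangle
    have hcu := h.card_single u'
    have hcv := h.card_single v'
    have hsubY : dl E {u', v', w} ⊆ (dl E {u'} \ {s(u', v'), a}) ∪ ((dl E {v'} \ {s(u', v'), b}) ∪
        (dl E {w} \ {a, b})) := by
      intro f hf
      rw [mem_dl] at hf
      obtain ⟨hfE, x, hx, y, hy, hxY, hyY⟩ := hf
      simp only [Finset.mem_insert, Finset.mem_singleton, not_or] at hxY hyY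
      have hfe : f ≠ s(u', v') := by
        rintro rfl
        rw [Sym2.mem_iff] at hy
        rcases hy with rfl | rfl
        · exact hyY.1 rfl
        · exact hyY.2.1 rfl
      have hfa : f ≠ a := by
        rw [ha']; rintro rfl
        rw [Sym2.mem_iff] at hy
        rcases hy with rfl | rfl
        · exact hyY.1 rfl
        · exact hyY.2.2 rfl
      have hfb : f ≠ b := by
        rw [hb']; rintro rfl
        rw [Sym2.mem_iff] at hy
        rcases hy with rfl | rfl
        · exact hyY.2.1 rfl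
        · exact hyY.2.2 rfl
      rw [Finset.mem_union, Finset.mem_union, Finset.mem_sdiff, Finset.mem_sdiff, Finset.mem_sdiff]
      rcases hxY with rfl | rfl | rfl
      · left
        exact ⟨h.mem_single.2 ⟨hfE, hx⟩, by simp [hfe, hfa]⟩
      · right; left
        exact ⟨h.mem_single.2 ⟨hfE, hx⟩, by simp [hfe, hfb]⟩
      · right; right
        exact ⟨h.mem_single.2 ⟨hfE, hx⟩, by simp [hfa, hfb]⟩
    have hab : a ≠ b := fun hab => hane (mem_edge_cases huv' hua (hab ▸ hvb))
    have c1 : (dl E {u'} \ {s(u', v'), a}).card = 1 := by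
      rw [Finset.card_sdiff_of_subset, hcu, Finset.card_pair hane.symm]
      intro f hf
      simp only [Finset.mem_insert, Finset.mem_singleton] at hf
      rcases hf with rfl | rfl
      · exact h.mem_single.2 ⟨he', by simp⟩
      · exact h.mem_single.2 ⟨haE, hua⟩
    have c2 : (dl E {v'} \ {s(u', v'), b}).card = 1 := by
      rw [Finset.card_sdiff_of_subset, hcv, Finset.card_pair hbne.symm]
      intro f hf
      simp only [Finset.mem_insert, Finset.mem_singleton] at hf
      rcases hf with rfl | rfl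
      · exact h.mem_single.2 ⟨he', by simp⟩
      · exact h.mem_single.2 ⟨hbE, hvb⟩
    have c3 : (dl E {w} \ {a, b}).card = 1 := by
      rw [Finset.card_sdiff_of_subset, hc, Finset.card_pair hab]
      intro f hf
      simp only [Finset.mem_insert, Finset.mem_singleton] at hf
      rcases hf with rfl | rfl
      · exact h.mem_single.2 ⟨haE, hwa⟩
      · exact h.mem_single.2 ⟨hbE, hwb⟩
    have c4 := Finset.card_le_card hsubY
    have c5 := Finset.card_union_le (dl E {u'} \ {s(u', v'), a}) ((dl E {v'} \ {s(u', v'), b}) ∪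
        (dl E {w} \ {a, b}))
    have c6 := Finset.card_union_le (dl E {v'} \ {s(u', v'), b}) (dl E {w} \ {a, b})
    omega

theorem exists_good (h : Cub E) (hn : 6 ≤ Fintype.card V) : ∃ u v u' v', Good E u v u' v' := by
  by_cases h1 : ∃ T : Finset V, T.Nonempty ∧ T ≠ Finset.univ ∧ (dl E T).card ≤ 2
  · obtain ⟨T, h1, h2, h3⟩ := h1
    exact case1 h h1 h2 h3
  have h3 : ∀ T : Finset V, T.Nonempty → T ≠ Finset.univ → 3 ≤ (dl E T).card := by
    intro T hT hT'
    by_contra hcon
    exact h1 ⟨T, hT, hT', by omega⟩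
  by_cases h2 : ∃ T : Finset V, 2 ≤ T.card ∧ 2 ≤ Tᶜ.card ∧ (dl E T).card ≤ 3
  · obtain ⟨T, a, b, c⟩ := h2
    exact case2b h h3 a b c
  · apply case2a h h3 _ hn
    intro T hT hT'
    by_contra hcon
    exact h2 ⟨T, hT, hT', by omega⟩

/-- Moving one end vertex across the cut. -/
theorem move (h : Cub E) {u v : V} (he : s(u, v) ∈ E) (F : Finset (Sym2 V)) (hF : ∀ f ∈ F, u ∉ f)
    (hA : ∀ T g, (dl E T).Nonempty → ¬ dl E T ⊆ insert s(u, v) (insert g F))
    (hB : ∀ T a b, a ∈ E → b ∈ E → u ∈ a → v ∈ b → a ≠ s(u, v) → b ≠ s(u, v) → a ∈ dl E T →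
      b ∈ dl E T → ¬ dl E T ⊆ insert a (insert b F)) :
    ∀ T a b, a ∈ E → b ∈ E → u ∈ a → v ∈ b → a ≠ s(u, v) → b ≠ s(u, v) → (dl E T).Nonempty →
      ¬ dl E T ⊆ insert s(u, v) (insert a (insert b F)) := by
  intro T a b haE hbE hua hvb hane hbne hne hsub
  have huv := h.ne he
  have ha : a ∈ dl E T := by
    by_contra ha
    apply hA T b hne
    intro f hf
    have := hsub hf
    simp only [Finset.mem_insert] at this ⊢
    rcases this with h' | rfl | h' | h'
    · exact Or.inl h'
    · exact absurd hf ha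
    · exact Or.inr (Or.inl h')
    · exact Or.inr (Or.inr h')
  have hb : b ∈ dl E T := by
    by_contra hb
    apply hA T a hne
    intro f hf
    have := hsub hf
    simp only [Finset.mem_insert] at this ⊢
    rcases this with h' | h' | rfl | h'
    · exact Or.inl h'
    · exact Or.inr (Or.inl h')
    · exact absurd hf hb
    · exact Or.inr (Or.inr h')
  by_cases hee : s(u, v) ∈ dl E T
  · -- third edge at `u`
    have hc := h.card_single u
    have huB : u ∉ b := fun hub => hbne (mem_edge_cases huv hub hvb)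
    have hpair : ({s(u, v), a} : Finset (Sym2 V)) ⊆ dl E {u} := by
      intro f hf
      simp only [Finset.mem_insert, Finset.mem_singleton] at hf
      rcases hf with rfl | rfl
      · exact h.mem_single.2 ⟨he, by simp⟩
      · exact h.mem_single.2 ⟨haE, hua⟩
    have h1 : (dl E {u} \ {s(u, v), a}).card = 1 := by
      rw [Finset.card_sdiff_of_subset hpair, hc, Finset.card_pair hane.symm]
    obtain ⟨a', ha'⟩ := Finset.card_eq_one.1 h1
    have ha'm : a' ∈ dl E {u} \ {s(u, v), a} := by rw [ha']; simp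
    rw [Finset.mem_sdiff, h.mem_single] at ha'm
    simp only [Finset.mem_insert, Finset.mem_singleton, not_or] at ha'm
    obtain ⟨⟨ha'E, hua'⟩, ha'e, ha'a⟩ := ha'm
    have hstar : ∀ f, f ∈ dl E {u} → f = s(u, v) ∨ f = a ∨ f = a' := by
      intro f hf
      by_cases h2 : f = s(u, v)
      · exact Or.inl h2
      · by_cases h3 : f = a
        · exact Or.inr (Or.inl h3)
        · right; right
          have : f ∈ dl E {u} \ {s(u, v), a} := by
            rw [Finset.mem_sdiff]; exact ⟨hf, by simp [h2, h3]⟩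
          rw [ha', Finset.mem_singleton] at this
          exact this
    have ha'T : a' ∉ dl E T := by
      intro h'
      have := hsub h'
      simp only [Finset.mem_insert] at this
      rcases this with h2 | h2 | h2 | h2
      · exact ha'e h2
      · exact ha'a h2
      · exact huB (h2 ▸ hua')
      · exact hF _ h2 hua'
    refine hB (symmDiff T {u}) a' b ha'E hbE hua' hvb ha'e hbne ?_ ?_ ?_
    · rw [dl_symmDiff, Finset.mem_symmDiff]
      exact Or.inr ⟨h.mem_single.2 ⟨ha'E, hua'⟩, ha'T⟩
    · rw [dl_symmDiff, Finset.mem_symmDiff]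
      exact Or.inl ⟨hb, fun h' => huB (h.mem_single.1 h').2⟩
    · rw [dl_symmDiff]
      intro f hf
      rw [Finset.mem_symmDiff] at hf
      simp only [Finset.mem_insert]
      rcases hf with ⟨h2, h3⟩ | ⟨h2, h3⟩
      · have := hsub h2
        simp only [Finset.mem_insert] at this
        rcases this with h4 | h4 | h4 | h4
        · exact absurd (h.mem_single.2 ⟨he, by simp⟩) (h4 ▸ h3)
        · exact absurd (h.mem_single.2 ⟨haE, hua⟩) (h4 ▸ h3)
        · exact Or.inr (Or.inl h4)
        · exact Or.inr (Or.inr h4)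
      · rcases hstar f h2 with h4 | h4 | h4
        · exact absurd (h4 ▸ hee) h3
        · exact absurd (h4 ▸ ha) h3
        · exact Or.inl h4
  · apply hB T a b haE hbE hua hvb hane hbne ha hb
    intro f hf
    have := hsub hf
    simp only [Finset.mem_insert] at this ⊢
    rcases this with h' | h'
    · rw [h'] at hf; exact absurd hf hee
    · exact h'

end Pool.Agent.V11128.FlowCuts
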