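import Mathlib
import Pool.Agent.V11128.FlowBound
import Pool.Agent.V11128.FlowCuts

/-!
# The lower bound for cubic edge sets
-/

namespace Pool.Agent.V11128.FlowLin

open Polynomial Module
open Pool.Agent.V11128.FlowCuts hiding X

set_option linter.unusedSectionVars false
set_option linter.unusedSimpArgs false
set_option linter.unnecessarySimpa false

variable {V : Type*} [Fintype V] [DecidableEq V]

theorem ev_mk {a b : V} (h : a ≠ b) : ev s(a, b) = Pi.single a (1 : ZMod 2) + Pi.single b 1 := by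
  ext x
  simp only [ev, Sym2.mem_iff, Pi.add_apply, Pi.single_apply]
  by_cases h1 : x = a
  · have h2 : x ≠ b := fun h' => h (h1 ▸ h')
    simp [h1, h]
  · by_cases h2 : x = b
    · simp [h2, h.symm]
    · simp [h1, h2]

theorem functional_ev (φ : (V → ZMod 2) →ₗ[ZMod 2] ZMod 2) {e : Sym2 V} (he : ¬ e.IsDiag) :
    φ (ev e) = 1 ↔ cr (Finset.univ.filter fun x => φ (Pi.single x 1) = 1) e := by
  induction e with
  | _ a b =>
    rw [Sym2.mk_isDiag_iff] at he
    rw [ev_mk he, map_add, cr_mk]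
    simp only [Finset.mem_filter, Finset.mem_univ, true_and]
    generalize φ (Pi.single a 1) = p
    generalize φ (Pi.single b 1) = q
    revert p q
    decide

/-- Duality between spans and cuts. -/
theorem dual_cut {Z : Finset (Sym2 V)} (hZ : ∀ h ∈ Z, ¬ h.IsDiag) {g : Sym2 V} (hg : ¬ g.IsDiag)
    (h : ev g ∉ sp ev ⊥ Z) : ∃ T : Finset V, cr T g ∧ ∀ h ∈ Z, ¬ cr T h := by
  obtain ⟨φ, h1, h2⟩ := exists_functional h
  refine ⟨Finset.univ.filter fun x => φ (Pi.single x 1) = 1, (functional_ev φ hg).1 h1, ?_⟩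
  intro f hf hc
  have := (functional_ev φ (hZ f hf)).2 hc
  rw [h2 _ (mem_sp_of_mem ev _ hf)] at this
  exact absurd this (by decide)

variable {E : Finset (Sym2 V)}

/-- span membership from cut information -/
theorem mem_span_of_cuts (h : Cub E) {Z : Finset (Sym2 V)} (hZ : Z ⊆ E) {g : Sym2 V} (hg : g ∈ E)
    (hcut : ∀ T, (dl E T).Nonempty → ¬ dl E T ⊆ E \ Z) : ev g ∈ sp ev ⊥ Z := by
  by_contra hcon
  obtain ⟨T, h1, h2⟩ := dual_cut (fun f hf => h.loop f (hZ hf)) (h.loop g hg) hcon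
  refine hcut T ⟨g, mem_dl.2 ⟨hg, h1⟩⟩ ?_
  intro f hf
  rw [mem_dl] at hf
  rw [Finset.mem_sdiff]
  exact ⟨hf.1, fun hfZ => h2 f hfZ hf.2⟩

theorem two_others (h : Cub E) {u : V} {e : Sym2 V} (he : e ∈ E) (hu : u ∈ e) :
    ∃ a₁ a₂, a₁ ≠ a₂ ∧ a₁ ∈ E ∧ a₂ ∈ E ∧ u ∈ a₁ ∧ u ∈ a₂ ∧ a₁ ≠ e ∧ a₂ ≠ e ∧
      ∀ f ∈ E, u ∈ f → f = e ∨ f = a₁ ∨ f = a₂ := by
  have h3 := h.three u
  have hmem : e ∈ E.filter (u ∈ ·) := Finset.mem_filter.2 ⟨he, hu⟩
  have h2 : ((E.filter (u ∈ ·)).erase e).card = 2 := by rw [Finset.card_erase_of_mem hmem, h3]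
  obtain ⟨a₁, a₂, hne, heq⟩ := Finset.card_eq_two.1 h2
  have h1 : a₁ ∈ (E.filter (u ∈ ·)).erase e := by rw [heq]; simp
  have h1' : a₂ ∈ (E.filter (u ∈ ·)).erase e := by rw [heq]; simp
  rw [Finset.mem_erase, Finset.mem_filter] at h1 h1'
  refine ⟨a₁, a₂, hne, h1.2.1, h1'.2.1, h1.2.2, h1'.2.2, h1.1, h1'.1, ?_⟩
  intro f hf huf
  by_cases hfe : f = e
  · exact Or.inl hfe
  · right
    have : f ∈ (E.filter (u ∈ ·)).erase e := Finset.mem_erase.2 ⟨hfe, Finset.mem_filter.2 ⟨hf, huf⟩⟩
    rw [heq] at this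
    simpa using this

/-- One application of Lemma L in a cubic graph. -/
theorem stepL (h : Cub E) {u v : V} (he : s(u, v) ∈ E) (F : Finset (Sym2 V)) (hFE : F ⊆ E)
    (hFu : ∀ f ∈ F, u ∉ f) (hFv : ∀ f ∈ F, v ∉ f)
    (hA : ∀ T g, (dl E T).Nonempty → ¬ dl E T ⊆ insert s(u, v) (insert g F))
    (hM : ∀ T a b, a ∈ E → b ∈ E → u ∈ a → v ∈ b → a ≠ s(u, v) → b ≠ s(u, v) → (dl E T).Nonempty →
      ¬ dl E T ⊆ insert s(u, v) (insert a (insert b F))) :
    NN (A ev ⊥ (E \ F) - (X + 3) * A ev ⊥ ((E \ F).erase s(u, v))) := by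
  have huv := h.ne he
  obtain ⟨a₁, a₂, ha12, ha1E, ha2E, hua1, hua2, ha1e, ha2e, hustar⟩ := two_others h he (u := u) (by simp)
  obtain ⟨b₁, b₂, hb12, hb1E, hb2E, hvb1, hvb2, hb1e, hb2e, hvstar⟩ := two_others h he (u := v) (by simp)
  have hva : ∀ a, u ∈ a → a ≠ s(u, v) → v ∉ a := fun a hua hane hva =>
    hane (mem_edge_cases huv hua hva)
  have hub : ∀ b, v ∈ b → b ≠ s(u, v) → u ∉ b := fun b hvb hbne hub =>
    hbne (mem_edge_cases huv hub hvb)
  have heF : s(u, v) ∉ F := fun h' => hFu _ h' (by simp)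
  set P : Finset (Sym2 V) := {a₁, a₂, b₁, b₂} with hP
  set R := (E \ F).erase s(u, v) with hR
  have hmemR : ∀ f, f ∈ R ↔ f ∈ E ∧ f ∉ F ∧ f ≠ s(u, v) := by
    intro f; rw [hR, Finset.mem_erase, Finset.mem_sdiff]; tauto
  have hPR : P ⊆ R := by
    intro f hf
    rw [hmemR]
    simp only [hP, Finset.mem_insert, Finset.mem_singleton] at hf
    rcases hf with rfl | rfl | rfl | rfl
    · exact ⟨ha1E, fun h' => hFu _ h' hua1, ha1e⟩
    · exact ⟨ha2E, fun h' => hFu _ h' hua2, ha2e⟩
    · exact ⟨hb1E, fun h' => hFv _ h' hvb1, hb1e⟩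
    · exact ⟨hb2E, fun h' => hFv _ h' hvb2, hb2e⟩
  have hPQ : P ∪ (R \ P) = R := Finset.union_sdiff_of_subset hPR
  have hu0 : ∀ x ∈ (⊥ : Submodule (ZMod 2) (V → ZMod 2)), evalAt u x = 0 := by
    intro y hy; rw [Submodule.mem_bot] at hy; rw [hy, map_zero]
  have hv0 : ∀ x ∈ (⊥ : Submodule (ZMod 2) (V → ZMod 2)), evalAt v x = 0 := by
    intro y hy; rw [Submodule.mem_bot] at hy; rw [hy, map_zero]
  have D : LData ev ⊥ (ev s(u, v)) a₁ a₂ b₁ b₂ (R \ P) (evalAt u) (evalAt v) := by
    refine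
    { a12 := ha12
      b12 := hb12
      a1b1 := fun h' => hva a₁ hua1 ha1e (h' ▸ hvb1)
      a1b2 := fun h' => hva a₁ hua1 ha1e (h' ▸ hvb2)
      a2b1 := fun h' => hva a₂ hua2 ha2e (h' ▸ hvb1)
      a2b2 := fun h' => hva a₂ hua2 ha2e (h' ▸ hvb2)
      disj := Finset.disjoint_sdiff
      φU := hu0
      ψU := hv0
      φw := by rw [evalAt_ev, if_pos (by simp)]
      ψw := by rw [evalAt_ev, if_pos (by simp)]
      φa1 := by rw [evalAt_ev, if_pos hua1]
      φa2 := by rw [evalAt_ev, if_pos hua2]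
      φb1 := by rw [evalAt_ev, if_neg (hub b₁ hvb1 hb1e)]
      φb2 := by rw [evalAt_ev, if_neg (hub b₂ hvb2 hb2e)]
      ψa1 := by rw [evalAt_ev, if_neg (hva a₁ hua1 ha1e)]
      ψa2 := by rw [evalAt_ev, if_neg (hva a₂ hua2 ha2e)]
      ψb1 := by rw [evalAt_ev, if_pos hvb1]
      ψb2 := by rw [evalAt_ev, if_pos hvb2]
      φQ := ?_
      ψQ := ?_
      cf := ?_
      ns := ?_
      hw := ?_ }
    · intro f hf
      rw [Finset.mem_sdiff, hmemR] at hf
      rw [evalAt_ev, if_neg]
      intro huf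
      rcases hustar f hf.1.1 huf with h' | h' | h'
      · exact hf.1.2.2 h'
      · exact hf.2 (by rw [hP]; simp [h'])
      · exact hf.2 (by rw [hP]; simp [h'])
    · intro f hf
      rw [Finset.mem_sdiff, hmemR] at hf
      rw [evalAt_ev, if_neg]
      intro hvf
      rcases hvstar f hf.1.1 hvf with h' | h' | h'
      · exact hf.1.2.2 h'
      · exact hf.2 (by rw [hP]; simp [h'])
      · exact hf.2 (by rw [hP]; simp [h'])
    · intro f hf
      rw [← hP, hPQ] at hf ⊢
      apply mem_span_of_cuts h _ ((hmemR f).1 hf).1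
      · intro T hne hsub
        apply hA T f hne
        intro g hg
        have hgE := hsub hg
        rw [Finset.mem_sdiff, Finset.mem_erase, hmemR] at hgE
        simp only [Finset.mem_insert]
        by_contra hcon
        push Not at hcon
        exact hgE.2 ⟨hcon.2.1, hgE.1, hcon.2.2, hcon.1⟩
      · intro g hg
        exact ((hmemR g).1 (Finset.mem_of_mem_erase hg)).1
    · apply mem_span_of_cuts h _ ha1E
      · intro T hne hsub
        apply hM T a₁ b₁ ha1E hb1E hua1 hvb1 ha1e hb1e hne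
        intro g hg
        have hgE := hsub hg
        rw [Finset.mem_sdiff, Finset.mem_union, Finset.mem_sdiff, hmemR] at hgE
        simp only [hP, Finset.mem_insert, Finset.mem_singleton] at hgE ⊢
        tauto
      · intro g hg
        rw [Finset.mem_union, Finset.mem_sdiff, hmemR] at hg
        simp only [Finset.mem_insert, Finset.mem_singleton] at hg
        rcases hg with (rfl | rfl) | hg
        · exact ha2E
        · exact hb2E
        · exact hg.1.1
    · rw [← hP, hPQ]
      apply mem_span_of_cuts h _ he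
      · intro T hne hsub
        apply hA T s(u, v) hne
        intro g hg
        have hgE := hsub hg
        rw [Finset.mem_sdiff, hmemR] at hgE
        simp only [Finset.mem_insert]
        tauto
      · intro g hg
        exact ((hmemR g).1 hg).1
  have heR : s(u, v) ∉ R := by rw [hR]; exact Finset.notMem_erase _ _
  have := lemmaL' D (by rw [← hP, hPQ]; exact heR)
  rw [← hP, hPQ, hR, Finset.insert_erase (Finset.mem_sdiff.2 ⟨he, heF⟩)] at this
  exact this

/-- The lower bound. -/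
theorem cub_bound (h : Cub E) (hn : 6 ≤ Fintype.card V)
    (hcard : 2 * E.card = 3 * Fintype.card V)
    (hrank : finrank (ZMod 2) (sp (ev (V := V)) ⊥ E) + 1 = Fintype.card V) :
    NN (A ev ⊥ E - (X + 1) * (X + 2) ^ (Fintype.card V / 2 - 2) * (X + 3) ^ 2) := by
  classical
  obtain ⟨u, v, u', v', G⟩ := exists_good h hn
  have hFu : ∀ f ∈ ({s(u, v)} : Finset (Sym2 V)), u' ∉ f := by
    intro f hf
    rw [Finset.mem_singleton] at hf
    rw [hf, Sym2.mem_iff]
    rintro (h' | h')
    · exact G.uu' h'.symm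
    · exact G.vu' h'.symm
  have hFv : ∀ f ∈ ({s(u, v)} : Finset (Sym2 V)), v' ∉ f := by
    intro f hf
    rw [Finset.mem_singleton] at hf
    rw [hf, Sym2.mem_iff]
    rintro (h' | h')
    · exact G.uv' h'.symm
    · exact G.vv' h'.symm
  have hA1 : ∀ T g, (dl E T).Nonempty → ¬ dl E T ⊆ insert s(u, v) (insert g ∅) := by
    intro T g hne hsub
    apply G.O1 T g hne
    intro f hf
    have := hsub hf
    simp only [Finset.mem_insert, Finset.mem_singleton, Finset.notMem_empty, or_false] at this ⊢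
    tauto
  have hA2 : ∀ T g, (dl E T).Nonempty → ¬ dl E T ⊆ insert s(u', v') (insert g {s(u, v)}) := by
    intro T g hne hsub
    apply G.O1 T g hne
    intro f hf
    have := hsub hf
    simp only [Finset.mem_insert, Finset.mem_singleton] at this ⊢
    tauto
  have hM1 := move h G.e ∅ (by simp) hA1 (by
    intro T a b ha hb hua hvb hane hbne haT hbT hsub
    exact G.B T a b ha hb hua hvb hane hbne haT hbT (by simpa using hsub))
  have hM2 := move h G.e' {s(u, v)} hFu hA2 (by
    intro T a b ha hb hua hvb hane hbne haT hbT hsub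
    exact G.D T a b ha hb hua hvb hane hbne haT hbT hsub)
  have S1 := stepL h G.e ∅ (by simp) (by simp) (by simp) hA1 hM1
  have S2 := stepL h G.e' {s(u, v)} (by simpa using G.e) hFu hFv hA2 hM2
  rw [Finset.sdiff_empty] at S1
  rw [Finset.sdiff_singleton_eq_erase] at S2
  set R := (E.erase s(u, v)).erase s(u', v') with hR
  have hmemR : ∀ f, f ∈ R ↔ f ∈ E ∧ f ≠ s(u, v) ∧ f ≠ s(u', v') := by
    intro f; rw [hR, Finset.mem_erase, Finset.mem_erase]; tauto
  have hRE : R ⊆ E := fun f hf => ((hmemR f).1 hf).1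
  have hne' : s(u', v') ≠ s(u, v) := by
    intro h'
    exact hFu _ (Finset.mem_singleton.2 rfl) (by rw [← h']; simp)
  -- spans
  have hsp : ∀ g ∈ E, ev g ∈ sp ev ⊥ R := by
    intro g hg
    apply mem_span_of_cuts h hRE hg
    intro T hne hsub
    apply G.O1 T s(u, v) hne
    intro f hf
    have := hsub hf
    rw [Finset.mem_sdiff, hmemR] at this
    simp only [Finset.mem_insert, Finset.mem_singleton]
    tauto
  have hspeq : sp (ev (V := V)) ⊥ R = sp (ev (V := V)) ⊥ E := by
    apply le_antisymm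
    · exact sp_mono ev le_rfl hRE
    · exact sp_le ev bot_le hsp
  have hcardR : R.card + 2 = E.card := by
    have h1 : (E.erase s(u, v)).card + 1 = E.card := Finset.card_erase_add_one G.e
    have h2 : R.card + 1 = (E.erase s(u, v)).card :=
      Finset.card_erase_add_one (Finset.mem_erase.2 ⟨hne', G.e'⟩)
    omega
  have hNice : Nice R := by
    refine ⟨?_, ?_, ?_⟩
    · rw [← Finset.card_pos]; omega
    · intro T hT ⟨f₀, hf₀, x, hx, hxT⟩
      set T' : Finset V := Finset.univ.filter (· ∈ T) with hT'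
      have hmT : ∀ y, y ∈ T' ↔ y ∈ T := by intro y; simp [hT']
      have hempty : dl E T' = ∅ := by
        by_contra hcon
        rw [← ne_eq, ← Finset.nonempty_iff_ne_empty] at hcon
        apply G.O1 T' s(u, v) hcon
        intro f hf
        rw [mem_dl] at hf
        obtain ⟨hfE, y, hy, z, hz, hyT, hzT⟩ := hf
        rw [hmT] at hyT hzT
        by_contra hcon'
        simp only [Finset.mem_insert, Finset.mem_singleton, not_or] at hcon'
        exact hzT (hT f ((hmemR f).2 ⟨hfE, hcon'.1, hcon'.2.1⟩) y hy z hz hyT)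
      have hun : T' = Finset.univ := by
        by_contra hcon
        have := h.two T' ⟨x, (hmT x).2 hxT⟩ hcon
        rw [hempty, Finset.card_empty] at this
        omega
      intro f hf y hy
      rw [← hmT, hun]; exact Finset.mem_univ _
    · intro f hf
      have hf' := (hmemR f).1 hf
      apply mem_span_of_cuts h ((Finset.erase_subset _ _).trans hRE) hf'.1
      intro T hne hsub
      apply G.O1 T f hne
      intro g hg
      have := hsub hg
      rw [Finset.mem_sdiff, Finset.mem_erase, hmemR] at this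
      simp only [Finset.mem_insert, Finset.mem_singleton]
      by_contra hcon
      push Not at hcon
      exact this.2 ⟨hcon.2.2, this.1, hcon.1, hcon.2.1⟩
  obtain ⟨k, hk1, hk2⟩ := ear_bound (E := E) (fun x => by rw [h.three x]) R.card R le_rfl hRE hNice
  rw [hspeq] at hk1
  have hk : k = Fintype.card V / 2 - 2 := by omega
  rw [← hk]
  have h1 := S1.add (NN.X3.mul S2)
  have h2 := h1.add ((NN.X3.mul NN.X3).mul hk2)
  refine (congrArg NN ?_).mp h2
  ring

end Pool.Agent.V11128.FlowLin
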