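import Mathlib

set_option autoImplicit false

/-!
# Even graphs of maximum degree at most `2k` decompose into at most `k` 2-regular graphs
-/

namespace Pool.Agent.V11128

open Finset

variable {V : Type*} [Fintype V] [DecidableEq V]

/-- degree of `v` in the edge set `F` -/
def dg (F : Finset (Sym2 V)) (v : V) : ℕ := (F.filter (fun e => v ∈ e)).card

/-- Hall for balanced digraphs -/
theorem exists_perm (R : V → V → Prop) [∀ a b, Decidable (R a b)] (K : ℕ) (hK : 1 ≤ K) (d : V → ℕ)
    (hout : ∀ v, (univ.filter (fun w => R v w)).card = d v)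
    (hin : ∀ v, (univ.filter (fun u => R u v)).card = d v) (hd : ∀ v, d v ≤ K) :
    ∃ π : V → V, Function.Injective π ∧ ∀ v, R v (π v) ∨ (π v = v ∧ d v < K) := by
  classical
  let t : V → Finset V := fun v => univ.filter (fun w => R v w ∨ (w = v ∧ d v < K))
  obtain ⟨π, hπ, h⟩ := (Finset.all_card_le_biUnion_card_iff_exists_injective t).1 (by
    intro S
    set N := S.biUnion t with hN
    have h1 : ∑ v ∈ S, d v ≤ ∑ w ∈ N, d w := by
      calc ∑ v ∈ S, d v = ∑ v ∈ S, (univ.filter (fun w => R v w)).card := by
            exact Finset.sum_congr rfl (fun v _ => (hout v).symm)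
        _ = ∑ v ∈ S, (N.filter (fun w => R v w)).card := by
            apply Finset.sum_congr rfl
            intro v hv
            congr 1
            ext w
            simp only [mem_filter, mem_univ, true_and]
            constructor
            · intro hw
              refine ⟨?_, hw⟩
              rw [hN, mem_biUnion]
              exact ⟨v, hv, by simp [t, hw]⟩
            · exact fun hw => hw.2
        _ = ∑ w ∈ N, (S.filter (fun v => R v w)).card :=
            Finset.sum_card_bipartiteAbove_eq_sum_card_bipartiteBelow _
        _ ≤ ∑ w ∈ N, d w := by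
            apply Finset.sum_le_sum
            intro w _
            rw [← hin w]
            apply Finset.card_le_card
            intro v hv
            rw [mem_filter] at hv ⊢
            exact ⟨mem_univ _, hv.2⟩
    have h2 : ∑ v ∈ S, (K - d v) ≤ ∑ w ∈ N, (K - d w) := by
      calc ∑ v ∈ S, (K - d v) = ∑ v ∈ S.filter (fun v => d v < K), (K - d v) := by
            rw [Finset.sum_filter]
            apply Finset.sum_congr rfl
            intro v _
            split_ifs with h
            · rfl
            · have := hd v
              omega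
        _ ≤ ∑ w ∈ N, (K - d w) := by
            apply Finset.sum_le_sum_of_subset
            intro v hv
            rw [mem_filter] at hv
            rw [hN, mem_biUnion]
            exact ⟨v, hv.1, by simp [t, hv.2]⟩
    have h3 : ∀ X : Finset V, ∑ v ∈ X, d v + ∑ v ∈ X, (K - d v) = X.card * K := by
      intro X
      rw [← Finset.sum_add_distrib, Finset.sum_congr rfl (g := fun _ => K)]
      · simp
      · intro v _
        have := hd v
        omega
    have h4 := h3 S
    have h5 := h3 N
    have : S.card * K ≤ N.card * K := by omega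
    exact Nat.le_of_mul_le_mul_right this (by omega))
  refine ⟨π, hπ, fun v => ?_⟩
  have := h v
  simpa [t] using this

theorem sum_dg (F : Finset (Sym2 V)) (hF : ∀ e ∈ F, ¬ e.IsDiag) :
    ∑ v, dg F v = 2 * F.card := by
  classical
  unfold dg
  have := Finset.sum_card_bipartiteAbove_eq_sum_card_bipartiteBelow (s := (univ : Finset V))
    (t := F) (fun v e => v ∈ e)
  unfold bipartiteAbove bipartiteBelow at this
  rw [this, Finset.sum_congr rfl (g := fun _ => 2)]
  · simp [mul_comm]
  · intro e he
    have hd := hF e he
    induction e using Sym2.ind with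
    | _ a b =>
      have hab : a ≠ b := by simpa using hd
      have : (univ.filter (fun v => v ∈ s(a, b))) = {a, b} := by
        ext v; simp
      rw [this, Finset.card_pair hab]

/-- An even graph has an orientation in which every vertex has out-degree half its degree. -/
theorem exists_orientation (F : Finset (Sym2 V)) (hF : ∀ e ∈ F, ¬ e.IsDiag)
    (hev : ∀ v, Even (dg F v)) :
    ∃ o : Sym2 V → V, (∀ e ∈ F, o e ∈ e) ∧
      ∀ v, 2 * (F.filter (fun e => o e = v)).card = dg F v := by
  classical
  let ι := Σ v : V, Fin (dg F v / 2)
  let t : ι → Finset (Sym2 V) := fun i => F.filter (fun e => i.1 ∈ e)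
  have h2 : ∀ v, 2 * (dg F v / 2) = dg F v := fun v => Nat.two_mul_div_two_of_even (hev v)
  obtain ⟨f, hf, hft⟩ := (Finset.all_card_le_biUnion_card_iff_exists_injective t).1 (by
    intro S
    let X : Finset V := S.image Sigma.fst
    have h1 : S.card ≤ ∑ v ∈ X, dg F v / 2 := by
      have : S ⊆ X.sigma (fun _ => univ) := by
        intro i hi
        rw [mem_sigma]
        exact ⟨mem_image_of_mem _ hi, mem_univ _⟩
      refine (card_le_card this).trans ?_
      rw [card_sigma]
      simp
    have h3 : ∑ v ∈ X, dg F v ≤ 2 * (S.biUnion t).card := by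
      calc ∑ v ∈ X, dg F v = ∑ v ∈ X, ((S.biUnion t).filter (fun e => v ∈ e)).card := by
            apply Finset.sum_congr rfl
            intro v hv
            unfold dg
            congr 1
            ext e
            simp only [mem_filter, mem_biUnion, t]
            constructor
            · rintro ⟨he, hve⟩
              obtain ⟨i, hi, rfl⟩ := mem_image.1 hv
              exact ⟨⟨i, hi, he, hve⟩, hve⟩
            · rintro ⟨⟨i, _, he, _⟩, hve⟩
              exact ⟨he, hve⟩
        _ = ∑ e ∈ S.biUnion t, (X.filter (fun v => v ∈ e)).card :=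
            Finset.sum_card_bipartiteAbove_eq_sum_card_bipartiteBelow _
        _ ≤ ∑ e ∈ S.biUnion t, 2 := by
            apply Finset.sum_le_sum
            intro e _
            induction e using Sym2.ind with
            | _ a b =>
              have : (X.filter (fun v => v ∈ s(a, b))) ⊆ {a, b} := by
                intro v; simp
              exact (card_le_card this).trans card_le_two
        _ = 2 * (S.biUnion t).card := by simp [mul_comm]
    have h4 : ∑ v ∈ X, dg F v = 2 * ∑ v ∈ X, dg F v / 2 := by
      rw [Finset.mul_sum]
      exact Finset.sum_congr rfl (fun v _ => (h2 v).symm)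
    omega)
  have hfF : ∀ i, f i ∈ F := fun i => (mem_filter.1 (hft i)).1
  have hfm : ∀ i : ι, i.1 ∈ f i := fun i => (mem_filter.1 (hft i)).2
  have hcard : Fintype.card ι = F.card := by
    have h5 := sum_dg F hF
    have h6 : Fintype.card ι = ∑ v, dg F v / 2 := by simp [ι]
    have h7 : ∑ v, dg F v = 2 * ∑ v, dg F v / 2 := by
      rw [Finset.mul_sum]
      exact Finset.sum_congr rfl (fun v _ => (h2 v).symm)
    omega
  have himg : univ.image f = F := by
    apply Finset.eq_of_subset_of_card_le
    · intro e he
      obtain ⟨i, _, rfl⟩ := mem_image.1 he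
      exact hfF i
    · rw [card_image_of_injective _ hf, card_univ, hcard]
  let o : Sym2 V → V := fun e => if h : ∃ i, f i = e then h.choose.1 else (Quot.out e).1
  have ho : ∀ i, o (f i) = i.1 := by
    intro i
    have h : ∃ j, f j = f i := ⟨i, rfl⟩
    have h' : o (f i) = h.choose.1 := by simp only [o]; rw [dif_pos h]
    rw [h', hf h.choose_spec]
  refine ⟨o, ?_, ?_⟩
  · intro e he
    rw [← himg] at he
    obtain ⟨i, _, rfl⟩ := mem_image.1 he
    rw [ho]
    exact hfm i
  · intro v
    have : F.filter (fun e => o e = v) = univ.image (fun j : Fin (dg F v / 2) => f ⟨v, j⟩) := by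
      ext e
      simp only [mem_filter, mem_image, mem_univ, true_and]
      constructor
      · rintro ⟨he, hov⟩
        rw [← himg] at he
        obtain ⟨⟨v', j⟩, _, rfl⟩ := mem_image.1 he
        rw [ho] at hov
        simp only at hov
        subst hov
        exact ⟨j, rfl⟩
      · rintro ⟨j, rfl⟩
        exact ⟨hfF _, ho _⟩
    rw [this, card_image_of_injective, card_univ, Fintype.card_fin, h2]
    intro a b hab
    have h9 := hf hab
    rw [Sigma.mk.injEq] at h9
    exact eq_of_heq h9.2

/-- In an even graph with degrees at most `2K` there is a subgraph with all degrees `0` or `2`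
in which every vertex of degree `2K` has degree `2`. -/
theorem exists_cover (K : ℕ) (hK : 1 ≤ K) (F : Finset (Sym2 V)) (hF : ∀ e ∈ F, ¬ e.IsDiag)
    (hev : ∀ v, Even (dg F v)) (hle : ∀ v, dg F v ≤ 2 * K) :
    ∃ A ⊆ F, (∀ v, dg A v = 0 ∨ dg A v = 2) ∧ ∀ v, dg F v = 2 * K → dg A v = 2 := by
  classical
  obtain ⟨o, ho1, ho2⟩ := exists_orientation F hF hev
  let R : V → V → Prop := fun v w => v ≠ w ∧ s(v, w) ∈ F ∧ o s(v, w) = v
  let d : V → ℕ := fun v => dg F v / 2
  have h2 : ∀ v, 2 * d v = dg F v := fun v => Nat.two_mul_div_two_of_even (hev v)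
  have hout : ∀ v, (univ.filter (fun w => R v w)).card = d v := by
    intro v
    have h1 : (univ.filter (fun w => R v w)).card = (F.filter (fun e => o e = v)).card := by
      apply Finset.card_bij (fun w _ => s(v, w))
      · intro w hw
        rw [mem_filter] at hw ⊢
        exact ⟨hw.2.2.1, hw.2.2.2⟩
      · intro w _ w' _ h
        exact Sym2.congr_right.1 h
      · intro e he
        rw [mem_filter] at he
        have hv : v ∈ e := he.2 ▸ ho1 e he.1
        obtain ⟨w, rfl⟩ := hv
        refine ⟨w, ?_, rfl⟩
        rw [mem_filter]
        refine ⟨mem_univ _, ?_, he.1, he.2⟩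
        intro h
        exact hF _ he.1 (by simp [h])
    have := ho2 v
    have := h2 v
    omega
  have hin : ∀ v, (univ.filter (fun u => R u v)).card = d v := by
    intro v
    have h1 : (univ.filter (fun u => R u v)).card =
        ((F.filter (fun e => v ∈ e)).filter (fun e => o e ≠ v)).card := by
      apply Finset.card_bij (fun u _ => s(u, v))
      · intro u hu
        simp only [mem_filter, mem_univ, true_and] at hu ⊢
        refine ⟨⟨hu.2.1, by simp⟩, ?_⟩
        rw [hu.2.2]
        exact hu.1
      · intro u _ u' _ h
        exact Sym2.congr_left.1 h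
      · intro e he
        simp only [mem_filter] at he
        obtain ⟨⟨he, hve⟩, hoe⟩ := he
        obtain ⟨u, rfl⟩ := hve
        have h3 := ho1 _ he
        rw [Sym2.mem_iff] at h3
        rcases h3 with h3 | h3
        · exact absurd h3 hoe
        · refine ⟨u, ?_, Sym2.eq_swap⟩
          simp only [mem_filter, mem_univ, true_and]
          refine ⟨?_, ?_, ?_⟩
          · intro h
            exact hF _ he (by simp [h])
          · rw [Sym2.eq_swap]; exact he
          · rw [Sym2.eq_swap]; exact h3
    have h3 : ((F.filter (fun e => v ∈ e)).filter (fun e => o e = v)).card =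
        (F.filter (fun e => o e = v)).card := by
      congr 1
      ext e
      simp only [mem_filter]
      constructor
      · rintro ⟨⟨h, _⟩, h'⟩; exact ⟨h, h'⟩
      · rintro ⟨h, h'⟩; exact ⟨⟨h, h' ▸ ho1 e h⟩, h'⟩
    have h4 : ((F.filter (fun e => v ∈ e)).filter (fun e => o e = v)).card +
        ((F.filter (fun e => v ∈ e)).filter (fun e => o e ≠ v)).card = dg F v :=
      Finset.card_filter_add_card_filter_not _
    have := ho2 v
    have := h2 v
    omega
  obtain ⟨π, hπ, hπR⟩ := exists_perm R K hK d hout hin (fun v => by
    have := h2 v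
    have := hle v
    omega)
  have hbij : Function.Bijective π := Finite.injective_iff_bijective.1 hπ
  have hR : ∀ v, π v ≠ v → R v (π v) := fun v hv => (hπR v).resolve_right (fun h => hv h.1)
  let A : Finset (Sym2 V) := (univ.filter (fun v => π v ≠ v)).image (fun v => s(v, π v))
  have hA2 : ∀ v, π v ≠ v → dg A v = 2 := by
    intro v hv
    obtain ⟨u, hu⟩ := hbij.2 v
    have huv : u ≠ v := by
      rintro rfl
      exact hv hu
    have hne : s(v, π v) ≠ s(u, v) := by
      intro h
      rw [Sym2.eq_iff] at h
      rcases h with ⟨h, _⟩ | ⟨_, h⟩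
      · exact huv h.symm
      · have r1 := hR v hv
        have r2 := hR u (by rw [hu]; exact huv.symm)
        rw [hu] at r2
        rw [h] at r1
        have := r2.2.2
        rw [Sym2.eq_swap, r1.2.2] at this
        exact huv this.symm
    have : A.filter (fun e => v ∈ e) = {s(v, π v), s(u, v)} := by
      ext e
      simp only [A, mem_filter, mem_image, mem_univ, true_and, mem_insert, mem_singleton]
      constructor
      · rintro ⟨⟨x, hx, rfl⟩, hve⟩
        rw [Sym2.mem_iff] at hve
        rcases hve with rfl | h
        · exact Or.inl rfl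
        · right
          have : x = u := hπ (by rw [← h, hu])
          rw [this, hu]
      · rintro (rfl | rfl)
        · exact ⟨⟨v, hv, rfl⟩, by simp⟩
        · exact ⟨⟨u, by rw [hu]; exact huv.symm, by rw [hu]⟩, by simp⟩
    unfold dg
    rw [this, card_pair hne]
  have hA0 : ∀ v, π v = v → dg A v = 0 := by
    intro v hv
    unfold dg
    rw [card_eq_zero, filter_eq_empty_iff]
    intro e he hve
    simp only [A, mem_image, mem_filter, mem_univ, true_and] at he
    obtain ⟨x, hx, rfl⟩ := he
    rw [Sym2.mem_iff] at hve
    rcases hve with rfl | h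
    · exact hx hv
    · have : x = v := hπ (by rw [← h, hv])
      subst this
      exact hx hv
  refine ⟨A, ?_, ?_, ?_⟩
  · intro e he
    simp only [A, mem_image, mem_filter, mem_univ, true_and] at he
    obtain ⟨x, hx, rfl⟩ := he
    exact (hR x hx).2.1
  · intro v
    by_cases h : π v = v
    · exact Or.inl (hA0 v h)
    · exact Or.inr (hA2 v h)
  · intro v hv
    apply hA2
    intro h
    rcases hπR v with h' | h'
    · exact h'.1 h.symm
    · have := h2 v
      omega

omit [Fintype V] in
theorem dg_sdiff {A F : Finset (Sym2 V)} (h : A ⊆ F) (v : V) : dg (F \ A) v + dg A v = dg F v := by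
  classical
  unfold dg
  rw [← card_union_of_disjoint]
  · congr 1
    ext e
    simp only [mem_union, mem_filter, mem_sdiff]
    constructor
    · rintro (⟨⟨h1, _⟩, h2⟩ | ⟨h1, h2⟩)
      · exact ⟨h1, h2⟩
      · exact ⟨h h1, h2⟩
    · rintro ⟨h1, h2⟩
      by_cases h3 : e ∈ A
      · exact Or.inr ⟨h3, h2⟩
      · exact Or.inl ⟨⟨h1, h3⟩, h2⟩
  · rw [Finset.disjoint_left]
    intro e h1 h2
    simp only [mem_filter, mem_sdiff] at h1 h2
    exact h1.1.2 h2.1

/-- An even graph with degrees at most `2k` is an edge-disjoint union of at most `k` 2-regular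
graphs. -/
theorem even_decomp (k : ℕ) : ∀ F : Finset (Sym2 V), (∀ e ∈ F, ¬ e.IsDiag) →
    (∀ v, Even (dg F v)) → (∀ v, dg F v ≤ 2 * k) →
    ∃ 𝓟 : Finset (Finset (Sym2 V)), 𝓟.card ≤ k ∧
      (∀ A ∈ 𝓟, A.Nonempty ∧ ∀ v, dg A v = 0 ∨ dg A v = 2) ∧
      (𝓟 : Set (Finset (Sym2 V))).PairwiseDisjoint id ∧ 𝓟.biUnion id = F := by
  classical
  induction k with
  | zero =>
    intro F hF _ hle
    refine ⟨∅, by simp, by simp, by simp, ?_⟩
    rw [biUnion_empty]
    symm
    rw [eq_empty_iff_forall_notMem]
    intro e he
    induction e using Sym2.ind with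
    | _ a b =>
      have := hle a
      have h0 : dg F a = 0 := by omega
      unfold dg at h0
      rw [card_eq_zero, filter_eq_empty_iff] at h0
      exact h0 he (by simp)
  | succ k ih =>
    intro F hF hev hle
    obtain ⟨A, hAF, hA, hA2⟩ := exists_cover (k + 1) (by omega) F hF hev hle
    by_cases hAe : A.Nonempty
    · obtain ⟨𝓟, h1, h2, h3, h4⟩ := ih (F \ A) (fun e he => hF e (mem_sdiff.1 he).1) (by
        intro v
        have h5 := dg_sdiff hAF v
        have h6 := hev v
        rw [← h5, Nat.even_add] at h6
        rw [h6]
        rcases hA v with h | h <;> rw [h] <;> decide) (by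
        intro v
        have h5 := dg_sdiff hAF v
        have h6 := hle v
        have h7 := hev v
        have h8 := hA2 v
        rcases hA v with h | h
        · obtain ⟨r, hr⟩ := h7
          by_contra hcon
          have : dg F v = 2 * (k + 1) := by omega
          have := h8 this
          omega
        · omega)
      have hAP : A ∉ 𝓟 := by
        intro hA'
        obtain ⟨e, he⟩ := hAe
        have : e ∈ 𝓟.biUnion id := mem_biUnion.2 ⟨A, hA', he⟩
        rw [h4] at this
        exact (mem_sdiff.1 this).2 he
      refine ⟨insert A 𝓟, ?_, ?_, ?_, ?_⟩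
      · rw [card_insert_of_notMem hAP]
        omega
      · intro B hB
        rcases mem_insert.1 hB with rfl | hB
        · exact ⟨hAe, hA⟩
        · exact h2 B hB
      · rw [coe_insert]
        refine Set.PairwiseDisjoint.insert h3 ?_
        intro B hB _
        simp only [id]
        rw [Finset.disjoint_left]
        intro e he he'
        have : e ∈ 𝓟.biUnion id := mem_biUnion.2 ⟨B, hB, he'⟩
        rw [h4] at this
        exact (mem_sdiff.1 this).2 he
      · rw [biUnion_insert, h4]
        simp only [id]
        exact union_sdiff_of_subset hAF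
    · rw [not_nonempty_iff_eq_empty] at hAe
      obtain ⟨𝓟, h1, h2, h3, h4⟩ := ih F hF hev (by
        intro v
        have h6 := hle v
        have h8 := hA2 v
        obtain ⟨r, hr⟩ := hev v
        by_contra hcon
        have : dg F v = 2 * (k + 1) := by omega
        have := h8 this
        rw [hAe] at this
        simp [dg] at this)
      exact ⟨𝓟, by omega, h2, h3, h4⟩

end Pool.Agent.V11128
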