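import Mathlib
import Pool.Agent.V11128.EvenDecomp

set_option autoImplicit false

/-!
# Minimum odd spanning subgraphs of `(2k+1)`-regular graphs have at least `k+1` components
-/

namespace Pool.Agent.V11128

open Finset SimpleGraph

section Bound

variable {V : Type*} [DecidableEq V] {H : SimpleGraph V}

theorem no_triangle (hH : H.IsAcyclic) {a b c : V} (hab : H.Adj a b) (hbc : H.Adj b c)
    (hac : H.Adj a c) : False := by
  classical
  have h := hH.cliqueFree (n := 3) le_rfl
  exact h {a, b, c} (is3Clique_triple_iff.2 ⟨hab, hac, hbc⟩)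

/-- The edges between two components of a minimum odd subgraph are few. -/
theorem card_cross_le (hH : H.IsAcyclic) (A B : Finset V) (S : Finset (V × V)) (hS : S ⊆ A ×ˢ B)
    (h : ∀ p ∈ S, ∀ q ∈ S, p.1 ≠ q.1 → p.2 ≠ q.2 → H.Adj p.1 q.1 ∧ H.Adj p.2 q.2) :
    S.card ≤ A.card + B.card := by
  by_cases hc : ∃ p ∈ S, ∃ q ∈ S, p.1 ≠ q.1 ∧ p.2 ≠ q.2
  · obtain ⟨⟨x1, y1⟩, hp, ⟨x2, y2⟩, hq, hx, hy⟩ := hc
    simp only at hx hy
    have hp' := mem_product.1 (hS hp)
    have hq' := mem_product.1 (hS hq)
    simp only at hp' hq'
    obtain ⟨hxx, hyy⟩ := h _ hp _ hq hx hy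
    simp only at hxx hyy
    have hx12 : ∀ x y, (x, y) ∈ S → y ≠ y1 → y ≠ y2 → x = x1 ∨ x = x2 := by
      intro x y hxy h1 h2
      by_contra hcon
      push Not at hcon
      have a1 := (h _ hxy _ hp hcon.1 h1).1
      have a2 := (h _ hxy _ hq hcon.2 h2).1
      exact no_triangle hH a1 hxx a2
    have ha : ∀ x x' y, (x, y) ∈ S → (x', y) ∈ S → y ≠ y1 → y ≠ y2 → x = x' := by
      intro x x' y h1 h2 h3 h4
      by_contra hne
      have key : (x1, y) ∈ S ∧ (x2, y) ∈ S := by
        rcases hx12 x y h1 h3 h4 with rfl | rfl <;> rcases hx12 x' y h2 h3 h4 with rfl | rfl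
        · exact absurd rfl hne
        · exact ⟨h1, h2⟩
        · exact ⟨h2, h1⟩
        · exact absurd rfl hne
      have b1 := (h _ key.1 _ hq hx h4).2
      have b2 := (h _ key.2 _ hp hx.symm h3).2
      exact no_triangle hH b2 hyy b1
    have hb : ∀ x y y', (x, y) ∈ S → (x, y') ∈ S → x ≠ x1 → x ≠ x2 → (y = y1 ∨ y = y2) →
        (y' = y1 ∨ y' = y2) → y = y' := by
      intro x y y' h1 h2 h3 h4 h5 h6
      by_contra hne
      have key : (x, y1) ∈ S ∧ (x, y2) ∈ S := by
        rcases h5 with rfl | rfl <;> rcases h6 with rfl | rfl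
        · exact absurd rfl hne
        · exact ⟨h1, h2⟩
        · exact ⟨h2, h1⟩
        · exact absurd rfl hne
      have b1 := (h _ key.1 _ hq h4 hy).1
      have b2 := (h _ key.2 _ hp h3 hy.symm).1
      exact no_triangle hH b2 hxx b1
    set Sa := S.filter (fun p => p.2 ≠ y1 ∧ p.2 ≠ y2) with hSa
    set Sb := S.filter (fun p => (p.2 = y1 ∨ p.2 = y2) ∧ (p.1 ≠ x1 ∧ p.1 ≠ x2)) with hSb
    set Sc := S.filter (fun p => (p.2 = y1 ∨ p.2 = y2) ∧ (p.1 = x1 ∨ p.1 = x2)) with hSc
    have hun : S ⊆ Sa ∪ (Sb ∪ Sc) := by
      intro p hp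
      simp only [hSa, hSb, hSc, mem_union, mem_filter]
      tauto
    have ca : Sa.card ≤ B.card - 2 := by
      have h1 : Sa.card = (Sa.image Prod.snd).card := by
        symm
        apply card_image_of_injOn
        rintro ⟨x, y⟩ hp1 ⟨x', y'⟩ hp2 hyy'
        simp only at hyy'
        subst hyy'
        rw [hSa, coe_filter] at hp1 hp2
        rw [ha x x' y hp1.1 hp2.1 hp1.2.1 hp1.2.2]
      have h2 : Sa.image Prod.snd ⊆ (B.erase y1).erase y2 := by
        intro y hy'
        obtain ⟨p, hp1, rfl⟩ := mem_image.1 hy'
        rw [hSa, mem_filter] at hp1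
        rw [mem_erase, mem_erase]
        exact ⟨hp1.2.2, hp1.2.1, (mem_product.1 (hS hp1.1)).2⟩
      have h3 := card_le_card h2
      have h4 : ((B.erase y1).erase y2).card = B.card - 2 := by
        rw [card_erase_of_mem, card_erase_of_mem hp'.2]
        · omega
        · rw [mem_erase]
          exact ⟨hy.symm, hq'.2⟩
      omega
    have cb : Sb.card ≤ A.card - 2 := by
      have h1 : Sb.card = (Sb.image Prod.fst).card := by
        symm
        apply card_image_of_injOn
        rintro ⟨x, y⟩ hp1 ⟨x', y'⟩ hp2 hxx'
        simp only at hxx'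
        subst hxx'
        rw [hSb, coe_filter] at hp1 hp2
        rw [hb x y y' hp1.1 hp2.1 hp1.2.2.1 hp1.2.2.2 hp1.2.1 hp2.2.1]
      have h2 : Sb.image Prod.fst ⊆ (A.erase x1).erase x2 := by
        intro y hy'
        obtain ⟨p, hp1, rfl⟩ := mem_image.1 hy'
        rw [hSb, mem_filter] at hp1
        rw [mem_erase, mem_erase]
        exact ⟨hp1.2.2.2, hp1.2.2.1, (mem_product.1 (hS hp1.1)).1⟩
      have h3 := card_le_card h2
      have h4 : ((A.erase x1).erase x2).card = A.card - 2 := by
        rw [card_erase_of_mem, card_erase_of_mem hp'.1]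
        · omega
        · rw [mem_erase]
          exact ⟨hx.symm, hq'.1⟩
      omega
    have cc : Sc.card ≤ 4 := by
      have : Sc ⊆ ({x1, x2} : Finset V) ×ˢ ({y1, y2} : Finset V) := by
        intro p hp1
        rw [hSc, mem_filter] at hp1
        simp only [mem_product, mem_insert, mem_singleton]
        exact ⟨hp1.2.2, hp1.2.1⟩
      refine (card_le_card this).trans ?_
      rw [card_product]
      have e1 : ({x1, x2} : Finset V).card ≤ 2 := card_le_two
      have e2 : ({y1, y2} : Finset V).card ≤ 2 := card_le_two
      exact (Nat.mul_le_mul e1 e2)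
    have cA : 2 ≤ A.card := by
      have : ({x1, x2} : Finset V) ⊆ A := by
        intro z hz
        simp only [mem_insert, mem_singleton] at hz
        rcases hz with rfl | rfl
        · exact hp'.1
        · exact hq'.1
      have h5 := card_le_card this
      rwa [card_pair hx] at h5
    have cB : 2 ≤ B.card := by
      have : ({y1, y2} : Finset V) ⊆ B := by
        intro z hz
        simp only [mem_insert, mem_singleton] at hz
        rcases hz with rfl | rfl
        · exact hp'.2
        · exact hq'.2
      have h5 := card_le_card this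
      rwa [card_pair hy] at h5
    have h6 := card_le_card hun
    have h7 := card_union_le Sa (Sb ∪ Sc)
    have h8 := card_union_le Sb Sc
    omega
  · push Not at hc
    rcases S.eq_empty_or_nonempty with rfl | ⟨⟨x0, y0⟩, h0⟩
    · simp
    · have : S ⊆ ({x0} : Finset V) ×ˢ B ∪ A ×ˢ ({y0} : Finset V) := by
        intro p hp
        have h1 := mem_product.1 (hS hp)
        simp only [mem_union, mem_product, mem_singleton]
        by_cases h2 : p.1 = x0
        · exact Or.inl ⟨h2, h1.2⟩
        · exact Or.inr ⟨h1.1, hc _ hp _ h0 h2⟩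
      refine (card_le_card this).trans ((card_union_le _ _).trans ?_)
      rw [card_product, card_product, card_singleton, card_singleton]
      omega

end Bound

variable {V : Type*} [Fintype V] [DecidableEq V]

omit [Fintype V] in
theorem dg_insert {A : Finset (Sym2 V)} {e : Sym2 V} (he : e ∉ A) (v : V) :
    dg (insert e A) v = dg A v + if v ∈ e then 1 else 0 := by
  unfold dg
  rw [filter_insert]
  split_ifs with h
  · rw [card_insert_of_notMem]
    rw [mem_filter]
    exact fun h' => he h'.1
  · simp

omit [Fintype V] in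
theorem dg_walk {H : SimpleGraph V} {u w : V} (p : H.Walk u w) (hp : p.IsTrail) (x : V) :
    Even (dg p.edges.toFinset x) ↔ (u ≠ w → x ≠ u ∧ x ≠ w) := by
  rw [← hp.even_countP_edges_iff x]
  have : dg p.edges.toFinset x = p.edges.countP (fun e => x ∈ e) := by
    unfold dg
    rw [List.countP_eq_length_filter, ← List.toFinset_card_of_nodup (hp.edges_nodup.filter _)]
    congr 1
    ext e
    simp
  rw [this]

/-- A path inside the odd subgraph, as an edge set. -/
theorem exists_path_set {J : Finset (Sym2 V)} {u w : V}
    (huw : u ≠ w) (hr : (fromEdgeSet (J : Set (Sym2 V))).Reachable u w) :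
    ∃ P ⊆ J, (∀ v, Even (dg P v) ↔ (v ≠ u ∧ v ≠ w)) ∧
      (∀ e ∈ P, ∀ v ∈ e, (fromEdgeSet (J : Set (Sym2 V))).Reachable u v) ∧ 1 ≤ P.card ∧
      (P.card ≤ 1 → (fromEdgeSet (J : Set (Sym2 V))).Adj u w) := by
  obtain ⟨p, hp⟩ := hr.exists_isPath
  refine ⟨p.edges.toFinset, ?_, ?_, ?_, ?_, ?_⟩
  · intro e he
    rw [List.mem_toFinset] at he
    have := p.edges_subset_edgeSet he
    rw [edgeSet_fromEdgeSet] at this
    exact this.1
  · intro v
    rw [dg_walk p hp.isTrail]
    exact ⟨fun h => h huw, fun h _ => h⟩
  · intro e he v hv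
    rw [List.mem_toFinset] at he
    have hv' : v ∈ p.support := by
      induction e using Sym2.ind with
      | _ a b =>
        rw [Sym2.mem_iff] at hv
        rcases hv with rfl | rfl
        · exact p.fst_mem_support_of_mem_edges he
        · exact p.snd_mem_support_of_mem_edges he
    exact ⟨p.takeUntil v hv'⟩
  · rw [List.toFinset_card_of_nodup hp.isTrail.edges_nodup, Walk.length_edges]
    by_contra h
    have : p.length = 0 := by omega
    exact huw (Walk.eq_of_length_eq_zero this)
  · rw [List.toFinset_card_of_nodup hp.isTrail.edges_nodup, Walk.length_edges]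
    intro h
    have h0 : p.length ≠ 0 := fun h0 => huw (Walk.eq_of_length_eq_zero h0)
    have h1 : p.length = 1 := by omega
    exact Walk.adj_of_length_eq_one h1

/-- Degree sum in a tree component. -/
theorem sum_degree_component {H : SimpleGraph V} [DecidableRel H.Adj] (hH : H.IsAcyclic)
    (T : H.ConnectedComponent) [DecidablePred (fun v => H.connectedComponentMk v = T)] :
    ∑ v ∈ univ.filter (fun v => H.connectedComponentMk v = T), H.degree v + 2 =
      2 * (univ.filter (fun v => H.connectedComponentMk v = T)).card := by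
  classical
  have htree := hH.isTree_connectedComponent T
  have h1 := htree.card_edgeFinset
  have h2 := T.toSimpleGraph.sum_degrees_eq_twice_card_edges
  have h3 : ∀ x : T, T.toSimpleGraph.degree x = H.degree x.1 := by
    rintro ⟨x, hx⟩
    rw [← card_neighborFinset_eq_degree, ← card_neighborFinset_eq_degree]
    apply Finset.card_bij (fun y _ => y.1)
    · rintro ⟨y, hy⟩ h
      rw [mem_neighborFinset] at h ⊢
      exact (T.toSimpleGraph_adj hx hy).1 h
    · rintro ⟨y, hy⟩ _ ⟨z, hz⟩ _ h
      simpa using h
    · intro y hy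
      rw [mem_neighborFinset] at hy
      have hyT : y ∈ T := by
        have hx' : H.connectedComponentMk x = T := hx
        show H.connectedComponentMk y = T
        rw [← hx']
        exact (ConnectedComponent.connectedComponentMk_eq_of_adj hy).symm
      refine ⟨⟨y, hyT⟩, ?_, rfl⟩
      rw [mem_neighborFinset]
      exact (T.toSimpleGraph_adj hx hyT).2 hy
  have h4 : Fintype.card T = (univ.filter (fun v => H.connectedComponentMk v = T)).card := by
    rw [Fintype.card_subtype]
    congr 1
    ext x
    simp only [mem_filter, mem_univ, true_and]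
    rfl
  have h5 : ∑ v ∈ univ.filter (fun v => H.connectedComponentMk v = T), H.degree v =
      ∑ x : T, T.toSimpleGraph.degree x := by
    rw [Finset.sum_congr rfl (fun x _ => h3 x)]
    rw [Finset.sum_subtype (univ.filter (fun v => H.connectedComponentMk v = T))
      (p := fun v => v ∈ T)]
    · intro x
      simp only [mem_filter, mem_univ, true_and]
      rfl
  rw [h5, h2, ← h4, ← h1]
  ring

theorem dg_eq_degree {J : Finset (Sym2 V)} (hJ : ∀ e ∈ J, ¬ e.IsDiag)
    [DecidableRel (fromEdgeSet (J : Set (Sym2 V))).Adj] (v : V) :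
    dg J v = (fromEdgeSet (J : Set (Sym2 V))).degree v := by
  unfold dg
  rw [← card_neighborFinset_eq_degree]
  symm
  apply Finset.card_bij (fun w _ => s(v, w))
  · intro w hw
    rw [mem_neighborFinset, fromEdgeSet_adj] at hw
    rw [mem_filter]
    exact ⟨hw.1, by simp⟩
  · intro w _ w' _ h
    exact Sym2.congr_right.1 h
  · intro e he
    rw [mem_filter] at he
    obtain ⟨he, ⟨w, rfl⟩⟩ := he
    refine ⟨w, ?_, rfl⟩
    rw [mem_neighborFinset, fromEdgeSet_adj]
    refine ⟨he, ?_⟩
    rintro rfl
    exact hJ _ he (by simp)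

/-- In a `(2k+1)`-regular graph there is a spanning subgraph with all degrees odd and with at most
`n - k - 1` edges. -/
theorem exists_join [Nonempty V] (k : ℕ) (G : SimpleGraph V) [DecidableRel G.Adj]
    (hG : ∀ v, G.degree v = 2 * k + 1) :
    ∃ J ⊆ G.edgeFinset, (∀ v, Odd (dg J v)) ∧ J.card + k + 1 ≤ Fintype.card V := by
  classical
  have hdiag : ∀ e ∈ G.edgeFinset, ¬ e.IsDiag := fun e he =>
    G.not_isDiag_of_mem_edgeSet (mem_edgeFinset.1 he)
  have hdgG : ∀ v, dg G.edgeFinset v = 2 * k + 1 := by
    intro v
    have h1 : dg G.edgeFinset v = (G.incidenceFinset v).card := by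
      unfold dg
      rw [incidenceFinset_eq_filter]
    rw [h1, card_incidenceFinset_eq_degree, hG]
  -- a minimum odd subgraph
  obtain ⟨J, hJ, hmin⟩ := Finset.exists_min_image
    (G.edgeFinset.powerset.filter (fun F => ∀ v, Odd (dg F v))) Finset.card
    ⟨G.edgeFinset, by
      rw [mem_filter, mem_powerset]
      exact ⟨Finset.Subset.refl _, fun v => ⟨k, hdgG v⟩⟩⟩
  rw [mem_filter, mem_powerset] at hJ
  obtain ⟨hJE, hJodd⟩ := hJ
  have hmin' : ∀ F ⊆ G.edgeFinset, (∀ v, Odd (dg F v)) → J.card ≤ F.card := by
    intro F hF1 hF2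
    exact hmin F (by rw [mem_filter, mem_powerset]; exact ⟨hF1, hF2⟩)
  have hJd : ∀ e ∈ J, ¬ e.IsDiag := fun e he => hdiag e (hJE he)
  set H : SimpleGraph V := fromEdgeSet (J : Set (Sym2 V)) with hH
  have hHadj : ∀ a b, H.Adj a b ↔ s(a, b) ∈ J := by
    intro a b
    rw [hH, fromEdgeSet_adj]
    constructor
    · exact fun h => h.1
    · intro h
      refine ⟨h, ?_⟩
      rintro rfl
      exact hJd _ h (by simp)
  have hHG : ∀ a b, H.Adj a b → G.Adj a b := by
    intro a b h
    rw [hHadj] at h
    exact mem_edgeFinset.1 (hJE h)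
  -- acyclic
  have hac : H.IsAcyclic := by
    intro u c hc
    have hsub : c.edges.toFinset ⊆ J := by
      intro e he
      rw [List.mem_toFinset] at he
      have := c.edges_subset_edgeSet he
      rw [hH, edgeSet_fromEdgeSet] at this
      exact this.1
    have h1 := hmin' (J \ c.edges.toFinset) (Finset.sdiff_subset.trans hJE) (by
      intro v
      have h2 := dg_sdiff hsub v
      have h3 := hJodd v
      have h4 : Even (dg c.edges.toFinset v) := (dg_walk c hc.isTrail v).2 (fun h => absurd rfl h)
      rw [← h2, Nat.odd_add] at h3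
      exact h3.2 h4)
    have h5 : 0 < c.edges.toFinset.card := by
      rw [List.toFinset_card_of_nodup hc.isTrail.edges_nodup, Walk.length_edges]
      have := hc.three_le_length
      omega
    rw [card_sdiff_of_subset hsub] at h1
    have := card_le_card hsub
    omega
  -- components are induced
  have hind : ∀ x y, H.Reachable x y → G.Adj x y → H.Adj x y := by
    intro x y hr hG'
    by_contra hna
    have hxy := hG'.ne
    obtain ⟨P, hP1, hP2, hP3, hP4, hP5⟩ := exists_path_set hxy hr
    have hna' : s(x, y) ∉ J := fun h => hna ((hHadj x y).2 h)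
    have hn2 : s(x, y) ∉ J \ P := fun h => hna' (mem_sdiff.1 h).1
    have h1 := hmin' (insert s(x, y) (J \ P)) (by
      intro e he
      rcases mem_insert.1 he with rfl | he
      · exact mem_edgeFinset.2 hG'
      · exact hJE (mem_sdiff.1 he).1) (by
      intro v
      rw [dg_insert hn2]
      have h2 := dg_sdiff hP1 v
      have h3 := hJodd v
      have h4 := hP2 v
      simp only [Sym2.mem_iff]
      rw [← h2] at h3
      by_cases hv : v = x ∨ v = y
      · rw [if_pos hv]
        have h5 : ¬ Even (dg P v) := by
          rw [h4]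
          tauto
        rw [Nat.odd_add] at h3
        rw [Nat.odd_add_one, Nat.not_odd_iff_even]
        by_contra h6
        rw [Nat.not_even_iff_odd] at h6
        exact h5 (h3.1 h6)
      · rw [if_neg hv, add_zero]
        rw [Nat.odd_add] at h3
        rw [h3, h4]
        tauto)
    rw [card_insert_of_notMem hn2, card_sdiff_of_subset hP1] at h1
    have := card_le_card hP1
    exact hna (hP5 (by omega))
  -- edges between different components
  have hcross : ∀ x x' y y', H.Reachable x x' → H.Reachable y y' → ¬ H.Reachable x y →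
      G.Adj x y → G.Adj x' y' → x ≠ x' → y ≠ y' → H.Adj x x' ∧ H.Adj y y' := by
    intro x x' y y' hx hy hxy hG1 hG2 hxn hyn
    obtain ⟨P, hP1, hP2, hP3, hP4, hP5⟩ := exists_path_set hxn hx
    obtain ⟨Q, hQ1, hQ2, hQ3, hQ4, hQ5⟩ := exists_path_set hyn hy
    have hdis : ∀ e ∈ Q, e ∉ P := by
      intro e heQ heP
      induction e using Sym2.ind with
      | _ a b =>
        have h1 := hP3 _ heP a (by simp)
        have h2 := hQ3 _ heQ a (by simp)
        exact hxy (h1.trans h2.symm)
    have hQ1' : Q ⊆ J \ P := fun e he => mem_sdiff.2 ⟨hQ1 he, hdis e he⟩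
    have n1 : s(x, y) ∉ J := fun h => hxy ((hHadj x y).2 h).reachable
    have n2 : s(x', y') ∉ J := fun h =>
      hxy (hx.trans (((hHadj x' y').2 h).reachable.trans hy.symm))
    have n3 : s(x, y) ∉ (J \ P) \ Q := fun h => n1 (mem_sdiff.1 (mem_sdiff.1 h).1).1
    have n4 : s(x', y') ∉ insert s(x, y) ((J \ P) \ Q) := by
      intro h
      rcases mem_insert.1 h with h | h
      · rw [Sym2.eq_iff] at h
        rcases h with ⟨h, _⟩ | ⟨h, h'⟩
        · exact hxn h.symm
        · subst h
          exact hxy hx
      · exact n2 (mem_sdiff.1 (mem_sdiff.1 h).1).1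
    have hyx' : x ≠ y := fun h => hxy (h ▸ Reachable.refl _)
    have q1 : x' ≠ y := fun h => hxy (h ▸ hx)
    have q2 : x ≠ y' := fun h => hxy (h ▸ hy.symm)
    have q3 : x' ≠ y' := fun h => hxy (hx.trans (h ▸ hy.symm))
    have h1 := hmin' (insert s(x', y') (insert s(x, y) ((J \ P) \ Q))) (by
      intro e he
      rcases mem_insert.1 he with rfl | he
      · exact mem_edgeFinset.2 hG2
      · rcases mem_insert.1 he with rfl | he
        · exact mem_edgeFinset.2 hG1
        · exact hJE (mem_sdiff.1 (mem_sdiff.1 he).1).1) (by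
      intro v
      rw [dg_insert n4, dg_insert n3]
      have h2 := dg_sdiff hP1 v
      have h2' := dg_sdiff hQ1' v
      have h3 := hJodd v
      have h4 := hP2 v
      have h4' := hQ2 v
      simp only [Sym2.mem_iff]
      rw [Nat.odd_iff] at h3 ⊢
      rw [Nat.even_iff] at h4 h4'
      by_cases e1 : v = x
      · have a1 : ¬ (dg P v % 2 = 0) := by rw [h4]; tauto
        have a2 : dg Q v % 2 = 0 := by
          rw [h4', e1]
          exact ⟨hyx', q2⟩
        rw [if_pos (Or.inl e1), if_neg (by
          rw [e1]; rintro (h | h)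
          · exact hxn h
          · exact q2 h)]
        omega
      · by_cases e2 : v = x'
        · have a1 : ¬ (dg P v % 2 = 0) := by rw [h4]; tauto
          have a2 : dg Q v % 2 = 0 := by
            rw [h4', e2]
            exact ⟨q1, q3⟩
          rw [if_neg (by
            rintro (h | h)
            · exact e1 h
            · exact q1 (e2 ▸ h)), if_pos (Or.inl e2)]
          omega
        · have a1 : dg P v % 2 = 0 := by rw [h4]; exact ⟨e1, e2⟩
          by_cases e3 : v = y
          · have a2 : ¬ (dg Q v % 2 = 0) := by rw [h4']; tauto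
            rw [if_pos (Or.inr e3), if_neg (by
              rintro (h | h)
              · exact e2 h
              · exact hyn (e3 ▸ h))]
            omega
          · by_cases e4 : v = y'
            · have a2 : ¬ (dg Q v % 2 = 0) := by rw [h4']; tauto
              rw [if_neg (by
                rintro (h | h)
                · exact e1 h
                · exact e3 h), if_pos (Or.inr e4)]
              omega
            · have a2 : dg Q v % 2 = 0 := by rw [h4']; exact ⟨e3, e4⟩
              rw [if_neg (by tauto), if_neg (by tauto)]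
              omega)
    rw [card_insert_of_notMem n4, card_insert_of_notMem n3, card_sdiff_of_subset hQ1',
      card_sdiff_of_subset hP1] at h1
    have c1 := card_le_card hP1
    have c2 := card_le_card hQ1'
    rw [card_sdiff_of_subset hP1] at c2
    exact ⟨hP5 (by omega), hQ5 (by omega)⟩
  -- counting
  let c : V → H.ConnectedComponent := H.connectedComponentMk
  let fib : H.ConnectedComponent → Finset V := fun T => univ.filter (fun v => c v = T)
  have hreach : ∀ x y, c x = c y ↔ H.Reachable x y := fun x y => ConnectedComponent.eq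
  have hsumT : ∀ T, ∑ v ∈ fib T, H.degree v + 2 = 2 * (fib T).card := fun T =>
    sum_degree_component hac T
  obtain ⟨T, -, hTmax⟩ := Finset.exists_max_image (univ : Finset H.ConnectedComponent)
    (fun T => (fib T).card) ⟨c (Classical.arbitrary V), mem_univ _⟩
  set C := Fintype.card H.ConnectedComponent with hC
  -- total number of edges
  have htot : J.card + C = Fintype.card V := by
    have h1 : ∑ v, dg J v = 2 * J.card := sum_dg J hJd
    have h2 : ∑ v, dg J v = ∑ v, H.degree v :=
      Finset.sum_congr rfl (fun v _ => dg_eq_degree hJd v)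
    have h3 : ∑ v, H.degree v = ∑ T : H.ConnectedComponent, ∑ v ∈ fib T, H.degree v := by
      rw [← Finset.sum_fiberwise_of_maps_to (g := c) (t := univ) (fun _ _ => mem_univ _)]
    have h4 : Fintype.card V = ∑ T : H.ConnectedComponent, (fib T).card := by
      rw [← card_univ, Finset.card_eq_sum_card_fiberwise (f := c) (t := univ)
        (fun _ _ => mem_univ _)]
    have h5 : ∑ T : H.ConnectedComponent, (∑ v ∈ fib T, H.degree v + 2) =
        ∑ T : H.ConnectedComponent, 2 * (fib T).card :=
      Finset.sum_congr rfl (fun T _ => hsumT T)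
    rw [Finset.sum_add_distrib, ← h3, ← h2, h1, ← Finset.mul_sum, ← h4] at h5
    simp only [sum_const, card_univ, smul_eq_mul] at h5
    omega
  refine ⟨J, hJE, hJodd, ?_⟩
  rw [← htot]
  -- the edges leaving `T`
  set t := (fib T).card with ht
  have ht1 : 1 ≤ t := by
    obtain ⟨v, hv⟩ := T.exists_rep
    rw [ht]
    apply Finset.card_pos.2
    exact ⟨v, by simp only [fib, mem_filter, mem_univ, true_and]; exact hv⟩
  let S : Finset (V × V) := univ.filter (fun p => c p.1 = T ∧ c p.2 ≠ T ∧ G.Adj p.1 p.2)
  have hS1 : S.card + (2 * t - 2) = (2 * k + 1) * t := by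
    have h1 : ((univ : Finset (V × V)).filter (fun p => c p.1 = T ∧ G.Adj p.1 p.2)).card =
        (2 * k + 1) * t := by
      rw [Finset.card_eq_sum_card_fiberwise (f := Prod.fst) (t := fib T)]
      · rw [Finset.sum_congr rfl (g := fun _ => 2 * k + 1)]
        · rw [sum_const, smul_eq_mul, mul_comm]
        · intro x hx
          rw [← hG x, ← card_neighborFinset_eq_degree]
          apply Finset.card_bij (fun p _ => p.2)
          · rintro ⟨a, b⟩ hp
            simp only [mem_filter, mem_univ, true_and] at hp
            rw [mem_neighborFinset, ← hp.2]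
            exact hp.1.2
          · rintro ⟨a, b⟩ hp ⟨a', b'⟩ hp' h
            simp only [mem_filter, mem_univ, true_and] at hp hp' h
            rw [hp.2, hp'.2, h]
          · intro b hb
            rw [mem_neighborFinset] at hb
            refine ⟨(x, b), ?_, rfl⟩
            simp only [mem_filter, mem_univ, true_and]
            simp only [fib, mem_filter, mem_univ, true_and] at hx
            exact ⟨⟨hx, hb⟩, trivial⟩
      · intro p hp
        simp only [coe_filter, mem_univ, true_and, Set.mem_ofPred_eq] at hp
        simp only [fib, coe_filter, mem_univ, true_and, Set.mem_ofPred_eq]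
        exact hp.1
    have h2 : ((univ : Finset (V × V)).filter (fun p => c p.1 = T ∧ c p.2 = T ∧ G.Adj p.1 p.2)).card =
        2 * t - 2 := by
      have h3 : ((univ : Finset (V × V)).filter (fun p => c p.1 = T ∧ c p.2 = T ∧ G.Adj p.1 p.2)).card
          = ∑ v ∈ fib T, H.degree v := by
        rw [Finset.card_eq_sum_card_fiberwise (f := Prod.fst) (t := fib T)]
        · apply Finset.sum_congr rfl
          intro x hx
          simp only [fib, mem_filter, mem_univ, true_and] at hx
          rw [← card_neighborFinset_eq_degree]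
          apply Finset.card_bij (fun p _ => p.2)
          · rintro ⟨a, b⟩ hp
            simp only [mem_filter, mem_univ, true_and] at hp
            obtain ⟨⟨h4, h5, h6⟩, rfl⟩ := hp
            rw [mem_neighborFinset]
            exact hind _ _ ((hreach _ _).1 (h4.trans h5.symm)) h6
          · rintro ⟨a, b⟩ hp ⟨a', b'⟩ hp' h
            simp only [mem_filter, mem_univ, true_and] at hp hp' h
            rw [hp.2, hp'.2, h]
          · intro b hb
            rw [mem_neighborFinset] at hb
            refine ⟨(x, b), ?_, rfl⟩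
            simp only [mem_filter, mem_univ, true_and]
            refine ⟨⟨hx, ?_, hHG _ _ hb⟩, trivial⟩
            rw [← hx]
            exact ((hreach _ _).2 hb.reachable).symm
        · intro p hp
          simp only [coe_filter, mem_univ, true_and, Set.mem_ofPred_eq] at hp
          simp only [fib, coe_filter, mem_univ, true_and, Set.mem_ofPred_eq]
          exact hp.1
      have := hsumT T
      omega
    rw [← h1, ← h2]
    rw [← card_union_of_disjoint]
    · congr 1
      ext p
      simp only [S, mem_union, mem_filter, mem_univ, true_and]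
      tauto
    · rw [Finset.disjoint_left]
      intro p hp hp'
      simp only [S, mem_filter, mem_univ, true_and] at hp hp'
      exact hp.2.1 hp'.2.1
  have hS2 : S.card ≤ (C - 1) * (2 * t) := by
    rw [Finset.card_eq_sum_card_fiberwise (f := fun p => c p.2) (t := univ.erase T)]
    · have hb : ∀ T' ∈ (univ : Finset H.ConnectedComponent).erase T,
          (S.filter (fun p => c p.2 = T')).card ≤ 2 * t := by
        intro T' hT'
        have hne := (mem_erase.1 hT').1
        refine (card_cross_le hac (fib T) (fib T') _ ?_ ?_).trans ?_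
        · rintro ⟨a, b⟩ hp
          simp only [S, fib, mem_filter, mem_univ, true_and, mem_product] at hp ⊢
          exact ⟨hp.1.1, hp.2⟩
        · rintro ⟨x, y⟩ hp ⟨x', y'⟩ hp' hx hy
          simp only [S, mem_filter, mem_univ, true_and] at hp hp' hx hy
          obtain ⟨⟨a1, a2, a3⟩, a4⟩ := hp
          obtain ⟨⟨b1, b2, b3⟩, b4⟩ := hp'
          refine hcross x x' y y' ((hreach _ _).1 (a1.trans b1.symm))
            ((hreach _ _).1 (a4.trans b4.symm)) ?_ a3 b3 hx hy
          intro h
          exact a2 (((hreach _ _).2 h).symm.trans a1)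
        · have := hTmax T' (mem_univ _)
          omega
      refine (Finset.sum_le_card_nsmul _ _ _ hb).trans ?_
      rw [card_erase_of_mem (mem_univ _), card_univ, smul_eq_mul]
    · intro p hp
      simp only [S, coe_filter, mem_univ, true_and, Set.mem_ofPred_eq] at hp
      simp only [coe_erase, coe_univ, Set.mem_sdiff, Set.mem_univ, Set.mem_singleton_iff, true_and]
      exact hp.2.1
  -- conclusion
  by_contra hcon
  have hCk : C ≤ k := by omega
  have h9 : (C - 1) * (2 * t) + 2 * t ≤ 2 * k * t + 0 := by
    have hCpos : 1 ≤ C := Fintype.card_pos_iff.2 ⟨T⟩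
    calc (C - 1) * (2 * t) + 2 * t = C * (2 * t) := by
          obtain ⟨C', hC'⟩ : ∃ C', C = C' + 1 := ⟨C - 1, by omega⟩
          rw [hC']
          simp only [Nat.add_sub_cancel]
          ring
      _ ≤ k * (2 * t) := Nat.mul_le_mul_right _ hCk
      _ = 2 * k * t + 0 := by ring
  have h10 : (2 * k + 1) * t = 2 * k * t + t := by ring
  omega

end Pool.Agent.V11128
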