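import Mathlib

namespace Pool.Agent.V11128.RowDet

open Matrix

/-! ### One variable inequalities -/

/-- the constant `(X - 1 - log X) / (X - 1)^2` -/
noncomputable def kp (X : ℝ) : ℝ := (X - 1 - Real.log X) / (X - 1) ^ 2

theorem kp_le {X : ℝ} (hX : 1 < X) : kp X ≤ 1 / 2 := by
  rw [kp, div_le_iff₀ (by nlinarith)]
  have hder : ∀ t : ℝ, 0 < t → HasDerivAt (fun x : ℝ => Real.log x - (x - 1) + (x - 1) ^ 2 / 2)
      ((t - 1) ^ 2 / t) t := by
    intro t ht
    have h1 := Real.hasDerivAt_log ht.ne'
    have h2 : HasDerivAt (fun x : ℝ => x - 1) 1 t := (hasDerivAt_id t).sub_const 1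
    have h4 := (h1.sub h2).add ((h2.pow 2).div_const 2)
    refine h4.congr_deriv ?_
    have : t ≠ 0 := ht.ne'
    norm_num
    field_simp
    ring
  have hmono : MonotoneOn (fun x : ℝ => Real.log x - (x - 1) + (x - 1) ^ 2 / 2) (Set.Icc 1 X) := by
    apply monotoneOn_of_deriv_nonneg (convex_Icc 1 X)
    · exact fun t ht => (hder t (lt_of_lt_of_le one_pos ht.1)).continuousAt.continuousWithinAt
    · intro t ht
      rw [interior_Icc] at ht
      exact (hder t (one_pos.trans ht.1)).differentiableAt.differentiableWithinAt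
    · intro t ht
      rw [interior_Icc] at ht
      have ht0 : 0 < t := one_pos.trans ht.1
      rw [(hder t ht0).deriv]
      positivity
  have := hmono (Set.left_mem_Icc.2 hX.le) (Set.right_mem_Icc.2 hX.le) hX.le
  simp at this
  linarith

/-- `log x ≤ (x-1) - kp X (x-1)^2` on `(0, X]` -/
theorem log_le_q {X x : ℝ} (hX : 1 < X) (hx : 0 < x) (hxX : x ≤ X) :
    Real.log x ≤ (x - 1) - kp X * (x - 1) ^ 2 := by
  set κ := kp X with hκ
  have hκ2 : κ ≤ 1 / 2 := kp_le hX
  set G : ℝ → ℝ := fun t => (t - 1) - κ * (t - 1) ^ 2 - Real.log t with hG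
  have hG1 : G 1 = 0 := by simp [hG]
  have hGX : G X = 0 := by
    have h1 : (X - 1) ^ 2 ≠ 0 := by
      have : 0 < (X - 1) ^ 2 := by nlinarith
      exact this.ne'
    have h2 : κ * (X - 1) ^ 2 = X - 1 - Real.log X := by
      rw [hκ, kp, div_mul_cancel₀ _ h1]
    simp only [hG]
    linarith
  have hder : ∀ t : ℝ, 0 < t → HasDerivAt G ((t - 1) * (t⁻¹ - 2 * κ)) t := by
    intro t ht
    have h1 := Real.hasDerivAt_log ht.ne'
    have h2 : HasDerivAt (fun x : ℝ => x - 1) 1 t := (hasDerivAt_id t).sub_const 1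
    have h4 := (h2.sub ((h2.pow 2).const_mul κ)).sub h1
    refine h4.congr_deriv ?_
    have : t ≠ 0 := ht.ne'
    norm_num
    field_simp
    ring
  have hcont : ∀ s : Set ℝ, (∀ t ∈ s, 0 < t) → ContinuousOn G s := fun s hs t ht =>
    (hder t (hs t ht)).continuousAt.continuousWithinAt
  suffices h : 0 ≤ G x by
    simp only [hG] at h
    linarith
  rcases le_or_gt x 1 with hx1 | hx1
  · -- decreasing on `[x, 1]`
    have hanti : AntitoneOn G (Set.Icc x 1) := by
      apply antitoneOn_of_deriv_nonpos (convex_Icc x 1)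
      · exact hcont _ (fun t ht => lt_of_lt_of_le hx ht.1)
      · intro t ht
        rw [interior_Icc] at ht
        exact (hder t (hx.trans ht.1)).differentiableAt.differentiableWithinAt
      · intro t ht
        rw [interior_Icc] at ht
        have ht0 : 0 < t := hx.trans ht.1
        rw [(hder t ht0).deriv]
        have h1 : 1 ≤ t⁻¹ := (one_le_inv₀ ht0).2 ht.2.le
        nlinarith [ht.2]
    have := hanti (Set.left_mem_Icc.2 hx1) (Set.right_mem_Icc.2 hx1) hx1
    rw [hG1] at this
    exact this
  · by_cases hm : 2 * κ * x ≤ 1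
    · -- increasing on `[1, x]`
      have hmono : MonotoneOn G (Set.Icc 1 x) := by
        apply monotoneOn_of_deriv_nonneg (convex_Icc 1 x)
        · exact hcont _ (fun t ht => lt_of_lt_of_le one_pos ht.1)
        · intro t ht
          rw [interior_Icc] at ht
          exact (hder t (one_pos.trans ht.1)).differentiableAt.differentiableWithinAt
        · intro t ht
          rw [interior_Icc] at ht
          have ht0 : 0 < t := one_pos.trans ht.1
          rw [(hder t ht0).deriv]
          apply mul_nonneg (by linarith [ht.1])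
          have h1 : 2 * κ * t ≤ 1 := by
            rcases le_or_gt 0 κ with h0 | h0
            · nlinarith [ht.2]
            · nlinarith
          have h2 : t⁻¹ - 2 * κ = (1 - 2 * κ * t) / t := by field_simp
          rw [h2]
          exact div_nonneg (by linarith) ht0.le
      have := hmono (Set.left_mem_Icc.2 hx1.le) (Set.right_mem_Icc.2 hx1.le) hx1.le
      rw [hG1] at this
      exact this
    · -- decreasing on `[x, X]`
      push Not at hm
      have hκ0 : 0 < κ := by
        by_contra h
        push Not at h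
        nlinarith
      have hanti : AntitoneOn G (Set.Icc x X) := by
        apply antitoneOn_of_deriv_nonpos (convex_Icc x X)
        · exact hcont _ (fun t ht => lt_of_lt_of_le hx ht.1)
        · intro t ht
          rw [interior_Icc] at ht
          exact (hder t (hx.trans ht.1)).differentiableAt.differentiableWithinAt
        · intro t ht
          rw [interior_Icc] at ht
          have ht0 : 0 < t := hx.trans ht.1
          rw [(hder t ht0).deriv]
          apply mul_nonpos_of_nonneg_of_nonpos (by linarith [ht.1])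
          have h1 : 1 ≤ 2 * κ * t := by nlinarith [ht.1]
          have h2 : t⁻¹ - 2 * κ = (1 - 2 * κ * t) / t := by field_simp
          rw [h2]
          exact div_nonpos_of_nonpos_of_nonneg (by linarith) ht0.le
      have := hanti (Set.left_mem_Icc.2 hxX) (Set.right_mem_Icc.2 hxX) hxX
      rw [hGX] at this
      exact this

/-- `(y-1)^2/(2k) ≤ y log y - y + 1` on `(0, k]` for `k ≥ 1` -/
theorem ylogy {k y : ℝ} (hk : 1 ≤ k) (hy : 0 < y) (hyk : y ≤ k) :
    (y - 1) ^ 2 / (2 * k) ≤ y * Real.log y - y + 1 := by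
  have hk0 : 0 < k := by linarith
  set f : ℝ → ℝ := fun t => t * Real.log t - t + 1 - (t - 1) ^ 2 / (2 * k) with hf
  have hf1 : f 1 = 0 := by simp [hf]
  have hder : ∀ t : ℝ, 0 < t → HasDerivAt f (Real.log t - (t - 1) / k) t := by
    intro t ht
    have h1 := Real.hasDerivAt_log ht.ne'
    have h2 : HasDerivAt (fun x : ℝ => x - 1) 1 t := (hasDerivAt_id t).sub_const 1
    have h3 := (hasDerivAt_id t).mul h1
    have h4 := ((h3.sub (hasDerivAt_id t)).add_const 1).sub ((h2.pow 2).div_const (2 * k))
    refine h4.congr_deriv ?_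
    have : t ≠ 0 := ht.ne'
    norm_num
    field_simp
    ring
  have hcont : ∀ s : Set ℝ, (∀ t ∈ s, 0 < t) → ContinuousOn f s := fun s hs t ht =>
    (hder t (hs t ht)).continuousAt.continuousWithinAt
  suffices h : 0 ≤ f y by
    simp only [hf] at h
    linarith
  rcases le_or_gt y 1 with hy1 | hy1
  · have hanti : AntitoneOn f (Set.Icc y 1) := by
      apply antitoneOn_of_deriv_nonpos (convex_Icc y 1)
      · exact hcont _ (fun t ht => lt_of_lt_of_le hy ht.1)
      · intro t ht
        rw [interior_Icc] at ht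
        exact (hder t (hy.trans ht.1)).differentiableAt.differentiableWithinAt
      · intro t ht
        rw [interior_Icc] at ht
        have ht0 : 0 < t := hy.trans ht.1
        rw [(hder t ht0).deriv]
        have h1 := Real.log_le_sub_one_of_pos ht0
        have h2 : t - 1 ≤ (t - 1) / k := by
          rw [le_div_iff₀ hk0]
          nlinarith [ht.2]
        linarith
    have := hanti (Set.left_mem_Icc.2 hy1) (Set.right_mem_Icc.2 hy1) hy1
    rw [hf1] at this
    exact this
  · have hmono : MonotoneOn f (Set.Icc 1 y) := by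
      apply monotoneOn_of_deriv_nonneg (convex_Icc 1 y)
      · exact hcont _ (fun t ht => lt_of_lt_of_le one_pos ht.1)
      · intro t ht
        rw [interior_Icc] at ht
        exact (hder t (one_pos.trans ht.1)).differentiableAt.differentiableWithinAt
      · intro t ht
        rw [interior_Icc] at ht
        have ht0 : 0 < t := one_pos.trans ht.1
        rw [(hder t ht0).deriv]
        have h1 := Real.one_sub_inv_le_log_of_pos ht0
        have h2 : (t - 1) / k ≤ 1 - t⁻¹ := by
          have : 1 - t⁻¹ = (t - 1) / t := by field_simp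
          rw [this]
          apply div_le_div_of_nonneg_left (by linarith [ht.1]) ht0
          linarith [ht.2]
        linarith
    have := hmono (Set.left_mem_Icc.2 hy1.le) (Set.right_mem_Icc.2 hy1.le) hy1.le
    rw [hf1] at this
    exact this

/-! ### Matrices -/

variable {ι : Type*} [Fintype ι] [DecidableEq ι]

theorem eig_le (M : Matrix ι ι ℝ) (hnn : ∀ i j, 0 ≤ M i j) (r : ℝ) (hrow : ∀ i, ∑ j, M i j = r)
    (v : ι → ℝ) (hv : v ≠ 0) (l : ℝ) (h : M *ᵥ v = l • v) : l ≤ r := by
  obtain ⟨i0, hi0⟩ := Function.ne_iff.1 hv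
  have : Nonempty ι := ⟨i0⟩
  obtain ⟨i, hi⟩ := Finite.exists_max (fun i => |v i|)
  have hpos : 0 < |v i| := lt_of_lt_of_le (abs_pos.2 hi0) (hi i0)
  have h1 : l * |v i| ≤ r * |v i| := by
    calc l * |v i| ≤ |l| * |v i| := mul_le_mul_of_nonneg_right (le_abs_self l) (abs_nonneg _)
      _ = |∑ j, M i j * v j| := by
        have := congrFun h i
        simp only [Matrix.mulVec, dotProduct, Pi.smul_apply, smul_eq_mul] at this
        rw [this, abs_mul]
      _ ≤ ∑ j, |M i j * v j| := Finset.abs_sum_le_sum_abs _ _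
      _ ≤ ∑ j, M i j * |v i| := by
        refine Finset.sum_le_sum fun j _ => ?_
        rw [abs_mul, abs_of_nonneg (hnn i j)]
        exact mul_le_mul_of_nonneg_left (hi j) (hnn i j)
      _ = r * |v i| := by rw [← Finset.sum_mul, hrow]
  exact le_of_mul_le_mul_right h1 hpos

theorem trace_sq_eq (M : Matrix ι ι ℝ) (hM : M.IsHermitian) :
    (M * M).trace = ∑ i, hM.eigenvalues i ^ 2 := by
  have h := hM.spectral_theorem
  rw [Unitary.conjStarAlgAut_apply] at h
  set U : Matrix ι ι ℝ := (hM.eigenvectorUnitary : Matrix ι ι ℝ) with hU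
  have hUU : star U * U = 1 := Unitary.coe_star_mul_self hM.eigenvectorUnitary
  set D : Matrix ι ι ℝ := diagonal (RCLike.ofReal ∘ hM.eigenvalues) with hD
  have h2 : M * M = U * (D * D) * star U := by
    calc M * M = (U * D * star U) * (U * D * star U) := by rw [← h]
      _ = U * D * (star U * U) * D * star U := by simp only [Matrix.mul_assoc]
      _ = U * (D * D) * star U := by rw [hUU]; simp only [Matrix.mul_assoc, Matrix.mul_one]
  rw [h2, Matrix.trace_mul_comm, ← Matrix.mul_assoc, hUU, Matrix.one_mul, hD,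
    Matrix.diagonal_mul_diagonal, Matrix.trace_diagonal]
  refine Finset.sum_congr rfl fun i _ => ?_
  simp [sq]

/-- the bound for zero-one matrices with row sums `k` -/
theorem det_bound (k : ℕ) (hk : 3 ≤ k) (A : Matrix ι ι ℝ) (h01 : ∀ i j, A i j = 0 ∨ A i j = 1)
    (hrow : ∀ i, ∑ j, A i j = k) (hdet : A.det ≠ 0) :
    Real.log (A.det ^ 2) ≤ Fintype.card ι * (Real.log ((k : ℝ) - 1) +
      Real.log ((k : ℝ) ^ 2 / (k - 1)) / ((k : ℝ) ^ 2 - k + 1)) := by
  set K : ℝ := (k : ℝ) with hK
  have hK3 : 3 ≤ K := by rw [hK]; exact_mod_cast hk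
  set n : ℝ := (Fintype.card ι : ℝ) with hn
  -- column sums
  set c : ι → ℝ := fun j => ∑ i, A i j with hc
  have hnnA : ∀ i j, 0 ≤ A i j := fun i j => by rcases h01 i j with h | h <;> simp [h]
  have hA2 : ∀ i j, A i j * A i j = A i j := fun i j => by rcases h01 i j with h | h <;> simp [h]
  have hc1 : ∀ j, 1 ≤ c j := by
    intro j
    have hex : ∃ i, A i j = 1 := by
      by_contra hno
      push Not at hno
      apply hdet
      apply Matrix.det_eq_zero_of_column_eq_zero j
      intro i
      rcases h01 i j with h | h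
      · exact h
      · exact absurd h (hno i)
    obtain ⟨i, hi⟩ := hex
    rw [hc, ← hi]
    exact Finset.single_le_sum (f := fun i => A i j) (fun i _ => hnnA i j) (Finset.mem_univ i)
  have hc0 : ∀ j, 0 < c j := fun j => lt_of_lt_of_le one_pos (hc1 j)
  set y : ι → ℝ := fun j => K / c j with hy
  have hy0 : ∀ j, 0 < y j := fun j => div_pos (by linarith) (hc0 j)
  have hyK : ∀ j, y j ≤ K := fun j => by
    rw [hy]
    exact div_le_self (by linarith) (hc1 j)
  have hcy : ∀ j, c j * y j = K := fun j => by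
    rw [hy]
    exact mul_div_cancel₀ K (hc0 j).ne'
  have hsumc : ∑ j, c j = K * n := by
    rw [hc, Finset.sum_comm]
    simp only [hrow]
    rw [Finset.sum_const, nsmul_eq_mul, Finset.card_univ, mul_comm]
  have hsumyinv : ∑ j, (y j)⁻¹ = n := by
    have : ∀ j, (y j)⁻¹ = c j / K := fun j => by rw [hy, inv_div]
    simp only [this]
    rw [← Finset.sum_div, hsumc]
    field_simp
  -- the matrix
  set M : Matrix ι ι ℝ := A * diagonal y * Aᵀ with hM
  have hMe : ∀ i i', M i i' = ∑ j, A i j * y j * A i' j := by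
    intro i i'
    rw [hM, Matrix.mul_apply]
    refine Finset.sum_congr rfl fun j _ => ?_
    rw [Matrix.mul_diagonal, Matrix.transpose_apply]
  have hMnn : ∀ i i', 0 ≤ M i i' := fun i i' => by
    rw [hMe]
    exact Finset.sum_nonneg fun j _ => mul_nonneg (mul_nonneg (hnnA i j) (hy0 j).le) (hnnA i' j)
  have hMrow : ∀ i, ∑ i', M i i' = K ^ 2 := by
    intro i
    simp only [hMe]
    rw [Finset.sum_comm]
    have : ∀ j, ∑ i', A i j * y j * A i' j = A i j * K := by
      intro j
      rw [← Finset.mul_sum]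
      have := hcy j
      rw [hc] at this
      simp only at this
      rw [mul_assoc, mul_comm (y j), this]
    simp only [this]
    rw [← Finset.sum_mul, hrow, sq]
  have hpsd : M.PosSemidef := by
    have h1 : (diagonal y).PosSemidef := Matrix.PosSemidef.diagonal (fun j => (hy0 j).le)
    have h2 := h1.mul_mul_conjTranspose_same A
    rwa [Matrix.conjTranspose_eq_transpose_of_trivial] at h2
  have hH := hpsd.isHermitian
  set l : ι → ℝ := hH.eigenvalues with hl
  have hl0 : ∀ i, 0 ≤ l i := fun i => hpsd.eigenvalues_nonneg i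
  have hdetM : M.det = A.det ^ 2 * ∏ j, y j := by
    rw [hM, Matrix.det_mul, Matrix.det_mul, Matrix.det_diagonal, Matrix.det_transpose]
    ring
  have hprody : 0 < ∏ j, y j := Finset.prod_pos fun j _ => hy0 j
  have hdet2 : 0 < A.det ^ 2 := by positivity
  have hprodl : ∏ i, l i = M.det := by
    have := hH.det_eq_prod_eigenvalues
    simpa using this.symm
  have hlne : ∀ i, l i ≠ 0 := by
    intro i hi
    have h1 : ∏ i, l i = 0 := Finset.prod_eq_zero (Finset.mem_univ i) hi
    rw [hprodl, hdetM] at h1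
    exact (mul_pos hdet2 hprody).ne' h1
  have hlpos : ∀ i, 0 < l i := fun i => lt_of_le_of_ne (hl0 i) (hlne i).symm
  have hlK : ∀ i, l i ≤ K ^ 2 := by
    intro i
    apply eig_le M hMnn (K ^ 2) hMrow (⇑(hH.eigenvectorBasis i))
    · have := hH.eigenvectorBasis.orthonormal.ne_zero i
      intro h0
      exact this (by ext j; exact congrFun h0 j)
    · exact hH.mulVec_eigenvectorBasis i
  -- traces
  have htr : ∑ i, l i = K * n := by
    have h1 := hH.trace_eq_sum_eigenvalues
    simp only [RCLike.ofReal_real_eq_id, id] at h1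
    rw [← h1, Matrix.trace]
    simp only [Matrix.diag_apply, hMe]
    rw [Finset.sum_comm]
    have : ∀ j, ∑ i, A i j * y j * A i j = K := by
      intro j
      have h2 : ∀ i, A i j * y j * A i j = A i j * y j := fun i => by
        rw [mul_right_comm, hA2]
      simp only [h2]
      rw [← Finset.sum_mul]
      exact hcy j
    simp only [this]
    rw [Finset.sum_const, nsmul_eq_mul, Finset.card_univ, mul_comm]
  set S : ι → ℝ := fun i => ∑ j, A i j * y j with hS
  have hSsum : ∑ i, S i = K * n := by
    rw [hS, Finset.sum_comm]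
    have : ∀ j, ∑ i, A i j * y j = K := fun j => by
      rw [← Finset.sum_mul]
      exact hcy j
    simp only [this]
    rw [Finset.sum_const, nsmul_eq_mul, Finset.card_univ, mul_comm]
  have hnpos : 0 ≤ n := by rw [hn]; positivity
  have hSsq : K ^ 2 * n ≤ ∑ i, S i ^ 2 := by
    rcases hnpos.eq_or_lt with h0 | h0
    · rw [← h0, mul_zero]
      exact Finset.sum_nonneg fun i _ => sq_nonneg _
    · have h1 := sq_sum_le_card_mul_sum_sq (s := Finset.univ) (f := S)
      rw [hSsum, Finset.card_univ, ← hn] at h1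
      have h2 : n * (K ^ 2 * n) ≤ n * ∑ i, S i ^ 2 := by nlinarith
      exact le_of_mul_le_mul_left h2 h0
  have htr2 : 2 * K ^ 2 * n - K * ∑ j, y j ≤ ∑ i, l i ^ 2 := by
    rw [← trace_sq_eq M hH]
    have h1 : (M * M).trace = ∑ i, ∑ i', M i i' ^ 2 := by
      rw [Matrix.trace]
      refine Finset.sum_congr rfl fun i _ => ?_
      rw [Matrix.diag_apply, Matrix.mul_apply]
      refine Finset.sum_congr rfl fun i' _ => ?_
      have : M i' i = M i i' := by
        rw [hMe, hMe]
        exact Finset.sum_congr rfl fun j _ => by ring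
      rw [this, sq]
    rw [h1]
    -- split off the squares
    have h2 : ∀ i i', ∑ j, A i j * A i' j * y j ^ 2 ≤ M i i' ^ 2 := by
      intro i i'
      rw [hMe]
      refine le_trans (le_of_eq ?_) (Finset.sum_sq_le_sq_sum_of_nonneg
        (fun j _ => mul_nonneg (mul_nonneg (hnnA i j) (hy0 j).le) (hnnA i' j)))
      refine Finset.sum_congr rfl fun j _ => ?_
      have e1 := hA2 i j
      have e2 := hA2 i' j
      calc A i j * A i' j * y j ^ 2 = (A i j * A i j) * (A i' j * A i' j) * y j ^ 2 := by
            rw [e1, e2]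
        _ = (A i j * y j * A i' j) ^ 2 := by ring
    have h3 : ∑ i, ∑ i', ∑ j, A i j * A i' j * y j ^ 2 = K ^ 2 * n := by
      have : ∀ i, ∑ i', ∑ j, A i j * A i' j * y j ^ 2 = ∑ j, A i j * K * y j := by
        intro i
        rw [Finset.sum_comm]
        refine Finset.sum_congr rfl fun j _ => ?_
        have : ∀ i', A i j * A i' j * y j ^ 2 = A i j * y j * (A i' j * y j) := fun i' => by ring
        simp only [this]
        rw [← Finset.mul_sum, ← Finset.sum_mul]
        have := hcy j
        rw [hc] at this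
        simp only at this
        rw [this]; ring
      simp only [this]
      rw [Finset.sum_comm]
      have h4 : ∀ j, ∑ i, A i j * K * y j = K ^ 2 := by
        intro j
        have : ∀ i, A i j * K * y j = A i j * (K * y j) := fun i => by ring
        simp only [this]
        rw [← Finset.sum_mul]
        have := hcy j
        rw [hc] at this
        simp only at this
        rw [← mul_assoc, mul_comm _ K, mul_assoc, this, sq]
      simp only [h4]
      rw [Finset.sum_const, nsmul_eq_mul, Finset.card_univ, mul_comm]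
    have h5 : ∑ i, (M i i ^ 2 - ∑ j, A i j * A i j * y j ^ 2) ≤
        ∑ i, ∑ i', (M i i' ^ 2 - ∑ j, A i j * A i' j * y j ^ 2) := by
      refine Finset.sum_le_sum fun i _ => ?_
      exact Finset.single_le_sum (f := fun i' => M i i' ^ 2 - ∑ j, A i j * A i' j * y j ^ 2)
        (fun i' _ => by linarith [h2 i i']) (Finset.mem_univ i)
    have h6 : ∑ i, (M i i ^ 2 - ∑ j, A i j * A i j * y j ^ 2) = ∑ i, S i ^ 2 - K * ∑ j, y j := by
      rw [Finset.sum_sub_distrib]
      congr 1
      · refine Finset.sum_congr rfl fun i _ => ?_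
        rw [hMe, hS]
        congr 1
        refine Finset.sum_congr rfl fun j _ => ?_
        rw [mul_right_comm, hA2]
      · rw [Finset.sum_comm, Finset.mul_sum]
        refine Finset.sum_congr rfl fun j _ => ?_
        have : ∀ i, A i j * A i j * y j ^ 2 = A i j * (y j ^ 2) := fun i => by rw [hA2]
        simp only [this]
        rw [← Finset.sum_mul]
        have := hcy j
        rw [hc] at this
        simp only at this
        rw [sq, ← mul_assoc, this]
    simp only [Finset.sum_sub_distrib] at h5
    rw [h3] at h5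
    simp only [Finset.sum_sub_distrib] at h6
    linarith
  -- eigenvalue estimate
  set X : ℝ := K ^ 2 / (K - 1) with hX
  have hK1 : 0 < K - 1 := by linarith
  have hX1 : 1 < X := by
    rw [hX, lt_div_iff₀ hK1]
    nlinarith
  set κ : ℝ := kp X with hκ
  have hlog : ∀ i, Real.log (l i) ≤ Real.log (K - 1) + (l i / (K - 1) - 1) -
      κ * (l i / (K - 1) - 1) ^ 2 := by
    intro i
    have h1 : Real.log (l i) = Real.log (K - 1) + Real.log (l i / (K - 1)) := by
      rw [Real.log_div (hlne i) hK1.ne']; ring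
    have h2 := log_le_q hX1 (div_pos (hlpos i) hK1)
      (by rw [hX]; exact div_le_div_of_nonneg_right (hlK i) hK1.le)
    rw [h1]
    linarith
  have hsumlog : ∑ i, Real.log (l i) ≤ n * Real.log (K - 1) + n / (K - 1) -
      κ * ((∑ i, l i ^ 2) / (K - 1) ^ 2 - 2 * K * n / (K - 1) + n) := by
    refine (Finset.sum_le_sum fun i _ => hlog i).trans (le_of_eq ?_)
    have e1 : ∀ i, Real.log (K - 1) + (l i / (K - 1) - 1) - κ * (l i / (K - 1) - 1) ^ 2 =
        (Real.log (K - 1) - 1 - κ) + (1 / (K - 1) + 2 * κ / (K - 1)) * l i -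
          κ / (K - 1) ^ 2 * l i ^ 2 := by
      intro i
      field_simp
      ring
    simp only [e1]
    rw [Finset.sum_sub_distrib, Finset.sum_add_distrib, ← Finset.mul_sum, ← Finset.mul_sum, htr,
      Finset.sum_const, nsmul_eq_mul, Finset.card_univ, ← hn]
    field_simp
    ring
  -- column estimate
  have hylog : ∀ j, (1 / (2 * K)) * (y j - 2 + (y j)⁻¹) + (1 - (y j)⁻¹) ≤ Real.log (y j) := by
    intro j
    have h1 := ylogy (by linarith : (1 : ℝ) ≤ K) (hy0 j) (hyK j)
    have h2 := hy0 j
    have h3 : (1 / (2 * K)) * (y j - 2 + (y j)⁻¹) + (1 - (y j)⁻¹) =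
        ((y j - 1) ^ 2 / (2 * K) + y j - 1) / y j := by
      field_simp
      ring
    rw [h3, div_le_iff₀ h2]
    linarith
  set T : ℝ := ∑ j, y j - n with hT
  have hT0 : 0 ≤ T := by
    have h1 : ∀ j, 0 ≤ y j - 2 + (y j)⁻¹ := by
      intro j
      have h2 := hy0 j
      have : y j - 2 + (y j)⁻¹ = (y j - 1) ^ 2 / y j := by
        field_simp
        ring
      rw [this]
      positivity
    have h2 := Finset.sum_nonneg fun j (_ : j ∈ Finset.univ) => h1 j
    rw [Finset.sum_add_distrib, Finset.sum_sub_distrib, Finset.sum_const, nsmul_eq_mul,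
      Finset.card_univ, ← hn, hsumyinv] at h2
    linarith
  have hsumy : (1 / (2 * K)) * T ≤ ∑ j, Real.log (y j) := by
    refine le_trans (le_of_eq ?_) (Finset.sum_le_sum fun j _ => hylog j)
    rw [Finset.sum_add_distrib, ← Finset.mul_sum, Finset.sum_add_distrib, Finset.sum_sub_distrib,
      Finset.sum_sub_distrib, Finset.sum_const, Finset.sum_const, nsmul_eq_mul, nsmul_eq_mul,
      Finset.card_univ, ← hn, hsumyinv, hT]
    ring
  -- total
  have htot : Real.log (A.det ^ 2) = ∑ i, Real.log (l i) - ∑ j, Real.log (y j) := by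
    have h1 : Real.log M.det = Real.log (A.det ^ 2) + ∑ j, Real.log (y j) := by
      rw [hdetM, Real.log_mul hdet2.ne' hprody.ne', Real.log_prod (fun j _ => (hy0 j).ne')]
    have h2 : Real.log M.det = ∑ i, Real.log (l i) := by
      rw [← hprodl, Real.log_prod (fun i _ => hlne i)]
    linarith
  -- the constant
  have hXm : X - 1 = (K ^ 2 - K + 1) / (K - 1) := by
    rw [hX]; field_simp; ring
  have hK2 : 0 < K ^ 2 - K + 1 := by nlinarith
  have hκeq : κ * (K ^ 2 - K + 1) / (K - 1) ^ 2 = 1 / (K - 1) - Real.log X / (K ^ 2 - K + 1) := by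
    rw [hκ, kp, hXm]
    field_simp
  have hκle : κ * K / (K - 1) ^ 2 ≤ 1 / (2 * K) := by
    rw [hκ, kp, hXm]
    have hlogX : 1 ≤ Real.log X := by
      have h1 : Real.exp 1 ≤ X := by
        have := Real.exp_one_lt_d9
        have h2 : (4 : ℝ) ≤ X := by
          rw [hX, le_div_iff₀ hK1]
          nlinarith
        linarith
      have := Real.log_le_log (Real.exp_pos 1) h1
      rwa [Real.log_exp] at this
    have h3 : ((K ^ 2 - K + 1) / (K - 1) - Real.log X) ≤ K - 1 / 2 := by
      have : (K ^ 2 - K + 1) / (K - 1) ≤ K + 1 / 2 := by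
        rw [div_le_iff₀ hK1]
        nlinarith
      linarith
    have h4 : (K - 1 / 2) * (2 * K ^ 2) ≤ (K ^ 2 - K + 1) ^ 2 := by
      nlinarith [mul_nonneg (sub_nonneg.2 hK3) (sub_nonneg.2 hK3),
        mul_nonneg (mul_nonneg (sub_nonneg.2 hK3) (sub_nonneg.2 hK3)) (sub_nonneg.2 hK3),
        sq_nonneg (K ^ 2 - 2 * K)]
    have h5 : ((K ^ 2 - K + 1) / (K - 1) - Real.log X) * (2 * K ^ 2) ≤ (K ^ 2 - K + 1) ^ 2 :=
      le_trans (mul_le_mul_of_nonneg_right h3 (by positivity)) h4
    rw [div_mul_eq_mul_div, div_div, div_le_div_iff₀ (by positivity) (by positivity)]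
    have h6 : ((K ^ 2 - K + 1) / (K - 1)) ^ 2 * (K - 1) ^ 2 = (K ^ 2 - K + 1) ^ 2 := by
      field_simp
    rw [h6]
    nlinarith
  have hκ0 : 0 ≤ κ := by
    rw [hκ, kp]
    apply div_nonneg _ (sq_nonneg _)
    have := Real.log_le_sub_one_of_pos (by linarith : 0 < X)
    linarith
  have hfin : κ * ((2 * K ^ 2 * n - K * (n + T)) / (K - 1) ^ 2 - 2 * K * n / (K - 1) + n) ≤
      κ * ((∑ i, l i ^ 2) / (K - 1) ^ 2 - 2 * K * n / (K - 1) + n) := by
    apply mul_le_mul_of_nonneg_left _ hκ0
    have : (2 * K ^ 2 * n - K * (n + T)) / (K - 1) ^ 2 ≤ (∑ i, l i ^ 2) / (K - 1) ^ 2 := by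
      apply div_le_div_of_nonneg_right _ (by positivity)
      have : n + T = ∑ j, y j := by rw [hT]; ring
      rw [this]
      exact htr2
    linarith
  have hexp : κ * ((2 * K ^ 2 * n - K * (n + T)) / (K - 1) ^ 2 - 2 * K * n / (K - 1) + n) =
      n * (κ * (K ^ 2 - K + 1) / (K - 1) ^ 2) - κ * K / (K - 1) ^ 2 * T := by
    field_simp
    ring
  have hTT : κ * K / (K - 1) ^ 2 * T ≤ 1 / (2 * K) * T := mul_le_mul_of_nonneg_right hκle hT0
  rw [htot]
  rw [hexp, hκeq] at hfin
  have : n * (1 / (K - 1)) = n / (K - 1) := by ring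
  nlinarith

end Pool.Agent.V11128.RowDet
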