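import Mathlib

/-!
Superlinear lower bound for the alternating pattern `[1 0 1 0; 0 1 0 1]`.

`Des k m s t` : a finite 0-1 matrix whose rows form the finite linear order `R`, whose columns are
the finsets `S` (special columns) and `T` (regular columns) of a linear order `C`; every row has
exactly `k` ones, the leftmost of them is in a special column and the others are in regular
columns; the matrix avoids the alternating pattern and there are exactly `m * s` rows.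
-/

namespace Pool.Agent.V11128.ZO

structure Des (k m s t : ℕ) where
  R : Type
  C : Type
  iR : LinearOrder R
  fR : Fintype R
  iC : LinearOrder C
  S : Finset C
  T : Finset C
  sp : R → C
  M : R → Finset C
  idx : R → ℕ
  hdisj : ∀ c ∈ S, c ∉ T
  hS : S.card = s
  hT : T.card ≤ t
  hR : Fintype.card R = m * s
  hM : ∀ r, (M r).card = k
  hsp : ∀ r, sp r ∈ S
  hspM : ∀ r, sp r ∈ M r
  hreg : ∀ r, ∀ c ∈ M r, c ≠ sp r → sp r < c ∧ c ∈ T
  hidx : ∀ r, idx r < m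
  hmono : ∀ a b, a < b → sp a = sp b → idx b < idx a
  hav : ∀ a b, a < b → ∀ c₁ ∈ M a, ∀ c₂ ∈ M b, ∀ c₃ ∈ M a, ∀ c₄ ∈ M b,
    c₁ < c₂ → c₂ < c₃ → c₃ < c₄ → False
  hQ : ∀ a b, a < b → sp a = sp b → ∀ c₃ ∈ M a, ∀ c₄ ∈ M b, sp a < c₃ → c₃ < c₄ → False

attribute [instance] Des.iR Des.fR Des.iC

/-- no rows -/
def desZero (k B : ℕ) : Des k 0 B 0 where
  R := Fin 0
  C := Fin B
  iR := inferInstance
  fR := inferInstance
  iC := inferInstance
  S := Finset.univ
  T := ∅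
  sp := fun r => r.elim0
  M := fun r => r.elim0
  idx := fun r => r.elim0
  hdisj := by simp
  hS := by simp
  hT := by simp
  hR := by simp
  hM := fun r => r.elim0
  hsp := fun r => r.elim0
  hspM := fun r => r.elim0
  hreg := fun r => r.elim0
  hidx := fun r => r.elim0
  hmono := fun r => r.elim0
  hav := fun r => r.elim0
  hQ := fun r => r.elim0

/-- one entry in each row, `B` special columns with `m` ones each -/
def desOne (m B : ℕ) : Des 1 m B 0 where
  R := Fin B ×ₗ Fin m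
  C := Fin B
  iR := inferInstance
  fR := inferInstance
  iC := inferInstance
  S := Finset.univ
  T := ∅
  sp := fun r => (ofLex r).1
  M := fun r => {(ofLex r).1}
  idx := fun r => m - 1 - (ofLex r).2.val
  hdisj := by simp
  hS := by simp
  hT := by simp
  hR := by
    rw [Fintype.card_lex, Fintype.card_prod]
    simp [mul_comm]
  hM := fun r => by simp
  hsp := fun r => by simp
  hspM := fun r => by simp
  hreg := fun r c hc hne => by
    simp only [Finset.mem_singleton] at hc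
    exact absurd hc hne
  hidx := fun r => by
    have := (ofLex r).2.isLt
    omega
  hmono := fun a b hab h => by
    have h2 := (Prod.Lex.lt_iff).1 hab
    rcases h2 with h2 | ⟨_, h2⟩
    · exact absurd h (ne_of_lt h2)
    · have h3 : (ofLex a).2.val < (ofLex b).2.val := h2
      have := (ofLex b).2.isLt
      omega
  hav := fun a b hab c₁ h₁ c₂ h₂ c₃ h₃ c₄ h₄ l₁ l₂ l₃ => by
    simp only [Finset.mem_singleton] at h₁ h₃
    subst h₁; subst h₃
    exact absurd (l₁.trans l₂) (lt_irrefl _)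
  hQ := fun a b hab h c₃ h₃ c₄ h₄ l₁ l₂ => by
    simp only [Finset.mem_singleton] at h₃
    subst h₃
    exact absurd l₁ (lt_irrefl _)

section step

variable {k f g m t₁ t₂ : ℕ}

/-- slot of a star row -/
noncomputable def slot (X : Des k f g t₁) (Y : Des (k + 1) m f t₂) (r : X.R) : Y.C :=
  (Y.S.orderIsoOfFin Y.hS ⟨X.idx r, X.hidx r⟩ : Y.C)

lemma slot_mem (X : Des k f g t₁) (Y : Des (k + 1) m f t₂) (r : X.R) : slot X Y r ∈ Y.S :=
  (Y.S.orderIsoOfFin Y.hS ⟨X.idx r, X.hidx r⟩).2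

lemma slot_lt (X : Des k f g t₁) (Y : Des (k + 1) m f t₂) (a b : X.R) (hab : a < b)
    (h : X.sp a = X.sp b) : slot X Y b < slot X Y a := by
  have h1 := X.hmono a b hab h
  have h2 : (⟨X.idx b, X.hidx b⟩ : Fin f) < ⟨X.idx a, X.hidx a⟩ := h1
  exact (Y.S.orderIsoOfFin Y.hS).strictMono h2

lemma le_of_mem {k m s t : ℕ} (X : Des k m s t) (r : X.R) (c : X.C) (hc : c ∈ X.M r) :
    X.sp r ≤ c := by
  by_cases h : c = X.sp r
  · exact le_of_eq h.symm
  · exact (X.hreg r c hc h).1.le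

/-- rows of the new matrix -/
abbrev NR (X : Des k f g t₁) (Y : Des (k + 1) m f t₂) : Type := X.R ⊕ₗ (↥X.S ×ₗ Y.R)

/-- columns of the new matrix -/
abbrev NC (X : Des k f g t₁) (Y : Des (k + 1) m f t₂) : Type := X.C ×ₗ WithTop Y.C

/-- the set of ones of a row of the new matrix -/
noncomputable def nM (X : Des k f g t₁) (Y : Des (k + 1) m f t₂) : X.R ⊕ (↥X.S × Y.R) →
    Finset (NC X Y)
  | Sum.inl r => insert (toLex (X.sp r, ((slot X Y r : Y.C) : WithTop Y.C)))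
      ((X.M r).image (fun c => toLex (c, (⊤ : WithTop Y.C))))
  | Sum.inr q => (Y.M q.2).image (fun j : Y.C => toLex ((q.1 : X.C), (j : WithTop Y.C)))

noncomputable def nsp (X : Des k f g t₁) (Y : Des (k + 1) m f t₂) : X.R ⊕ (↥X.S × Y.R) →
    NC X Y
  | Sum.inl r => toLex (X.sp r, ((slot X Y r : Y.C) : WithTop Y.C))
  | Sum.inr q => toLex ((q.1 : X.C), (Y.sp q.2 : WithTop Y.C))

noncomputable def nidx (X : Des k f g t₁) (Y : Des (k + 1) m f t₂) : X.R ⊕ (↥X.S × Y.R) → ℕ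
  | Sum.inl _ => m
  | Sum.inr q => Y.idx q.2

/-- order on the rows, unfolded -/
lemma row_cases (X : Des k f g t₁) (Y : Des (k + 1) m f t₂)
    (P : X.R ⊕ (↥X.S × Y.R) → X.R ⊕ (↥X.S × Y.R) → Prop)
    (h1 : ∀ a b : X.R, a < b → P (Sum.inl a) (Sum.inl b))
    (h2 : ∀ (a : X.R) (c : ↥X.S) (b : Y.R), P (Sum.inl a) (Sum.inr (c, b)))
    (h3 : ∀ (c d : ↥X.S) (a b : Y.R), c < d → P (Sum.inr (c, a)) (Sum.inr (d, b)))
    (h4 : ∀ (c : ↥X.S) (a b : Y.R), a < b → P (Sum.inr (c, a)) (Sum.inr (c, b)))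
    (a b : NR X Y) (hab : a < b) : P (Sum.map id ofLex (ofLex a)) (Sum.map id ofLex (ofLex b)) := by
  induction a using Lex.rec with
  | _ a =>
  induction b using Lex.rec with
  | _ b =>
  rcases a with a | a <;> rcases b with b | b
  · exact h1 a b (Sum.Lex.inl_lt_inl_iff.1 hab)
  · exact h2 a _ _
  · exact absurd hab Sum.Lex.not_inr_lt_inl
  · have h := Sum.Lex.inr_lt_inr_iff.1 hab
    rw [Prod.Lex.lt_iff] at h
    rcases h with h | ⟨he, h⟩
    · exact h3 _ _ _ _ h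
    · have := h4 (ofLex a).1 (ofLex a).2 (ofLex b).2 h
      simp only [Sum.map_inr, ofLex_toLex]
      have e : ofLex b = ((ofLex a).1, (ofLex b).2) := by
        rw [he]
      rw [e]
      exact this

/-- unfolded row data -/
abbrev ro (X : Des k f g t₁) (Y : Des (k + 1) m f t₂) (a : NR X Y) : X.R ⊕ (↥X.S × Y.R) :=
  Sum.map id ofLex (ofLex a)

lemma ro_card (X : Des k f g t₁) (Y : Des (k + 1) m f t₂) :
    Fintype.card (NR X Y) = (m + 1) * (g * f) := by
  have h1 := X.hR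
  have h2 := Y.hR
  have h3 := X.hS
  rw [Fintype.card_lex, Fintype.card_sum, Fintype.card_lex, Fintype.card_prod, h1, h2,
    Fintype.card_coe, h3]
  ring

lemma lex_lt {A B : Type} [LinearOrder A] [LinearOrder B] (a c : A) (b d : B) :
    (toLex (a, b) : A ×ₗ B) < toLex (c, d) ↔ a < c ∨ a = c ∧ b < d := by
  rw [Prod.Lex.toLex_lt_toLex]

lemma lex_le_fst {A B : Type} [LinearOrder A] [LinearOrder B] (a c : A) (b d : B)
    (h : (toLex (a, b) : A ×ₗ B) < toLex (c, d)) : a ≤ c := by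
  rw [lex_lt] at h
  rcases h with h | h
  · exact h.le
  · exact h.1.le

lemma lex_eq {A B : Type} (a c : A) (b d : B) :
    (toLex (a, b) : A ×ₗ B) = toLex (c, d) ↔ a = c ∧ b = d := by
  constructor
  · intro h
    have := congrArg ofLex h
    simpa using this
  · rintro ⟨rfl, rfl⟩; rfl

lemma mem_star (X : Des k f g t₁) (Y : Des (k + 1) m f t₂) (r : X.R) (c : NC X Y) :
    c ∈ nM X Y (Sum.inl r) ↔ c = toLex (X.sp r, ((slot X Y r : Y.C) : WithTop Y.C)) ∨
      ∃ x ∈ X.M r, c = toLex (x, (⊤ : WithTop Y.C)) := by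
  simp only [nM, Finset.mem_insert, Finset.mem_image]
  constructor
  · rintro (h | ⟨x, hx, h⟩)
    · exact Or.inl h
    · exact Or.inr ⟨x, hx, h.symm⟩
  · rintro (h | ⟨x, hx, h⟩)
    · exact Or.inl h
    · exact Or.inr ⟨x, hx, h.symm⟩

lemma mem_fresh (X : Des k f g t₁) (Y : Des (k + 1) m f t₂) (q : ↥X.S × Y.R) (c : NC X Y) :
    c ∈ nM X Y (Sum.inr q) ↔ ∃ j ∈ Y.M q.2, c = toLex ((q.1 : X.C), (j : WithTop Y.C)) := by
  simp only [nM, Finset.mem_image]
  constructor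
  · rintro ⟨x, hx, h⟩
    exact ⟨x, hx, h.symm⟩
  · rintro ⟨x, hx, h⟩
    exact ⟨x, hx, h.symm⟩

/-- two star rows: avoidance -/
lemma av_star (X : Des k f g t₁) (Y : Des (k + 1) m f t₂) (a b : X.R) (hab : a < b)
    (c₁ : NC X Y) (h₁ : c₁ ∈ nM X Y (Sum.inl a)) (c₂ : NC X Y) (h₂ : c₂ ∈ nM X Y (Sum.inl b))
    (c₃ : NC X Y) (h₃ : c₃ ∈ nM X Y (Sum.inl a)) (c₄ : NC X Y) (h₄ : c₄ ∈ nM X Y (Sum.inl b))
    (l₁ : c₁ < c₂) (l₂ : c₂ < c₃) (l₃ : c₃ < c₄) : False := by
  by_cases hs : X.sp a = X.sp b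
  · -- same special column
    have hsl := slot_lt X Y a b hab hs
    rw [mem_star] at h₁ h₂ h₃ h₄
    rcases h₃ with rfl | ⟨x₃, hx₃, rfl⟩
    · rcases h₁ with rfl | ⟨x₁, hx₁, rfl⟩
      · exact absurd (l₁.trans l₂) (lt_irrefl _)
      · have h5 := l₁.trans l₂
        rw [lex_lt] at h5
        rcases h5 with h5 | ⟨_, h5⟩
        · exact absurd h5 (not_lt.2 (le_of_mem X a _ hx₁))
        · exact absurd h5 (not_lt.2 le_top)
    · rcases h₄ with rfl | ⟨x₄, hx₄, rfl⟩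
      · rw [lex_lt] at l₃
        rcases l₃ with h5 | ⟨_, h5⟩
        · rw [← hs] at h5
          exact absurd h5 (not_lt.2 (le_of_mem X a _ hx₃))
        · exact absurd h5 (not_lt.2 le_top)
      · rw [lex_lt] at l₃
        rcases l₃ with h5 | ⟨_, h5⟩
        · rcases (le_of_mem X a _ hx₃).lt_or_eq with h6 | h6
          · exact X.hQ a b hab hs x₃ hx₃ x₄ hx₄ h6 h5
          · -- x₃ = sp a
            rcases h₂ with rfl | ⟨x₂, hx₂, rfl⟩
            · rcases h₁ with rfl | ⟨x₁, hx₁, rfl⟩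
              · rw [lex_lt] at l₁
                rcases l₁ with l₁ | ⟨_, l₁⟩
                · exact absurd hs (ne_of_lt l₁)
                · exact absurd (WithTop.coe_lt_coe.1 l₁) (not_lt.2 hsl.le)
              · rw [lex_lt] at l₁
                rcases l₁ with l₁ | ⟨_, l₁⟩
                · rw [← hs] at l₁
                  exact absurd l₁ (not_lt.2 (le_of_mem X a _ hx₁))
                · exact absurd l₁ (not_lt.2 le_top)
            · rw [lex_lt] at l₂
              rcases l₂ with l₂ | ⟨_, l₂⟩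
              · have := le_of_mem X b _ hx₂
                rw [← hs, h6] at this
                exact absurd l₂ (not_lt.2 this)
              · exact absurd l₂ (lt_irrefl _)
        · exact absurd h5 (lt_irrefl _)
  · -- different special columns : projection is strictly monotone
    have key : ∀ (r r' : X.R), X.sp r ≠ X.sp r' → ∀ c ∈ nM X Y (Sum.inl r),
        ∀ d ∈ nM X Y (Sum.inl r'), c < d → (ofLex c).1 < (ofLex d).1 := by
      intro r r' hne c hc d hd hlt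
      rw [mem_star] at hc hd
      rcases hc with rfl | ⟨x, hx, rfl⟩ <;> rcases hd with rfl | ⟨y, hy, rfl⟩
      · rw [lex_lt] at hlt
        rcases hlt with h | ⟨h, _⟩
        · exact h
        · exact absurd h hne
      · rw [lex_lt] at hlt
        rcases hlt with h | ⟨h, _⟩
        · exact h
        · exfalso
          have h1 : y ∈ X.S := h ▸ X.hsp r
          by_cases h2 : y = X.sp r'
          · exact hne (h.trans h2)
          · exact X.hdisj y h1 (X.hreg r' y hy h2).2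
      · rw [lex_lt] at hlt
        rcases hlt with h | ⟨_, h⟩
        · exact h
        · exact absurd h (not_lt.2 le_top)
      · rw [lex_lt] at hlt
        rcases hlt with h | ⟨_, h⟩
        · exact h
        · exact absurd h (lt_irrefl _)
    have mem : ∀ (r : X.R), ∀ c ∈ nM X Y (Sum.inl r), (ofLex c).1 ∈ X.M r := by
      intro r c hc
      rw [mem_star] at hc
      rcases hc with rfl | ⟨x, hx, rfl⟩
      · exact X.hspM r
      · exact hx
    exact X.hav a b hab _ (mem a c₁ h₁) _ (mem b c₂ h₂) _ (mem a c₃ h₃) _ (mem b c₄ h₄)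
      (key a b hs c₁ h₁ c₂ h₂ l₁) (key b a (Ne.symm hs) c₂ h₂ c₃ h₃ l₂)
      (key a b hs c₃ h₃ c₄ h₄ l₃)

/-- star row above a fresh row: avoidance -/
lemma av_sf (X : Des k f g t₁) (Y : Des (k + 1) m f t₂) (a : X.R) (q : ↥X.S × Y.R)
    (c₁ : NC X Y) (h₁ : c₁ ∈ nM X Y (Sum.inl a)) (c₂ : NC X Y) (h₂ : c₂ ∈ nM X Y (Sum.inr q))
    (c₃ : NC X Y) (h₃ : c₃ ∈ nM X Y (Sum.inl a)) (c₄ : NC X Y) (h₄ : c₄ ∈ nM X Y (Sum.inr q))
    (l₁ : c₁ < c₂) (l₂ : c₂ < c₃) (l₃ : c₃ < c₄) : False := by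
  rw [mem_fresh] at h₂ h₄
  obtain ⟨j₂, hj₂, rfl⟩ := h₂
  obtain ⟨j₄, hj₄, rfl⟩ := h₄
  rw [mem_star] at h₁ h₃
  rcases h₃ with rfl | ⟨x₃, hx₃, rfl⟩
  · rcases h₁ with rfl | ⟨x₁, hx₁, rfl⟩
    · exact absurd (l₁.trans l₂) (lt_irrefl _)
    · have h5 := l₁.trans l₂
      rw [lex_lt] at h5
      rcases h5 with h5 | ⟨_, h5⟩
      · exact absurd h5 (not_lt.2 (le_of_mem X a _ hx₁))
      · exact absurd h5 (not_lt.2 le_top)
  · rw [lex_lt] at l₃
    have h6 := lex_le_fst _ _ _ _ l₂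
    rcases l₃ with l₃ | ⟨_, l₃⟩
    · exact absurd l₃ (not_lt.2 h6)
    · exact absurd l₃ (not_lt.2 le_top)

/-- fresh rows of different copies -/
lemma av_ff (X : Des k f g t₁) (Y : Des (k + 1) m f t₂) (c d : ↥X.S) (a b : Y.R) (hcd : c < d)
    (c₂ : NC X Y) (h₂ : c₂ ∈ nM X Y (Sum.inr (d, b)))
    (c₃ : NC X Y) (h₃ : c₃ ∈ nM X Y (Sum.inr (c, a))) (l₂ : c₂ < c₃) : False := by
  rw [mem_fresh] at h₂ h₃
  obtain ⟨j₂, hj₂, rfl⟩ := h₂
  obtain ⟨j₃, hj₃, rfl⟩ := h₃
  have h6 := lex_le_fst _ _ _ _ l₂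
  exact absurd hcd (not_lt.2 h6)

lemma fresh_lt (X : Des k f g t₁) (Y : Des (k + 1) m f t₂) (c : X.C) (i j : Y.C)
    (h : (toLex (c, (i : WithTop Y.C)) : NC X Y) < toLex (c, (j : WithTop Y.C))) : i < j := by
  rw [lex_lt] at h
  rcases h with h | ⟨_, h⟩
  · exact absurd h (lt_irrefl _)
  · exact WithTop.coe_lt_coe.1 h

lemma nsp_mem (X : Des k f g t₁) (Y : Des (k + 1) m f t₂) (r : X.R ⊕ (↥X.S × Y.R)) :
    nsp X Y r ∈ nM X Y r := by
  rcases r with r | q
  · rw [mem_star]; exact Or.inl rfl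
  · rw [mem_fresh]; exact ⟨Y.sp q.2, Y.hspM q.2, rfl⟩

noncomputable def nS (X : Des k f g t₁) (Y : Des (k + 1) m f t₂) : Finset (NC X Y) :=
  (X.S ×ˢ Y.S).image (fun p => toLex (p.1, (p.2 : WithTop Y.C)))

noncomputable def nT (X : Des k f g t₁) (Y : Des (k + 1) m f t₂) : Finset (NC X Y) :=
  ((X.S ∪ X.T).image (fun c => toLex (c, (⊤ : WithTop Y.C)))) ∪
    ((X.S ×ˢ Y.T).image (fun p => toLex (p.1, (p.2 : WithTop Y.C))))

lemma mem_nS (X : Des k f g t₁) (Y : Des (k + 1) m f t₂) (c : NC X Y) :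
    c ∈ nS X Y ↔ ∃ x ∈ X.S, ∃ y ∈ Y.S, c = toLex (x, (y : WithTop Y.C)) := by
  simp only [nS, Finset.mem_image, Finset.mem_product, Prod.exists]
  constructor
  · rintro ⟨x, y, ⟨hx, hy⟩, h⟩; exact ⟨x, hx, y, hy, h.symm⟩
  · rintro ⟨x, hx, y, hy, h⟩; exact ⟨x, y, ⟨hx, hy⟩, h.symm⟩

lemma mem_nT (X : Des k f g t₁) (Y : Des (k + 1) m f t₂) (c : NC X Y) :
    c ∈ nT X Y ↔ (∃ x, (x ∈ X.S ∨ x ∈ X.T) ∧ c = toLex (x, (⊤ : WithTop Y.C))) ∨
      ∃ x ∈ X.S, ∃ y ∈ Y.T, c = toLex (x, (y : WithTop Y.C)) := by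
  simp only [nT, Finset.mem_union, Finset.mem_image, Finset.mem_product, Prod.exists]
  constructor
  · rintro (⟨x, hx, h⟩ | ⟨x, y, ⟨hx, hy⟩, h⟩)
    · exact Or.inl ⟨x, hx, h.symm⟩
    · exact Or.inr ⟨x, hx, y, hy, h.symm⟩
  · rintro (⟨x, hx, h⟩ | ⟨x, hx, y, hy, h⟩)
    · exact Or.inl ⟨x, hx, h.symm⟩
    · exact Or.inr ⟨x, y, ⟨hx, hy⟩, h.symm⟩

lemma card_nS (X : Des k f g t₁) (Y : Des (k + 1) m f t₂) : (nS X Y).card = g * f := by
  rw [nS, Finset.card_image_of_injOn, Finset.card_product, X.hS, Y.hS]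
  rintro ⟨a, b⟩ _ ⟨c, d⟩ _ h
  rw [lex_eq] at h
  obtain ⟨h1, h2⟩ := h
  simp only at h1 h2
  rw [WithTop.coe_inj] at h2
  rw [h1, h2]

lemma card_nT (X : Des k f g t₁) (Y : Des (k + 1) m f t₂) :
    (nT X Y).card ≤ g + t₁ + g * t₂ := by
  have h1 : ((X.S ∪ X.T).image (fun c => (toLex (c, (⊤ : WithTop Y.C)) : NC X Y))).card
      ≤ g + t₁ := by
    refine Finset.card_image_le.trans ((Finset.card_union_le _ _).trans ?_)
    rw [X.hS]
    exact Nat.add_le_add_left X.hT _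
  have h2 : ((X.S ×ˢ Y.T).image
      (fun p => (toLex (p.1, (p.2 : WithTop Y.C)) : NC X Y))).card ≤ g * t₂ := by
    refine Finset.card_image_le.trans ?_
    rw [Finset.card_product, X.hS]
    exact Nat.mul_le_mul_left _ Y.hT
  exact (Finset.card_union_le _ _).trans (Nat.add_le_add h1 h2)

lemma card_nM (X : Des k f g t₁) (Y : Des (k + 1) m f t₂) (r : X.R ⊕ (↥X.S × Y.R)) :
    (nM X Y r).card = k + 1 := by
  rcases r with r | q
  · rw [nM, Finset.card_insert_of_notMem, Finset.card_image_of_injective, X.hM]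
    · intro a b h
      exact ((lex_eq _ _ _ _).1 h).1
    · intro h
      rw [Finset.mem_image] at h
      obtain ⟨x, _, hx⟩ := h
      have := ((lex_eq _ _ _ _).1 hx).2
      exact absurd this (WithTop.coe_ne_top).symm
  · rw [nM, Finset.card_image_of_injective, Y.hM]
    intro a b h
    exact WithTop.coe_inj.1 ((lex_eq _ _ _ _).1 h).2

/-- the inductive step -/
noncomputable def desStep (X : Des k f g t₁) (Y : Des (k + 1) m f t₂) :
    Des (k + 1) (m + 1) (g * f) (g + t₁ + g * t₂) where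
  R := NR X Y
  C := NC X Y
  iR := inferInstance
  fR := inferInstance
  iC := inferInstance
  S := nS X Y
  T := nT X Y
  sp := fun r => nsp X Y (ro X Y r)
  M := fun r => nM X Y (ro X Y r)
  idx := fun r => nidx X Y (ro X Y r)
  hdisj := by
    intro c hc hc'
    rw [mem_nS] at hc
    rw [mem_nT] at hc'
    obtain ⟨x, hx, y, hy, rfl⟩ := hc
    rcases hc' with ⟨x', _, h⟩ | ⟨x', hx', y', hy', h⟩
    · exact absurd ((lex_eq _ _ _ _).1 h).2 WithTop.coe_ne_top
    · have := ((lex_eq _ _ _ _).1 h).2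
      rw [WithTop.coe_inj] at this
      subst this
      exact Y.hdisj y hy hy'
  hS := card_nS X Y
  hT := card_nT X Y
  hR := ro_card X Y
  hM := fun r => card_nM X Y _
  hsp := by
    intro r
    rw [mem_nS]
    rcases ro X Y r with r | q
    · exact ⟨X.sp r, X.hsp r, slot X Y r, slot_mem X Y r, rfl⟩
    · exact ⟨q.1, q.1.2, Y.sp q.2, Y.hsp q.2, rfl⟩
  hspM := fun r => nsp_mem X Y _
  hreg := by
    intro r c hc hne
    rw [mem_nT]
    revert hc hne
    rcases ro X Y r with r | q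
    · intro hc hne
      rw [mem_star] at hc
      rcases hc with rfl | ⟨x, hx, rfl⟩
      · exact absurd rfl hne
      · refine ⟨?_, Or.inl ⟨x, ?_, rfl⟩⟩
        · change (toLex (X.sp r, ((slot X Y r : Y.C) : WithTop Y.C)) : NC X Y) < _
          rw [lex_lt]
          rcases (le_of_mem X r x hx).lt_or_eq with h | h
          · exact Or.inl h
          · exact Or.inr ⟨h, WithTop.coe_lt_top _⟩
        · by_cases h : x = X.sp r
          · left; rw [h]; exact X.hsp r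
          · right; exact (X.hreg r x hx h).2
    · intro hc hne
      rw [mem_fresh] at hc
      obtain ⟨j, hj, rfl⟩ := hc
      have hj2 : j ≠ Y.sp q.2 := by
        rintro rfl
        exact hne rfl
      have h := Y.hreg q.2 j hj hj2
      refine ⟨?_, Or.inr ⟨q.1, q.1.2, j, h.2, rfl⟩⟩
      change (toLex ((q.1 : X.C), (Y.sp q.2 : WithTop Y.C)) : NC X Y) < _
      rw [lex_lt]
      exact Or.inr ⟨rfl, WithTop.coe_lt_coe.2 h.1⟩
  hidx := by
    intro r
    rcases ro X Y r with r | q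
    · exact Nat.lt_succ_self m
    · exact (Y.hidx q.2).trans (Nat.lt_succ_self m)
  hmono := by
    refine row_cases X Y (fun a b => nsp X Y a = nsp X Y b → nidx X Y b < nidx X Y a)
      ?_ ?_ ?_ ?_
    · intro a b hab h
      obtain ⟨h1, h2⟩ := (lex_eq _ _ _ _).1 h
      rw [WithTop.coe_inj] at h2
      have := slot_lt X Y a b hab h1
      rw [h2] at this
      exact absurd this (lt_irrefl _)
    · intro a c b _
      exact Y.hidx b
    · intro c d a b hcd h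
      obtain ⟨h1, h2⟩ := (lex_eq _ _ _ _).1 h
      exact absurd (Subtype.ext h1) (ne_of_lt hcd)
    · intro c a b hab h
      obtain ⟨h1, h2⟩ := (lex_eq _ _ _ _).1 h
      rw [WithTop.coe_inj] at h2
      exact Y.hmono a b hab h2
  hav := by
    refine row_cases X Y (fun a b => ∀ c₁ ∈ nM X Y a, ∀ c₂ ∈ nM X Y b, ∀ c₃ ∈ nM X Y a,
      ∀ c₄ ∈ nM X Y b, c₁ < c₂ → c₂ < c₃ → c₃ < c₄ → False) ?_ ?_ ?_ ?_
    · intro a b hab c₁ h₁ c₂ h₂ c₃ h₃ c₄ h₄ l₁ l₂ l₃
      exact av_star X Y a b hab c₁ h₁ c₂ h₂ c₃ h₃ c₄ h₄ l₁ l₂ l₃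
    · intro a c b c₁ h₁ c₂ h₂ c₃ h₃ c₄ h₄ l₁ l₂ l₃
      exact av_sf X Y a (c, b) c₁ h₁ c₂ h₂ c₃ h₃ c₄ h₄ l₁ l₂ l₃
    · intro c d a b hcd c₁ h₁ c₂ h₂ c₃ h₃ c₄ h₄ l₁ l₂ l₃
      exact av_ff X Y c d a b hcd c₂ h₂ c₃ h₃ l₂
    · intro c a b hab c₁ h₁ c₂ h₂ c₃ h₃ c₄ h₄ l₁ l₂ l₃
      rw [mem_fresh] at h₁ h₂ h₃ h₄
      obtain ⟨j₁, hj₁, rfl⟩ := h₁
      obtain ⟨j₂, hj₂, rfl⟩ := h₂
      obtain ⟨j₃, hj₃, rfl⟩ := h₃
      obtain ⟨j₄, hj₄, rfl⟩ := h₄
      exact Y.hav a b hab j₁ hj₁ j₂ hj₂ j₃ hj₃ j₄ hj₄ (fresh_lt X Y c j₁ j₂ l₁)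
        (fresh_lt X Y c j₂ j₃ l₂) (fresh_lt X Y c j₃ j₄ l₃)
  hQ := by
    refine row_cases X Y (fun a b => nsp X Y a = nsp X Y b → ∀ c₃ ∈ nM X Y a,
      ∀ c₄ ∈ nM X Y b, nsp X Y a < c₃ → c₃ < c₄ → False) ?_ ?_ ?_ ?_
    · intro a b hab h
      obtain ⟨h1, h2⟩ := (lex_eq _ _ _ _).1 h
      rw [WithTop.coe_inj] at h2
      have := slot_lt X Y a b hab h1
      rw [h2] at this
      exact absurd this (lt_irrefl _)
    · intro a c b h c₃ h₃ c₄ h₄ l₁ l₂
      obtain ⟨h1, h2⟩ := (lex_eq _ _ _ _).1 h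
      rw [mem_star] at h₃
      rw [mem_fresh] at h₄
      obtain ⟨j₄, hj₄, rfl⟩ := h₄
      rcases h₃ with rfl | ⟨x₃, hx₃, rfl⟩
      · exact absurd l₁ (lt_irrefl _)
      · rw [lex_lt] at l₂
        rcases l₂ with l₂ | ⟨_, l₂⟩
        · have h3 := le_of_mem X a _ hx₃
          have h4 : X.sp a = (c : X.C) := h1
          rw [h4] at h3
          exact absurd l₂ (not_lt.2 h3)
        · exact absurd l₂ (not_lt.2 le_top)
    · intro c d a b hcd h
      obtain ⟨h1, h2⟩ := (lex_eq _ _ _ _).1 h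
      exact absurd (Subtype.ext h1) (ne_of_lt hcd)
    · intro c a b hab h c₃ h₃ c₄ h₄ l₁ l₂
      obtain ⟨h1, h2⟩ := (lex_eq _ _ _ _).1 h
      rw [WithTop.coe_inj] at h2
      rw [mem_fresh] at h₃ h₄
      obtain ⟨j₃, hj₃, rfl⟩ := h₃
      obtain ⟨j₄, hj₄, rfl⟩ := h₄
      exact Y.hQ a b hab h2 j₃ hj₃ j₄ hj₄ (fresh_lt X Y c _ j₃ l₁) (fresh_lt X Y c j₃ j₄ l₂)

end step

/-- `q` copies side by side -/
noncomputable def desCopies {k m s t : ℕ} (q : ℕ) (X : Des k m s t) : Des k m (q * s) (q * t) where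
  R := Fin q ×ₗ X.R
  C := Fin q ×ₗ X.C
  iR := inferInstance
  fR := inferInstance
  iC := inferInstance
  S := ((Finset.univ : Finset (Fin q)) ×ˢ X.S).image toLex
  T := ((Finset.univ : Finset (Fin q)) ×ˢ X.T).image toLex
  sp := fun r => toLex ((ofLex r).1, X.sp (ofLex r).2)
  M := fun r => (X.M (ofLex r).2).image (fun c => toLex ((ofLex r).1, c))
  idx := fun r => X.idx (ofLex r).2
  hdisj := by
    intro c hc hc'
    simp only [Finset.mem_image, Finset.mem_product, Finset.mem_univ, true_and] at hc hc'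
    obtain ⟨x, hx, rfl⟩ := hc
    obtain ⟨y, hy, hxy⟩ := hc'
    have : y = x := toLex_inj.1 hxy
    subst this
    exact X.hdisj _ hx hy
  hS := by
    rw [Finset.card_image_of_injective _ toLex.injective, Finset.card_product, X.hS]
    simp
  hT := by
    refine Finset.card_image_le.trans ?_
    rw [Finset.card_product]
    simp only [Finset.card_univ, Fintype.card_fin]
    exact Nat.mul_le_mul_left _ X.hT
  hR := by
    rw [Fintype.card_lex, Fintype.card_prod, X.hR, Fintype.card_fin]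
    ring
  hM := by
    intro r
    rw [Finset.card_image_of_injective, X.hM]
    intro a b h
    exact ((lex_eq _ _ _ _).1 h).2
  hsp := by
    intro r
    simp only [Finset.mem_image, Finset.mem_product, Finset.mem_univ, true_and]
    exact ⟨_, X.hsp (ofLex r).2, rfl⟩
  hspM := by
    intro r
    simp only [Finset.mem_image]
    exact ⟨_, X.hspM (ofLex r).2, rfl⟩
  hreg := by
    intro r c hc hne
    simp only [Finset.mem_image, Finset.mem_product, Finset.mem_univ, true_and] at hc ⊢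
    obtain ⟨x, hx, rfl⟩ := hc
    have hx2 : x ≠ X.sp (ofLex r).2 := by
      rintro rfl
      exact hne rfl
    have h := X.hreg _ x hx hx2
    refine ⟨?_, _, h.2, rfl⟩
    rw [lex_lt]
    exact Or.inr ⟨rfl, h.1⟩
  hidx := fun r => X.hidx _
  hmono := by
    intro a b hab h
    obtain ⟨h1, h2⟩ := (lex_eq _ _ _ _).1 h
    rcases (Prod.Lex.lt_iff).1 hab with h3 | ⟨_, h3⟩
    · exact absurd h1 (ne_of_lt h3)
    · exact X.hmono _ _ h3 h2
  hav := by
    intro a b hab c₁ h₁ c₂ h₂ c₃ h₃ c₄ h₄ l₁ l₂ l₃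
    simp only [Finset.mem_image] at h₁ h₂ h₃ h₄
    obtain ⟨x₁, hx₁, rfl⟩ := h₁
    obtain ⟨x₂, hx₂, rfl⟩ := h₂
    obtain ⟨x₃, hx₃, rfl⟩ := h₃
    obtain ⟨x₄, hx₄, rfl⟩ := h₄
    rcases (Prod.Lex.lt_iff).1 hab with h3 | ⟨h3', h3⟩
    · exact absurd h3 (not_lt.2 (lex_le_fst _ _ _ _ l₂))
    · rw [lex_lt] at l₁ l₂ l₃
      rw [h3'] at l₁ l₂ l₃
      have m₁ : x₁ < x₂ := by
        rcases l₁ with l | l
        · exact absurd l (lt_irrefl _)
        · exact l.2
      have m₂ : x₂ < x₃ := by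
        rcases l₂ with l | l
        · exact absurd l (lt_irrefl _)
        · exact l.2
      have m₃ : x₃ < x₄ := by
        rcases l₃ with l | l
        · exact absurd l (lt_irrefl _)
        · exact l.2
      exact X.hav _ _ h3 x₁ hx₁ x₂ hx₂ x₃ hx₃ x₄ hx₄ m₁ m₂ m₃
  hQ := by
    intro a b hab h c₃ h₃ c₄ h₄ l₁ l₂
    obtain ⟨h1, h2⟩ := (lex_eq _ _ _ _).1 h
    simp only [Finset.mem_image] at h₃ h₄
    obtain ⟨x₃, hx₃, rfl⟩ := h₃
    obtain ⟨x₄, hx₄, rfl⟩ := h₄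
    rcases (Prod.Lex.lt_iff).1 hab with h3 | ⟨h3', h3⟩
    · exact absurd h1 (ne_of_lt h3)
    · rw [lex_lt] at l₁ l₂
      rw [h3'] at l₁ l₂
      have m₁ : X.sp (ofLex a).2 < x₃ := by
        rcases l₁ with l | l
        · exact absurd l (lt_irrefl _)
        · exact l.2
      have m₂ : x₃ < x₄ := by
        rcases l₂ with l | l
        · exact absurd l (lt_irrefl _)
        · exact l.2
      exact X.hQ _ _ h3 h2 x₃ hx₃ x₄ hx₄ m₁ m₂

/-- existence of designs with few regular columns -/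
theorem exists_des (k : ℕ) : ∀ N B m : ℕ, 0 < N →
    ∃ s t : ℕ, B ≤ s ∧ N * t ≤ m * s ∧ Nonempty (Des (k + 1) m s t) := by
  induction k with
  | zero =>
    intro N B m hN
    exact ⟨B, 0, le_rfl, by simp, ⟨desOne m B⟩⟩
  | succ k ihk =>
    intro N B m hN
    induction m generalizing B with
    | zero => exact ⟨B, 0, le_rfl, by simp, ⟨desZero _ B⟩⟩
    | succ m ihm =>
      obtain ⟨f, t₂, hf, ht₂, ⟨Y⟩⟩ := ihm (B + 2 * N)
      obtain ⟨g, t₁, hg, ht₁, ⟨X⟩⟩ := ihk (2 * N) 1 f (by omega)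
      refine ⟨g * f, g + t₁ + g * t₂, ?_, ?_, ⟨desStep X Y⟩⟩
      · nlinarith
      · have h1 : 2 * N ≤ f := by omega
        have h2 : g * (2 * N) ≤ g * f := Nat.mul_le_mul_left _ h1
        have h3 : g * (N * t₂) ≤ g * (m * f) := Nat.mul_le_mul_left _ ht₂
        nlinarith

end Pool.Agent.V11128.ZO
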