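import Mathlib

set_option autoImplicit false

/-!
# A certificate for the rotation systems of a cubic graph on 18 vertices

Darts are numbered `3 * v + j` (`v < 18`, `j < 3`).
-/

namespace Pool.Agent.V11128.Circ

/-- `i`-th digit in base 64 -/
def dig (T i : Nat) : Nat := Nat.mod (Nat.shiftRight T (Nat.mul 6 i)) 64

/-- head vertex of a dart; also the neighbour table -/
def hv (x : Nat) : Nat := dig 8653885416841443496134300938401757360284261592813380748174302852043731665454718260888300960112769 x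
/-- next dart in the face if the rotation at the head is increasing -/
def n1 (x : Nat) : Nat := dig 25961656250539871899752824741740311403268164542850070261178268197128020208777309360794110035046852 x
/-- next dart in the face if the rotation at the head is decreasing -/
def n0 (x : Nat) : Nat := dig 26504129148528219486193344190659600494171267832077115937691413717119263259620547495621075373998597 x
/-- reversed dart -/
def rv (x : Nat) : Nat := dig 27046602046539879189658746527440325003863839691712595026087265931534659407003666958263684822016387 x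

/-- bit `v` of `m` -/
def bit (m v : Nat) : Bool := Nat.beq (Nat.mod (Nat.shiftRight m v) 2) 1

/-- the face successor for the rotation system with bits `s` -/
def phi (s : Nat → Bool) (x : Nat) : Nat := bif s (hv x) then n1 x else n0 x

/-- the face successor for the bit mask `m` -/
def step (m x : Nat) : Nat := bif bit m (hv x) then n1 x else n0 x

/-- walk along assigned vertices (`< k`) from `x`, looking for `t` -/
def walk (k m : Nat) : Nat → Nat → Nat → Bool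
  | 0, _, _ => false
  | f + 1, x, t => bif Nat.beq x t then true else
      bif Nat.ble k (hv x) then false else walk k m f (step m x) t

/-- does the walk from `y` meet an index smaller than `x`? -/
def hs (m x : Nat) : Nat → Nat → Bool
  | 0, _ => false
  | f + 1, y => bif Nat.blt y x then true else hs m x f (step m y)

/-- number of darts which are not seen to be non-minimal in their face -/
def cnt (m : Nat) : Nat → Nat
  | 0 => 0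
  | x + 1 => bif hs m x 54 x then cnt m x else Nat.succ (cnt m x)

/-- certificate trees -/
inductive T
  | p (d : Nat)
  | n (l r : T)
  | f

/-- checking a certificate tree -/
def check : T → Nat → Nat → Bool
  | .p d, k, m => Nat.blt d 54 && (Nat.blt (hv d) k && walk k m 60 (step m d) (rv d))
  | .n l r, k, m => check l (k + 1) m && check r (k + 1) (2 ^ k + m)
  | .f, k, m => Nat.beq k 18 && Nat.ble (cnt m 54) 7

open T in
/-- the certificate -/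
def cert : T := (n (n (n (n (n (n (n (p 24) (n (n (n (n (n (n (n (n (n (p 49) (p 49)) (p 31)) (n (p 25) (n (p 14) (p 20)))) (p 28)) (n (n (n (n (p 49) (n (p 9) (n (p 8) f))) (p 31)) (n (p 25) (n (p 34) (p 20)))) (n (n (n (p 5) (p 17)) (p 31)) (n (p 25) (n (n (p 53) (p 53)) (p 49)))))) (p 7)) (n (p 36) (n (n (p 45) (n (n (p 46) (n (n (p 53) (n (p 38) f)) (n (p 52) (p 22)))) (n (p 48) (p 52)))) (n (n (n (p 46) (n (n (p 30) (n (p 17) f)) (p 20))) (n (p 48) (p 52))) (p 51))))) (n (n (p 39) (p 7)) (n (n (n (n (n (p 46) (n (p 49) (n (n (p 8) f) (p 34)))) (n (p 45) (p 52))) (n (n (p 52) (n (n (p 51) (p 44)) (p 34))) (n (n (p 6) (n (p 9) (n f (p 44)))) (p 46)))) (n (p 48) (n (n (p 46) (n (n (n f (p 50)) (p 44)) (p 34))) (n (p 51) (p 52))))) (p 33)))) (n (p 6) (n (n (n (n (p 45) (n (n (p 52) (n (n (p 51) (p 44)) (n (p 53) (n f (p 35))))) (n (n (p 20) (n (p 53) (n f (p 17))))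 (p 46)))) (n (p 48) (p 51))) (p 7)) (n (p 42) (n (n (n (n (n (p 49) (p 49)) (p 25)) (n (p 31) (n (p 17) (p 5)))) (p 22)) (n (n (n (n (p 51) (n (p 30) (p 34))) (p 25)) (n (p 31) (n (n (p 9) (n f (p 29))) (p 5)))) (n (n (n (p 20) (p 14)) (p 25)) (n (p 31) (n (p 49) (n (p 53) (p 53)))))))))))) (n (p 48) (p 30))) (p 21)) (n (n (n (n (n (p 42) (p 12)) (n (n (n (p 33) (n (n (n (n (p 52) (p 51)) (n (n (p 34) (n (p 53) (n (p 50) f))) (p 46))) (p 2)) (n (n (n (p 52) (n (n (n (p 44) f) (p 53)) (p 12))) (n (n (p 34) (n (p 44) (p 51))) (p 46))) (n (n (p 52) (p 45)) (n (n (n (p 34) (n f (p 8))) (p 49)) (p 46)))))) (n (n (n (n (n (n (p 34) (p 10)) (p 51)) (n (p 31) (n (n (p 53) (p 53)) (p 49)))) (n (n (n (n (p 34) (p 14)) (p 49)) (n (p 40) (n (p 52) (p 38)))) (n (p 31) (n (p 40) (n (n (p 23) f) (p 38)))))) (n (n (n (p 46) (n (n (p 53) (p 53)) (p 12))) (n (p 31) (p 52))) (n (n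 (n (p 49) (p 49)) (p 45)) (n (p 31) (n (p 40) (p 17)))))) (p 39))) (p 36))) (p 3)) (n (n (n (n (n (n (n (n (n (p 46) (n (n (n f (p 32)) (p 16)) (p 20))) (n (p 25) (p 52))) (p 2)) (n (p 22) (n (n (p 46) (n (p 49) (n (n (p 8) f) (p 27)))) (n (p 25) (p 52))))) (p 19)) (n (p 21) (n (n (p 51) (p 3)) (n (n (n (p 52) (p 15)) (n (n (p 51) (n (p 9) (n (p 8) f))) (p 46))) (p 45))))) (p 12)) (n (p 30) (n (n (n (n (p 51) (p 28)) (n (n (n (p 52) (p 25)) (n (n (n (p 9) (n f (p 8))) (p 52)) (p 46))) (p 45))) (p 19)) (n (p 21) (n (n (p 45) (n (n (n (p 20) (n (n (p 29) f) (p 16))) (p 2)) (n (p 31) (n (n (n f (p 8)) (p 27)) (p 49))))) (n (p 28) (p 51))))))) (n (n (n (n (n (n (p 45) (n (n (p 46) (n (p 52) (n (n (p 8) f) (p 22)))) (n (p 25) (p 52)))) (n (p 12) (p 51))) (p 19)) (n (p 21) (n (n (p 51) (p 11)) (n (n (n (n (p 49) (n (p 9) (n (p 8) f))) (p 15)) (n (p 2) (n (n (p 13) (n f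 (p 29))) (p 20)))) (p 45))))) (p 27)) (n (p 6) (n (n (n (n (n (n (p 52) (p 11)) (n (n (n (p 9) (n f (p 8))) (p 49)) (p 46))) (p 22)) (n (p 2) (n (n (p 52) (p 11)) (n (n (p 20) (n (p 53) (n (p 32) f))) (p 46))))) (p 19)) (n (p 21) (n (n (p 45) (n (n (p 46) (n (n (n f (p 8)) (p 44)) (p 51))) (n (p 31) (p 52)))) (n (n (n (p 46) (n (n (p 9) (n (p 17) f)) (p 5))) (n (p 31) (p 52))) (p 51))))))))) (n (n (n (n (p 42) (p 12)) (n (n (n (n (n (p 45) (n (n (n (n (p 53) (n (p 41) f)) (p 49)) (n (p 40) (p 51))) (n (p 10) (n (p 40) (p 51))))) (n (p 42) (p 51))) (p 4)) (n (p 48) (n (n (n (n (p 52) (p 36)) (n (n (p 34) (p 52)) (p 46))) (p 2)) (n (n (n (p 52) (p 14)) (n (n (p 34) (p 52)) (p 46))) (n (n (p 52) (p 36)) (n (n (n (n (p 35) f) (p 53)) (p 49)) (p 46))))))) (p 36))) (p 3)) (n (n (n (n (n (n (n (p 45) (n (n (p 46) (n (n (n f (p 8)) (p 16)) (p 51))) (n (n (p 5) (n (p 9) (n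 f (p 17)))) (p 52)))) (n (p 22) (p 51))) (p 24)) (n (p 7) (n (n (n (n (p 52) (p 0)) (n (n (n (p 27) (n f (p 8))) (p 52)) (p 46))) (p 3)) (n (p 10) (n (n (p 52) (p 0)) (n (n (p 5) (n (p 9) (n (p 32) f))) (p 46))))))) (p 12)) (n (p 30) (n (n (n (n (p 51) (p 0)) (n (n (n (n (p 51) (n (p 27) (n (p 8) f))) (p 31)) (n (p 10) (n (n (p 9) (n f (p 29))) (p 5)))) (p 45))) (p 24)) (n (p 7) (n (n (p 45) (n (n (p 46) (n (p 52) (n (n (p 8) f) (p 16)))) (n (p 19) (p 52)))) (n (p 28) (p 51))))))) (n (n (p 36) (n (n (p 33) (n (n (n (n (n (n (p 52) (p 51)) (p 40)) (p 33)) (n (n (n (n (p 35) f) (p 53)) (p 40)) (n (p 49) (n (n (p 32) f) (p 34))))) (p 42)) (n (n (n (n (p 51) (p 40)) (p 33)) (n (n (p 51) (p 40)) (n (p 49) (n (n f (p 37)) (p 34))))) (n (n (n (p 49) (n (p 9) (n (p 23) f))) (p 33)) (n (n (p 6) (p 52)) (n (p 48) (p 34))))))) (n (p 7) (p 39)))) (n (p 6) (p 42))))))) (n (n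 (n (n (p 30) (n (n (n (n (n (n (n (n (n (p 49) (n (p 53) (p 53))) (n (n (n f (p 32)) (p 9)) (p 20))) (n (p 25) (n (p 14) (p 20)))) (p 28)) (n (p 22) (n (n (n (p 5) (p 17)) (n (p 52) (n (p 40) (p 27)))) (n (p 25) (n (p 49) (p 49)))))) (p 7)) (n (p 36) (n (n (p 45) (n (n (p 52) (p 48)) (n (n (p 5) (n (n f (p 14)) (p 53))) (p 46)))) (n (n (n (p 52) (p 48)) (n (n (n (p 38) (p 52)) (n (n f (p 38)) (p 53))) (p 46))) (p 51))))) (n (n (p 39) (p 7)) (n (n (n (p 51) (n (n (p 52) (p 48)) (n (n (p 6) (n (n f (p 38)) (p 9))) (p 46)))) (n (n (n (n (n (p 38) (n f (p 50))) (p 40)) (p 48)) (n (n (n (p 38) (p 52)) (p 40)) (n (p 49) (n (p 40) (n (p 8) f))))) (p 45))) (p 33)))) (n (p 6) (n (n (n (n (p 51) (p 48)) (n (n (n (p 52) (n (n (n (p 14) f) (p 27)) (p 5))) (n (n (n (n (p 35) f) (p 53)) (n (p 25) (p 51))) (p 46))) (p 45))) (p 7)) (n (p 42) (n (n (n (n (n (n (p 53) (p 53)) (p 49))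 (n (p 40) (p 5))) (n (p 31) (n (p 17) (p 5)))) (p 22)) (n (p 28) (n (n (n (p 20) (p 14)) (n (p 49) (n (n (p 8) f) (p 9)))) (n (p 31) (n (p 49) (p 49))))))))))) (n (n (n (n (n (n (n (n (n (n (p 48) (n (p 53) (p 53))) (p 0)) (n (p 25) (n (p 14) (p 20)))) (p 10)) (n (p 22) (n (n (n (p 5) (p 17)) (p 0)) (n (p 25) (n (p 49) (p 49)))))) (n (n (p 45) (n (n (n (p 5) (p 51)) (n (p 52) (n (p 40) (p 27)))) (n (p 25) (n (n (p 53) (n (p 41) f)) (p 49))))) (n (p 39) (p 51)))) (n (p 4) (n (n (p 51) (n (n (p 52) (p 48)) (n (n (p 5) (n (n f (p 14)) (p 53))) (p 46)))) (n (n (n (p 52) (p 48)) (n (n (n (p 3) (p 52)) (n (n f (p 38)) (p 53))) (p 46))) (p 45))))) (p 12)) (n (n (n (n (n (n (n (p 52) (p 36)) (n (n (p 34) (p 52)) (p 46))) (p 10)) (n (p 22) (n (n (p 52) (p 36)) (n (n (n (n (p 35) f) (p 53)) (p 49)) (p 46))))) (p 48)) (n (p 4) (n (n (p 45) (n (n (n (n (p 53) (n (p 41) f)) (p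 49)) (n (p 40) (p 51))) (n (p 31) (n (p 40) (p 51))))) (n (p 42) (p 51))))) (n (n (n (n (p 51) (p 48)) (n (n (n (p 52) (n (n (n (p 14) f) (p 27)) (p 5))) (n (n (n (n (p 35) f) (p 53)) (n (p 25) (p 51))) (p 46))) (p 45))) (n (n (n (n (p 52) (p 33)) (n (n (n (n (p 35) f) (p 53)) (p 49)) (p 46))) (p 0)) (n (p 28) (n (n (p 52) (p 33)) (n (n (p 20) (p 52)) (p 46)))))) (n (p 4) (n (n (n (n (n (n (p 53) (p 53)) (p 48)) (p 10)) (n (p 31) (n (p 17) (p 5)))) (p 0)) (n (p 28) (n (n (n (p 20) (p 14)) (p 10)) (n (p 31) (n (p 49) (p 49)))))))))) (p 24))) (n (n (p 30) (p 27)) (n (n (n (n (n (p 39) (p 24)) (n (n (n (n (n (n (p 49) (n (n (p 32) f) (p 53))) (p 0)) (n (p 33) (n (n (p 3) (p 25)) (p 20)))) (p 39)) (n (p 22) (n (n (n (p 5) (p 40)) (p 0)) (n (p 33) (n (p 49) (n (p 40) (n (p 29) f))))))) (p 33))) (p 12)) (n (n (n (p 39) (p 24)) (n (n (n (n (n (n (p 34) (n (p 25) (p 52)))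 (p 36)) (n (n (p 34) (p 52)) (n (n (p 3) (n f (p 26))) (p 49)))) (p 39)) (n (p 22) (n (n (n (n (n f (p 29)) (p 4)) (p 49)) (p 36)) (n (n (n (n (p 35) f) (p 40)) (p 49)) (n (p 40) (p 5)))))) (p 33))) (n (n (p 39) (p 24)) (n (n (n (p 51) (n (n (p 46) (n (n (p 34) (n (p 37) f)) (n (p 52) (p 38)))) (n (p 5) (p 52)))) (n (n (n (p 46) (n (n (p 53) (p 53)) (p 5))) (n (n (n (n (p 35) f) (p 40)) (n (p 25) (p 51))) (p 52))) (p 45))) (p 33))))) (p 24)))) (n (p 18) (n (n (n (n (n (n (p 39) (p 4)) (n (n (n (p 51) (p 39)) (n (n (n (n (p 49) (n (n f (p 41)) (p 53))) (p 0)) (n (n (n (p 3) (p 40)) (p 52)) (n (p 51) (p 20)))) (p 45))) (p 33))) (p 12)) (n (p 48) (n (n (p 39) (p 4)) (n (n (n (n (n (p 46) (n (p 52) (p 5))) (n (p 33) (p 52))) (n (n (p 46) (n (n (p 34) (p 15)) (p 51))) (n (p 5) (p 52)))) (n (p 11) (n (n (p 46) (n (p 49) (n (p 53) (n f (p 35))))) (n (p 33) (p 52))))) (p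 33))))) (n (n (n (n (n (n (p 51) (p 28)) (n (n (n (p 52) (n (n (n (p 14) f) (p 9)) (p 20))) (n (n (n (p 38) (n f (p 8))) (p 52)) (p 46))) (p 45))) (p 4)) (n (p 24) (n (n (p 45) (n (n (n (p 5) (n (n (p 29) f) (p 53))) (p 0)) (n (p 25) (n (n (n f (p 8)) (p 9)) (p 49))))) (n (p 10) (p 51))))) (p 30)) (n (p 6) (n (n (n (n (n (n (p 46) (n (n (n f (p 32)) (p 15)) (p 5))) (n (p 10) (p 52))) (p 0)) (n (p 13) (n (n (p 46) (n (p 49) (n (n (p 8) f) (p 9)))) (n (p 10) (p 52))))) (p 4)) (n (p 24) (n (n (p 51) (p 22)) (n (n (n (p 52) (p 16)) (n (n (p 51) (n (p 25) (n (p 8) f))) (p 46))) (p 45)))))))) (n (p 13) (n (n (p 36) (n (n (p 33) (n (n (n (n (n (p 48) (p 40)) (n (p 49) (n (p 40) (n f (p 35))))) (n (p 36) (n (p 49) (n (p 40) (n (p 29) f))))) (n (n (n (p 6) (p 51)) (n (p 52) (p 34))) (n (p 36) (n (n (p 53) (n (p 41) f)) (p 34))))) (n (p 39) (n (n (n (p 49) (n (n (p 26) f)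 (p 9))) (n (p 52) (p 34))) (n (p 36) (n (n (p 52) (p 51)) (p 34))))))) (n (p 7) (p 39)))) (n (p 6) (p 42)))))))) (n (n (n (p 27) (n (n (n (n (p 36) (n (n (n (n (n (n (n (n (p 53) (n f (p 26))) (p 40)) (p 31)) (n (p 36) (n (p 49) (n (p 15) (p 28))))) (p 42)) (n (p 11) (n (n (n (p 27) (p 17)) (p 31)) (n (p 36) (n (n (n f (p 23)) (p 53)) (p 34)))))) (n (n (n (n (n (p 17) (p 40)) (p 31)) (n (p 36) (n (p 49) (n (p 15) (n (p 29) f))))) (n (n (n (p 27) (p 51)) (p 31)) (n (p 36) (n (n (p 53) (n (p 41) f)) (p 34))))) (n (p 39) (n (n (n (p 49) (n (n (p 26) f) (p 16))) (p 31)) (n (p 36) (n (n (p 28) (p 51)) (p 34))))))) (n (p 19) (n (n (p 51) (n (n (p 46) (n (n (p 53) (n (p 38) f)) (p 34))) (n (p 17) (p 52)))) (n (n (n (p 46) (n (p 49) (n (p 52) (p 51)))) (n (n (n (n (p 35) f) (p 53)) (p 40)) (p 52))) (p 45)))))) (n (p 27) (p 42))) (n (n (n (n (n (n (n (n (n (p 49) (p 49))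 (p 31)) (n (p 2) (n (p 14) (p 20)))) (p 28)) (n (p 11) (n (n (n (p 5) (p 17)) (p 31)) (n (p 2) (n (n (p 53) (p 53)) (p 48)))))) (n (n (p 45) (n (n (n (p 5) (p 51)) (p 31)) (n (p 2) (n (n (p 53) (n (p 41) f)) (p 49))))) (n (p 39) (p 51)))) (n (p 19) (n (n (p 45) (n (n (p 46) (n (n (p 53) (n (p 38) f)) (n (p 52) (p 22)))) (n (p 48) (p 52)))) (n (n (n (p 46) (n (n (p 30) (n (p 17) f)) (p 20))) (n (p 48) (p 52))) (p 51))))) (p 16)) (n (n (n (n (n (n (n (p 52) (p 36)) (n (n (p 34) (p 52)) (p 46))) (p 28)) (n (n (n (p 52) (p 17)) (n (n (p 34) (p 52)) (p 46))) (n (n (p 52) (p 36)) (n (n (n (n (p 35) f) (p 53)) (p 49)) (p 46))))) (p 48)) (n (p 19) (n (n (p 45) (n (n (n (n (p 53) (n (p 41) f)) (p 49)) (p 25)) (n (p 11) (n (p 40) (p 51))))) (n (p 42) (p 51))))) (n (n (n (n (p 45) (n (n (p 46) (n (n (p 51) (p 18)) (n (p 53) (n f (p 35))))) (n (n (p 20) (n (p 53) (n f (p 17))))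 (p 52)))) (n (p 48) (p 51))) (n (n (n (n (p 52) (p 33)) (n (n (n (n (p 35) f) (p 53)) (p 49)) (p 46))) (p 22)) (n (n (n (p 52) (p 20)) (n (n (p 51) (n (p 30) (p 34))) (p 46))) (n (n (p 52) (p 33)) (n (n (p 20) (p 52)) (p 46)))))) (n (p 19) (n (n (n (n (n (p 49) (p 49)) (p 25)) (n (p 11) (n (p 17) (p 5)))) (p 22)) (n (p 2) (n (n (n (p 20) (p 14)) (p 25)) (n (p 11) (n (p 48) (n (p 53) (p 53)))))))))))) (n (p 48) (n (n (n (n (p 39) (p 21)) (n (n (n (p 51) (n (n (p 46) (n (n (p 34) (n (p 37) f)) (n (p 52) (p 22)))) (n (p 20) (p 52)))) (n (n (n (p 46) (n (n (p 53) (p 53)) (p 20))) (n (n (n (n (p 35) f) (p 40)) (n (p 44) (p 51))) (p 52))) (p 45))) (p 33))) (p 16)) (n (n (n (p 39) (p 21)) (n (n (n (n (n (n (p 34) (p 20)) (p 25)) (n (p 33) (n (n (n f (p 23)) (p 18)) (p 49)))) (n (n (n (n (p 34) (n (p 37) f)) (p 49)) (p 25)) (n (p 33) (n (p 40) (p 51))))) (n (p 42) (n (n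 (n (n (p 19) (n f (p 32))) (p 49)) (p 25)) (n (p 33) (n (p 40) (n (p 51) (p 22))))))) (p 33))) (n (n (p 39) (p 21)) (n (n (n (n (n (n (p 49) (n (n (p 32) f) (p 34))) (p 25)) (n (p 33) (n (n (p 22) (p 18)) (p 5)))) (p 39)) (n (p 2) (n (n (n (p 20) (p 34)) (p 25)) (n (p 33) (n (p 49) (n (p 53) (n (p 29) f))))))) (p 33)))))))) (n (n (n (n (n (p 36) (n (n (p 33) (n (n (n (n (n (p 48) (p 40)) (n (p 49) (n (p 40) (n f (p 35))))) (n (p 36) (n (p 49) (n (p 4) (n (p 29) f))))) (n (n (n (p 7) (p 51)) (n (p 52) (p 34))) (n (p 36) (n (n (p 53) (n (p 41) f)) (p 34))))) (n (p 39) (n (n (n (p 49) (n (n (p 26) f) (p 16))) (n (p 52) (p 34))) (n (p 36) (n (n (p 52) (p 51)) (p 34))))))) (n (p 6) (p 39)))) (n (p 7) (p 42))) (p 3)) (n (n (n (p 36) (n (n (p 39) (p 19)) (n (n (n (p 51) (n (n (p 52) (p 10)) (n (n (n (p 38) (p 52)) (n (n f (p 38)) (p 16))) (p 46)))) (n (n (n (n (n (p 38)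 (n f (p 50))) (p 40)) (p 10)) (n (n (n (p 38) (p 52)) (p 40)) (n (p 49) (n (p 40) (n (p 8) f))))) (p 45))) (p 33)))) (n (n (n (p 39) (p 19)) (n (n (n (n (n (n (p 34) (p 40)) (n (p 52) (n (n (p 8) f) (p 39)))) (n (p 45) (n (p 49) (p 49)))) (n (n (p 52) (n (p 40) (p 34))) (n (n (n (p 51) (p 52)) (p 49)) (p 46)))) (n (p 22) (n (n (n (n (p 53) (p 53)) (p 49)) (n (p 40) (p 34))) (n (p 51) (n (p 40) (p 34)))))) (p 33))) (p 42))) (n (n (n (n (p 39) (p 19)) (n (n (n (p 51) (p 39)) (n (n (n (n (p 49) (n (n f (p 41)) (p 53))) (p 10)) (n (n (n (p 13) (p 40)) (p 52)) (n (p 51) (p 20)))) (p 45))) (p 33))) (p 16)) (n (p 48) (n (n (p 39) (p 19)) (n (n (n (n (n (p 46) (n (p 52) (p 5))) (n (p 33) (p 52))) (n (n (p 46) (n (n (p 34) (p 18)) (p 51))) (n (p 5) (p 52)))) (n (p 2) (n (n (p 46) (n (p 49) (n (p 53) (n f (p 35))))) (n (p 33) (p 52))))) (p 33))))))) (p 15))) (n (n (n (n (p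 30) (p 21)) (n (n (n (p 36) (n (n (n (n (p 51) (n (n (p 46) (n (n (p 53) (n (p 38) f)) (p 34))) (n (p 14) (p 52)))) (n (n (n (p 46) (n (p 49) (n (p 52) (p 51)))) (n (n (n (n (p 35) f) (p 53)) (p 40)) (p 52))) (p 45))) (n (n (n (n (n (n (p 52) (p 31)) (p 40)) (p 33)) (n (n (n (n (p 35) f) (p 53)) (p 40)) (n (p 49) (n (n (p 32) f) (p 13))))) (p 42)) (n (p 28) (n (n (n (p 49) (n (p 12) (n (p 23) f))) (p 33)) (n (n (p 30) (p 52)) (n (p 14) (p 34))))))) (n (p 4) (n (n (n (n (n (n (p 53) (n f (p 26))) (p 40)) (p 10)) (n (p 36) (n (p 49) (n (p 31) (p 13))))) (p 42)) (n (p 28) (n (n (n (p 30) (p 14)) (p 10)) (n (p 36) (n (n (n f (p 23)) (p 53)) (p 34))))))))) (n (p 30) (p 42))) (p 24))) (p 48)) (n (n (n (n (n (p 36) (n (n (p 33) (n (n (n (n (n (n (p 52) (p 51)) (p 40)) (p 33)) (n (n (n (n (p 35) f) (p 53)) (p 40)) (n (p 49) (n (n (p 32) f) (p 19))))) (p 42)) (n (n (n (n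 (p 51) (p 40)) (p 33)) (n (n (p 51) (p 40)) (n (p 49) (n (n f (p 37)) (p 34))))) (n (n (n (p 49) (n (p 12) (n (p 23) f))) (p 33)) (n (n (p 7) (p 52)) (n (p 48) (p 34))))))) (n (p 6) (p 39)))) (n (p 7) (p 42))) (n (n (p 42) (p 16)) (n (n (n (p 33) (n (n (p 45) (n (n (n (n (n f (p 8)) (p 40)) (p 49)) (n (p 40) (n (p 52) (p 38)))) (n (p 0) (n (p 40) (n (n (p 50) f) (p 53)))))) (n (n (n (p 46) (n (n (p 53) (n (p 38) f)) (p 16))) (n (p 0) (p 52))) (p 51)))) (n (n (n (n (n (n (p 34) (p 14)) (p 51)) (n (n (p 34) (n (p 44) (n (p 26) f))) (n (n (p 53) (p 53)) (p 49)))) (p 28)) (n (n (n (p 46) (n (n (p 53) (p 53)) (p 16))) (n (n (p 34) (n (p 44) (p 51))) (p 52))) (n (n (n (p 49) (p 49)) (p 45)) (n (n (n (p 17) (p 40)) (p 49)) (n (p 40) (p 11)))))) (p 39))) (p 36)))) (n (p 13) (n (n (p 42) (p 16)) (n (n (n (n (n (p 45) (n (n (n (n (p 53) (n (p 41) f)) (p 49)) (n (p 40) (p 51)))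 (n (p 0) (n (p 40) (p 51))))) (n (p 42) (p 51))) (p 19)) (n (p 48) (n (n (n (n (p 52) (p 36)) (n (n (p 34) (p 52)) (p 46))) (p 11)) (n (n (n (p 52) (p 14)) (n (n (p 34) (p 52)) (p 46))) (n (n (p 52) (p 36)) (n (n (n (n (p 35) f) (p 53)) (p 49)) (p 46))))))) (p 36))))) (n (n (n (n (p 36) (n (n (p 39) (p 4)) (n (n (n (n (n (p 46) (n (p 49) (n (n (p 8) f) (p 34)))) (n (p 45) (p 52))) (n (n (p 46) (n (n (p 51) (p 44)) (p 34))) (n (n (n (p 51) (p 44)) (n (p 12) (n f (p 44)))) (p 52)))) (n (p 11) (n (n (p 46) (n (n (n f (p 50)) (p 44)) (p 34))) (n (p 51) (p 52))))) (p 33)))) (n (n (n (p 39) (p 4)) (n (n (n (n (n (n (p 34) (p 40)) (p 25)) (n (p 45) (n (p 49) (p 49)))) (n (n (p 52) (p 25)) (n (n (n (p 51) (p 52)) (p 49)) (p 46)))) (n (n (n (n (p 34) (p 40)) (p 25)) (n (n (p 34) (p 40)) (n (p 51) (n (p 33) (n (p 8) f))))) (n (n (n (n (p 53) (p 53)) (p 49)) (p 25)) (n (p 51)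 (n (p 40) (p 34)))))) (p 33))) (p 42))) (n (n (n (n (n (n (n (n (p 52) (p 31)) (n (n (n (p 30) (n f (p 8))) (p 49)) (p 46))) (p 28)) (n (p 0) (n (n (p 52) (p 31)) (n (n (p 5) (n (p 12) (n (p 32) f))) (p 46))))) (p 4)) (n (p 24) (n (n (p 45) (n (n (p 46) (n (n (n f (p 8)) (p 9)) (p 51))) (n (p 31) (p 52)))) (n (p 22) (p 51))))) (p 16)) (n (p 27) (n (n (n (n (p 45) (n (n (p 46) (n (p 52) (n (n (p 8) f) (p 9)))) (n (p 18) (p 52)))) (n (p 13) (p 51))) (p 4)) (n (p 24) (n (n (p 51) (p 22)) (n (n (n (n (p 49) (n (p 30) (n (p 8) f))) (p 25)) (n (p 0) (n (n (p 12) (n f (p 29))) (p 5)))) (p 45)))))))) (n (p 13) (n (n (n (n (n (n (p 51) (p 4)) (n (n (n (p 52) (p 31)) (n (n (p 51) (n (p 12) (n (p 8) f))) (p 46))) (p 45))) (p 21)) (n (p 7) (n (n (n (n (p 46) (n (n (n f (p 32)) (p 9)) (p 20))) (n (p 2) (p 52))) (p 11)) (n (p 28) (n (n (p 46) (n (p 52) (n (n (p 8) f) (p 30))))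 (n (p 2) (p 52))))))) (p 16)) (n (p 27) (n (n (n (n (p 45) (n (n (n (p 20) (n (n (p 29) f) (p 9))) (p 11)) (n (p 18) (n (n (n f (p 8)) (p 30)) (p 51))))) (n (p 2) (p 51))) (p 21)) (n (p 7) (n (n (p 51) (n (n (p 52) (p 25)) (n (n (p 20) (n (n f (p 14)) (p 9))) (p 46)))) (n (n (n (p 52) (p 25)) (n (n (n (p 12) (n f (p 8))) (p 52)) (p 46))) (p 45))))))))))))) (n (n (n (n (n (n (n (n (n (n (n (n (p 45) (n (n (p 46) (n (p 52) (n (n (p 8) f) (p 12)))) (n (p 25) (p 52)))) (n (n (n (p 46) (n (n (p 9) (n (p 14) f)) (p 20))) (n (p 25) (p 52))) (p 51))) (p 7)) (n (p 21) (n (n (p 51) (p 2)) (n (n (n (n (p 51) (n (p 30) (n (p 8) f))) (p 18)) (n (p 11) (n (n (p 9) (n f (p 29))) (p 20)))) (p 45))))) (p 27)) (n (p 16) (n (n (n (n (n (n (p 52) (p 2)) (n (n (n (p 30) (n f (p 8))) (p 52)) (p 46))) (p 28)) (n (p 11) (n (n (p 52) (p 2)) (n (n (p 20) (n (p 9) (n (p 32) f))) (p 46)))))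 (p 7)) (n (p 21) (n (n (p 45) (n (n (p 46) (n (n (n f (p 8)) (p 12)) (p 51))) (n (p 31) (p 52)))) (n (p 4) (p 51))))))) (p 13)) (n (n (n (n (n (n (n (p 45) (n (n (n (p 5) (n (n (p 29) f) (p 12))) (p 0)) (n (p 25) (n (n (n f (p 8)) (p 30)) (p 49))))) (n (p 22) (p 51))) (p 24)) (n (p 4) (n (n (p 51) (p 13)) (n (n (n (p 52) (p 18)) (n (n (n (p 9) (n f (p 8))) (p 52)) (p 46))) (p 45))))) (p 27)) (n (p 16) (n (n (n (n (p 51) (p 22)) (n (n (n (p 52) (p 31)) (n (n (p 51) (n (p 9) (n (p 8) f))) (p 46))) (p 45))) (p 24)) (n (p 4) (n (n (n (n (p 46) (n (n (n f (p 32)) (p 12)) (p 5))) (n (p 31) (p 52))) (p 0)) (n (p 28) (n (n (p 46) (n (p 49) (n (n (p 8) f) (p 30)))) (n (p 31) (p 52))))))))) (n (n (p 42) (n (n (p 33) (n (n (n (n (n (p 34) (p 40)) (p 51)) (n (p 25) (n (p 49) (n (p 53) (p 53))))) (n (n (n (n (n f (p 8)) (p 33)) (p 51)) (n (p 40) (p 34))) (n (p 25) (n (p 40) (p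 34))))) (n (n (n (p 46) (n (p 49) (n (p 52) (p 51)))) (n (p 25) (p 52))) (n (n (n (p 49) (p 49)) (p 45)) (n (p 25) (n (p 40) (p 34))))))) (n (p 4) (p 39)))) (n (n (n (p 33) (n (n (n (n (p 52) (p 51)) (n (n (p 34) (n (p 44) (n (p 50) f))) (p 46))) (p 11)) (n (n (n (p 52) (n (n (n (p 44) f) (p 12)) (n (p 44) (p 51)))) (n (n (p 34) (n (p 44) (p 51))) (p 46))) (n (n (p 52) (p 45)) (n (n (n (p 34) (n f (p 8))) (p 49)) (p 46)))))) (n (p 4) (p 39))) (p 36))))) (n (n (n (n (p 36) (n (n (n (n (n (n (p 46) (n (p 49) (n (p 53) (n f (p 35))))) (n (p 36) (p 52))) (n (n (p 46) (n (p 52) (p 34))) (n (p 14) (p 52)))) (n (p 11) (n (n (p 46) (n (p 52) (p 34))) (n (p 36) (p 52))))) (p 48)) (n (p 19) (n (n (p 51) (p 42)) (n (n (n (n (p 51) (p 40)) (p 0)) (n (n (p 51) (p 40)) (n (p 49) (n (n f (p 41)) (p 53))))) (p 45)))))) (n (p 16) (p 42))) (p 13)) (n (n (n (p 36) (n (n (p 39) (n (n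 (n (n (n (p 11) (p 40)) (n (p 49) (n (p 40) (p 17)))) (n (p 45) (n (p 49) (p 49)))) (n (n (p 52) (n (n (p 51) (p 44)) (p 34))) (n (n (p 16) (n (p 53) (p 53))) (p 46)))) (n (p 28) (n (n (n (p 49) (n (p 53) (p 53))) (n (n (n f (p 26)) (p 44)) (p 34))) (n (p 51) (n (p 14) (p 34))))))) (n (n (n (p 51) (n (n (p 52) (p 0)) (n (n (p 16) (n (n f (p 38)) (p 53))) (p 46)))) (n (n (n (n (n (p 53) (n f (p 50))) (p 40)) (p 0)) (n (n (n (p 38) (p 52)) (p 40)) (n (p 49) (n (p 40) (n (p 8) f))))) (p 45))) (p 33)))) (n (p 16) (p 42))) (n (n (p 42) (p 7)) (n (n (n (p 39) (p 6)) (n (n (n (n (n (n (p 34) (p 48)) (n (p 52) (p 7))) (n (p 33) (n (n (n f (p 23)) (p 12)) (p 49)))) (n (n (n (n (p 34) (n (p 37) f)) (p 49)) (n (p 40) (p 51))) (n (p 33) (n (p 40) (p 51))))) (n (p 42) (n (n (n (n (p 19) (n f (p 32))) (p 49)) (n (p 40) (n (p 53) (n f (p 35))))) (n (p 33) (n (p 40) (n (p 51) (p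 52))))))) (p 33))) (p 36)))))) (n (p 48) (n (n (p 24) (n (n (p 42) (p 30)) (n (n (n (n (n (n (n (n (p 34) (n (p 53) (n (p 23) f))) (p 36)) (n (p 10) (n (p 14) (p 30)))) (p 28)) (n (p 42) (n (n (n (n (p 13) (p 31)) (p 49)) (p 36)) (n (p 10) (n (p 40) (n (n (p 26) f) (p 53))))))) (p 4)) (n (n (n (n (n (n (p 34) (p 14)) (n (p 52) (p 30))) (n (p 33) (n (n (n f (p 23)) (p 12)) (p 49)))) (p 28)) (n (p 42) (n (n (n (n (p 13) (n f (p 32))) (p 49)) (n (p 40) (n (p 53) (n f (p 35))))) (n (p 33) (n (p 40) (n (p 31) (p 52))))))) (n (n (p 45) (n (n (p 52) (n (p 40) (n (p 53) (n f (p 35))))) (n (n (n (p 51) (p 52)) (p 49)) (p 46)))) (n (n (n (p 52) (p 14)) (n (n (p 34) (n (n f (p 38)) (p 53))) (p 46))) (p 51))))) (p 36)))) (n (p 21) (p 30))))) (n (n (p 15) (n (n (n (n (n (n (p 33) (n (n (n (n (p 52) (p 33)) (n (n (n (n (p 35) f) (p 53)) (p 49)) (p 46))) (p 2)) (n (n (n (p 52)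 (p 5)) (n (n (p 51) (n (p 18) (p 34))) (p 46))) (n (n (p 52) (p 33)) (n (n (p 5) (p 52)) (p 46)))))) (n (p 19) (p 39))) (p 48)) (n (p 16) (n (n (p 33) (n (n (p 45) (n (n (n (p 20) (p 51)) (n (p 52) (n (p 40) (p 13)))) (n (p 10) (n (n (p 53) (n (p 41) f)) (p 49))))) (n (p 39) (p 51)))) (n (p 19) (p 39))))) (n (n (p 42) (n (n (p 33) (n (n (n (n (n (p 34) (p 40)) (p 51)) (n (n (p 34) (p 40)) (n (p 49) (n (p 53) (p 53))))) (p 22)) (n (n (n (p 46) (n (p 49) (n (p 52) (p 51)))) (n (n (p 34) (p 40)) (p 52))) (n (n (n (p 49) (p 49)) (p 45)) (n (n (n (p 39) (n f (p 8))) (p 52)) (n (p 40) (p 34))))))) (n (p 19) (p 39)))) (n (n (n (p 33) (n (n (p 45) (n (n (n (n (n f (p 8)) (p 40)) (p 49)) (n (p 40) (n (p 52) (p 38)))) (n (p 10) (n (p 40) (n (n (p 50) f) (p 38)))))) (n (n (n (p 46) (n (n (p 16) (n (p 38) f)) (n (p 52) (p 38)))) (n (p 10) (p 52))) (p 51)))) (n (p 19) (p 39)))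 (p 36)))) (n (p 3) (n (n (p 42) (p 7)) (n (n (n (p 39) (p 6)) (n (n (n (n (n (n (p 34) (n (p 51) (p 52))) (p 36)) (n (n (p 34) (p 52)) (n (n (p 16) (n f (p 26))) (p 49)))) (p 39)) (n (n (n (n (p 34) (n (n f (p 41)) (p 53))) (p 36)) (n (n (p 34) (p 52)) (n (p 51) (p 7)))) (n (n (n (n (n f (p 29)) (p 4)) (p 49)) (p 36)) (n (n (n (n (p 35) f) (p 40)) (p 49)) (n (p 40) (p 48)))))) (p 33))) (p 36)))))) (n (n (n (n (n (n (n (p 33) (n (n (n (n (n (n (n f (p 29)) (p 53)) (p 49)) (p 33)) (n (p 25) (n (p 34) (p 20)))) (p 2)) (n (p 39) (n (n (n (p 5) (n (p 18) (p 22))) (p 33)) (n (p 25) (n (n (p 34) (n f (p 32))) (p 49))))))) (n (p 21) (p 39))) (n (n (p 33) (n (n (n (n (n (n (p 22) (p 51)) (p 40)) (p 33)) (n (p 25) (n (p 49) (n (n (p 32) f) (p 19))))) (p 42)) (n (n (n (n (p 51) (p 40)) (p 33)) (n (p 25) (n (p 49) (n (n f (p 37)) (p 34))))) (n (n (n (p 49) (n (p 18) (n (p 23)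 f))) (p 33)) (n (p 25) (n (p 20) (p 34))))))) (n (p 21) (p 39)))) (n (p 16) (n (n (p 33) (n (n (p 45) (n (n (p 52) (n (n (p 51) (p 44)) (n (p 40) (n f (p 35))))) (n (n (p 20) (n (p 53) (p 53))) (p 46)))) (n (n (n (p 52) (p 20)) (n (n (n (p 22) (p 52)) (n (n f (p 37)) (p 34))) (p 46))) (p 51)))) (n (p 21) (p 39))))) (p 48)) (n (n (n (n (n (n (n (n (n (n (n (p 53) (p 53)) (p 48)) (p 11)) (n (p 25) (n (p 14) (p 20)))) (p 2)) (n (p 22) (n (n (n (p 5) (p 17)) (p 11)) (n (p 25) (n (p 49) (p 49)))))) (p 19)) (n (n (n (n (n (p 46) (n (p 52) (p 20))) (n (p 33) (p 52))) (n (n (p 46) (n (n (p 34) (p 30)) (p 51))) (n (p 20) (p 52)))) (n (p 22) (n (n (p 46) (n (p 49) (n (p 53) (n f (p 35))))) (n (p 33) (p 52))))) (n (n (p 51) (p 48)) (n (n (n (p 52) (n (n (n (p 17) f) (p 53)) (p 20))) (n (n (n (n (p 35) f) (p 53)) (n (p 18) (p 51))) (p 46))) (p 45))))) (n (n (n (n (p 51) (p 42))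 (n (n (n (n (p 51) (p 40)) (p 11)) (n (p 25) (n (p 49) (n (n f (p 41)) (p 53))))) (p 45))) (p 19)) (n (p 48) (n (n (n (n (p 46) (n (p 49) (n (p 53) (n f (p 35))))) (n (p 36) (p 52))) (n (n (p 46) (n (p 52) (p 34))) (n (p 17) (p 52)))) (n (p 28) (n (n (p 46) (n (p 52) (p 34))) (n (p 36) (p 52)))))))) (n (p 16) (n (n (n (n (p 51) (n (n (p 52) (p 48)) (n (n (p 20) (n (n f (p 17)) (p 30))) (p 46)))) (n (n (n (p 52) (p 48)) (n (n (n (p 22) (p 52)) (n (n f (p 38)) (p 53))) (p 46))) (p 45))) (p 19)) (n (n (n (p 51) (p 39)) (n (n (n (n (p 49) (n (n f (p 41)) (p 53))) (p 2)) (n (p 31) (n (p 51) (p 5)))) (p 45))) (n (n (n (n (n (p 48) (n (p 53) (p 53))) (p 2)) (n (p 31) (n (p 17) (p 5)))) (p 11)) (n (p 28) (n (n (n (p 20) (p 14)) (p 2)) (n (p 31) (n (p 49) (p 49)))))))))) (n (n (p 42) (p 27)) (n (n (n (n (n (p 45) (n (n (p 52) (n (p 40) (n (p 53) (n f (p 35))))) (n (n (n (p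 51) (p 52)) (p 49)) (p 46)))) (n (n (n (p 52) (p 17)) (n (n (p 34) (n (n f (p 38)) (p 53))) (p 46))) (p 51))) (p 19)) (n (n (n (n (n (n (p 34) (n (p 51) (p 28))) (p 36)) (n (p 31) (n (n (p 16) (n f (p 26))) (p 49)))) (p 39)) (n (n (n (n (p 34) (n (n f (p 41)) (p 53))) (p 36)) (n (p 31) (n (p 51) (p 27)))) (n (n (n (n (n f (p 29)) (p 15)) (p 49)) (p 36)) (n (p 31) (n (p 40) (p 17)))))) (n (n (n (n (n (p 34) (n (p 53) (n (p 23) f))) (p 36)) (n (p 31) (n (p 17) (p 27)))) (p 11)) (n (p 42) (n (n (n (n (p 28) (p 15)) (p 49)) (p 36)) (n (p 31) (n (p 40) (n (n (p 26) f) (p 53))))))))) (p 36))))) (p 27)))) (n (n (n (n (n (n (n (p 42) (p 6)) (n (n (n (p 39) (p 7)) (n (n (n (n (n (n (p 34) (n (p 51) (p 52))) (p 36)) (n (n (p 34) (p 52)) (n (n (p 9) (n f (p 26))) (p 49)))) (p 39)) (n (n (n (n (p 34) (n (n f (p 41)) (p 53))) (p 36)) (n (n (p 34) (p 52)) (n (p 51) (p 6)))) (n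 (n (n (n (n f (p 29)) (p 40)) (p 49)) (p 36)) (n (n (n (n (p 35) f) (p 40)) (p 49)) (n (p 40) (p 48)))))) (p 33))) (p 36))) (p 13)) (n (n (n (n (n (n (n (p 45) (n (n (p 46) (n (n (n f (p 8)) (p 25)) (p 51))) (n (p 16) (p 52)))) (n (p 22) (p 51))) (p 24)) (n (p 4) (n (n (n (n (p 52) (p 10)) (n (n (n (p 9) (n f (p 8))) (p 49)) (p 46))) (p 13)) (n (p 0) (n (n (p 52) (p 10)) (n (n (p 5) (n (p 15) (n (p 32) f))) (p 46))))))) (p 6)) (n (p 30) (n (n (n (n (p 51) (p 10)) (n (n (n (n (p 49) (n (p 9) (n (p 8) f))) (p 25)) (n (p 0) (n (n (p 53) (n f (p 29))) (p 5)))) (p 45))) (p 24)) (n (p 4) (n (n (p 45) (n (n (p 46) (n (p 52) (n (n (p 8) f) (p 38)))) (n (n (p 20) (n (p 9) (n f (p 14)))) (p 52)))) (n (p 28) (p 51))))))) (n (n (n (n (p 33) (n (n (n (n (p 52) (p 33)) (n (n (n (n (p 35) f) (p 53)) (p 49)) (p 46))) (p 11)) (n (n (n (p 52) (p 5)) (n (n (p 51) (n (p 15) (p 34)))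 (p 46))) (n (n (p 52) (p 33)) (n (n (p 5) (p 52)) (p 46)))))) (n (p 4) (p 39))) (p 48)) (n (p 12) (n (n (p 33) (n (n (p 45) (n (n (n (p 20) (p 51)) (n (p 52) (n (p 40) (p 3)))) (n (p 0) (n (n (p 53) (n (p 41) f)) (p 49))))) (n (p 39) (p 51)))) (n (p 4) (p 39))))))) (p 18)) (n (n (n (p 24) (n (n (n (n (p 33) (n (n (p 45) (n (n (p 52) (n (n (p 51) (p 25)) (n (p 40) (n f (p 35))))) (n (n (p 5) (n (p 53) (p 53))) (p 46)))) (n (n (n (p 52) (p 5)) (n (n (n (p 38) (p 52)) (n (n f (p 37)) (p 34))) (p 46))) (p 51)))) (n (p 24) (p 39))) (n (n (p 33) (n (n (n (n (n (p 5) (p 40)) (n (p 49) (n (p 40) (n f (p 35))))) (n (p 36) (n (p 49) (n (p 4) (n (p 29) f))))) (p 22)) (n (p 39) (n (n (n (p 49) (n (n (p 26) f) (p 3))) (n (p 52) (p 34))) (n (p 36) (n (n (p 52) (p 25)) (p 34))))))) (n (p 24) (p 39)))) (n (p 12) (n (n (p 33) (n (n (n (n (n (n (n f (p 29)) (p 40)) (p 49)) (p 33))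 (n (p 0) (n (p 40) (p 5)))) (p 22)) (n (p 39) (n (n (n (p 20) (n (p 25) (p 3))) (p 33)) (n (p 0) (n (n (p 53) (n f (p 32))) (p 49))))))) (n (p 24) (p 39)))))) (n (p 27) (p 30))) (n (n (p 24) (n (n (n (n (n (n (n (n (n (p 49) (p 49)) (p 31)) (n (p 10) (n (p 14) (p 20)))) (p 28)) (n (p 0) (n (n (n (p 5) (p 17)) (p 31)) (n (p 10) (n (p 48) (n (p 53) (p 53))))))) (p 4)) (n (n (n (n (n (p 46) (n (p 52) (p 20))) (n (p 33) (p 52))) (p 28)) (n (p 0) (n (n (p 46) (n (p 49) (n (p 53) (n f (p 35))))) (n (p 33) (p 52))))) (n (n (p 45) (n (n (p 46) (n (n (p 51) (p 25)) (n (p 53) (n f (p 35))))) (n (n (p 5) (n (p 27) (n f (p 14)))) (p 52)))) (n (p 48) (p 51))))) (n (n (n (n (p 51) (p 42)) (n (n (n (n (p 51) (p 40)) (p 31)) (n (n (p 51) (p 40)) (n (p 49) (n (n f (p 41)) (p 53))))) (p 45))) (p 4)) (n (p 48) (n (n (n (n (p 46) (n (p 49) (n (p 53) (n f (p 35))))) (n (p 36) (p 52)))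 (p 22)) (n (p 10) (n (n (p 46) (n (p 52) (p 34))) (n (p 36) (p 52)))))))) (n (p 12) (n (n (n (n (p 45) (n (n (p 46) (n (n (p 53) (n (p 38) f)) (n (p 52) (p 3)))) (n (p 48) (p 52)))) (n (n (n (p 46) (n (n (p 53) (n (p 14) f)) (p 5))) (n (p 48) (p 52))) (p 51))) (p 4)) (n (n (n (p 51) (p 39)) (n (n (n (n (p 49) (n (n f (p 41)) (p 53))) (p 25)) (n (n (n (p 27) (p 40)) (p 52)) (n (p 51) (p 5)))) (p 45))) (n (n (n (n (n (p 49) (p 49)) (p 25)) (n (p 0) (n (p 17) (p 5)))) (p 22)) (n (p 10) (n (n (n (p 20) (p 14)) (p 25)) (n (p 0) (n (n (p 53) (p 53)) (p 48))))))))))) (n (n (n (n (n (n (n (n (n (n (p 49) (p 49)) (p 31)) (n (n (n (p 9) (n f (p 8))) (p 49)) (n (p 14) (p 20)))) (p 28)) (n (p 22) (n (n (n (p 5) (p 17)) (p 31)) (n (n (p 5) (p 40)) (n (p 49) (n (p 53) (p 53))))))) (p 42)) (n (p 7) (n (n (p 45) (n (n (p 46) (n (n (p 51) (p 25)) (n (p 53) (n f (p 35))))) (n (n (p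 5) (n (p 27) (n f (p 14)))) (p 52)))) (n (p 48) (p 51))))) (p 6)) (n (n (n (p 33) (n (n (p 45) (n (n (n (n (n f (p 8)) (p 40)) (p 49)) (n (p 40) (n (p 52) (p 38)))) (n (p 48) (n (p 40) (n (n (p 50) f) (p 38)))))) (n (n (n (p 46) (n (n (p 9) (n (p 38) f)) (p 6))) (n (p 48) (p 52))) (p 51)))) (n (p 7) (p 39))) (n (n (n (n (p 51) (n (n (p 46) (n (n (p 53) (n (p 38) f)) (n (p 52) (p 38)))) (n (p 48) (p 52)))) (n (n (n (p 46) (n (n (p 53) (n (p 14) f)) (p 5))) (n (p 48) (p 52))) (p 45))) (p 36)) (n (p 7) (n (n (n (n (n (p 49) (p 49)) (p 25)) (n (n (n (p 27) (p 40)) (p 52)) (n (p 17) (p 5)))) (p 22)) (n (p 28) (n (n (n (p 20) (p 14)) (p 25)) (n (n (p 20) (n (p 9) (n (p 32) f))) (n (n (p 53) (p 53)) (p 49)))))))))) (p 30))))) (n (n (n (n (n (n (p 42) (p 6)) (n (n (n (p 39) (p 7)) (n (n (n (n (n (n (p 34) (p 48)) (n (p 52) (p 6))) (n (p 33) (n (n (n f (p 23)) (p 9)) (p 49))))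 (n (n (n (n (p 34) (n (p 37) f)) (p 49)) (n (p 40) (p 51))) (n (p 33) (n (p 40) (p 51))))) (n (p 42) (n (n (n (n (p 34) (n f (p 32))) (p 49)) (n (p 40) (n (p 53) (n f (p 35))))) (n (p 33) (n (p 40) (n (p 51) (p 52))))))) (p 33))) (p 36))) (n (n (n (n (n (n (p 51) (p 28)) (n (n (n (p 52) (p 19)) (n (n (n (p 16) (n f (p 8))) (p 52)) (p 46))) (p 45))) (p 7)) (n (p 24) (n (n (p 45) (n (n (n (p 5) (n (n (p 29) f) (p 9))) (p 10)) (n (p 31) (n (n (n f (p 8)) (p 27)) (p 51))))) (n (p 0) (p 51))))) (p 30)) (n (p 12) (n (n (n (n (n (n (p 46) (n (n (n f (p 32)) (p 9)) (p 5))) (n (p 0) (p 52))) (p 10)) (n (p 3) (n (n (p 46) (n (p 52) (n (n (p 8) f) (p 27)))) (n (p 0) (p 52))))) (p 7)) (n (p 24) (n (n (p 51) (p 22)) (n (n (n (p 52) (n (n (n (p 17) f) (p 9)) (p 5))) (n (n (p 51) (n (p 16) (n (p 8) f))) (p 46))) (p 45)))))))) (n (p 3) (n (n (p 36) (n (n (n (n (n (n (p 46) (n (p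 49) (n (p 53) (n f (p 35))))) (n (p 36) (p 52))) (n (n (p 46) (n (p 52) (p 34))) (n (p 14) (p 52)))) (n (p 2) (n (n (p 46) (n (p 52) (p 34))) (n (p 36) (p 52))))) (p 48)) (n (p 4) (n (n (p 51) (p 42)) (n (n (n (n (p 51) (p 40)) (p 10)) (n (n (p 51) (p 40)) (n (p 49) (n (n f (p 41)) (p 53))))) (p 45)))))) (n (p 12) (p 42))))) (n (n (n (n (n (n (n (n (p 51) (n (n (p 52) (p 31)) (n (n (p 5) (n (n f (p 17)) (p 9))) (p 46)))) (n (n (n (p 52) (p 31)) (n (n (p 51) (n (p 44) (n (p 8) f))) (p 46))) (p 45))) (p 21)) (n (p 19) (n (n (n (n (p 46) (n (n (n f (p 32)) (p 53)) (p 20))) (n (p 11) (p 52))) (p 2)) (n (p 22) (n (n (p 46) (n (p 49) (n (n (p 8) f) (p 9)))) (n (p 11) (p 52))))))) (p 6)) (n (p 27) (n (n (n (n (p 45) (n (n (n (p 20) (n (n (p 29) f) (p 13))) (p 2)) (n (p 15) (n (n (n f (p 8)) (p 9)) (p 49))))) (n (p 11) (p 51))) (p 21)) (n (p 19) (n (n (p 51) (p 12)) (n (n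 (n (p 52) (p 25)) (n (n (n (p 22) (n f (p 8))) (p 52)) (p 46))) (p 45))))))) (n (n (n (n (n (n (p 51) (p 28)) (n (n (n (n (p 49) (n (p 27) (n (p 8) f))) (p 31)) (n (p 2) (n (n (p 16) (n f (p 29))) (p 20)))) (p 45))) (p 21)) (n (p 19) (n (n (p 45) (n (n (p 46) (n (p 52) (n (n (p 8) f) (p 9)))) (n (p 25) (p 52)))) (n (p 28) (p 51))))) (p 30)) (n (p 12) (n (n (n (n (p 45) (n (n (p 46) (n (n (n f (p 8)) (p 9)) (p 51))) (n (p 15) (p 52)))) (n (p 3) (p 51))) (p 21)) (n (p 19) (n (n (n (n (p 52) (p 25)) (n (n (n (p 27) (n f (p 8))) (p 49)) (p 46))) (p 22)) (n (p 2) (n (n (p 52) (p 25)) (n (n (p 20) (n (p 16) (n (p 32) f))) (p 46)))))))))) (n (p 3) (n (n (p 36) (n (n (p 39) (n (n (n (n (n (p 17) (p 40)) (p 31)) (n (p 45) (n (p 49) (p 49)))) (n (n (p 52) (p 31)) (n (n (p 12) (n (p 53) (p 53))) (p 46)))) (n (n (n (n (n (p 38) (n f (p 23))) (p 40)) (p 31)) (n (n (n (p 38) (p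 52)) (p 40)) (n (p 49) (n (p 14) (p 34))))) (n (n (n (p 49) (n (p 53) (p 53))) (p 31)) (n (p 51) (n (p 10) (p 34))))))) (n (n (n (n (n (p 46) (n (p 49) (n (n (p 8) f) (p 34)))) (n (p 45) (p 52))) (n (n (p 46) (n (n (p 51) (p 44)) (p 34))) (n (n (p 12) (n (p 53) (n f (p 44)))) (p 52)))) (n (p 2) (n (n (p 46) (n (n (n f (p 50)) (p 53)) (p 34))) (n (p 51) (p 52))))) (p 33)))) (n (p 12) (p 42)))))) (n (p 21) (n (n (p 30) (p 48)) (n (n (n (n (n (n (n (n (n (n (n (p 53) (p 53)) (p 49)) (p 31)) (n (p 25) (n (p 14) (p 20)))) (n (n (n (p 5) (n (n (p 29) f) (p 9))) (p 31)) (n (p 25) (n (n (p 34) (p 30)) (p 51))))) (n (p 22) (n (n (n (p 5) (p 17)) (p 31)) (n (p 25) (n (p 49) (p 49)))))) (p 42)) (n (p 7) (n (n (p 51) (p 48)) (n (n (n (p 46) (n (n (n (p 17) f) (p 53)) (p 20))) (n (n (n (n (p 35) f) (p 53)) (n (p 44) (p 51))) (p 52))) (p 45))))) (p 6)) (n (n (n (p 33) (n (n (n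 (n (p 52) (p 51)) (n (n (p 34) (n (p 44) (n (p 50) f))) (p 46))) (p 48)) (n (n (n (p 46) (n (n (n (p 44) f) (p 9)) (p 6))) (n (n (p 34) (n (p 44) (p 51))) (p 52))) (n (n (p 52) (p 45)) (n (n (n (p 34) (n f (p 8))) (p 49)) (p 46)))))) (n (p 7) (p 39))) (n (n (n (n (p 51) (n (n (p 52) (p 48)) (n (n (p 20) (n (n f (p 17)) (p 30))) (p 46)))) (n (n (n (p 52) (p 48)) (n (n (n (p 22) (p 52)) (n (n f (p 38)) (p 53))) (p 46))) (p 45))) (p 36)) (n (p 7) (n (n (n (n (n (p 49) (n (p 53) (p 53))) (p 25)) (n (p 31) (n (p 17) (p 5)))) (n (n (n (p 20) (p 34)) (p 25)) (n (p 31) (n (n (n f (p 8)) (p 9)) (p 49))))) (n (p 28) (n (n (n (p 20) (p 14)) (p 25)) (n (p 31) (n (p 49) (p 49)))))))))) (p 24))))))))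

theorem check_cert : check cert 0 0 = true := by decide +kernel

end Pool.Agent.V11128.Circ
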