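import Mathlib
import Pool.Agent.V11128.CircCert

set_option autoImplicit false

/-!
# Soundness of the certificate checker of `CircCert`, and the cut check
-/

namespace Pool.Agent.V11128.Circ

theorem ble' {a b : ℕ} : Nat.ble a b = true ↔ a ≤ b := by rw [Nat.ble_eq]
theorem blt' {a b : ℕ} : Nat.blt a b = true ↔ a < b := by rw [Nat.blt_eq]
theorem beq' {a b : ℕ} : Nat.beq a b = true ↔ a = b :=
  ⟨Nat.eq_of_beq_eq_true, fun h => by subst h; exact Nat.beq_refl a⟩

theorem bit_eq (m v : ℕ) : bit m v = m.testBit v := by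
  have h : m.testBit v = decide (m / 2 ^ v % 2 = 1) := Nat.testBit_eq_decide_div_mod_eq
  rw [h]
  have h2 : Nat.shiftRight m v = m / 2 ^ v := Nat.shiftRight_eq_div_pow m v
  unfold bit
  rw [h2]
  have h3 : Nat.mod (m / 2 ^ v) 2 = m / 2 ^ v % 2 := rfl
  rw [h3]
  by_cases hc : m / 2 ^ v % 2 = 1
  · rw [hc]; simp
  · rw [decide_eq_false hc]
    cases hb : Nat.beq (m / 2 ^ v % 2) 1
    · rfl
    · exact absurd (Nat.eq_of_beq_eq_true hb) hc

/-- `m` codes the values of `s` below `k` -/
def Agree (s : ℕ → Bool) (k m : ℕ) : Prop := m < 2 ^ k ∧ ∀ v < k, s v = bit m v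

theorem agree_zero (s : ℕ → Bool) : Agree s 0 0 := ⟨by norm_num, fun v hv => absurd hv (by omega)⟩

theorem agree_false {s : ℕ → Bool} {k m : ℕ} (h : Agree s k m) (hk : s k = false) :
    Agree s (k + 1) m := by
  refine ⟨lt_of_lt_of_le h.1 (Nat.pow_le_pow_right (by norm_num) (by omega)), fun v hv => ?_⟩
  rcases Nat.lt_succ_iff_lt_or_eq.1 hv with hv | rfl
  · exact h.2 v hv
  · rw [hk, bit_eq, Nat.testBit_lt_two_pow h.1]

theorem agree_true {s : ℕ → Bool} {k m : ℕ} (h : Agree s k m) (hk : s k = true) :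
    Agree s (k + 1) (2 ^ k + m) := by
  refine ⟨by have := h.1; rw [pow_succ]; omega, fun v hv => ?_⟩
  rcases Nat.lt_succ_iff_lt_or_eq.1 hv with hv | rfl
  · rw [h.2 v hv, bit_eq, bit_eq, Nat.testBit_two_pow_add_gt hv]
  · rw [hk, bit_eq, Nat.testBit_two_pow_add_eq, Nat.testBit_lt_two_pow h.1]
    rfl

theorem step_eq {s : ℕ → Bool} {k m x : ℕ} (h : Agree s k m) (hx : hv x < k) :
    step m x = phi s x := by
  unfold step phi
  rw [h.2 _ hx]

theorem walk_sound {s : ℕ → Bool} {k m : ℕ} (h : Agree s k m) :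
    ∀ f x t, walk k m f x t = true → ∃ i, (phi s)^[i] x = t := by
  intro f
  induction f with
  | zero => intro x t hw; simp [walk] at hw
  | succ f ih =>
    intro x t hw
    unfold walk at hw
    cases hb : Nat.beq x t
    · rw [hb, cond_false] at hw
      cases hc : Nat.ble k (hv x)
      · rw [hc, cond_false] at hw
        have hx : hv x < k := by
          by_contra hx
          have : Nat.ble k (hv x) = true := ble'.2 (by omega)
          rw [hc] at this
          exact absurd this (by decide)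
        obtain ⟨i, hi⟩ := ih _ _ hw
        refine ⟨i + 1, ?_⟩
        rw [Function.iterate_succ_apply, ← step_eq h hx]
        exact hi
      · rw [hc, cond_true] at hw
        exact absurd hw (by decide)
    · exact ⟨0, Nat.eq_of_beq_eq_true hb⟩

theorem tab_lt : ∀ x < 54, hv x < 18 ∧ n1 x < 54 ∧ n0 x < 54 ∧ rv x < 54 := by decide +kernel

theorem phi_lt (s : ℕ → Bool) {x : ℕ} (hx : x < 54) : phi s x < 54 := by
  unfold phi
  have := tab_lt x hx
  cases s (hv x)
  · exact this.2.2.1
  · exact this.2.1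

theorem hs_sound {s : ℕ → Bool} {m x : ℕ} (h : Agree s 18 m) :
    ∀ f y, y < 54 → hs m x f y = true → ∃ i, (phi s)^[i] y < x := by
  intro f
  induction f with
  | zero => intro y _ hw; simp [hs] at hw
  | succ f ih =>
    intro y hy hw
    unfold hs at hw
    cases hb : Nat.blt y x
    · rw [hb, cond_false] at hw
      rw [step_eq h (tab_lt y hy).1] at hw
      obtain ⟨i, hi⟩ := ih _ (phi_lt s hy) hw
      exact ⟨i + 1, by rwa [Function.iterate_succ_apply]⟩
    · exact ⟨0, by simpa using blt'.1 hb⟩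

theorem cnt_eq (m : ℕ) : ∀ n, cnt m n = ((Finset.range n).filter (fun x => hs m x 54 x = false)).card
  | 0 => by simp [cnt]
  | n + 1 => by
    unfold cnt
    rw [Finset.range_add_one, Finset.filter_insert, cnt_eq m n]
    cases hb : hs m n 54 n
    · simp
    · simp

/-- the main conclusion about a choice of rotations -/
def Concl (s : ℕ → Bool) : Prop :=
  (∃ d < 54, ∃ i, (phi s)^[i] d = rv d) ∨
    (∃ A : Finset ℕ, A.card ≤ 7 ∧ ∀ x < 54, x ∉ A → ∃ i, (phi s)^[i] x < x)

theorem check_sound (s : ℕ → Bool) : ∀ (t : T) (k m : ℕ), Agree s k m → check t k m = true →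
    Concl s := by
  intro t
  induction t with
  | p d =>
    intro k m h hc
    unfold check at hc
    rw [Bool.and_eq_true, Bool.and_eq_true] at hc
    obtain ⟨h1, h2, h3⟩ := hc
    obtain ⟨i, hi⟩ := walk_sound h _ _ _ h3
    rw [step_eq h (blt'.1 h2)] at hi
    exact Or.inl ⟨d, blt'.1 h1, i + 1, by rwa [Function.iterate_succ_apply]⟩
  | n l r ihl ihr =>
    intro k m h hc
    unfold check at hc
    rw [Bool.and_eq_true] at hc
    cases hk : s k
    · exact ihl _ _ (agree_false h hk) hc.1
    · exact ihr _ _ (agree_true h hk) hc.2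
  | f =>
    intro k m h hc
    unfold check at hc
    rw [Bool.and_eq_true] at hc
    obtain ⟨h1, h2⟩ := hc
    have hk : k = 18 := Nat.eq_of_beq_eq_true h1
    subst hk
    rw [cnt_eq] at h2
    refine Or.inr ⟨_, ble'.1 h2, fun x hx hA => ?_⟩
    have : hs m x 54 x = true := by
      by_contra hh
      exact hA (Finset.mem_filter.2 ⟨Finset.mem_range.2 hx, by simpa using hh⟩)
    exact hs_sound h _ _ hx this

theorem concl (s : ℕ → Bool) : Concl s := check_sound s cert 0 0 (agree_zero s) check_cert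

/-! ### The cut check -/

/-- contribution of the `j`-th edge at `k` to the cut (counted at the larger end) -/
def fe (s : ℕ → Bool) (k j : ℕ) : ℕ :=
  bif (Nat.blt (hv (3 * k + j)) k && xor (s (hv (3 * k + j))) (s k)) then 1 else 0

/-- number of cut edges from `k` to smaller vertices -/
def inc (s : ℕ → Bool) (k : ℕ) : ℕ := fe s k 0 + fe s k 1 + fe s k 2

/-- as `fe`, `k` outside -/
def fe0 (m k j : ℕ) : ℕ := bif (Nat.blt (hv (3 * k + j)) k && bit m (hv (3 * k + j))) then 1 else 0
/-- as `fe`, `k` inside -/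
def fe1 (m k j : ℕ) : ℕ := bif (Nat.blt (hv (3 * k + j)) k && !bit m (hv (3 * k + j))) then 1 else 0

/-- the search over all vertex subsets -/
def cc : ℕ → ℕ → ℕ → ℕ → ℕ → Bool
  | 0, _, _, a, c => (Nat.ble 3 c || (Nat.beq a 0 || Nat.beq a 18)) &&
      (Nat.ble 5 c || (Nat.ble a 2 || Nat.ble 16 a))
  | f + 1, k, m, a, c => bif Nat.ble 5 c then true else
      cc f (k + 1) m a (c + (fe0 m k 0 + fe0 m k 1 + fe0 m k 2)) &&
      cc f (k + 1) (2 ^ k + m) (a + 1) (c + (fe1 m k 0 + fe1 m k 1 + fe1 m k 2))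

theorem cc_check : cc 18 0 0 0 0 = true := by decide +kernel

theorem fe_false {s : ℕ → Bool} {k m : ℕ} (h : Agree s k m) (hk : s k = false) (j : ℕ) :
    fe s k j = fe0 m k j := by
  unfold fe fe0
  rw [hk]
  cases hb : Nat.blt (hv (3 * k + j)) k
  · simp
  · rw [h.2 _ (blt'.1 hb)]; simp

theorem fe_true {s : ℕ → Bool} {k m : ℕ} (h : Agree s k m) (hk : s k = true) (j : ℕ) :
    fe s k j = fe1 m k j := by
  unfold fe fe1
  rw [hk]
  cases hb : Nat.blt (hv (3 * k + j)) k
  · simp
  · rw [h.2 _ (blt'.1 hb)]; simp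

theorem cc_sound (s : ℕ → Bool) : ∀ f k m a c, f + k = 18 → Agree s k m →
    a = ((Finset.range k).filter (fun v => s v = true)).card →
    c = ∑ i ∈ Finset.range k, inc s i → cc f k m a c = true →
    (3 ≤ ∑ i ∈ Finset.range 18, inc s i ∨
      ((Finset.range 18).filter (fun v => s v = true)).card = 0 ∨
      ((Finset.range 18).filter (fun v => s v = true)).card = 18) ∧
    (5 ≤ ∑ i ∈ Finset.range 18, inc s i ∨
      ((Finset.range 18).filter (fun v => s v = true)).card ≤ 2 ∨
      16 ≤ ((Finset.range 18).filter (fun v => s v = true)).card) := by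
  intro f
  induction f with
  | zero =>
    intro k m a c hf h ha hc hcc
    have hk : k = 18 := by omega
    subst hk
    unfold cc at hcc
    rw [← ha, ← hc]
    simp only [Bool.and_eq_true, Bool.or_eq_true, ble', beq'] at hcc
    exact hcc
  | succ f ih =>
    intro k m a c hf h ha hc hcc
    unfold cc at hcc
    cases hb : Nat.ble 5 c
    · rw [hb, cond_false, Bool.and_eq_true] at hcc
      cases hk : s k
      · refine ih (k + 1) m a _ (by omega) (agree_false h hk) ?_ ?_ hcc.1
        · rw [Finset.range_add_one, Finset.filter_insert, hk]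
          simpa using ha
        · rw [Finset.sum_range_succ, ← hc, inc, fe_false h hk, fe_false h hk, fe_false h hk]
      · refine ih (k + 1) (2 ^ k + m) (a + 1) _ (by omega) (agree_true h hk) ?_ ?_ hcc.2
        · rw [Finset.range_add_one, Finset.filter_insert, hk]
          simp [ha]
        · rw [Finset.sum_range_succ, ← hc, inc, fe_true h hk, fe_true h hk, fe_true h hk]
    · have h5 : 5 ≤ c := ble'.1 hb
      have : c ≤ ∑ i ∈ Finset.range 18, inc s i := by
        rw [hc]
        exact Finset.sum_le_sum_of_subset (Finset.range_mono (by omega))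
      exact ⟨Or.inl (by omega), Or.inl (by omega)⟩

theorem cut_sound (s : ℕ → Bool) :
    (3 ≤ ∑ i ∈ Finset.range 18, inc s i ∨
      ((Finset.range 18).filter (fun v => s v = true)).card = 0 ∨
      ((Finset.range 18).filter (fun v => s v = true)).card = 18) ∧
    (5 ≤ ∑ i ∈ Finset.range 18, inc s i ∨
      ((Finset.range 18).filter (fun v => s v = true)).card ≤ 2 ∨
      16 ≤ ((Finset.range 18).filter (fun v => s v = true)).card) :=
  cc_sound s 18 0 0 0 0 rfl (agree_zero s) (by simp) (by simp) cc_check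

/-- relation between the tables -/
theorem tabs : ∀ x < 54, n1 x = 3 * (rv x / 3) + (rv x % 3 + 1) % 3 ∧
    n0 x = 3 * (rv x / 3) + (rv x % 3 + 2) % 3 ∧ hv x = rv x / 3 := by decide +kernel

end Pool.Agent.V11128.Circ
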